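import Mathlib

/-!
# MP_3d3e81: base definitions of the slope project

All graphs are `SimpleGraph V`.  Everything is classical (`open Classical`), please keep
`open Classical Finset` and `noncomputable section` at the top of every file.
-/

namespace SL

open Classical Finset

noncomputable section

/-- Slope of the line through two distinct points of the plane (`none` = vertical). -/
def slp (p q : ℝ × ℝ) : Option ℝ :=
  if p.1 = q.1 then none else some ((q.2 - p.2) / (q.1 - p.1))

/-- `G` has a straight-line drawing with the slope set `S`. -/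
def Draws {V : Type} (S : Set (Option ℝ)) (G : SimpleGraph V) : Prop :=
  ∃ f : V → ℝ × ℝ, Function.Injective f ∧
    ∀ u v, G.Adj u v → slp (f u) (f v) ∈ S ∧
      ∀ w, w ≠ u → w ≠ v → f w ∉ openSegment ℝ (f u) (f v)

/-- every vertex has degree three -/
def Cubic {V : Type} (G : SimpleGraph V) : Prop := ∀ v, (G.neighborSet v).ncard = 3

/-- `S` is good: every (finite) cubic graph has a straight-line drawing with `S`. -/
def Good (S : Set (Option ℝ)) : Prop :=
  ∀ (m : ℕ) (G : SimpleGraph (Fin m)), Cubic G → Draws S G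

/-! ## combinatorial definitions -/

variable {V : Type}

/-- number of neighbours of `v` in `A` -/
def dg (G : SimpleGraph V) (A : Finset V) (v : V) : ℕ := (A.filter (fun b => G.Adj v b)).card

/-- number of pairs `(a,b)`, `a ∈ A`, `b ∈ B`, adjacent.  `cut G A A` is twice the number of
edges inside `A`. -/
def cut (G : SimpleGraph V) (A B : Finset V) : ℕ := ∑ a ∈ A, dg G B a

/-- number of edges leaving `A` -/
def bd [Fintype V] (G : SimpleGraph V) (A : Finset V) : ℕ := cut G A Aᶜ

/-- cubic (version with `dg`) -/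
def Cub [Fintype V] (G : SimpleGraph V) : Prop := ∀ v, dg G univ v = 3

/-- connected and bridgeless -/
def TwoEC [Fintype V] (G : SimpleGraph V) : Prop :=
  ∀ A : Finset V, A.Nonempty → A ≠ univ → 2 ≤ bd G A

/-- inclusion-minimal set with exactly two leaving edges -/
def MinSide [Fintype V] (G : SimpleGraph V) (Q : Finset V) : Prop :=
  Q.Nonempty ∧ Q ≠ univ ∧ bd G Q = 2 ∧ ∀ P, P ⊂ Q → P.Nonempty → bd G P ≠ 2

/-- vertices of `Q` all of whose neighbours are in `Q` -/
def inner (G : SimpleGraph V) (Q : Finset V) : Finset V :=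
  Q.filter (fun v => ∀ b, G.Adj v b → b ∈ Q)

/-- a diamond: `K_4` minus the edge `ad` -/
def Dia (G : SimpleGraph V) (a k l d : V) : Prop :=
  a ≠ d ∧ k ≠ l ∧ G.Adj a k ∧ G.Adj a l ∧ G.Adj d k ∧ G.Adj d l ∧ G.Adj k l ∧ ¬ G.Adj a d

/-- `A` induces a connected graph -/
def Conn (G : SimpleGraph V) (A : Finset V) : Prop :=
  ∀ B, B ⊆ A → B.Nonempty → B ≠ A → ∃ b ∈ B, ∃ a ∈ A, a ∉ B ∧ G.Adj b a

/-- closed neighbourhood -/
def nb [Fintype V] (G : SimpleGraph V) (A : Finset V) : Finset V :=
  univ.filter (fun v => v ∈ A ∨ ∃ a ∈ A, G.Adj a v)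

/-! ## planar and flow definitions -/

/-- cross product -/
def cr (p q : ℝ × ℝ) : ℝ := p.1 * q.2 - p.2 * q.1

/-- direction vector of a slope -/
def dir : Option ℝ → ℝ × ℝ
  | none => (0, 1)
  | some m => (1, m)

def NonPar (s : Fin 5 → ℝ × ℝ) : Prop := ∀ i j, i ≠ j → cr (s i) (s j) ≠ 0

/-- proper edge colouring with five colours -/
def Proper (G : SimpleGraph V) (c : Sym2 V → Fin 5) : Prop :=
  ∀ u v w, G.Adj u v → G.Adj u w → v ≠ w → c s(u, v) ≠ c s(u, w)

/-- the (vector) flow `ψ v b • s (c s(v,b))` is conserved at `v` -/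
def Cons [Fintype V] (G : SimpleGraph V) (c : Sym2 V → Fin 5) (s : Fin 5 → ℝ × ℝ)
    (ψ : V → V → ℝ) (v : V) : Prop :=
  ∑ b ∈ univ.filter (fun b => G.Adj v b), ψ v b • s (c s(v, b)) = 0

def Anti (ψ : V → V → ℝ) : Prop := ∀ a b, ψ a b = - ψ b a

/-- `x` is a generalised drawing: every edge is parallel to (or degenerate in) its direction -/
def InX (G : SimpleGraph V) (c : Sym2 V → Fin 5) (s : Fin 5 → ℝ × ℝ) (x : V → ℝ × ℝ) : Prop :=
  ∀ a b, G.Adj a b → cr (x a - x b) (s (c s(a, b))) = 0

/-- `Y` is blocking: a flow conserved at all vertices of `Y` vanishes on all edges at `Y` -/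
def Blk [Fintype V] (G : SimpleGraph V) (c : Sym2 V → Fin 5) (s : Fin 5 → ℝ × ℝ)
    (Y : Finset V) : Prop :=
  ∀ ψ : V → V → ℝ, Anti ψ → (∀ y ∈ Y, Cons G c s ψ y) → ∀ y ∈ Y, ∀ b, G.Adj y b → ψ y b = 0

/-- half of the diamond condition, at the terminal `a` with middle vertices `k`, `l` -/
def DiaHalf [Fintype V] (G : SimpleGraph V) (c : Sym2 V → Fin 5) (s : Fin 5 → ℝ × ℝ)
    (a k l : V) : Prop :=
  ∀ ψ : V → V → ℝ, Anti ψ → Cons G c s ψ k → Cons G c s ψ l →
    ∀ v, G.Adj a v → cr (ψ a k • s (c s(a, k)) + ψ a l • s (c s(a, l))) (s (c s(a, v))) = 0 →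
      (∀ b, G.Adj k b → ψ k b = 0) ∧ (∀ b, G.Adj l b → ψ l b = 0)

/-- a gadget: `insert x A` will be blocking after recolouring the edge `xy` -/
structure Gadget (G : SimpleGraph V) where
  A : Finset V
  x : V
  y : V
  x' : V
  y' : V
  conn : Conn G A
  hx : x ∉ A
  dgx : dg G A x = 2
  adj : G.Adj x y
  hy : y ∉ A
  hx' : x' ∈ A
  adj' : G.Adj x x'
  adjy : G.Adj y y'
  hy' : y' ≠ x
  hne : y' ≠ x'

def Gadget.core {G : SimpleGraph V} (g : Gadget G) : Finset V := insert g.x g.A

def Gadget.supp {G : SimpleGraph V} (g : Gadget G) : Finset V :=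
  insert g.x (insert g.y (insert g.y' g.A))

/-! ## drawings of the graph induced on a finite set `A` -/

/-- `f` is a straight-line drawing with `S` of the graph induced by `G` on `A`. -/
def DrOn (S : Set (Option ℝ)) (A : Finset V) (G : SimpleGraph V) (f : V → ℝ × ℝ) : Prop :=
  Set.InjOn f A ∧ ∀ u ∈ A, ∀ v ∈ A, G.Adj u v → slp (f u) (f v) ∈ S ∧
    ∀ w ∈ A, w ≠ u → w ≠ v → f w ∉ openSegment ℝ (f u) (f v)

/-- one of the two rays with slope `σ` at `w` contains no other vertex of `A` -/
def FreeRay (A : Finset V) (f : V → ℝ × ℝ) (w : V) (σ : Option ℝ) : Prop :=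
  ∃ r : ℝ × ℝ, (r = dir σ ∨ r = - dir σ) ∧
    ∀ v ∈ A, v ≠ w → ∀ t : ℝ, 0 ≤ t → f v ≠ f w + t • r

/-- all slopes of `T` not used at `w` have a free ray at `w` -/
def RayProp (T : Finset (Option ℝ)) (A : Finset V) (G : SimpleGraph V) (f : V → ℝ × ℝ)
    (w : V) : Prop :=
  ∀ σ ∈ T, (∀ y ∈ A, G.Adj w y → slp (f w) (f y) ≠ σ) → FreeRay A f w σ

/-! ## basic lemmas on `dg`, `cut`, `bd` -/

section cutlemmas

variable (G : SimpleGraph V)

theorem cut_eq_card (A B : Finset V) :
    cut G A B = ((A ×ˢ B).filter (fun p => G.Adj p.1 p.2)).card := by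
  unfold cut dg
  rw [Finset.card_filter, Finset.sum_product]
  apply Finset.sum_congr rfl
  intro a _
  rw [Finset.card_filter]

theorem cut_comm (A B : Finset V) : cut G A B = cut G B A := by
  rw [cut_eq_card, cut_eq_card]
  apply Finset.card_bij (fun p _ => (p.2, p.1))
  · intro p hp
    simp only [mem_filter, mem_product] at hp ⊢
    exact ⟨⟨hp.1.2, hp.1.1⟩, hp.2.symm⟩
  · intro p _ q _ h
    simp only [Prod.mk.injEq] at h
    exact Prod.ext h.2 h.1
  · intro p hp
    simp only [mem_filter, mem_product] at hp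
    exact ⟨(p.2, p.1), by simpa using ⟨⟨hp.1.2, hp.1.1⟩, hp.2.symm⟩, rfl⟩

theorem dg_union {A B : Finset V} (h : Disjoint A B) (v : V) :
    dg G (A ∪ B) v = dg G A v + dg G B v := by
  unfold dg
  rw [Finset.filter_union, Finset.card_union_of_disjoint (Finset.disjoint_filter_filter h)]

theorem dg_mono {A B : Finset V} (h : A ⊆ B) (v : V) : dg G A v ≤ dg G B v :=
  Finset.card_le_card (Finset.filter_subset_filter _ h)

theorem dg_empty (v : V) : dg G ∅ v = 0 := by simp [dg]

theorem dg_singleton (u v : V) : dg G {u} v = if G.Adj v u then 1 else 0 := by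
  unfold dg
  rw [Finset.filter_singleton]
  split_ifs <;> simp

theorem dg_insert {A : Finset V} {u : V} (hu : u ∉ A) (v : V) :
    dg G (insert u A) v = dg G A v + if G.Adj v u then 1 else 0 := by
  rw [Finset.insert_eq, dg_union G (by simpa using hu), dg_singleton, add_comm]

theorem cut_union_left {A B : Finset V} (h : Disjoint A B) (C : Finset V) :
    cut G (A ∪ B) C = cut G A C + cut G B C := by
  unfold cut; rw [Finset.sum_union h]

theorem cut_union_right {A B : Finset V} (h : Disjoint A B) (C : Finset V) :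
    cut G C (A ∪ B) = cut G C A + cut G C B := by
  rw [cut_comm, cut_union_left G h, cut_comm G A, cut_comm G B]

theorem cut_mono {A B C D : Finset V} (h : A ⊆ B) (h' : C ⊆ D) : cut G A C ≤ cut G B D := by
  unfold cut
  exact (Finset.sum_le_sum (fun a _ => dg_mono G h' a)).trans
    (Finset.sum_le_sum_of_subset h)

theorem cut_singleton_left (v : V) (B : Finset V) : cut G {v} B = dg G B v := by
  simp [cut]

theorem cut_singleton_right (v : V) (B : Finset V) : cut G B {v} = dg G B v := by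
  rw [cut_comm, cut_singleton_left]

/-- adding a vertex -/
theorem cut_insert_self {A : Finset V} {v : V} (hv : v ∉ A) :
    cut G (insert v A) (insert v A) = cut G A A + 2 * dg G A v := by
  have hd : Disjoint ({v} : Finset V) A := by simpa using hv
  have h0 : dg G ({v} : Finset V) v = 0 := by rw [dg_singleton]; simp
  rw [Finset.insert_eq, cut_union_left G hd, cut_union_right G hd, cut_union_right G hd,
    cut_singleton_left, cut_singleton_left, cut_singleton_right, h0]
  omega

theorem cut_self_even (A : Finset V) : Even (cut G A A) := by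
  induction A using Finset.induction_on with
  | empty => simp [cut]
  | insert v A hv ih =>
    rw [cut_insert_self G hv]
    exact ih.add (even_two_mul _)

variable [Fintype V]

theorem cut_add_bd (hG : Cub G) (A : Finset V) : cut G A A + bd G A = 3 * A.card := by
  unfold bd
  rw [← cut_union_right G (disjoint_compl_right), Finset.union_compl]
  unfold cut
  rw [Finset.sum_congr rfl (fun a _ => hG a)]
  simp [mul_comm]

theorem bd_compl (A : Finset V) : bd G Aᶜ = bd G A := by
  unfold bd; rw [compl_compl, cut_comm]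

theorem bd_univ : bd G univ = 0 := by simp [bd, cut, dg]

theorem dg_add_dg_compl (hG : Cub G) (A : Finset V) (v : V) : dg G A v + dg G Aᶜ v = 3 := by
  rw [← dg_union G disjoint_compl_right, Finset.union_compl]; exact hG v

theorem dg_le_three (hG : Cub G) (A : Finset V) (v : V) : dg G A v ≤ 3 := by
  have := dg_add_dg_compl G hG A v; omega

theorem bd_insert (hG : Cub G) {A : Finset V} {v : V} (hv : v ∉ A) :
    bd G (insert v A) + 2 * dg G A v = bd G A + 3 := by
  have h1 := cut_add_bd G hG A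
  have h2 := cut_add_bd G hG (insert v A)
  rw [cut_insert_self G hv, Finset.card_insert_of_notMem hv] at h2
  omega

/-- parity -/
theorem bd_parity (hG : Cub G) (A : Finset V) : Even (bd G A + A.card) := by
  have h := cut_add_bd G hG A
  obtain ⟨k, hk⟩ := cut_self_even G A
  refine ⟨(bd G A + A.card) / 2, ?_⟩
  omega

/-- edges between disjoint sets and boundaries -/
theorem bd_union {A B : Finset V} (h : Disjoint A B) :
    bd G (A ∪ B) + 2 * cut G A B = bd G A + bd G B := by
  have key : ∀ X Y : Finset V, Disjoint X Y → bd G X = cut G X (X ∪ Y)ᶜ + cut G X Y := by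
    intro X Y hXY
    unfold bd
    have : Xᶜ = (X ∪ Y)ᶜ ∪ Y := by
      ext v
      simp only [mem_compl, mem_union, not_or]
      constructor
      · intro hv
        by_cases hy : v ∈ Y
        · exact Or.inr hy
        · exact Or.inl ⟨hv, hy⟩
      · rintro (hv | hv)
        · exact hv.1
        · exact fun hx => Finset.disjoint_left.1 hXY hx hv
    rw [this, cut_union_right G]
    rw [Finset.disjoint_left]
    intro v hv hy
    simp only [mem_compl, mem_union, not_or] at hv
    exact hv.2 hy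
  have h1 := key A B h
  have h2 := key B A h.symm
  rw [Finset.union_comm B A] at h2
  have h3 : bd G (A ∪ B) = cut G A (A ∪ B)ᶜ + cut G B (A ∪ B)ᶜ := by
    unfold bd; rw [cut_union_left G h]
  have h4 := cut_comm G A B
  omega

theorem mem_nb {A : Finset V} {v : V} : v ∈ nb G A ↔ v ∈ A ∨ ∃ a ∈ A, G.Adj a v := by
  simp [nb]

theorem subset_nb (A : Finset V) : A ⊆ nb G A := fun v hv => (mem_nb G).2 (Or.inl hv)

end cutlemmas

/-! ## the neighbours of a vertex of a cubic graph -/

theorem exists_three [Fintype V] {G : SimpleGraph V} (hG : Cub G) (v : V) :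
    ∃ a b c, a ≠ b ∧ a ≠ c ∧ b ≠ c ∧ ∀ u, G.Adj v u ↔ u = a ∨ u = b ∨ u = c := by
  obtain ⟨a, b, c, h1, h2, h3, h⟩ := Finset.card_eq_three.1 (hG v)
  refine ⟨a, b, c, h1, h2, h3, fun u => ?_⟩
  have : u ∈ univ.filter (fun b => G.Adj v b) ↔ u ∈ ({a, b, c} : Finset V) := by rw [h]
  simpa using this

/-- if `a` is a neighbour of `v`, the other two -/
theorem exists_two [Fintype V] {G : SimpleGraph V} (hG : Cub G) {v a : V} (h : G.Adj v a) :
    ∃ b c, a ≠ b ∧ a ≠ c ∧ b ≠ c ∧ ∀ u, G.Adj v u ↔ u = a ∨ u = b ∨ u = c := by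
  obtain ⟨x, y, z, h1, h2, h3, h4⟩ := exists_three hG v
  rcases (h4 a).1 h with rfl | rfl | rfl
  · exact ⟨y, z, h1, h2, h3, h4⟩
  · exact ⟨x, z, h1.symm, h3, h2, fun u => by rw [h4 u]; tauto⟩
  · exact ⟨x, y, h2.symm, h3.symm, h1, fun u => by rw [h4 u]; tauto⟩

/-- sums over the neighbours when these are known -/
theorem sum_nbrs [Fintype V] {G : SimpleGraph V} {v a b c : V} (h1 : a ≠ b) (h2 : a ≠ c)
    (h3 : b ≠ c) (h : ∀ u, G.Adj v u ↔ u = a ∨ u = b ∨ u = c) {M : Type} [AddCommMonoid M]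
    (F : V → M) :
    ∑ u ∈ univ.filter (fun u => G.Adj v u), F u = F a + F b + F c := by
  have : univ.filter (fun u => G.Adj v u) = {a, b, c} := by
    ext u; simp [h u]
  rw [this, Finset.sum_insert (by simp [h1, h2]), Finset.sum_insert (by simp [h3]),
    Finset.sum_singleton, add_assoc]

theorem cons_iff [Fintype V] {G : SimpleGraph V} {c : Sym2 V → Fin 5} {s : Fin 5 → ℝ × ℝ}
    {ψ : V → V → ℝ} {v x y z : V} (h1 : x ≠ y) (h2 : x ≠ z)
    (h3 : y ≠ z) (h : ∀ u, G.Adj v u ↔ u = x ∨ u = y ∨ u = z) :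
    Cons G c s ψ v ↔
      ψ v x • s (c s(v, x)) + ψ v y • s (c s(v, y)) + ψ v z • s (c s(v, z)) = 0 := by
  unfold Cons
  rw [sum_nbrs h1 h2 h3 h]

/-! ## cross product -/

theorem cr_self (p : ℝ × ℝ) : cr p p = 0 := by unfold cr; ring
theorem cr_swap (p q : ℝ × ℝ) : cr q p = - cr p q := by unfold cr; ring
theorem cr_add_left (p q r : ℝ × ℝ) : cr (p + q) r = cr p r + cr q r := by
  simp only [cr, Prod.fst_add, Prod.snd_add]; ring
theorem cr_add_right (p q r : ℝ × ℝ) : cr r (p + q) = cr r p + cr r q := by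
  simp only [cr, Prod.fst_add, Prod.snd_add]; ring
theorem cr_sub_left (p q r : ℝ × ℝ) : cr (p - q) r = cr p r - cr q r := by
  simp only [cr, Prod.fst_sub, Prod.snd_sub]; ring
theorem cr_sub_right (p q r : ℝ × ℝ) : cr r (p - q) = cr r p - cr r q := by
  simp only [cr, Prod.fst_sub, Prod.snd_sub]; ring
theorem cr_smul_left (t : ℝ) (p q : ℝ × ℝ) : cr (t • p) q = t * cr p q := by
  simp only [cr, Prod.smul_fst, Prod.smul_snd, smul_eq_mul]; ring
theorem cr_smul_right (t : ℝ) (p q : ℝ × ℝ) : cr p (t • q) = t * cr p q := by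
  simp only [cr, Prod.smul_fst, Prod.smul_snd, smul_eq_mul]; ring
theorem cr_neg_left (p q : ℝ × ℝ) : cr (-p) q = - cr p q := by
  simp only [cr, Prod.fst_neg, Prod.snd_neg]; ring
theorem cr_neg_right (p q : ℝ × ℝ) : cr p (-q) = - cr p q := by
  simp only [cr, Prod.fst_neg, Prod.snd_neg]; ring
theorem cr_zero_left (p : ℝ × ℝ) : cr 0 p = 0 := by simp [cr]
theorem cr_zero_right (p : ℝ × ℝ) : cr p 0 = 0 := by simp [cr]

/-- two vectors with `cr ≠ 0` are linearly independent -/
theorem cr_indep {p q : ℝ × ℝ} (h : cr p q ≠ 0) {a b : ℝ} (hab : a • p + b • q = 0) :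
    a = 0 ∧ b = 0 := by
  have h1 : cr (a • p + b • q) q = 0 := by rw [hab, cr_zero_left]
  have h2 : cr p (a • p + b • q) = 0 := by rw [hab, cr_zero_right]
  rw [cr_add_left, cr_smul_left, cr_smul_left, cr_self] at h1
  rw [cr_add_right, cr_smul_right, cr_smul_right, cr_self] at h2
  constructor
  · rcases mul_eq_zero.1 (by linarith : a * cr p q = 0) with h | h' 
    · exact h
    · exact absurd h' h
  · rcases mul_eq_zero.1 (by linarith : b * cr p q = 0) with h | h' 
    · exact h
    · exact absurd h' h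

/-- a vector parallel to two non-parallel vectors is zero -/
theorem eq_zero_of_cr {p q v : ℝ × ℝ} (h : cr p q ≠ 0) (h1 : cr v p = 0) (h2 : cr v q = 0) :
    v = 0 := by
  obtain ⟨p1, p2⟩ := p
  obtain ⟨q1, q2⟩ := q
  obtain ⟨v1, v2⟩ := v
  simp only [cr] at h h1 h2
  have e1 : v1 * (p1 * q2 - p2 * q1) = 0 := by linear_combination q1 * (-h1) + p1 * h2
  have e2 : v2 * (p1 * q2 - p2 * q1) = 0 := by linear_combination q2 * (-h1) + p2 * h2
  have h' := mul_eq_zero.1 e1
  have h'' := mul_eq_zero.1 e2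
  have a1 : v1 = 0 := h'.resolve_right h
  have a2 : v2 = 0 := h''.resolve_right h
  simp [a1, a2]

/-- coordinates in a basis -/
theorem exists_coord {p q : ℝ × ℝ} (h : cr p q ≠ 0) (v : ℝ × ℝ) :
    ∃ a b : ℝ, v = a • p + b • q := by
  refine ⟨cr v q / cr p q, cr p v / cr p q, ?_⟩
  obtain ⟨p1, p2⟩ := p
  obtain ⟨q1, q2⟩ := q
  obtain ⟨v1, v2⟩ := v
  simp only [cr] at h ⊢
  ext
  · simp only [Prod.fst_add, Prod.smul_fst, smul_eq_mul]
    rw [div_mul_eq_mul_div, div_mul_eq_mul_div, ← add_div, eq_div_iff h]; ring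
  · simp only [Prod.snd_add, Prod.smul_snd, smul_eq_mul]
    rw [div_mul_eq_mul_div, div_mul_eq_mul_div, ← add_div, eq_div_iff h]; ring

/-- `cr v d = 0` with `d ≠ 0` means that `v` is a multiple of `d` -/
theorem exists_smul_of_cr {d v : ℝ × ℝ} (hd : d ≠ 0) (h : cr v d = 0) : ∃ t : ℝ, v = t • d := by
  obtain ⟨d1, d2⟩ := d
  obtain ⟨v1, v2⟩ := v
  simp only [cr] at h
  by_cases h1 : d1 = 0
  · subst h1
    have h2 : d2 ≠ 0 := by
      rintro rfl
      exact hd rfl
    have hv : v1 = 0 := by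
      have : v1 * d2 = 0 := by linarith
      exact (mul_eq_zero.1 this).resolve_right h2
    subst hv
    exact ⟨v2 / d2, by ext <;> simp [h2]⟩
  · refine ⟨v1 / d1, ?_⟩
    ext
    · simp [h1]
    · simp only [Prod.smul_mk, smul_eq_mul]
      field_simp
      linarith

end

end SL
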