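import Pool.Agent.H53.SL.Base

/-!
# Module DIA: recolouring a diamond (200 lines)

Let `a, k, l, d` be a diamond; `a ~ k, l, e`, `d ~ k, l, f` (`exists_two` etc.; `e, f ∉ {a,k,l,d}`;
`e = f` is possible), `k ~ a, d, l`, `l ~ a, d, k`.

`dia_recol`: let `γ = c s(a,e)`, `δ = c s(d,f)`.  Choose `α ≠ β` in `Fin 5` outside `{γ, δ}`, colour
`ak, ld` with `α`, `al, kd` with `β` and `kl` with `ζ ∉ {α, β}` (three choices); this is proper.
Compute (`cons_iff`): write `s ζ = μ • s α + ν • s β` (`exists_coord`; `μ ≠ 0`, `ν ≠ 0` as `s ζ` is not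
parallel to `s β`, `s α`).  Conservation at `k`: `ψ k a • s α + ψ k d • s β + ψ k l • s ζ = 0`, so with
`φ = ψ k l`: `ψ k a = -μ φ`, `ψ k d = -ν φ`; at `l`: `ψ l a = ν φ`, `ψ l d = μ φ` (as
`ψ l k = -φ`).  Hence `ψ a k • s α + ψ a l • s β = φ • (μ • s α - ν • s β)` and
`ψ d k • s β + ψ d l • s α = -φ • (μ • s α - ν • s β)`.  So the half conditions say: for
`v = k, l, e`, the vector `μ • s α - ν • s β` is not parallel to `s (c s(a,v))`; clear for
`α, β` (`μ, ν ≠ 0`); if it holds then `φ = 0` and everything at `k` and `l` vanishes.  For the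
outer colours `γ, δ`: write `s γ = μ' • s α + ν' • s β`; `μ s α - ν s β` parallel to `s γ` means
`μ ν' + ν μ' = 0`, i.e. `s ζ` is parallel to `μ' s α - ν' s β`; two different `ζ, ζ'` cannot both be
parallel to the same nonzero vector.  So at most one `ζ` is bad for `γ` and at most one for `δ`:
one of the three choices is good.

`dia_blk`: conserved at `k, l, d`: the vector `ψ d k • _ + ψ d l • _ = - ψ d f • s (c s(d,f))` has
zero cross product with `s (c s(d,f))`, so `DiaHalf G c s d k l` with `v = f` gives that `ψ`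
vanishes at `k` and `l`; then `ψ d k = ψ d l = 0` and `ψ d f • s _ = 0`, so `ψ d f = 0`.
-/

namespace SL

open Classical Finset

noncomputable section

variable {V : Type}

private theorem dia_nbr [Fintype V] {G : SimpleGraph V} (hG : Cub G) {v x y : V}
    (hx : G.Adj v x) (hy : G.Adj v y) (hxy : x ≠ y) :
    ∃ z, x ≠ z ∧ y ≠ z ∧ ∀ u, G.Adj v u ↔ u = x ∨ u = y ∨ u = z := by
  obtain ⟨b, c, h1, h2, h3, h⟩ := exists_two hG hx
  rcases (h y).1 hy with rfl | rfl | rfl
  · exact absurd rfl hxy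
  · exact ⟨c, h2, h3, h⟩
  · exact ⟨b, h1, h3.symm, fun u => by rw [h u]; tauto⟩

/-- the half condition for given colours -/
private theorem dia_core [Fintype V] {G : SimpleGraph V} {s : Fin 5 → ℝ × ℝ}
    {c : Sym2 V → Fin 5} {t o k l e : V} (hto : t ≠ o) (htl : t ≠ l) (hol : o ≠ l)
    (htk : t ≠ k) (hok : o ≠ k)
    (hk : ∀ u, G.Adj k u ↔ u = t ∨ u = o ∨ u = l) (hl : ∀ u, G.Adj l u ↔ u = t ∨ u = o ∨ u = k)
    (ht : ∀ u, G.Adj t u ↔ u = k ∨ u = l ∨ u = e) {α β ζ γ : Fin 5}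
    (c1 : c s(t, k) = α) (c2 : c s(t, l) = β) (c3 : c s(o, k) = β) (c4 : c s(o, l) = α)
    (c5 : c s(k, l) = ζ) (c6 : c s(t, e) = γ) (h1 : cr (s α) (s β) ≠ 0)
    (h2 : cr (s ζ) (s α) ≠ 0) (h3 : cr (s ζ) (s β) ≠ 0)
    (h4 : cr (s ζ) (cr (s α) (s γ) • s β + cr (s β) (s γ) • s α) ≠ 0) :
    DiaHalf G c s t k l := by
  intro ψ hA hck hcl v hv hcr
  rw [cons_iff hto htl hol hk, Sym2.eq_swap (a := k) (b := t), c1, Sym2.eq_swap (a := k) (b := o),
    c3, c5] at hck
  rw [cons_iff hto htk hok hl, Sym2.eq_swap (a := l) (b := t), c2, Sym2.eq_swap (a := l) (b := o),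
    c4, Sym2.eq_swap (a := l) (b := k), c5] at hcl
  have hlk : ψ l k = - ψ k l := hA l k
  have htk' : ψ t k = - ψ k t := hA t k
  have htl' : ψ t l = - ψ l t := hA t l
  rw [hlk] at hcl
  rw [c1, c2, htk', htl'] at hcr
  have e1 : cr (ψ k t • s α + ψ k o • s β + ψ k l • s ζ) (s β) = 0 := by rw [hck, cr_zero_left]
  have e2 : cr (ψ k t • s α + ψ k o • s β + ψ k l • s ζ) (s α) = 0 := by rw [hck, cr_zero_left]
  have e3 : cr (ψ l t • s β + ψ l o • s α + -ψ k l • s ζ) (s α) = 0 := by rw [hcl, cr_zero_left]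
  have e4 : cr (ψ l t • s β + ψ l o • s α + -ψ k l • s ζ) (s β) = 0 := by rw [hcl, cr_zero_left]
  simp only [cr_add_left, cr_smul_left, cr_self, mul_zero, add_zero, zero_add] at e1 e2 e3 e4 hcr
  have hsw : cr (s β) (s α) = - cr (s α) (s β) := cr_swap _ _
  rw [hsw] at e2 e3
  have key : ∀ w, ψ k t * cr (s α) w + ψ l t * cr (s β) w = 0 →
      ψ k l * cr (s ζ) (cr (s α) w • s β + cr (s β) w • s α) = 0 := by
    intro w hw
    rw [cr_add_right, cr_smul_right, cr_smul_right]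
    linear_combination (-cr (s α) (s β)) * hw + cr (s α) w * e1 - cr (s β) w * e3
  have hcr' : ψ k t * cr (s α) (s (c s(t, v))) + ψ l t * cr (s β) (s (c s(t, v))) = 0 := by
    linarith
  have h5 := key _ hcr'
  have hφ : ψ k l = 0 := by
    rcases (ht v).1 hv with rfl | rfl | rfl
    · rw [c1, cr_self, zero_smul, zero_add, cr_smul_right, hsw] at h5
      exact (mul_eq_zero.1 h5).resolve_right (mul_ne_zero (neg_ne_zero.2 h1) h2)
    · rw [c2, cr_self, zero_smul, add_zero, cr_smul_right] at h5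
      exact (mul_eq_zero.1 h5).resolve_right (mul_ne_zero h1 h3)
    · rw [c6] at h5
      exact (mul_eq_zero.1 h5).resolve_right h4
  rw [hφ] at e1 e2 e3 e4
  have a1 : ψ k t = 0 := (mul_eq_zero.1 (by linarith : ψ k t * cr (s α) (s β) = 0)).resolve_right h1
  have a2 : ψ k o = 0 := (mul_eq_zero.1 (by linarith : ψ k o * cr (s α) (s β) = 0)).resolve_right h1
  have a3 : ψ l t = 0 := (mul_eq_zero.1 (by linarith : ψ l t * cr (s α) (s β) = 0)).resolve_right h1
  have a4 : ψ l o = 0 := (mul_eq_zero.1 (by linarith : ψ l o * cr (s α) (s β) = 0)).resolve_right h1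
  constructor
  · intro b hb
    rcases (hk b).1 hb with rfl | rfl | rfl
    · exact a1
    · exact a2
    · exact hφ
  · intro b hb
    rcases (hl b).1 hb with rfl | rfl | rfl
    · exact a3
    · exact a4
    · rw [hlk, hφ, neg_zero]

private theorem dia_bad {s : Fin 5 → ℝ × ℝ} (hs : NonPar s) {α β γ : Fin 5} (hab : α ≠ β)
    (hag : α ≠ γ) (Z : Finset (Fin 5)) :
    (Z.filter (fun ζ => cr (s ζ) (cr (s α) (s γ) • s β + cr (s β) (s γ) • s α) = 0)).card ≤ 1 := by
  rw [Finset.card_le_one]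
  intro x hx y hy
  by_contra hxy
  rw [Finset.mem_filter] at hx hy
  set X := cr (s α) (s γ) • s β + cr (s β) (s γ) • s α with hX
  have h0 : X = 0 := eq_zero_of_cr (hs x y hxy) (by rw [cr_swap, hx.2, neg_zero])
    (by rw [cr_swap, hy.2, neg_zero])
  have h1 := cr_indep (hs β α hab.symm) h0
  exact hs α γ hag h1.1

private theorem dia_choose {s : Fin 5 → ℝ × ℝ} (hs : NonPar s) (γ δ : Fin 5) :
    ∃ α β ζ : Fin 5, α ≠ β ∧ α ≠ γ ∧ α ≠ δ ∧ β ≠ γ ∧ β ≠ δ ∧ ζ ≠ α ∧ ζ ≠ β ∧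
      cr (s ζ) (cr (s α) (s γ) • s β + cr (s β) (s γ) • s α) ≠ 0 ∧
      cr (s ζ) (cr (s α) (s δ) • s β + cr (s β) (s δ) • s α) ≠ 0 := by
  have h1 : 1 < ((univ : Finset (Fin 5)) \ {γ, δ}).card := by
    have h2 := Finset.le_card_sdiff ({γ, δ} : Finset (Fin 5)) univ
    have h3 : ({γ, δ} : Finset (Fin 5)).card ≤ 2 := Finset.card_le_two
    rw [Finset.card_univ, Fintype.card_fin] at h2
    omega
  obtain ⟨α, hα, β, hβ, hab⟩ := Finset.one_lt_card.1 h1
  simp only [mem_sdiff, mem_univ, true_and, mem_insert, mem_singleton, not_or] at hα hβ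
  set Z : Finset (Fin 5) := univ \ {α, β} with hZ
  have hZc : 3 ≤ Z.card := by
    have h2 := Finset.le_card_sdiff ({α, β} : Finset (Fin 5)) univ
    have h3 : ({α, β} : Finset (Fin 5)).card ≤ 2 := Finset.card_le_two
    rw [Finset.card_univ, Fintype.card_fin, ← hZ] at h2
    omega
  have b1 := dia_bad hs hab hα.1 Z
  have b2 := dia_bad hs hab hα.2 Z
  set Z1 := Z.filter (fun ζ => cr (s ζ) (cr (s α) (s γ) • s β + cr (s β) (s γ) • s α) = 0) with hZ1
  set Z2 := Z.filter (fun ζ => cr (s ζ) (cr (s α) (s δ) • s β + cr (s β) (s δ) • s α) = 0) with hZ2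
  have h4 : 0 < (Z \ (Z1 ∪ Z2)).card := by
    have h5 := Finset.le_card_sdiff (Z1 ∪ Z2) Z
    have h6 := Finset.card_union_le Z1 Z2
    omega
  obtain ⟨ζ, hζ⟩ := Finset.card_pos.1 h4
  rw [mem_sdiff, mem_union, not_or, hZ1, hZ2, mem_filter, mem_filter] at hζ
  have hζZ := hζ.1
  rw [hZ] at hζZ
  simp only [mem_sdiff, mem_univ, true_and, mem_insert, mem_singleton, not_or] at hζZ
  exact ⟨α, β, ζ, hab, hα.1, hα.2, hβ.1, hβ.2, hζZ.1, hζZ.2, fun h => hζ.2.1 ⟨hζ.1, h⟩,
    fun h => hζ.2.2 ⟨hζ.1, h⟩⟩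

private theorem dia_ne {u w x y : V} (h1 : ¬ (u = x ∧ w = y)) (h2 : ¬ (u = y ∧ w = x)) :
    s(u, w) ≠ s(x, y) := by
  intro h
  rw [Sym2.eq_iff] at h
  exact h.elim h1 h2

private theorem dia_proper {G : SimpleGraph V} {c : Sym2 V → Fin 5} {v x y z : V}
    (h : ∀ u, G.Adj v u ↔ u = x ∨ u = y ∨ u = z) {p q r : Fin 5} (h1 : c s(v, x) = p)
    (h2 : c s(v, y) = q) (h3 : c s(v, z) = r) (hpq : p ≠ q) (hpr : p ≠ r) (hqr : q ≠ r) {u w : V}
    (hu : G.Adj v u) (hw : G.Adj v w) (huw : u ≠ w) : c s(v, u) ≠ c s(v, w) := by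
  rcases (h u).1 hu with rfl | rfl | rfl <;> rcases (h w).1 hw with rfl | rfl | rfl <;>
    simp_all [Ne.symm]

theorem dia_recol [Fintype V] {G : SimpleGraph V} (hG : Cub G) {s : Fin 5 → ℝ × ℝ}
    (hs : NonPar s) {c : Sym2 V → Fin 5} (hc : Proper G c) {a k l d : V} (hD : Dia G a k l d) :
    ∃ c' : Sym2 V → Fin 5, Proper G c' ∧
      (∀ e, e ∉ ({s(a, k), s(a, l), s(d, k), s(d, l), s(k, l)} : Finset (Sym2 V)) → c' e = c e) ∧
      DiaHalf G c' s a k l ∧ DiaHalf G c' s d k l := by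
  obtain ⟨had, hkl, hak, hal, hdk, hdl, hkl', hnad⟩ := hD
  obtain ⟨e, hke, hle, hna⟩ := dia_nbr hG hak hal hkl
  obtain ⟨f, hkf, hlf, hnd⟩ := dia_nbr hG hdk hdl hkl
  have hak0 : a ≠ k := hak.ne
  have hal0 : a ≠ l := hal.ne
  have hdk0 : d ≠ k := hdk.ne
  have hdl0 : d ≠ l := hdl.ne
  have hnk : ∀ u, G.Adj k u ↔ u = a ∨ u = d ∨ u = l := by
    obtain ⟨z, h1, h2, h3⟩ := dia_nbr hG hak.symm hdk.symm had
    have h4 : l = z := by
      rcases (h3 l).1 hkl' with h | h | h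
      · exact absurd h.symm hal0
      · exact absurd h.symm hdl0
      · exact h
    rw [h4]; exact h3
  have hnl : ∀ u, G.Adj l u ↔ u = a ∨ u = d ∨ u = k := by
    obtain ⟨z, h1, h2, h3⟩ := dia_nbr hG hal.symm hdl.symm had
    have h4 : k = z := by
      rcases (h3 k).1 hkl'.symm with h | h | h
      · exact absurd h.symm hak0
      · exact absurd h.symm hdk0
      · exact h
    rw [h4]; exact h3
  have hae : G.Adj a e := (hna e).2 (Or.inr (Or.inr rfl))
  have hdf : G.Adj d f := (hnd f).2 (Or.inr (Or.inr rfl))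
  have hed : e ≠ d := by rintro rfl; exact hnad hae
  have hfa : f ≠ a := by rintro rfl; exact hnad hdf.symm
  obtain ⟨α, β, ζ, hab, hag, had', hbg, hbd, hza, hzb, g1, g2⟩ :=
    dia_choose hs (c s(a, e)) (c s(d, f))
  set c' : Sym2 V → Fin 5 := fun p => if p = s(a, k) then α else if p = s(a, l) then β else
    if p = s(d, k) then β else if p = s(d, l) then α else if p = s(k, l) then ζ else c p with hc'
  have v1 : c' s(a, k) = α := by simp [hc']
  have v2 : c' s(a, l) = β := by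
    have : s(a, l) ≠ s(a, k) := by
      intro h; rw [Sym2.eq_iff] at h
      rcases h with ⟨_, h⟩ | ⟨h, _⟩
      · exact hkl h.symm
      · exact hak0 h
    simp [hc', this]
  have v3 : c' s(d, k) = β := by
    have n1 : s(d, k) ≠ s(a, k) := by
      intro h; rw [Sym2.eq_iff] at h
      rcases h with ⟨h, _⟩ | ⟨h, _⟩
      · exact had h.symm
      · exact hdk0 h
    have n2 : s(d, k) ≠ s(a, l) := by
      intro h; rw [Sym2.eq_iff] at h
      rcases h with ⟨h, _⟩ | ⟨h, _⟩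
      · exact had h.symm
      · exact hdl0 h
    simp [hc', n1, n2]
  have v4 : c' s(d, l) = α := by
    have n1 : s(d, l) ≠ s(a, k) := by
      intro h; rw [Sym2.eq_iff] at h
      rcases h with ⟨h, _⟩ | ⟨h, _⟩
      · exact had h.symm
      · exact hdk0 h
    have n2 : s(d, l) ≠ s(a, l) := by
      intro h; rw [Sym2.eq_iff] at h
      rcases h with ⟨h, _⟩ | ⟨h, _⟩
      · exact had h.symm
      · exact hdl0 h
    have n3 : s(d, l) ≠ s(d, k) := by
      intro h; rw [Sym2.eq_iff] at h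
      rcases h with ⟨_, h⟩ | ⟨h, _⟩
      · exact hkl h.symm
      · exact hdk0 h
    simp [hc', n1, n2, n3]
  have v5 : c' s(k, l) = ζ := by
    have n : ∀ x y : V, x ≠ k → x ≠ l → s(k, l) ≠ s(x, y) := by
      intro x y h1 h2 h; rw [Sym2.eq_iff] at h
      rcases h with ⟨h, _⟩ | ⟨_, h⟩
      · exact h1 h.symm
      · exact h2 h.symm
    simp [hc', n a k hak0 hal0, n a l hak0 hal0, n d k hdk0 hdl0, n d l hdk0 hdl0]
  have v0 : ∀ p : Sym2 V, p ∉ ({s(a, k), s(a, l), s(d, k), s(d, l), s(k, l)} : Finset (Sym2 V)) →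
      c' p = c p := by
    intro p hp
    simp only [mem_insert, mem_singleton, not_or] at hp
    simp [hc', hp.1, hp.2.1, hp.2.2.1, hp.2.2.2.1, hp.2.2.2.2]
  have v6 : c' s(a, e) = c s(a, e) := by
    apply v0
    simp only [mem_insert, mem_singleton, not_or]
    refine ⟨dia_ne ?_ ?_, dia_ne ?_ ?_, dia_ne ?_ ?_, dia_ne ?_ ?_, dia_ne ?_ ?_⟩ <;>
      rintro ⟨h1, h2⟩ <;>
      first
        | exact hke h2.symm | exact hle h2.symm | exact had h1 | exact hak0 h1 | exact hal0 h1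
  have v7 : c' s(d, f) = c s(d, f) := by
    apply v0
    simp only [mem_insert, mem_singleton, not_or]
    refine ⟨dia_ne ?_ ?_, dia_ne ?_ ?_, dia_ne ?_ ?_, dia_ne ?_ ?_, dia_ne ?_ ?_⟩ <;>
      rintro ⟨h1, h2⟩ <;>
      first
        | exact hkf h2.symm | exact hlf h2.symm | exact had h1.symm | exact hdk0 h1 | exact hdl0 h1
  refine ⟨c', ?_, v0, ?_, ?_⟩
  · intro u v w huv huw hvw
    by_cases hua : u = a
    · subst hua
      exact dia_proper hna v1 v2 v6 hab hag hbg huv huw hvw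
    by_cases hud : u = d
    · subst hud
      exact dia_proper hnd v3 v4 v7 hab.symm hbd had' huv huw hvw
    by_cases huk : u = k
    · subst huk
      exact dia_proper hnk (by rw [Sym2.eq_swap]; exact v1) (by rw [Sym2.eq_swap]; exact v3) v5
        hab hza.symm hzb.symm huv huw hvw
    by_cases hul : u = l
    · subst hul
      exact dia_proper hnl (by rw [Sym2.eq_swap]; exact v2) (by rw [Sym2.eq_swap]; exact v4)
        (by rw [Sym2.eq_swap]; exact v5) hab.symm hzb.symm hza.symm huv huw hvw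
    · have hn : ∀ x : V, s(u, x) ∉
          ({s(a, k), s(a, l), s(d, k), s(d, l), s(k, l)} : Finset (Sym2 V)) := by
        intro x
        simp only [mem_insert, mem_singleton, not_or]
        refine ⟨dia_ne ?_ ?_, dia_ne ?_ ?_, dia_ne ?_ ?_, dia_ne ?_ ?_, dia_ne ?_ ?_⟩ <;>
          rintro ⟨h1, h2⟩ <;>
          first
            | exact hua h1 | exact hud h1 | exact huk h1 | exact hul h1
      rw [v0 _ (hn v), v0 _ (hn w)]
      exact hc u v w huv huw hvw
  · exact dia_core had hal0 hdl0 hak0 hdk0 hnk hnl hna v1 v2 v3 v4 v5 v6 (hs α β hab)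
      (hs ζ α hza) (hs ζ β hzb) g1
  · refine dia_core (t := d) (o := a) had.symm hdl0 hal0 hdk0 hak0 (fun u => by rw [hnk u]; tauto)
      (fun u => by rw [hnl u]; tauto) hnd v3 v4 v1 v2 v5 v7 (hs β α hab.symm) (hs ζ β hzb)
      (hs ζ α hza) ?_
    rw [add_comm]; exact g2

/-- the half condition only depends on the colours of edges at `a, k, l` -/
theorem diaHalf_congr [Fintype V] {G : SimpleGraph V} {s : Fin 5 → ℝ × ℝ} {a k l : V}
    {c1 c2 : Sym2 V → Fin 5} (ha : ∀ b, c1 s(a, b) = c2 s(a, b))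
    (hk : ∀ b, c1 s(k, b) = c2 s(k, b)) (hl : ∀ b, c1 s(l, b) = c2 s(l, b))
    (h : DiaHalf G c1 s a k l) : DiaHalf G c2 s a k l := by
  intro ψ hA hck hcl v hv hcr
  refine h ψ hA ?_ ?_ v hv ?_
  · unfold Cons at *
    simp only [hk]; exact hck
  · unfold Cons at *
    simp only [hl]; exact hcl
  · rw [ha, ha, ha]; exact hcr

/-- symmetry -/
theorem diaHalf_symm [Fintype V] {G : SimpleGraph V} {s : Fin 5 → ℝ × ℝ} {a k l : V}
    {c : Sym2 V → Fin 5} (h : DiaHalf G c s a k l) : DiaHalf G c s a l k := by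
  intro ψ hA hcl hck v hv hcr
  have := h ψ hA hck hcl v hv (by rw [add_comm]; exact hcr)
  exact ⟨this.2, this.1⟩

theorem dia_blk [Fintype V] {G : SimpleGraph V} (hG : Cub G) {s : Fin 5 → ℝ × ℝ}
    (hs : NonPar s) {c : Sym2 V → Fin 5} (hc : Proper G c) {a k l d : V} (hD : Dia G a k l d)
    (h : DiaHalf G c s d k l) : Blk G c s {k, l, d} := by
  obtain ⟨had, hkl, hak, hal, hdk, hdl, hkl', hnad⟩ := hD
  obtain ⟨f, hkf, hlf, hnd⟩ := dia_nbr hG hdk hdl hkl
  intro ψ hA hcons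
  have hck := hcons k (by simp)
  have hcl := hcons l (by simp)
  have hcd := hcons d (by simp)
  have hdf : G.Adj d f := (hnd f).2 (Or.inr (Or.inr rfl))
  rw [cons_iff hkl hkf hlf hnd] at hcd
  have h1 : cr (ψ d k • s (c s(d, k)) + ψ d l • s (c s(d, l))) (s (c s(d, f))) = 0 := by
    have h2 : cr (ψ d k • s (c s(d, k)) + ψ d l • s (c s(d, l)) + ψ d f • s (c s(d, f)))
        (s (c s(d, f))) = 0 := by rw [hcd, cr_zero_left]
    rw [cr_add_left, cr_smul_left (ψ d f), cr_self, mul_zero, add_zero] at h2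
    exact h2
  obtain ⟨zk, zl⟩ := h ψ hA hck hcl f hdf h1
  have zdk : ψ d k = 0 := by rw [hA d k, zk d hdk.symm, neg_zero]
  have zdl : ψ d l = 0 := by rw [hA d l, zl d hdl.symm, neg_zero]
  have zdf : ψ d f = 0 := by
    rw [zdk, zdl, zero_smul, zero_smul, zero_add, zero_add] at hcd
    have h3 : cr (ψ d f • s (c s(d, f))) (s (c s(d, k))) = 0 := by rw [hcd, cr_zero_left]
    rw [cr_smul_left] at h3
    exact (mul_eq_zero.1 h3).resolve_right (hs _ _ (hc d f k hdf hdk hkf.symm))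
  intro y hy b hb
  simp only [mem_insert, mem_singleton] at hy
  rcases hy with rfl | rfl | rfl
  · exact zk b hb
  · exact zl b hb
  · rcases (hnd b).1 hb with rfl | rfl | rfl
    · exact zdk
    · exact zdl
    · exact zdf

end

end SL
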