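import Pool.Agent.H53.SL.Base

/-!
# Module GRE: greedy edge colouring with five colours (150 lines)

`greedy`: by induction on a finite set `P` with `M ⊆ P` of processed elements of `Sym2 V` (start
`P = M`, `c = 0`): there is `c` with `c = 0` on `M` which is proper on `P`, i.e. for all `u v w`
with `G.Adj u v`, `G.Adj u w`, `v ≠ w`, `s(u,v) ∈ P`, `s(u,w) ∈ P`: `c s(u,v) ≠ c s(u,w)`.
Adding an element `e = s(a,b) ∉ P`: if `e` is not an edge nothing is to be done; otherwise there are
at most four edges adjacent to `e` (two at `a`, two at `b`: `exists_two`), so one of the five colours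
is not used on them; `Function.update c e k`.  At the end `P = univ`.

`recol`: `x ~ y, x', x''` and `y ~ x, y', y''`; the colours used on the edges adjacent to `xy` are
`c xx' = c yy'`, `c xx''`, `c yy''`: at most three, so two different colours `k1 ≠ k2` remain, and
recolouring `xy` with `k1` or `k2` keeps the colouring proper.  (Here `x' ≠ y`, `y' ≠ x`.)
-/

namespace SL

open Classical Finset

noncomputable section

variable {V : Type}

/-- properness restricted to a set of pairs -/
def GRE_PrOn (G : SimpleGraph V) (P : Finset (Sym2 V)) (c : Sym2 V → Fin 5) : Prop :=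
  ∀ u v w, G.Adj u v → G.Adj u w → v ≠ w → s(u, v) ∈ P → s(u, w) ∈ P → c s(u, v) ≠ c s(u, w)

theorem GRE_update {G : SimpleGraph V} {P : Finset (Sym2 V)} {c : Sym2 V → Fin 5}
    (hc : GRE_PrOn G P c) {a b : V} {k : Fin 5}
    (ha : ∀ u, G.Adj a u → u ≠ b → c s(a, u) ≠ k)
    (hb : ∀ u, G.Adj b u → u ≠ a → c s(b, u) ≠ k) :
    GRE_PrOn G (insert s(a, b) P) (Function.update c s(a, b) k) := by
  intro u v w huv huw hvw hv hw
  have key : ∀ v w, G.Adj u w → v ≠ w → s(u, v) = s(a, b) → c s(u, w) ≠ k := by
    intro v w huw hvw h
    rcases Sym2.eq_iff.1 h with ⟨rfl, rfl⟩ | ⟨rfl, rfl⟩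
    · exact ha w huw hvw.symm
    · exact hb w huw hvw.symm
  by_cases h1 : s(u, v) = s(a, b)
  · by_cases h2 : s(u, w) = s(a, b)
    · exact absurd (Sym2.congr_right.1 (h1.trans h2.symm)) hvw
    · rw [Function.update_of_ne h2, h1, Function.update_self]
      exact (key v w huw hvw h1).symm
  · by_cases h2 : s(u, w) = s(a, b)
    · rw [Function.update_of_ne h1, h2, Function.update_self]
      exact key w v huv hvw.symm h2
    · rw [Function.update_of_ne h1, Function.update_of_ne h2]
      exact hc u v w huv huw hvw ((Finset.mem_insert.1 hv).resolve_left h1)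
        ((Finset.mem_insert.1 hw).resolve_left h2)

theorem greedy [Fintype V] {G : SimpleGraph V} (hG : Cub G) (M : Finset (Sym2 V))
    (hM : ∀ u v w, s(u, v) ∈ M → s(u, w) ∈ M → v = w) :
    ∃ c : Sym2 V → Fin 5, Proper G c ∧ ∀ e ∈ M, c e = 0 := by
  have main : ∀ R : Finset (Sym2 V), ∃ c : Sym2 V → Fin 5, GRE_PrOn G (M ∪ R) c ∧
      ∀ e ∈ M, c e = 0 := by
    intro R
    induction R using Finset.induction_on with
    | empty =>
      refine ⟨fun _ => 0, ?_, fun _ _ => rfl⟩
      intro u v w _ _ hvw hv hw
      rw [Finset.union_empty] at hv hw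
      exact absurd (hM u v w hv hw) hvw
    | insert e R _ ih =>
      obtain ⟨c, hc, hc0⟩ := ih
      rw [Finset.union_insert]
      by_cases heM : e ∈ M ∪ R
      · rw [Finset.insert_eq_of_mem heM]
        exact ⟨c, hc, hc0⟩
      · induction e using Sym2.ind with
        | _ a b =>
          by_cases hab : G.Adj a b
          · obtain ⟨p, q, _, _, _, hpq⟩ := exists_two hG hab
            obtain ⟨r, t, _, _, _, hrt⟩ := exists_two hG hab.symm
            obtain ⟨k, hk⟩ : ∃ k : Fin 5,
                k ∉ ({c s(a, p), c s(a, q), c s(b, r), c s(b, t)} : Finset (Fin 5)) := by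
              by_contra hcon
              push Not at hcon
              have h5 : (univ : Finset (Fin 5)).card ≤
                  ({c s(a, p), c s(a, q), c s(b, r), c s(b, t)} : Finset (Fin 5)).card :=
                Finset.card_le_card (fun k _ => hcon k)
              have h4 := Finset.card_le_four (a := c s(a, p)) (b := c s(a, q))
                (c := c s(b, r)) (d := c s(b, t))
              simp only [Finset.card_univ, Fintype.card_fin] at h5
              omega
            simp only [Finset.mem_insert, Finset.mem_singleton, not_or] at hk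
            obtain ⟨k1, k2, k3, k4⟩ := hk
            refine ⟨Function.update c s(a, b) k, GRE_update hc ?_ ?_, ?_⟩
            · intro u hu hub
              rcases (hpq u).1 hu with h | h | h
              · exact absurd h hub
              · rw [h]; exact Ne.symm k1
              · rw [h]; exact Ne.symm k2
            · intro u hu hua
              rcases (hrt u).1 hu with h | h | h
              · exact absurd h hua
              · rw [h]; exact Ne.symm k3
              · rw [h]; exact Ne.symm k4
            · intro e he
              have hne : e ≠ s(a, b) := by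
                rintro rfl
                exact heM (Finset.mem_union_left _ he)
              rw [Function.update_of_ne hne]
              exact hc0 e he
          · refine ⟨c, ?_, hc0⟩
            intro u v w huv huw hvw hv hw
            have key : ∀ v, G.Adj u v → s(u, v) ≠ s(a, b) := by
              intro v huv h
              rcases Sym2.eq_iff.1 h with ⟨rfl, rfl⟩ | ⟨rfl, rfl⟩
              · exact hab huv
              · exact hab huv.symm
            exact hc u v w huv huw hvw ((Finset.mem_insert.1 hv).resolve_left (key v huv))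
              ((Finset.mem_insert.1 hw).resolve_left (key w huw))
  obtain ⟨c, hc, hc0⟩ := main univ
  refine ⟨c, ?_, hc0⟩
  intro u v w huv huw hvw
  exact hc u v w huv huw hvw (Finset.mem_union_right _ (Finset.mem_univ _))
    (Finset.mem_union_right _ (Finset.mem_univ _))

theorem recol [Fintype V] {G : SimpleGraph V} (hG : Cub G) {c : Sym2 V → Fin 5}
    (hc : Proper G c) {x y x' y' : V} (hxy : G.Adj x y) (hxx : G.Adj x x') (hyy : G.Adj y y')
    (h1 : x' ≠ y) (h2 : y' ≠ x) (hcc : c s(x, x') = c s(y, y')) :
    ∃ k1 k2 : Fin 5, k1 ≠ k2 ∧ Proper G (Function.update c s(x, y) k1) ∧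
      Proper G (Function.update c s(x, y) k2) := by
  -- the third neighbours
  have third : ∀ {v a b : V}, G.Adj v a → G.Adj v b → a ≠ b →
      ∃ d, ∀ u, G.Adj v u → u = a ∨ u = b ∨ u = d := by
    intro v a b ha hb hab
    obtain ⟨p, q, _, _, _, hpq⟩ := exists_two hG ha
    rcases (hpq b).1 hb with h | h | h
    · exact absurd h.symm hab
    · exact ⟨q, fun u hu => by rw [h]; exact (hpq u).1 hu⟩
    · refine ⟨p, fun u hu => ?_⟩
      rw [h]
      rcases (hpq u).1 hu with h' | h' | h'
      · exact Or.inl h'
      · exact Or.inr (Or.inr h')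
      · exact Or.inr (Or.inl h')
  obtain ⟨x2, hx2⟩ := third hxy hxx h1.symm
  obtain ⟨y2, hy2⟩ := third hxy.symm hyy h2.symm
  have good : ∀ k : Fin 5, k ∉ ({c s(x, x'), c s(x, x2), c s(y, y2)} : Finset (Fin 5)) →
      Proper G (Function.update c s(x, y) k) := by
    intro k hk
    simp only [Finset.mem_insert, Finset.mem_singleton, not_or] at hk
    obtain ⟨k1, k2, k3⟩ := hk
    have hc' : GRE_PrOn G univ c := fun u v w huv huw hvw _ _ => hc u v w huv huw hvw
    have := GRE_update (a := x) (b := y) (k := k) hc' (by
      intro u hu huy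
      rcases hx2 u hu with h | h | h
      · exact absurd h huy
      · rw [h]; exact Ne.symm k1
      · rw [h]; exact Ne.symm k2) (by
      intro u hu hux
      rcases hy2 u hu with h | h | h
      · exact absurd h hux
      · rw [h, ← hcc]; exact Ne.symm k1
      · rw [h]; exact Ne.symm k3)
    intro u v w huv huw hvw
    exact this u v w huv huw hvw (Finset.mem_insert_of_mem (Finset.mem_univ _))
      (Finset.mem_insert_of_mem (Finset.mem_univ _))
  have hcard : 1 < ((univ : Finset (Fin 5)) \ {c s(x, x'), c s(x, x2), c s(y, y2)}).card := by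
    have h3 := Finset.card_le_three (a := c s(x, x')) (b := c s(x, x2)) (c := c s(y, y2))
    have := Finset.le_card_sdiff ({c s(x, x'), c s(x, x2), c s(y, y2)} : Finset (Fin 5))
      (univ : Finset (Fin 5))
    simp only [Finset.card_univ, Fintype.card_fin] at this
    omega
  obtain ⟨k1, hk1, k2, hk2, hne⟩ := Finset.one_lt_card.1 hcard
  exact ⟨k1, k2, hne, good k1 (Finset.mem_sdiff.1 hk1).2, good k2 (Finset.mem_sdiff.1 hk2).2⟩

end

end SL
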