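import Pool.Agent.H53.SL.Gad
import Pool.Agent.H53.SL.DiaRec
import Pool.Agent.H53.SL.Greedy

/-!
# Module COL: the colouring (200-250 lines; uses gad_blk, blk_congr, dia_recol, diaHalf_congr,
diaHalf_symm, greedy, recol)

`comb` (abstract): finitely many independent recolouring tasks; induction over a `Finset` of tasks:
process task `i` by `hstep`; `Pre j` (`j` not processed) and `Post j` (`j` processed) are preserved
since the step changes `c` only on `F i`, disjoint from `D j`.

`colouring`: take `M = {s(x_i, x'_i), s(y_i, y'_i) | i}` (finite, `Finite ι`).  It satisfies the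
hypothesis of `greedy`: two members containing a common vertex `u` belong to the same `i` (supports
are disjoint) and `s(x_i,x'_i)`, `s(y_i,y'_i)` have no common vertex (`x ≠ y`, `x ≠ y'`,
`x' ≠ y` as `x' ∈ A`, `y ∉ A`, `x' ≠ y'`).  So `greedy` gives a proper `c` with colour `0` on `M`.
Tasks: (1) for a gadget `i`: `F i = {s(x_i,y_i)}`, `D i =` all pairs meeting the core
`insert x_i A_i`, together with `s(y_i,y'_i)`; `Pre i c`: `c s(x_i,x'_i) = c s(y_i,y'_i)`,
`Post i c`: `Blk G c s (core i)`; step: `recol` and `gad_blk` (applied to the two updates).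
(2) for a vertex set `D = {a,k,l,d}` of a diamond (choose `a k l d`): `F D` = the five edges inside,
`D D` = all pairs meeting `D`; `Pre = True`, `Post c`: `DiaHalf a k l ∧ DiaHalf d k l`; step: `dia_recol`.
`F i ∩ D j = ∅` for different tasks: pairs in `F i` have both ends in `supp i` (resp. in the diamond) and
pairs in `D j` have an end in `supp j` (resp. in the diamond `D`), and supports/diamonds are
pairwise disjoint.
The conclusion for every `a k l d` with `Dia G a k l d`: the chosen representative `a' k' l' d'` of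
the same vertex set has `{a,d} = {a',d'}` (the only non-adjacent pair) and `{k,l} = {k',l'}`;
use `diaHalf_symm`.
-/

namespace SL

open Classical Finset

noncomputable section

variable {V : Type}

theorem comb {α β ι : Type} [Finite ι] (F D : ι → Set α) (P : (α → β) → Prop)
    (Pre Post : ι → (α → β) → Prop)
    (hPre : ∀ i c c', (∀ e ∈ D i, c e = c' e) → Pre i c → Pre i c')
    (hPost : ∀ i c c', (∀ e ∈ D i, c e = c' e) → Post i c → Post i c')
    (hstep : ∀ i c, P c → Pre i c → ∃ c', P c' ∧ (∀ e, e ∉ F i → c' e = c e) ∧ Post i c')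
    (hdis : ∀ i j, i ≠ j → Disjoint (F i) (D j)) (c : α → β) (hc : P c)
    (hall : ∀ i, Pre i c) : ∃ c', P c' ∧ ∀ i, Post i c' := by
  have := Fintype.ofFinite ι
  have key : ∀ S : Finset ι, ∃ c', P c' ∧ (∀ i ∈ S, Post i c') ∧ ∀ i, i ∉ S → Pre i c' := by
    intro S
    induction S using Finset.induction_on with
    | empty => exact ⟨c, hc, by simp, fun i _ => hall i⟩
    | insert j S hj ih =>
      obtain ⟨c1, h1, h2, h3⟩ := ih
      obtain ⟨c2, h4, h5, h6⟩ := hstep j c1 h1 (h3 j hj)
      have hD : ∀ i, i ≠ j → ∀ e ∈ D i, c1 e = c2 e := by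
        intro i hij e he
        refine (h5 e fun he' => ?_).symm
        exact Set.disjoint_left.1 (hdis j i hij.symm) he' he
      refine ⟨c2, h4, ?_, ?_⟩
      · intro i hi
        rcases Finset.mem_insert.1 hi with rfl | hi'
        · exact h6
        · exact hPost i c1 c2 (hD i (by rintro rfl; exact hj hi')) (h2 i hi')
      · intro i hi
        rw [Finset.mem_insert, not_or] at hi
        exact hPre i c1 c2 (hD i hi.1) (h3 i hi.2)
  obtain ⟨c', h1, h2, -⟩ := key Finset.univ
  exact ⟨c', h1, fun i => h2 i (Finset.mem_univ i)⟩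

/-- the two parts of a diamond are determined by its vertex set -/
theorem col_dia {G : SimpleGraph V} {a k l d a' k' l' d' : V} (h : Dia G a k l d)
    (h' : Dia G a' k' l' d') (he : ({a, k, l, d} : Finset V) = {a', k', l', d'}) :
    ((a = a' ∧ d = d') ∨ (a = d' ∧ d = a')) ∧ ((k = k' ∧ l = l') ∨ (k = l' ∧ l = k')) := by
  obtain ⟨had, hkl, e1, e2, e3, e4, e5, e6⟩ := h
  obtain ⟨had', hkl', f1, f2, f3, f4, f5, f6⟩ := h'
  have mem : ∀ v, (v = a ∨ v = k ∨ v = l ∨ v = d) ↔ (v = a' ∨ v = k' ∨ v = l' ∨ v = d') := by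
    intro v
    have h1 : v ∈ ({a, k, l, d} : Finset V) ↔ v ∈ ({a', k', l', d'} : Finset V) := by rw [he]
    simpa using h1
  -- `a`, `d` are not `k'`, `l'`
  have n1 : ∀ u v : V, (u = a ∨ u = d) → (v = a ∨ v = d) → u ≠ v → u ≠ k' := by
    rintro u v hu hv huv rfl
    have hn : ¬ G.Adj u v := by
      rcases hu with rfl | rfl <;> rcases hv with rfl | rfl
      · exact absurd rfl huv
      · exact e6
      · exact fun h => e6 h.symm
      · exact absurd rfl huv
    have hv' : v = a' ∨ v = u ∨ v = l' ∨ v = d' := by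
      refine (mem v).1 ?_
      rcases hv with rfl | rfl <;> simp
    rcases hv' with rfl | h | rfl | rfl
    · exact hn f1.symm
    · exact huv h.symm
    · exact hn f5
    · exact hn f3.symm
  have n2 : ∀ u v : V, (u = a ∨ u = d) → (v = a ∨ v = d) → u ≠ v → u ≠ l' := by
    rintro u v hu hv huv rfl
    have hn : ¬ G.Adj u v := by
      rcases hu with rfl | rfl <;> rcases hv with rfl | rfl
      · exact absurd rfl huv
      · exact e6
      · exact fun h => e6 h.symm
      · exact absurd rfl huv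
    have hv' : v = a' ∨ v = k' ∨ v = u ∨ v = d' := by
      refine (mem v).1 ?_
      rcases hv with rfl | rfl <;> simp
    rcases hv' with rfl | rfl | h | rfl
    · exact hn f2.symm
    · exact hn f5.symm
    · exact huv h.symm
    · exact hn f4.symm
  have ha := (mem a).1 (Or.inl rfl)
  have hd := (mem d).1 (Or.inr (Or.inr (Or.inr rfl)))
  have ha1 := n1 a d (Or.inl rfl) (Or.inr rfl) had
  have ha2 := n2 a d (Or.inl rfl) (Or.inr rfl) had
  have hd1 := n1 d a (Or.inr rfl) (Or.inl rfl) had.symm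
  have hd2 := n2 d a (Or.inr rfl) (Or.inl rfl) had.symm
  have hA : (a = a' ∧ d = d') ∨ (a = d' ∧ d = a') := by
    rcases ha with h | h | h | h
    · rcases hd with g | g | g | g
      · exact absurd (h.trans g.symm) had
      · exact absurd g hd1
      · exact absurd g hd2
      · exact Or.inl ⟨h, g⟩
    · exact absurd h ha1
    · exact absurd h ha2
    · rcases hd with g | g | g | g
      · exact Or.inr ⟨h, g⟩
      · exact absurd g hd1
      · exact absurd g hd2
      · exact absurd (h.trans g.symm) had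
  refine ⟨hA, ?_⟩
  have hka : k ≠ a := e1.ne'
  have hla : l ≠ a := e2.ne'
  have hkd : k ≠ d := e3.ne'
  have hld : l ≠ d := e4.ne'
  have hk := (mem k).1 (Or.inr (Or.inl rfl))
  have hl := (mem l).1 (Or.inr (Or.inr (Or.inl rfl)))
  have hk1 : k ≠ a' ∧ k ≠ d' := by
    rcases hA with ⟨h, g⟩ | ⟨h, g⟩
    · exact ⟨h ▸ hka, g ▸ hkd⟩
    · exact ⟨g ▸ hkd, h ▸ hka⟩
  have hl1 : l ≠ a' ∧ l ≠ d' := by
    rcases hA with ⟨h, g⟩ | ⟨h, g⟩
    · exact ⟨h ▸ hla, g ▸ hld⟩
    · exact ⟨g ▸ hld, h ▸ hla⟩
  rcases hk with h | h | h | h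
  · exact absurd h hk1.1
  · rcases hl with g | g | g | g
    · exact absurd g hl1.1
    · exact absurd (h.trans g.symm) hkl
    · exact Or.inl ⟨h, g⟩
    · exact absurd g hl1.2
  · rcases hl with g | g | g | g
    · exact absurd g hl1.1
    · exact Or.inr ⟨h, g⟩
    · exact absurd (h.trans g.symm) hkl
    · exact absurd g hl1.2
  · exact absurd h hk1.2

/-- the vertex sets of diamonds -/
def ColDS (G : SimpleGraph V) : Type :=
  {T : Finset V // ∃ a k l d, Dia G a k l d ∧ T = {a, k, l, d}}

instance colFinite [Fintype V] (G : SimpleGraph V) : Finite (ColDS G) :=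
  inferInstanceAs (Finite {T : Finset V // ∃ a k l d, Dia G a k l d ∧ T = {a, k, l, d}})

theorem colouring [Fintype V] {G : SimpleGraph V} (hG : Cub G) {s : Fin 5 → ℝ × ℝ}
    (hs : NonPar s) {ι : Type} [Finite ι] (g : ι → Gadget G)
    (hgg : ∀ i j, i ≠ j → Disjoint (g i).supp (g j).supp)
    (hgd : ∀ i a k l d, Dia G a k l d → Disjoint (g i).supp ({a, k, l, d} : Finset V))
    (hdd : ∀ a k l d a' k' l' d', Dia G a k l d → Dia G a' k' l' d' →
      ({a, k, l, d} : Finset V) ≠ {a', k', l', d'} →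
      Disjoint ({a, k, l, d} : Finset V) {a', k', l', d'}) :
    ∃ c : Sym2 V → Fin 5, Proper G c ∧ (∀ i, Blk G c s (g i).core) ∧
      ∀ a k l d, Dia G a k l d → DiaHalf G c s a k l ∧ DiaHalf G c s d k l := by
  have := Fintype.ofFinite ι
  -- memberships in the supports
  have sx : ∀ i, (g i).x ∈ (g i).supp := fun i => by simp [Gadget.supp]
  have sy : ∀ i, (g i).y ∈ (g i).supp := fun i => by simp [Gadget.supp]
  have sy' : ∀ i, (g i).y' ∈ (g i).supp := fun i => by simp [Gadget.supp]
  have sA : ∀ i, ∀ v ∈ (g i).A, v ∈ (g i).supp := fun i v hv => by simp [Gadget.supp, hv]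
  have sx' : ∀ i, (g i).x' ∈ (g i).supp := fun i => sA i _ (g i).hx'
  have score : ∀ i, ∀ v ∈ (g i).core, v ∈ (g i).supp := by
    intro i v hv
    rcases Finset.mem_insert.1 hv with rfl | hv
    · exact sx i
    · exact sA i v hv
  have supeq : ∀ i j v, v ∈ (g i).supp → v ∈ (g j).supp → i = j := by
    intro i j v hi hj
    by_contra h
    exact Finset.disjoint_left.1 (hgg i j h) hi hj
  -- the precoloured edges
  let M : Finset (Sym2 V) := univ.image (fun i => s((g i).x, (g i).x')) ∪
    univ.image (fun i => s((g i).y, (g i).y'))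
  have hMmem : ∀ u v, s(u, v) ∈ M → ∃ i, (s((g i).x, (g i).x') = s(u, v) ∨
      s((g i).y, (g i).y') = s(u, v)) := by
    intro u v h
    simp only [M, mem_union, mem_image, mem_univ, true_and] at h
    rcases h with ⟨i, hi⟩ | ⟨i, hi⟩
    · exact ⟨i, Or.inl hi⟩
    · exact ⟨i, Or.inr hi⟩
  have hsup : ∀ i u v, (s((g i).x, (g i).x') = s(u, v) ∨ s((g i).y, (g i).y') = s(u, v)) →
      u ∈ (g i).supp := by
    intro i u v h
    rcases h with h | h
    · rcases Sym2.eq_iff.1 h with ⟨h1, -⟩ | ⟨-, h1⟩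
      · rw [← h1]; exact sx i
      · rw [← h1]; exact sx' i
    · rcases Sym2.eq_iff.1 h with ⟨h1, -⟩ | ⟨-, h1⟩
      · rw [← h1]; exact sy i
      · rw [← h1]; exact sy' i
  have hcross : ∀ i u v w, s((g i).x, (g i).x') = s(u, v) → s((g i).y, (g i).y') = s(u, w) →
      False := by
    intro i u v w h1 h2
    have a1 : u = (g i).x ∨ u = (g i).x' := by
      rcases Sym2.eq_iff.1 h1 with ⟨h, -⟩ | ⟨-, h⟩
      · exact Or.inl h.symm
      · exact Or.inr h.symm
    have a2 : u = (g i).y ∨ u = (g i).y' := by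
      rcases Sym2.eq_iff.1 h2 with ⟨h, -⟩ | ⟨-, h⟩
      · exact Or.inl h.symm
      · exact Or.inr h.symm
    rcases a1 with rfl | rfl
    · rcases a2 with h | h
      · exact (g i).adj.ne h
      · exact (g i).hy' h.symm
    · rcases a2 with h | h
      · exact (g i).hy (h ▸ (g i).hx')
      · exact (g i).hne h.symm
  have hM : ∀ u v w, s(u, v) ∈ M → s(u, w) ∈ M → v = w := by
    intro u v w hv hw
    obtain ⟨i, hi⟩ := hMmem u v hv
    obtain ⟨j, hj⟩ := hMmem u w hw
    have hij : i = j := supeq i j u (hsup i u v hi) (hsup j u w hj)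
    subst hij
    rcases hi with hi | hi <;> rcases hj with hj | hj
    · exact Sym2.congr_right.1 (hi.symm.trans hj)
    · exact (hcross i u v w hi hj).elim
    · exact (hcross i u w v hj hi).elim
    · exact Sym2.congr_right.1 (hi.symm.trans hj)
  obtain ⟨c0, hc0, hc0M⟩ := greedy hG M hM
  -- representatives of the diamonds
  choose ra hra using fun T : ColDS G => T.2
  choose rk hrk using hra
  choose rl hrl using hrk
  choose rd hrd hrT using hrl
  let S : ι ⊕ ColDS G → Finset V := Sum.elim (fun i => (g i).supp) (fun T => T.1)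
  let F : ι ⊕ ColDS G → Set (Sym2 V) := Sum.elim (fun i => {s((g i).x, (g i).y)})
    (fun T => {e | e ∈ ({s(ra T, rk T), s(ra T, rl T), s(rd T, rk T), s(rd T, rl T),
      s(rk T, rl T)} : Finset (Sym2 V))})
  let D : ι ⊕ ColDS G → Set (Sym2 V) := Sum.elim
    (fun i => {e | (∃ v ∈ (g i).core, v ∈ e) ∨ e = s((g i).y, (g i).y')})
    (fun T => {e | ∃ v ∈ T.1, v ∈ e})
  let Pre : ι ⊕ ColDS G → (Sym2 V → Fin 5) → Prop := Sum.elim
    (fun i c => c s((g i).x, (g i).x') = c s((g i).y, (g i).y')) (fun _ _ => True)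
  let Post : ι ⊕ ColDS G → (Sym2 V → Fin 5) → Prop := Sum.elim
    (fun i c => Blk G c s (g i).core)
    (fun T c => DiaHalf G c s (ra T) (rk T) (rl T) ∧ DiaHalf G c s (rd T) (rk T) (rl T))
  have hFS : ∀ t e, e ∈ F t → ∀ v ∈ e, v ∈ S t := by
    rintro (i | T) e he v hv
    · have he' : e = s((g i).x, (g i).y) := he
      rw [he'] at hv
      rcases Sym2.mem_iff.1 hv with rfl | rfl
      · exact sx i
      · exact sy i
    · change v ∈ T.1
      have he' : e ∈ ({s(ra T, rk T), s(ra T, rl T), s(rd T, rk T), s(rd T, rl T),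
        s(rk T, rl T)} : Finset (Sym2 V)) := he
      rw [hrT T]
      simp only [mem_insert, mem_singleton] at he'
      rcases he' with rfl | rfl | rfl | rfl | rfl <;>
        rcases Sym2.mem_iff.1 hv with rfl | rfl <;> simp
  have hDS : ∀ t e, e ∈ D t → ∃ v ∈ e, v ∈ S t := by
    rintro (i | T) e he
    · rcases he with ⟨v, hv, hve⟩ | he
      · exact ⟨v, hve, score i v hv⟩
      · exact ⟨(g i).y, by rw [he]; exact Sym2.mem_mk_left _ _, sy i⟩
    · obtain ⟨v, hv, hve⟩ := he
      exact ⟨v, hve, hv⟩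
  have hSS : ∀ t t', t ≠ t' → Disjoint (S t) (S t') := by
    rintro (i | T) (j | T') hne
    · exact hgg i j fun h => hne (by rw [h])
    · change Disjoint (g i).supp T'.1
      rw [hrT T']
      exact hgd i _ _ _ _ (hrd T')
    · change Disjoint T.1 (g j).supp
      rw [hrT T]
      exact (hgd j _ _ _ _ (hrd T)).symm
    · change Disjoint T.1 T'.1
      have h1 : T.1 ≠ T'.1 := fun h => hne (by rw [Subtype.ext h])
      rw [hrT T, hrT T'] at h1 ⊢
      exact hdd _ _ _ _ _ _ _ _ (hrd T) (hrd T') h1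
  have hmain : ∃ c', (fun c => Proper G c) c' ∧ ∀ t, Post t c' := by
    refine comb F D (fun c => Proper G c) Pre Post ?_ ?_ ?_ ?_ c0 hc0 ?_
    · -- Pre
      rintro (i | T) c c' h hp
      · have e1 := h s((g i).x, (g i).x')
          (Or.inl ⟨(g i).x, Finset.mem_insert_self _ _, Sym2.mem_mk_left _ _⟩)
        have e2 := h s((g i).y, (g i).y') (Or.inr rfl)
        change c' s((g i).x, (g i).x') = c' s((g i).y, (g i).y')
        rw [← e1, ← e2]
        exact hp
      · trivial
    · -- Post
      rintro (i | T) c c' h hp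
      · exact blk_congr (fun v hv b => h _ (Or.inl ⟨v, hv, Sym2.mem_mk_left _ _⟩)) hp
      · have hv : ∀ v ∈ T.1, ∀ b, c s(v, b) = c' s(v, b) := fun v hv b =>
          h _ ⟨v, hv, Sym2.mem_mk_left _ _⟩
        have ma : ra T ∈ T.1 := by rw [hrT T]; simp
        have mk : rk T ∈ T.1 := by rw [hrT T]; simp
        have ml : rl T ∈ T.1 := by rw [hrT T]; simp
        have md : rd T ∈ T.1 := by rw [hrT T]; simp
        exact ⟨diaHalf_congr (hv _ ma) (hv _ mk) (hv _ ml) hp.1,
          diaHalf_congr (hv _ md) (hv _ mk) (hv _ ml) hp.2⟩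
    · -- step
      rintro (i | T) c hc hp
      · have hxy : (g i).x' ≠ (g i).y := fun h => (g i).hy (h ▸ (g i).hx')
        obtain ⟨k1, k2, hk, p1, p2⟩ := recol hG hc (g i).adj (g i).adj' (g i).adjy hxy (g i).hy' hp
        have hoff : ∀ k : Fin 5, ∀ e, e ∉ F (Sum.inl i) →
            Function.update c s((g i).x, (g i).y) k e = c e := by
          intro k e he
          exact Function.update_of_ne (fun h => he h) _ _
        rcases gad_blk hG hs (g i).conn (g i).hx (g i).dgx (g i).adj (g i).hy p1 p2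
          (fun e he => by rw [Function.update_of_ne he, Function.update_of_ne he])
          (by rw [Function.update_self, Function.update_self]; exact hk) with h | h
        · exact ⟨_, p1, hoff k1, h⟩
        · exact ⟨_, p2, hoff k2, h⟩
      · obtain ⟨c', h1, h2, h3, h4⟩ := dia_recol hG hs hc (hrd T)
        exact ⟨c', h1, h2, h3, h4⟩
    · -- disjointness
      intro t t' hne
      rw [Set.disjoint_left]
      intro e he he'
      obtain ⟨v, hv, hvS⟩ := hDS t' e he'
      exact Finset.disjoint_left.1 (hSS t t' hne) (hFS t e he v hv) hvS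
    · -- initial
      rintro (i | T)
      · change c0 s((g i).x, (g i).x') = c0 s((g i).y, (g i).y')
        rw [hc0M _ (by simp only [M, mem_union, mem_image, mem_univ, true_and]; exact Or.inl ⟨i, rfl⟩),
          hc0M _ (by simp only [M, mem_union, mem_image, mem_univ, true_and]; exact Or.inr ⟨i, rfl⟩)]
      · trivial
  obtain ⟨c, hc, hpost⟩ := hmain
  refine ⟨c, hc, fun i => hpost (Sum.inl i), fun a k l d hd => ?_⟩
  let T : ColDS G := ⟨{a, k, l, d}, a, k, l, d, hd, rfl⟩
  have hT : DiaHalf G c s (ra T) (rk T) (rl T) ∧ DiaHalf G c s (rd T) (rk T) (rl T) :=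
    hpost (Sum.inr T)
  obtain ⟨h1, h2⟩ := col_dia hd (hrd T) (hrT T)
  rcases h1 with ⟨h1, h1'⟩ | ⟨h1, h1'⟩ <;> rcases h2 with ⟨h2, h2'⟩ | ⟨h2, h2'⟩
  · rw [h1, h1', h2, h2']; exact hT
  · rw [h1, h1', h2, h2']; exact ⟨diaHalf_symm hT.1, diaHalf_symm hT.2⟩
  · rw [h1, h1', h2, h2']; exact ⟨hT.2, hT.1⟩
  · rw [h1, h1', h2, h2']; exact ⟨diaHalf_symm hT.2, diaHalf_symm hT.1⟩

end

end SL
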