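import Pool.Agent.H53.SL.Base

/-!
# Module CYC: existence of gadgets (150 lines)

`exists_conn`: take a nonempty subset `Y'` of `Y` with `2|Y'| ≤ cut Y' Y'` of minimal cardinality.
`|Y'| ≤ 2` is impossible (`cut ≤ 2`), so `|Y'| ≥ 3`.  For `x ∈ Y'` and `A = Y'.erase x` we have
`cut Y' Y' = cut A A + 2 dg A x` (`cut_insert_self`) and by minimality `cut A A < 2|A|`.  Write
`cut Y' Y' = 2|Y'| + 2k` (`cut_self_even`): `2 dg A x > 2k + 2`, so `dg A x ≥ k + 2` for all `x ∈ Y'`.
Since `Σ_{x ∈ Y'} dg Y' x = cut Y' Y'`: `|Y'| (k+2) ≤ 2|Y'| + 2k`, so `k = 0` and all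
`dg A x = 2`.  Take any `x`.  `Conn G A`: if `B ⊂ A` is nonempty, `C = A \ B` nonempty and there is no
edge from `B` to `C`, then `cut A A = cut B B + cut C C ≤ (2|B| - 2) + (2|C| - 2)` by
minimality (and parity), but `cut A A = 2|Y'| - 4 = 2|A| - 2 = 2|B| + 2|C| - 2`: contradiction.

`gadget_of`: apply `exists_conn` to `W`; the third neighbour `y` of `x` is not in `A` (`dg A x = 2`),
`y ∈ Q`, `2 ≤ dg Q y`, so there is `y' ∈ Q`, `y' ~ y`, `y' ≠ x`; choose `x'` among the two
neighbours of `x` in `A` with `x' ≠ y'`.  All of `A ∪ {x}` is in `W ⊆ Q`.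
-/

namespace SL

open Classical Finset

noncomputable section

variable {V : Type}

theorem cyc_dg_erase {G : SimpleGraph V} {Y : Finset V} {x : V} (hx : x ∈ Y) :
    dg G Y x = dg G (Y.erase x) x := by
  have h : dg G (insert x (Y.erase x)) x = dg G (Y.erase x) x + if G.Adj x x then 1 else 0 :=
    dg_insert G (Finset.notMem_erase x Y) x
  rw [Finset.insert_erase hx] at h
  simpa using h

theorem cyc_dg_le {G : SimpleGraph V} (A : Finset V) (x : V) : dg G A x ≤ A.card :=
  Finset.card_filter_le _ _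

theorem exists_conn {G : SimpleGraph V} {Y : Finset V} (hne : Y.Nonempty)
    (h : 2 * Y.card ≤ cut G Y Y) :
    ∃ (A : Finset V) (x : V), x ∉ A ∧ insert x A ⊆ Y ∧ Conn G A ∧ dg G A x = 2 := by
  obtain ⟨Z, hZmem, hZmin⟩ := Finset.exists_min_image
    (Y.powerset.filter (fun Z => Z.Nonempty ∧ 2 * Z.card ≤ cut G Z Z)) Finset.card
    ⟨Y, by simp [hne, h]⟩
  simp only [mem_filter, mem_powerset] at hZmem hZmin
  obtain ⟨hZY, hZne, hZc⟩ := hZmem
  have hlt : ∀ A, A ⊂ Z → A.Nonempty → cut G A A + 2 ≤ 2 * A.card := by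
    intro A hA hAne
    by_contra hcon
    obtain ⟨k, hk⟩ := cut_self_even G A
    have h1 : 2 * A.card ≤ cut G A A := by omega
    have h2 := hZmin A ⟨hA.1.trans hZY, hAne, h1⟩
    have h3 := Finset.card_lt_card hA
    omega
  have hzpos : 0 < Z.card := Finset.card_pos.2 hZne
  obtain ⟨m, hm⟩ := cut_self_even G Z
  have hins : ∀ x ∈ Z, cut G Z Z = cut G (Z.erase x) (Z.erase x) + 2 * dg G (Z.erase x) x := by
    intro x hx
    have := cut_insert_self G (Finset.notMem_erase x Z)
    rwa [Finset.insert_erase hx] at this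
  have hcA : ∀ x ∈ Z, (Z.erase x).card + 1 = Z.card := fun x hx =>
    Finset.card_erase_add_one hx
  have hAne : ∀ x ∈ Z, (Z.erase x).Nonempty := by
    intro x hx
    rw [Finset.nonempty_iff_ne_empty]
    intro he
    have h1 := hins x hx
    rw [he] at h1
    have h2 : cut G (∅ : Finset V) ∅ = 0 := by simp [cut]
    rw [h2, dg_empty] at h1
    omega
  have hss : ∀ x ∈ Z, Z.erase x ⊂ Z := fun x hx => Finset.erase_ssubset hx
  have hdeg : ∀ x ∈ Z, m + 2 ≤ dg G (Z.erase x) x + Z.card := by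
    intro x hx
    have h1 := hins x hx
    have h2 := hlt _ (hss x hx) (hAne x hx)
    have h3 := hcA x hx
    omega
  have hz3 : m + 3 ≤ 2 * Z.card := by
    obtain ⟨x, hx⟩ := hZne
    have h1 := hdeg x hx
    have h2 := cyc_dg_le (G := G) (Z.erase x) x
    have h3 := hcA x hx
    omega
  have hmz : Z.card ≤ m := by omega
  have hsum : ∑ x ∈ Z, dg G (Z.erase x) x = m + m := by
    rw [← hm]
    unfold cut
    exact Finset.sum_congr rfl (fun x hx => (cyc_dg_erase hx).symm)
  obtain ⟨k, hk⟩ := Nat.exists_eq_add_of_le hmz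
  have hdeg2 : ∀ x ∈ Z, k + 2 ≤ dg G (Z.erase x) x := by
    intro x hx
    have := hdeg x hx
    omega
  have hkz : Z.card * (k + 2) ≤ m + m := by
    rw [← hsum]
    have := Finset.sum_le_sum hdeg2
    simpa using this
  have hk0 : k = 0 := by
    by_contra hk'
    have hk1 : 1 ≤ k := Nat.one_le_iff_ne_zero.2 hk'
    have hz : 3 ≤ Z.card := by omega
    have h1 : Z.card * k ≤ 2 * k := by
      rw [hk] at hkz
      nlinarith
    have h2 : 3 * k ≤ Z.card * k := Nat.mul_le_mul_right k hz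
    omega
  subst hk0
  have hm2 : m = Z.card := by omega
  have hall : ∀ x ∈ Z, dg G (Z.erase x) x = 2 := by
    have h1 : ∑ x ∈ Z, 2 = ∑ x ∈ Z, dg G (Z.erase x) x := by
      rw [hsum, hm2]
      simp
      ring
    have h2 := (Finset.sum_eq_sum_iff_of_le (fun x hx => by
      have := hdeg2 x hx
      omega)).1 h1
    exact fun x hx => (h2 x hx).symm
  obtain ⟨x, hx⟩ := hZne
  refine ⟨Z.erase x, x, Finset.notMem_erase x Z, ?_, ?_, hall x hx⟩
  · rw [Finset.insert_erase hx]
    exact hZY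
  · intro B hB hBne hBA
    by_contra hcon
    push Not at hcon
    have hcut0 : cut G B (Z.erase x \ B) = 0 := by
      unfold cut
      apply Finset.sum_eq_zero
      intro b hb
      unfold dg
      rw [Finset.card_eq_zero, Finset.filter_eq_empty_iff]
      intro a ha hadj
      rw [Finset.mem_sdiff] at ha
      exact hcon b hb a ha.1 ha.2 hadj
    have hdisj : Disjoint B (Z.erase x \ B) := Finset.disjoint_sdiff
    have hun : B ∪ (Z.erase x \ B) = Z.erase x := Finset.union_sdiff_of_subset hB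
    have hCne : (Z.erase x \ B).Nonempty := by
      rw [Finset.sdiff_nonempty]
      intro hle
      exact hBA (Finset.Subset.antisymm hB hle)
    have h1 : cut G (Z.erase x) (Z.erase x) = cut G B B +
        cut G (Z.erase x \ B) (Z.erase x \ B) := by
      have h2 : cut G (B ∪ (Z.erase x \ B)) (B ∪ (Z.erase x \ B)) = cut G B B +
        cut G (Z.erase x \ B) (Z.erase x \ B) := by
        rw [cut_union_left G hdisj, cut_union_right G hdisj, cut_union_right G hdisj,
          cut_comm G (Z.erase x \ B) B, hcut0]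
        omega
      rwa [hun] at h2
    have hBlt := hlt B (Finset.ssubset_of_subset_of_ssubset hB (hss x hx)) hBne
    have hClt := hlt (Z.erase x \ B)
      (Finset.ssubset_of_subset_of_ssubset Finset.sdiff_subset (hss x hx)) hCne
    have hcard : B.card + (Z.erase x \ B).card = (Z.erase x).card := by
      rw [← Finset.card_union_of_disjoint hdisj, hun]
    have h3 := hins x hx
    have h4 := hall x hx
    have h5 := hcA x hx
    omega

theorem gadget_of [Fintype V] {G : SimpleGraph V} (hG : Cub G) {W Q : Finset V}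
    (hW : ∀ v ∈ W, v ∈ Q ∧ ∀ b, G.Adj v b → b ∈ Q ∧ 2 ≤ dg G Q b) (hne : W.Nonempty)
    (h : 2 * W.card ≤ cut G W W) : ∃ g : Gadget G, g.core ⊆ W ∧ g.supp ⊆ Q := by
  obtain ⟨A, x, hxA, hins, hconn, hdg⟩ := exists_conn hne h
  have hxW : x ∈ W := hins (Finset.mem_insert_self x A)
  have hAW : A ⊆ W := (Finset.subset_insert x A).trans hins
  -- the third neighbour
  have hcomp : dg G Aᶜ x = 1 := by
    have := dg_add_dg_compl G hG A x
    omega
  have hy : ∃ y, y ∉ A ∧ G.Adj x y := by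
    unfold dg at hcomp
    obtain ⟨y, hy⟩ := Finset.card_pos.1 (by omega : 0 < (Aᶜ.filter (fun b => G.Adj x b)).card)
    simp only [mem_filter, mem_compl] at hy
    exact ⟨y, hy.1, hy.2⟩
  obtain ⟨y, hyA, hxy⟩ := hy
  obtain ⟨hyQ, hyd⟩ := (hW x hxW).2 y hxy
  have hy' : ∃ y', y' ∈ Q ∧ G.Adj y y' ∧ y' ≠ x := by
    unfold dg at hyd
    obtain ⟨y', hy', hne'⟩ := Finset.exists_mem_ne (by omega :
      1 < (Q.filter (fun b => G.Adj y b)).card) x
    simp only [mem_filter] at hy'
    exact ⟨y', hy'.1, hy'.2, hne'⟩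
  obtain ⟨y', hy'Q, hyy', hy'x⟩ := hy'
  have hx' : ∃ x', x' ∈ A ∧ G.Adj x x' ∧ x' ≠ y' := by
    unfold dg at hdg
    obtain ⟨x', hx', hne'⟩ := Finset.exists_mem_ne (by omega :
      1 < (A.filter (fun b => G.Adj x b)).card) y'
    simp only [mem_filter] at hx'
    exact ⟨x', hx'.1, hx'.2, hne'⟩
  obtain ⟨x', hx'A, hxx', hx'y'⟩ := hx'
  refine ⟨⟨A, x, y, x', y', hconn, hxA, hdg, hxy, hyA, hx'A, hxx', hyy', hy'x, hx'y'.symm⟩,
    hins, ?_⟩
  intro v hv
  simp only [Gadget.supp, mem_insert] at hv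
  rcases hv with rfl | rfl | rfl | hv
  · exact (hW _ hxW).1
  · exact hyQ
  · exact hy'Q
  · exact (hW v (hAW hv)).1

end

end SL
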