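import Pool.Agent.H53.SL.Geo

/-!
# Module DIAMR: rooted lemma, case 2b (200 lines)

The root `w` is a terminal of the diamond `w, y1, y2, z` and `z` has the third neighbour `z'` in
`A' = A \ {w,y1,y2,z}`; `f` draws `A'`, and one ray of slope `ρ` at `z'` is free.
Choose different `α, β, ζ ∈ T`, `α, β ≠ ρ` (`|T| = 5`).  Write `dir ζ = x • dir α + y • dir β`
(`exists_coord`, `x, y ≠ 0` by `cr_dir_dir`), `a = x • dir α`, `b = -y • dir β`, so `a - b = dir ζ`.
Put `w = 0`, `y1 = a`, `y2 = b`, `z = a + b`.  Let `d = dir ρ` or `-dir ρ` with `dot (a+b) d ≥ 0`.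
The free ray of `f` at `z'` has direction `r = ± dir ρ`; let `κ = ±1` with `κ r = -d`, and place `A'` by
`f' v = κ • (f v - f z') + (a + b) + t • d`, `t` large (so `z' = z + t d`, and the ray of direction
`-d` at `z'` is free, i.e. `f' v ≠ f' z' - s • d` for `s ≥ 0`, `v ∈ A'`, `v ≠ z'`).
Conditions, all valid for all large `t` (`ev_lin_ne_top`, `eventually_gt_atTop`):
(1) `dot (f' v) d > max` of `dot` of the four diamond points with `d` (since `dot d d > 0`);
(2) for `σ ∈ T`, `σ ≠ ρ`, `v ∈ A'`: `cr (f' v) (dir σ) ≠ 0` (`cr d (dir σ) ≠ 0`).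
DrOn: vertices are distinct (the four diamond points: `cr a b ≠ 0`; `A'` by (1)); slopes: `w y1`, `y2 z`:
`α`; `w y2`, `y1 z`: `β`; `y1 y2`: `ζ`; `z z'`: `ρ`; edges inside `A'`: unchanged (homothety
`κ = ±1`, `drOn_homothety`).  There are no other edges (`hw`, `hy1`, `hy2`, `hz`).
Interiors: edges inside the diamond: the other diamond points are not on the line
(`cr a b ≠ 0`), vertices of `A'` by (1) (`dot_openSegment_lt`); edges inside `A'`: diamond points by
`dot_openSegment_gt`; edge `z z'`: `y1`, `y2` are not on the line `z + ℝ d` (`α, β ≠ ρ`); `w`: if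
`w = z + s d` then `s = - dot (a+b) d / dot d d ≤ 0` so not in the open segment; vertices of `A'`: by
the free ray.
RayProp at `w = 0` (used slopes `α, β`): for `σ ∈ T`, `σ ≠ α, β`: `y1`, `y2` are not on the line of
slope `σ`.  If `σ ≠ ρ`: no vertex of `A'` is on the line by (2), and `z` is on at most one of the two
rays (choose the other one; if `z` is on no ray choose any).  If `σ = ρ`: the ray of direction
`-d`: vertices of `A'` and `z` have `dot _ d ≥ 0`, and `> 0` for `A'`; `z = -s d` with `s ≥ 0` and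
`dot z d ≥ 0` gives `z = 0`, impossible.
-/

namespace SL

open Classical Finset Filter Topology

noncomputable section

variable {V : Type}

theorem diamr_three {T : Finset (Option ℝ)} (hT : T.card = 5) {ρ : Option ℝ} (hρ : ρ ∈ T) :
    ∃ α ∈ T, ∃ β ∈ T, ∃ ζ ∈ T, α ≠ β ∧ α ≠ ζ ∧ β ≠ ζ ∧ α ≠ ρ ∧ β ≠ ρ ∧ ζ ≠ ρ := by
  have h1 : (T.erase ρ).card = 4 := by rw [Finset.card_erase_of_mem hρ, hT]
  obtain ⟨α, β, ζ, hα, hβ, hζ, h12, h13, h23⟩ := Finset.two_lt_card_iff.1 (by omega : 2 < (T.erase ρ).card)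
  rw [mem_erase] at hα hβ hζ
  exact ⟨α, hα.2, β, hβ.2, ζ, hζ.2, h12, h13, h23, hα.1, hβ.1, hζ.1⟩

theorem diamr_vec {ρ α β ζ : Option ℝ} (h12 : α ≠ β) (h13 : α ≠ ζ) (h23 : β ≠ ζ) :
    ∃ a b d : ℝ × ℝ, (∃ x : ℝ, x ≠ 0 ∧ a = x • dir α) ∧ (∃ y : ℝ, y ≠ 0 ∧ b = y • dir β) ∧
      a - b = dir ζ ∧ (d = dir ρ ∨ d = - dir ρ) ∧ 0 ≤ dot (a + b) d := by
  obtain ⟨x, y, hxy⟩ := exists_coord (cr_dir_dir h12) (dir ζ)
  have hx : x ≠ 0 := by
    rintro rfl
    apply cr_dir_dir h23
    rw [hxy, zero_smul, zero_add, cr_smul_right, cr_self, mul_zero]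
  have hy : y ≠ 0 := by
    rintro rfl
    apply cr_dir_dir h13
    rw [hxy, zero_smul, add_zero, cr_smul_right, cr_self, mul_zero]
  have hab : x • dir α - (-y) • dir β = dir ζ := by rw [hxy, neg_smul, sub_neg_eq_add]
  by_cases h : 0 ≤ dot (x • dir α + (-y) • dir β) (dir ρ)
  · exact ⟨x • dir α, (-y) • dir β, dir ρ, ⟨x, hx, rfl⟩, ⟨-y, neg_ne_zero.2 hy, rfl⟩, hab,
      Or.inl rfl, h⟩
  · refine ⟨x • dir α, (-y) • dir β, -dir ρ, ⟨x, hx, rfl⟩, ⟨-y, neg_ne_zero.2 hy, rfl⟩, hab,
      Or.inr rfl, ?_⟩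
    rw [dot_neg_right]
    push Not at h
    linarith

theorem diamr_cr_mem {p q r : ℝ × ℝ} (h : r ∈ openSegment ℝ p q) : cr (r - p) (q - p) = 0 :=
  cr_of_mem_openSegment h (cr_self _)

/-- the four points of the parallelogram: no one is in an open side or in the diagonal -/
theorem diamr_par {a b : ℝ × ℝ} (h : cr a b ≠ 0) :
    (b ∉ openSegment ℝ 0 a ∧ a + b ∉ openSegment ℝ 0 a) ∧
    (a ∉ openSegment ℝ 0 b ∧ a + b ∉ openSegment ℝ 0 b) ∧
    (0 ∉ openSegment ℝ a b ∧ a + b ∉ openSegment ℝ a b) ∧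
    (0 ∉ openSegment ℝ a (a + b) ∧ b ∉ openSegment ℝ a (a + b)) ∧
    (0 ∉ openSegment ℝ b (a + b) ∧ a ∉ openSegment ℝ b (a + b)) := by
  obtain ⟨a1, a2⟩ := a
  obtain ⟨b1, b2⟩ := b
  simp only [cr] at h
  refine ⟨⟨?_, ?_⟩, ⟨?_, ?_⟩, ⟨?_, ?_⟩, ⟨?_, ?_⟩, ⟨?_, ?_⟩⟩ <;>
  · intro h'
    have h1 := diamr_cr_mem h'
    simp only [cr, Prod.fst_sub, Prod.snd_sub, Prod.fst_zero, Prod.snd_zero, Prod.fst_add,
      Prod.snd_add] at h1
    apply h
    linarith

/-- the drawing -/
def diamrF (f : V → ℝ × ℝ) (w y1 y2 z : V) (a b c : ℝ × ℝ) (κ : ℝ) : V → ℝ × ℝ :=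
  fun v => if v = w then 0 else if v = y1 then a else if v = y2 then b else
    if v = z then a + b else κ • f v + c

theorem root_dia {S : Set (Option ℝ)} {T : Finset (Option ℝ)} (hT : T.card = 5)
    (hTS : ∀ σ ∈ T, σ ∈ S) {A : Finset V} {G : SimpleGraph V} {w y1 y2 z z' : V}
    (hwA : w ∈ A) (hy1A : y1 ∈ A) (hy2A : y2 ∈ A) (hzA : z ∈ A) (hz'A : z' ∈ A)
    (hw1 : w ≠ y1) (hw2 : w ≠ y2) (hy : y1 ≠ y2) (hzw : z ≠ w) (hz1 : z ≠ y1) (hz2 : z ≠ y2)
    (hz'w : z' ≠ w) (hz'1 : z' ≠ y1) (hz'2 : z' ≠ y2) (hz'z : z' ≠ z)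
    (hw : ∀ b ∈ A, G.Adj w b ↔ b = y1 ∨ b = y2)
    (hy1 : ∀ b ∈ A, G.Adj y1 b ↔ b = w ∨ b = y2 ∨ b = z)
    (hy2 : ∀ b ∈ A, G.Adj y2 b ↔ b = w ∨ b = y1 ∨ b = z)
    (hz : ∀ b ∈ A, G.Adj z b ↔ b = y1 ∨ b = y2 ∨ b = z')
    {f : V → ℝ × ℝ} (hf : DrOn S (A \ {w, y1, y2, z}) G f) {ρ : Option ℝ} (hρ : ρ ∈ T)
    (hr : FreeRay (A \ {w, y1, y2, z}) f z' ρ) :
    ∃ f' : V → ℝ × ℝ, DrOn S A G f' ∧ RayProp T A G f' w := by
  obtain ⟨α, hα, β, hβ, ζ, hζ, h12, h13, h23, hαρ, hβρ, hζρ⟩ := diamr_three hT hρ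
  obtain ⟨a, b, d, ⟨x, hx, rfl⟩, ⟨y, hyy, rfl⟩, habz, hdρ, hdot⟩ :=
    diamr_vec (ρ := ρ) h12 h13 h23
  have ha' : ∀ τ, τ ≠ α → cr (x • dir α) (dir τ) ≠ 0 := fun τ hτ => by
    rw [cr_smul_left]; exact mul_ne_zero hx (cr_dir_dir hτ.symm)
  have hb' : ∀ τ, τ ≠ β → cr (y • dir β) (dir τ) ≠ 0 := fun τ hτ => by
    rw [cr_smul_left]; exact mul_ne_zero hyy (cr_dir_dir hτ.symm)
  have haα : cr (x • dir α) (dir α) = 0 := by rw [cr_smul_left, cr_self, mul_zero]
  have hbβ : cr (y • dir β) (dir β) = 0 := by rw [cr_smul_left, cr_self, mul_zero]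
  have hcr : cr (x • dir α) (y • dir β) ≠ 0 := by
    rw [cr_smul_right]; exact mul_ne_zero hyy (ha' β h12.symm)
  obtain ⟨a, ha⟩ : ∃ a, a = x • dir α := ⟨_, rfl⟩
  obtain ⟨b, hb⟩ : ∃ b, b = y • dir β := ⟨_, rfl⟩
  rw [← ha] at ha' haα hcr habz hdot
  rw [← hb] at hb' hbβ hcr habz hdot
  have hd0 : d ≠ 0 := by
    rcases hdρ with rfl | rfl
    · exact dir_ne_zero _
    · exact neg_ne_zero.2 (dir_ne_zero _)
  have hdd : 0 < dot d d := dot_self_pos hd0
  have hdcr : ∀ p : ℝ × ℝ, cr p d = 0 ↔ cr p (dir ρ) = 0 := by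
    intro p
    rcases hdρ with rfl | rfl
    · exact Iff.rfl
    · rw [cr_neg_right, neg_eq_zero]
  have had : cr a d ≠ 0 := fun h => ha' ρ hαρ.symm ((hdcr a).1 h)
  have hbd : cr b d ≠ 0 := fun h => hb' ρ hβρ.symm ((hdcr b).1 h)
  have hdd' : cr d (dir ρ) = 0 := (hdcr d).1 (cr_self d)
  have hdσ : ∀ σ, σ ≠ ρ → cr d (dir σ) ≠ 0 := by
    intro σ hσ
    rcases hdρ with rfl | rfl
    · exact cr_dir_dir hσ.symm
    · rw [cr_neg_left]; exact neg_ne_zero.2 (cr_dir_dir hσ.symm)
  -- the free ray at `z'`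
  obtain ⟨r, hrρ, hfree⟩ := hr
  obtain ⟨κ, hκ, hκr⟩ : ∃ κ : ℝ, κ * κ = 1 ∧ r = -(κ • d) := by
    rcases hrρ with rfl | rfl <;> rcases hdρ with rfl | rfl
    · exact ⟨-1, by norm_num, by simp⟩
    · exact ⟨1, by norm_num, by simp⟩
    · exact ⟨1, by norm_num, by simp⟩
    · exact ⟨-1, by norm_num, by simp⟩
  have hκ0 : κ ≠ 0 := by rintro rfl; norm_num at hκ
  have hz'A' : z' ∈ A \ {w, y1, y2, z} := by
    simp [hz'A, hz'w, hz'1, hz'2, hz'z]
  -- choice of `t`
  obtain ⟨t, ht0, ht1, ht2⟩ : ∃ t : ℝ, 0 < t ∧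
      (∀ v ∈ A \ {w, y1, y2, z}, |dot a d| + |dot b d| + 1 <
        dot (κ • f v + (a + b + t • d - κ • f z')) d) ∧
      (∀ σ ∈ T, σ ≠ ρ → ∀ v ∈ A \ {w, y1, y2, z},
        cr (κ • f v + (a + b + t • d - κ • f z')) (dir σ) ≠ 0) := by
    have e1 : ∀ᶠ t in (atTop : Filter ℝ), 0 < t := eventually_gt_atTop 0
    have e2 : ∀ᶠ t in (atTop : Filter ℝ), ∀ v ∈ A \ {w, y1, y2, z}, |dot a d| + |dot b d| + 1 <
        dot (κ • f v + (a + b + t • d - κ • f z')) d := by
      rw [Filter.eventually_all_finset]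
      intro v _
      filter_upwards [eventually_gt_atTop ((|dot a d| + |dot b d| + 1 -
        dot (κ • f v + (a + b - κ • f z')) d) / dot d d)] with t ht
      rw [div_lt_iff₀ hdd] at ht
      have : κ • f v + (a + b + t • d - κ • f z') = κ • f v + (a + b - κ • f z') + t • d := by
        abel
      rw [this, dot_add_left, dot_smul_left]
      linarith
    have e3 : ∀ᶠ t in (atTop : Filter ℝ), ∀ σ ∈ T, σ ≠ ρ → ∀ v ∈ A \ {w, y1, y2, z},
        cr (κ • f v + (a + b + t • d - κ • f z')) (dir σ) ≠ 0 := by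
      rw [Filter.eventually_all_finset]
      intro σ _
      by_cases hσ : σ = ρ
      · exact Filter.Eventually.of_forall fun t h => absurd hσ h
      have : ∀ᶠ t in (atTop : Filter ℝ), ∀ v ∈ A \ {w, y1, y2, z},
          cr (κ • f v + (a + b + t • d - κ • f z')) (dir σ) ≠ 0 := by
        rw [Filter.eventually_all_finset]
        intro v _
        filter_upwards [ev_lin_ne_top (a := cr (κ • f v + (a + b - κ • f z')) (dir σ))
          (hdσ σ hσ)] with t ht
        have : κ • f v + (a + b + t • d - κ • f z') = κ • f v + (a + b - κ • f z') + t • d := by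
          abel
        rw [this, cr_add_left, cr_smul_left]
        exact ht
      exact this.mono fun t h _ => h
    obtain ⟨t, h1, h2, h3⟩ := (e1.and (e2.and e3)).exists
    exact ⟨t, h1, h2, h3⟩
  obtain ⟨c, hc⟩ : ∃ c, c = a + b + t • d - κ • f z' := ⟨_, rfl⟩
  rw [← hc] at ht1 ht2
  obtain ⟨M, hM⟩ : ∃ M, M = |dot a d| + |dot b d| + 1 := ⟨_, rfl⟩
  rw [← hM] at ht1
  set F := diamrF f w y1 y2 z a b c κ with hF
  have hFw : F w = 0 := by simp [hF, diamrF]
  have hF1 : F y1 = a := by simp [hF, diamrF, hw1.symm]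
  have hF2 : F y2 = b := by simp [hF, diamrF, hw2.symm, hy.symm]
  have hFz : F z = a + b := by simp [hF, diamrF, hzw, hz1, hz2]
  have hFA : ∀ v ∈ A \ {w, y1, y2, z}, F v = κ • f v + c := by
    intro v hv
    simp only [Finset.mem_sdiff, Finset.mem_insert, Finset.mem_singleton, not_or] at hv
    simp [hF, diamrF, hv.2.1, hv.2.2.1, hv.2.2.2.1, hv.2.2.2.2]
  have hFz' : F z' = a + b + t • d := by
    rw [hFA z' hz'A', hc]; abel
  -- positions
  have hMa : dot a d < M := by
    have := le_abs_self (dot a d); have := abs_nonneg (dot b d); linarith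
  have hMb : dot b d < M := by
    have := le_abs_self (dot b d); have := abs_nonneg (dot a d); linarith
  have hMab : dot (a + b) d < M := by
    rw [dot_add_left]
    have := le_abs_self (dot a d); have := le_abs_self (dot b d); linarith
  have hM0 : 0 < M := by
    have := abs_nonneg (dot a d); have := abs_nonneg (dot b d); linarith
  have hd00 : dot 0 d = 0 := by simp [dot]
  have hM00 : dot 0 d < M := by rw [hd00]; exact hM0
  have hlow : ∀ v, v = w ∨ v = y1 ∨ v = y2 ∨ v = z → dot (F v) d < M := by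
    rintro v (rfl | rfl | rfl | rfl)
    · rw [hFw]; exact hM00
    · rw [hF1]; exact hMa
    · rw [hF2]; exact hMb
    · rw [hFz]; exact hMab
  have hhigh : ∀ v ∈ A \ {w, y1, y2, z}, M < dot (F v) d := by
    intro v hv; rw [hFA v hv]; exact ht1 v hv
  have hcase : ∀ v ∈ A, (v = w ∨ v = y1 ∨ v = y2 ∨ v = z) ∨ v ∈ A \ {w, y1, y2, z} := by
    intro v hv
    by_cases h : v = w ∨ v = y1 ∨ v = y2 ∨ v = z
    · exact Or.inl h
    · right
      simp only [not_or] at h
      simp [hv, h.1, h.2.1, h.2.2.1, h.2.2.2]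
  have ha0 : a ≠ 0 := by rintro rfl; exact hcr (cr_zero_left _)
  have hb0 : b ≠ 0 := by rintro rfl; exact hcr (cr_zero_right _)
  have hab : a ≠ b := by rintro rfl; exact hcr (cr_self _)
  have hab0 : a + b ≠ 0 := by
    intro h
    apply hcr
    have : b = -a := by rw [eq_neg_iff_add_eq_zero, add_comm]; exact h
    rw [this, cr_neg_right, cr_self, neg_zero]
  have hinj : Set.InjOn F A := by
    intro u hu v hv huv
    rw [mem_coe] at hu hv
    rcases hcase u hu with hu' | hu' <;> rcases hcase v hv with hv' | hv'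
    · rcases hu' with rfl | rfl | rfl | rfl <;> rcases hv' with rfl | rfl | rfl | rfl <;>
        first
        | rfl
        | (exfalso; simp only [hFw, hF1, hF2, hFz] at huv
           first
           | exact ha0 huv
           | exact ha0 huv.symm
           | exact hb0 huv
           | exact hb0 huv.symm
           | exact hab huv
           | exact hab huv.symm
           | exact hab0 huv
           | exact hab0 huv.symm
           | exact hb0 (by simpa using huv)
           | exact ha0 (by simpa using huv)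
           | exact hb0 (by simpa using huv.symm)
           | exact ha0 (by simpa using huv.symm))
    · exfalso
      have h1 := hlow u hu'
      have h2 := hhigh v hv'
      rw [huv] at h1
      linarith
    · exfalso
      have h1 := hlow v hv'
      have h2 := hhigh u hu'
      rw [huv] at h2
      linarith
    · rw [hFA u hu', hFA v hv'] at huv
      exact hf.1 hu' hv' (smul_right_injective _ hκ0 (add_right_cancel huv))
  -- edges
  have hsym : ∀ u v, (slp (F u) (F v) ∈ S ∧ ∀ x ∈ A, x ≠ u → x ≠ v →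
      F x ∉ openSegment ℝ (F u) (F v)) → (slp (F v) (F u) ∈ S ∧ ∀ x ∈ A, x ≠ v → x ≠ u →
      F x ∉ openSegment ℝ (F v) (F u)) := by
    rintro u v ⟨h1, h2⟩
    refine ⟨by rwa [slp_comm], fun x hx hxv hxu => ?_⟩
    rw [openSegment_symm]
    exact h2 x hx hxu hxv
  obtain ⟨⟨p1, p2⟩, ⟨p3, p4⟩, ⟨p5, p6⟩, ⟨p7, p8⟩, ⟨p9, p10⟩⟩ := diamr_par hcr
  have hlowseg : ∀ p q : ℝ × ℝ, dot p d < M → dot q d < M → ∀ x ∈ A \ {w, y1, y2, z},
      F x ∉ openSegment ℝ p q := by
    intro p q hp hq x hx hmem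
    have h1 := dot_openSegment_lt hp hq hmem
    have h2 := hhigh x hx
    linarith
  have s01 : slp 0 a = α := (slp_eq_iff ha0.symm α).2 (by rw [sub_zero]; exact haα)
  have s02 : slp 0 b = β := (slp_eq_iff hb0.symm β).2 (by rw [sub_zero]; exact hbβ)
  have s12 : slp a b = ζ := by
    rw [slp_eq_iff hab, show b - a = -(a - b) by abel, habz, cr_neg_left, cr_self, neg_zero]
  have s13 : slp a (a + b) = β := by
    rw [slp_eq_iff (by simpa using hb0), add_sub_cancel_left]; exact hbβ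
  have s23 : slp b (a + b) = α := by
    rw [slp_eq_iff (by simpa using ha0), add_sub_cancel_right]; exact haα
  have e01 : slp (F w) (F y1) ∈ S ∧ ∀ x ∈ A, x ≠ w → x ≠ y1 →
      F x ∉ openSegment ℝ (F w) (F y1) := by
    rw [hFw, hF1]
    refine ⟨by rw [s01]; exact hTS α hα, fun x hx h1 h2 => ?_⟩
    rcases hcase x hx with (rfl | rfl | rfl | rfl) | hx'
    · exact absurd rfl h1
    · exact absurd rfl h2
    · rw [hF2]; exact p1
    · rw [hFz]; exact p2
    · exact hlowseg _ _ hM00 hMa x hx'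
  have e02 : slp (F w) (F y2) ∈ S ∧ ∀ x ∈ A, x ≠ w → x ≠ y2 →
      F x ∉ openSegment ℝ (F w) (F y2) := by
    rw [hFw, hF2]
    refine ⟨by rw [s02]; exact hTS β hβ, fun x hx h1 h2 => ?_⟩
    rcases hcase x hx with (rfl | rfl | rfl | rfl) | hx'
    · exact absurd rfl h1
    · rw [hF1]; exact p3
    · exact absurd rfl h2
    · rw [hFz]; exact p4
    · exact hlowseg _ _ hM00 hMb x hx'
  have e12 : slp (F y1) (F y2) ∈ S ∧ ∀ x ∈ A, x ≠ y1 → x ≠ y2 →
      F x ∉ openSegment ℝ (F y1) (F y2) := by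
    rw [hF1, hF2]
    refine ⟨by rw [s12]; exact hTS ζ hζ, fun x hx h1 h2 => ?_⟩
    rcases hcase x hx with (rfl | rfl | rfl | rfl) | hx'
    · rw [hFw]; exact p5
    · exact absurd rfl h1
    · exact absurd rfl h2
    · rw [hFz]; exact p6
    · exact hlowseg _ _ hMa hMb x hx'
  have e13 : slp (F y1) (F z) ∈ S ∧ ∀ x ∈ A, x ≠ y1 → x ≠ z →
      F x ∉ openSegment ℝ (F y1) (F z) := by
    rw [hF1, hFz]
    refine ⟨by rw [s13]; exact hTS β hβ, fun x hx h1 h2 => ?_⟩
    rcases hcase x hx with (rfl | rfl | rfl | rfl) | hx'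
    · rw [hFw]; exact p7
    · exact absurd rfl h1
    · rw [hF2]; exact p8
    · exact absurd rfl h2
    · exact hlowseg _ _ hMa hMab x hx'
  have e23 : slp (F y2) (F z) ∈ S ∧ ∀ x ∈ A, x ≠ y2 → x ≠ z →
      F x ∉ openSegment ℝ (F y2) (F z) := by
    rw [hF2, hFz]
    refine ⟨by rw [s23]; exact hTS α hα, fun x hx h1 h2 => ?_⟩
    rcases hcase x hx with (rfl | rfl | rfl | rfl) | hx'
    · rw [hFw]; exact p9
    · rw [hF1]; exact p10
    · exact absurd rfl h1
    · exact absurd rfl h2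
    · exact hlowseg _ _ hMb hMab x hx'
  have e3 : slp (F z) (F z') ∈ S ∧ ∀ x ∈ A, x ≠ z → x ≠ z' →
      F x ∉ openSegment ℝ (F z) (F z') := by
    rw [hFz, hFz']
    have hne : a + b ≠ a + b + t • d := by
      intro h
      have : t • d = 0 := by simpa using h
      rcases smul_eq_zero.1 this with h | h
      · linarith
      · exact hd0 h
    refine ⟨?_, fun x hx h1 h2 hmem => ?_⟩
    · rw [(slp_eq_iff hne ρ).2 (by rw [add_sub_cancel_left, cr_smul_left, hdd', mul_zero])]
      exact hTS ρ hρ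
    · obtain ⟨s, hs0, hs1, hs⟩ := mem_openSegment_iff'.1 hmem
      rw [add_sub_cancel_left, smul_smul] at hs
      have hst : 0 < s * t := mul_pos hs0 ht0
      rcases hcase x hx with (rfl | rfl | rfl | rfl) | hx'
      · rw [hFw] at hs
        have h3 : dot (a + b + (s * t) • d) d = 0 := by rw [← hs, hd00]
        rw [dot_add_left, dot_smul_left] at h3
        have := mul_pos hst hdd
        linarith
      · rw [hF1] at hs
        apply hbd
        have : b = (-(s * t)) • d := by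
          rw [neg_smul, eq_neg_iff_add_eq_zero]
          have h4 : a + (b + (s * t) • d) = a + 0 := by rw [← add_assoc, ← hs, add_zero]
          exact add_left_cancel h4
        rw [this, cr_smul_left, cr_self, mul_zero]
      · rw [hF2] at hs
        apply had
        have : a = (-(s * t)) • d := by
          rw [neg_smul, eq_neg_iff_add_eq_zero]
          have h4 : b + (a + (s * t) • d) = b + 0 := by
            rw [← add_assoc, add_comm b a, ← hs, add_zero]
          exact add_left_cancel h4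
        rw [this, cr_smul_left, cr_self, mul_zero]
      · exact absurd rfl h1
      · rw [hFA x hx', hc] at hs
        apply hfree x hx' h2 ((1 - s) * t) (mul_nonneg (by linarith) ht0.le)
        have h5 : κ • (f x - f z') = ((s - 1) * t) • d := by
          have h6 : κ • (f x - f z') + (a + b + t • d) = ((s - 1) * t) • d + (a + b + t • d) := by
            rw [smul_sub, sub_mul, one_mul, sub_smul]
            calc κ • f x - κ • f z' + (a + b + t • d)
                = κ • f x + (a + b + t • d - κ • f z') := by abel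
              _ = a + b + (s * t) • d := hs
              _ = (s * t) • d - t • d + (a + b + t • d) := by abel
          exact add_right_cancel h6
        have h7 : f x - f z' = (κ * ((s - 1) * t)) • d := by
          calc f x - f z' = (κ * κ) • (f x - f z') := by rw [hκ, one_smul]
            _ = κ • (κ • (f x - f z')) := by rw [smul_smul]
            _ = _ := by rw [h5, smul_smul]
        rw [hκr, smul_neg, smul_smul]
        have h8 : f x = f z' + (κ * ((s - 1) * t)) • d := by rw [← h7]; abel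
        rw [h8, ← neg_smul]
        congr 2
        ring
  have hAA : ∀ u ∈ A \ {w, y1, y2, z}, ∀ v ∈ A \ {w, y1, y2, z}, G.Adj u v →
      slp (F u) (F v) ∈ S ∧ ∀ x ∈ A, x ≠ u → x ≠ v → F x ∉ openSegment ℝ (F u) (F v) := by
    intro u hu v hv huv
    obtain ⟨h1, h2⟩ := hf.2 u hu v hv huv
    refine ⟨?_, fun x hx hxu hxv => ?_⟩
    · rw [hFA u hu, hFA v hv, slp_homothety hκ0]; exact h1
    · rcases hcase x hx with hx' | hx'
      · intro hmem
        have h3 := dot_openSegment_gt (hhigh u hu) (hhigh v hv) hmem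
        have h4 := hlow x hx'
        linarith
      · rw [hFA u hu, hFA v hv, hFA x hx', openSegment_homothety hκ0]
        exact h2 x hx' hxu hxv
  have hDD : ∀ u, (u = w ∨ u = y1 ∨ u = y2 ∨ u = z) → ∀ v ∈ A, G.Adj u v →
      slp (F u) (F v) ∈ S ∧ ∀ x ∈ A, x ≠ u → x ≠ v → F x ∉ openSegment ℝ (F u) (F v) := by
    rintro u (rfl | rfl | rfl | rfl) v hv huv
    · rcases (hw v hv).1 huv with rfl | rfl
      · exact e01
      · exact e02
    · rcases (hy1 v hv).1 huv with rfl | rfl | rfl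
      · exact hsym _ _ e01
      · exact e12
      · exact e13
    · rcases (hy2 v hv).1 huv with rfl | rfl | rfl
      · exact hsym _ _ e02
      · exact hsym _ _ e12
      · exact e23
    · rcases (hz v hv).1 huv with rfl | rfl | rfl
      · exact hsym _ _ e13
      · exact hsym _ _ e23
      · exact e3
  refine ⟨F, ⟨hinj, fun u hu v hv huv => ?_⟩, ?_⟩
  · rcases hcase u hu with hu' | hu'
    · exact hDD u hu' v hv huv
    · rcases hcase v hv with hv' | hv'
      · exact hsym _ _ (hDD v hv' u hu huv.symm)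
      · exact hAA u hu' v hv' huv
  · intro σ hσ hns
    have hσα : σ ≠ α := by
      rintro rfl
      apply hns y1 hy1A ((hw y1 hy1A).2 (Or.inl rfl))
      rw [hFw, hF1, s01]
    have hσβ : σ ≠ β := by
      rintro rfl
      apply hns y2 hy2A ((hw y2 hy2A).2 (Or.inr rfl))
      rw [hFw, hF2, s02]
    unfold FreeRay
    rw [hFw]
    by_cases hσρ : σ = ρ
    · subst hσρ
      refine ⟨-d, ?_, ?_⟩
      · rcases hdρ with rfl | rfl
        · exact Or.inr rfl
        · exact Or.inl (neg_neg _)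
      · intro v hv hvw s hs heq
        rw [zero_add] at heq
        have hdv : dot (F v) d = -(s * dot d d) := by
          rw [heq, dot_smul_left, dot_neg_left]; ring
        have hs' : 0 ≤ s * dot d d := mul_nonneg hs hdd.le
        rcases hcase v hv with (rfl | rfl | rfl | rfl) | hv'
        · exact hvw rfl
        · rw [hF1] at heq
          apply had
          rw [heq, cr_smul_left, cr_neg_left, cr_self]; ring
        · rw [hF2] at heq
          apply hbd
          rw [heq, cr_smul_left, cr_neg_left, cr_self]; ring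
        · rw [hFz] at heq hdv
          have h0 : s * dot d d = 0 := by linarith
          rcases mul_eq_zero.1 h0 with h1 | h1
          · rw [h1, zero_smul] at heq
            exact hab0 heq
          · linarith
        · have := hhigh v hv'
          linarith
    · -- general slope
      have hgen : ∀ r : ℝ × ℝ, (r = dir σ ∨ r = - dir σ) →
          (∀ s : ℝ, 0 ≤ s → a + b ≠ s • r) → ∀ v ∈ A, v ≠ w → ∀ s : ℝ, 0 ≤ s →
            F v ≠ 0 + s • r := by
        intro r hrσ hab' v hv hvw s hs heq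
        rw [zero_add] at heq
        have hcrv : cr (F v) (dir σ) = 0 := by
          rw [heq, cr_smul_left]
          rcases hrσ with rfl | rfl
          · rw [cr_self, mul_zero]
          · rw [cr_neg_left, cr_self, neg_zero, mul_zero]
        rcases hcase v hv with (rfl | rfl | rfl | rfl) | hv'
        · exact hvw rfl
        · rw [hF1] at hcrv; exact ha' σ hσα hcrv
        · rw [hF2] at hcrv; exact hb' σ hσβ hcrv
        · rw [hFz] at heq; exact hab' s hs heq
        · rw [hFA v hv'] at hcrv; exact ht2 σ hσ hσρ v hv' hcrv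
      by_cases hex : ∃ s : ℝ, 0 ≤ s ∧ a + b = s • dir σ
      · obtain ⟨s, hs, hs'⟩ := hex
        refine ⟨-dir σ, Or.inr rfl, hgen _ (Or.inr rfl) ?_⟩
        intro s1 hs1 heq
        have h1 : (s + s1) • dir σ = 0 := by
          rw [add_smul, ← hs', heq, smul_neg, neg_add_cancel]
        rcases smul_eq_zero.1 h1 with h2 | h2
        · have h3 : s = 0 := by linarith
          rw [h3, zero_smul] at hs'
          exact hab0 hs'
        · exact dir_ne_zero _ h2
      · refine ⟨dir σ, Or.inl rfl, hgen _ (Or.inl rfl) ?_⟩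
        intro s hs heq
        exact hex ⟨s, hs, heq⟩

end

end SL
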