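import Pool.Agent.H53.SL.Geo

/-!
# Module DRAWX: from a generic point of `X` to a drawing (60 lines)

Injectivity: for `u ≠ w` take a neighbour `v ≠ w` of `u` (`exists_three`); then
`cr (x w - x u) _ ≠ 0`, so `x w ≠ x u`.  Slope: `x u ≠ x v` and
`cr (x u - x v) (dir (σ _)) = 0`, so `slp (x u) (x v) = σ _ ∈ S` (`slp_eq_iff`).  If
`x w ∈ openSegment (x u) (x v)`, then `cr (x w - x u) (dir _) = 0` (`cr_of_mem_openSegment`).
-/

namespace SL

open Classical Finset

noncomputable section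

variable {V : Type}

theorem draws_of_generic [Fintype V] {S : Set (Option ℝ)} {G : SimpleGraph V} (hG : Cub G)
    {c : Sym2 V → Fin 5} {σ : Fin 5 → Option ℝ} (hσ : ∀ i, σ i ∈ S) {x : V → ℝ × ℝ}
    (hx : InX G c (fun i => dir (σ i)) x)
    (hg : ∀ u v w, G.Adj u v → w ≠ u → w ≠ v →
      cr (x w - x u) (dir (σ (c s(u, v)))) ≠ 0) : Draws S G := by
  have hnbr : ∀ u w : V, w ≠ u → ∃ v, G.Adj u v ∧ w ≠ v := by
    intro u w hwu
    obtain ⟨a, b, d, hab, _, _, h⟩ := exists_three hG u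
    by_cases hwa : w = a
    · exact ⟨b, (h b).2 (Or.inr (Or.inl rfl)), by rw [hwa]; exact hab⟩
    · exact ⟨a, (h a).2 (Or.inl rfl), hwa⟩
  have hinj : Function.Injective x := by
    intro u w huw
    by_contra hne
    obtain ⟨v, huv, hwv⟩ := hnbr u w (fun h => hne h.symm)
    apply hg u v w huv (fun h => hne h.symm) hwv
    rw [huw, sub_self, cr_zero_left]
  refine ⟨x, hinj, ?_⟩
  intro u v huv
  have hne : x u ≠ x v := fun h => huv.ne (hinj h)
  have hcr : cr (x v - x u) (dir (σ (c s(u, v)))) = 0 := by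
    have h1 := hx u v huv
    rw [show x v - x u = -(x u - x v) by abel, cr_neg_left, h1, neg_zero]
  refine ⟨?_, ?_⟩
  · rw [(slp_eq_iff hne (σ (c s(u, v)))).2 hcr]
    exact hσ _
  · intro w hwu hwv hmem
    exact hg u v w huv hwu hwv (cr_of_mem_openSegment hmem hcr)

end

end SL
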