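import Pool.Agent.H53.SL.Geo

/-!
# Module EXP: expanding a root into a triangle (200-250 lines)

`A' = (A.erase y1).erase y2`; `f` draws `G'` on `A'`; `G'` is `G` on `A'` plus the edges `w z1`, `w z2`
(`w` has no other neighbour in `A'`).  The new drawing `expF ... ε` puts `w, y1, y2` at
`f w + ε p3`, `f w + ε p1`, `f w + ε p2`.  Each of the finitely many requirements of
`DrOn S A G (expF ... ε)` holds for all sufficiently small `ε > 0`
(`Filter.eventually_all_finset` or `(Finset.eventually_all _).2`; use `ev_segment`, `ev_lin_ne`):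
* new vertices differ from old ones (`f v ≠ f w` for `v ∈ A'`, `v ≠ w`; e.g. `ev_segment` with a
  degenerate segment, or continuity), and from each other (`h4` implies that `p1, p2, p3` are
  pairwise different);
* old edge `ab`, `a, b ∈ A'.erase w`: old vertices: unchanged.  New vertices: `f w` is not in
  `segment (f a) (f b)` (not an interior point, not an end point), so `ev_segment`;
* edge `y1 z1`: `f z1 - (f w + ε p1) = (1 - ε t) (f z1 - f w)`, so the slope is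
  `slp (f w) (f z1) ∈ S` if `ε t ≠ 1`; old vertices `v ≠ z1`: `f v ∉ segment (f w) (f z1)`, so
  `ev_segment`; the vertex `z1` itself is an end point; `y2`: `h6`; `w`: it is not on the line through
  `f w` and `f z1` (`h31`).  Edge `y2 z2`: symmetric (`h7`, `h32`);
* edges `y1 y2`, `w y1`, `w y2`: slopes `slp (f w + ε p1) (f w + ε p2) = slp p1 p2` (`slp_homothety`);
  old vertices `v ≠ w`: `f v ∉ segment (f w) (f w)`, `ev_segment`; the third vertex of the triangle is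
  not on the segment (`h4`).

`expand_ray`: if `FreeRay A' f w σ` with direction `r`: for each old `v`, `ev_ray`; if instead
`cr p3 (dir σ) ≠ 0`: for each old `v` eventually `cr (f v - (f w + ε p3)) (dir σ) ≠ 0`
(`ev_lin_ne`), so `v` is on neither ray.  `y1`, `y2` are on neither ray by `hσ1`, `hσ2`.
-/

namespace SL

open Classical Finset Filter Topology

noncomputable section

variable {V : Type}

/-- the expanded drawing -/
def expF (f : V → ℝ × ℝ) (w y1 y2 : V) (p1 p2 p3 : ℝ × ℝ) (ε : ℝ) : V → ℝ × ℝ :=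
  fun v => if v = w then f w + ε • p3 else if v = y1 then f w + ε • p1
    else if v = y2 then f w + ε • p2 else f v

theorem exp_w (f : V → ℝ × ℝ) (w y1 y2 : V) (p1 p2 p3 : ℝ × ℝ) (ε : ℝ) :
    expF f w y1 y2 p1 p2 p3 ε w = f w + ε • p3 := by
  simp [expF]

theorem exp_y1 (f : V → ℝ × ℝ) {w y1 : V} (y2 : V) (p1 p2 p3 : ℝ × ℝ) (ε : ℝ) (h : w ≠ y1) :
    expF f w y1 y2 p1 p2 p3 ε y1 = f w + ε • p1 := by
  unfold expF
  rw [if_neg h.symm, if_pos rfl]

theorem exp_y2 (f : V → ℝ × ℝ) {w y1 y2 : V} (p1 p2 p3 : ℝ × ℝ) (ε : ℝ) (h : w ≠ y2)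
    (h' : y1 ≠ y2) : expF f w y1 y2 p1 p2 p3 ε y2 = f w + ε • p2 := by
  unfold expF
  rw [if_neg h.symm, if_neg h'.symm, if_pos rfl]

theorem exp_old (f : V → ℝ × ℝ) {w y1 y2 v : V} (p1 p2 p3 : ℝ × ℝ) (ε : ℝ) (h : v ≠ w)
    (h' : v ≠ y1) (h'' : v ≠ y2) : expF f w y1 y2 p1 p2 p3 ε v = f v := by
  unfold expF
  rw [if_neg h, if_neg h', if_neg h'']

theorem exp_mem_old {A : Finset V} {w y1 y2 v : V} :
    v ∈ ((A.erase y1).erase y2).erase w ↔ v ≠ w ∧ v ≠ y2 ∧ v ≠ y1 ∧ v ∈ A := by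
  simp only [Finset.mem_erase]

/-- an old vertex avoids a segment which starts near `f w` -/
theorem exp_ev1 {q c a' b' : ℝ × ℝ} {e : ℝ × ℝ} (h : q ∉ segment ℝ c e) :
    ∀ᶠ ε in 𝓝[>] (0 : ℝ), q ∉ segment ℝ (c + ε • a') (e + ε • b') := by
  have := ev_segment (p' := 0) (a' := a') (b' := b') h
  simpa using this

theorem exp_ev2 {q c a' : ℝ × ℝ} {e : ℝ × ℝ} (h : q ∉ segment ℝ c e) :
    ∀ᶠ ε in 𝓝[>] (0 : ℝ), q ∉ segment ℝ (c + ε • a') e := by
  have := ev_segment (p' := 0) (a' := a') (b' := 0) h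
  simpa using this

theorem exp_ev3 {q c p' : ℝ × ℝ} {e : ℝ × ℝ} (h : q ∉ segment ℝ c e) :
    ∀ᶠ ε in 𝓝[>] (0 : ℝ), q + ε • p' ∉ segment ℝ c e := by
  have := ev_segment (p' := p') (a' := 0) (b' := 0) h
  simpa using this

/-- not in the open segment and different from both ends -/
theorem exp_seg {p q r : ℝ × ℝ} (h1 : r ≠ p) (h2 : r ≠ q) (h3 : r ∉ openSegment ℝ p q) :
    r ∉ segment ℝ p q := by
  intro h
  obtain ⟨t, h0, ht1, ht⟩ := mem_segment_iff'.1 h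
  rcases eq_or_lt_of_le h0 with h4 | h4
  · subst h4
    apply h1
    rw [ht, zero_smul, add_zero]
  rcases eq_or_lt_of_le ht1 with h5 | h5
  · subst h5
    apply h2
    rw [ht, one_smul]
    abel
  · exact h3 (mem_openSegment_iff'.2 ⟨t, h4, h5, ht⟩)

theorem exp_open {p q r : ℝ × ℝ} (h : r ∉ segment ℝ p q) : r ∉ openSegment ℝ p q :=
  fun h' => h (openSegment_subset_segment ℝ p q h')

/-- the third vertex of a small triangle -/
theorem exp_third {c a b d : ℝ × ℝ} {ε : ℝ} (hε : 0 < ε) (h : cr (a - d) (b - d) ≠ 0) :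
    c + ε • d ∉ openSegment ℝ (c + ε • a) (c + ε • b) := by
  intro hm
  obtain ⟨t, h0, h1, ht⟩ := mem_openSegment_iff'.1 hm
  apply h
  have h2 : ε • d = ε • (a + t • (b - a)) := by
    have h3 : c + ε • d = c + ε • (a + t • (b - a)) := by
      rw [ht, smul_add ε, smul_comm ε t, smul_sub ε]
      abel_nf
    exact add_left_cancel h3
  have h4 : d = a + t • (b - a) := smul_right_injective _ hε.ne' h2
  have h5 : a - d = (-t) • (b - a) := by rw [h4, neg_smul]; abel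
  have h6 : b - d = (1 - t) • (b - a) := by rw [h4, sub_smul, one_smul]; abel
  rw [h5, h6, cr_smul_left, cr_smul_right, cr_self, mul_zero, mul_zero]

theorem exp_slp (c p q : ℝ × ℝ) {ε : ℝ} (hε : 0 < ε) :
    slp (c + ε • p) (c + ε • q) = slp p q := by
  rw [add_comm c, add_comm c]
  exact slp_homothety hε.ne' c p q

/-- the edge from `f w + ε p1` to `f z1` -/
theorem exp_edge {c z p d : ℝ × ℝ} {ε t : ℝ} (hε : 0 < ε) (hcz : c ≠ z) (hp : p = t • (z - c))
    (ht : 1 + ε * (-t) ≠ 0) (hd : cr d (z - c) ≠ 0) :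
    slp (c + ε • p) z = slp c z ∧ c + ε • d ∉ openSegment ℝ (c + ε • p) z := by
  have h1 : z - (c + ε • p) = (1 + ε * (-t)) • (z - c) := by
    rw [hp, smul_smul, add_smul, one_smul, mul_neg, neg_smul]
    abel
  have hzc : z - c ≠ 0 := sub_ne_zero.2 hcz.symm
  have hne : c + ε • p ≠ z := by
    intro h
    rw [h, sub_self] at h1
    rcases smul_eq_zero.1 h1.symm with h2 | h2
    · exact ht h2
    · exact hzc h2
  refine ⟨?_, ?_⟩
  · apply slp_eq_of_cr hne hcz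
    rw [h1, cr_smul_left, cr_self, mul_zero]
  · intro hm
    have h2 := cr_of_mem_openSegment hm (d := z - c) (by rw [h1, cr_smul_left, cr_self, mul_zero])
    have h3 : c + ε • d - (c + ε • p) = ε • d - (ε * t) • (z - c) := by
      rw [hp, smul_smul]; abel
    rw [h3, cr_sub_left, cr_smul_left, cr_smul_left, cr_self, mul_zero, sub_zero] at h2
    rcases mul_eq_zero.1 h2 with h4 | h4
    · exact hε.ne' h4
    · exact hd h4

theorem expand {S : Set (Option ℝ)} {A : Finset V} {G G' : SimpleGraph V}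
    {w y1 y2 z1 z2 : V} (hwA : w ∈ A) (hz1A : z1 ∈ A)
    (hz2A : z2 ∈ A) (hw1 : w ≠ y1) (hw2 : w ≠ y2) (hy : y1 ≠ y2) (hz1w : z1 ≠ w)
    (hz11 : z1 ≠ y1) (hz12 : z1 ≠ y2) (hz2w : z2 ≠ w) (hz21 : z2 ≠ y1) (hz22 : z2 ≠ y2)
    (hw : ∀ b ∈ A, G.Adj w b ↔ b = y1 ∨ b = y2)
    (hy1 : ∀ b ∈ A, G.Adj y1 b ↔ b = w ∨ b = y2 ∨ b = z1)
    (hy2 : ∀ b ∈ A, G.Adj y2 b ↔ b = w ∨ b = y1 ∨ b = z2)
    (hG' : ∀ a ∈ (A.erase y1).erase y2, ∀ b ∈ (A.erase y1).erase y2,
      G'.Adj a b ↔ G.Adj a b ∨ (a = w ∧ (b = z1 ∨ b = z2)) ∨ (b = w ∧ (a = z1 ∨ a = z2)))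
    {f : V → ℝ × ℝ} (hf : DrOn S ((A.erase y1).erase y2) G' f) {p1 p2 p3 : ℝ × ℝ}
    (h1 : ∃ t : ℝ, t ≠ 0 ∧ p1 = t • (f z1 - f w)) (h2 : ∃ t : ℝ, t ≠ 0 ∧ p2 = t • (f z2 - f w))
    (h31 : cr p3 (f z1 - f w) ≠ 0) (h32 : cr p3 (f z2 - f w) ≠ 0)
    (h4 : cr (p1 - p3) (p2 - p3) ≠ 0)
    (s12 : slp p1 p2 ∈ S) (s31 : slp p3 p1 ∈ S) (s32 : slp p3 p2 ∈ S)
    (h6 : ∀ ε : ℝ, 0 < ε → f w + ε • p2 ∉ segment ℝ (f w + ε • p1) (f z1))
    (h7 : ∀ ε : ℝ, 0 < ε → f w + ε • p1 ∉ segment ℝ (f w + ε • p2) (f z2)) :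
    ∀ᶠ ε in 𝓝[>] (0 : ℝ), DrOn S A G (expF f w y1 y2 p1 p2 p3 ε) := by
  obtain ⟨t1, ht1, hp1⟩ := h1
  obtain ⟨t2, ht2, hp2⟩ := h2
  set old : Finset V := ((A.erase y1).erase y2).erase w with hold
  have mold : ∀ v, v ∈ old ↔ v ≠ w ∧ v ≠ y2 ∧ v ≠ y1 ∧ v ∈ A := fun v => exp_mem_old
  have oldA' : ∀ v ∈ old, v ∈ (A.erase y1).erase y2 := fun v hv => Finset.mem_of_mem_erase hv
  have wA' : w ∈ (A.erase y1).erase y2 :=
    Finset.mem_erase.2 ⟨hw2, Finset.mem_erase.2 ⟨hw1, hwA⟩⟩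
  have hz1o : z1 ∈ old := (mold z1).2 ⟨hz1w, hz12, hz11, hz1A⟩
  have hz2o : z2 ∈ old := (mold z2).2 ⟨hz2w, hz22, hz21, hz2A⟩
  have hGz1 : G'.Adj w z1 := (hG' w wA' z1 (oldA' _ hz1o)).2 (Or.inr (Or.inl ⟨rfl, Or.inl rfl⟩))
  have hGz2 : G'.Adj w z2 := (hG' w wA' z2 (oldA' _ hz2o)).2 (Or.inr (Or.inl ⟨rfl, Or.inr rfl⟩))
  have hinj : ∀ a ∈ (A.erase y1).erase y2, ∀ b ∈ (A.erase y1).erase y2, a ≠ b → f a ≠ f b :=
    fun a ha b hb hab h => hab (hf.1 ha hb h)
  have hfw : ∀ v ∈ old, f v ≠ f w := fun v hv => hinj v (oldA' v hv) w wA' ((mold v).1 hv).1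
  -- events
  have hself : ∀ v ∈ old, f v ∉ segment ℝ (f w) (f w) := by
    intro v hv
    rw [segment_same]
    exact hfw v hv
  have E1 : ∀ᶠ ε in 𝓝[>] (0 : ℝ), ∀ v ∈ old, f v ∉ segment ℝ (f w + ε • p1) (f w + ε • p2) :=
    (Filter.eventually_all_finset _).2 (fun v hv => exp_ev1 (hself v hv))
  have E2 : ∀ᶠ ε in 𝓝[>] (0 : ℝ), ∀ v ∈ old, f v ∉ segment ℝ (f w + ε • p3) (f w + ε • p1) :=
    (Filter.eventually_all_finset _).2 (fun v hv => exp_ev1 (hself v hv))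
  have E3 : ∀ᶠ ε in 𝓝[>] (0 : ℝ), ∀ v ∈ old, f v ∉ segment ℝ (f w + ε • p3) (f w + ε • p2) :=
    (Filter.eventually_all_finset _).2 (fun v hv => exp_ev1 (hself v hv))
  have hwseg : ∀ a ∈ old, ∀ b ∈ old, G.Adj a b → f w ∉ segment ℝ (f a) (f b) := by
    intro a ha b hb hab
    have hab' : G'.Adj a b := (hG' a (oldA' a ha) b (oldA' b hb)).2 (Or.inl hab)
    exact exp_seg (hfw a ha).symm (hfw b hb).symm
      ((hf.2 a (oldA' a ha) b (oldA' b hb) hab').2 w wA' ((mold a).1 ha).1.symm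
        ((mold b).1 hb).1.symm)
  have E4 : ∀ p' : ℝ × ℝ, ∀ᶠ ε in 𝓝[>] (0 : ℝ), ∀ a ∈ old, ∀ b ∈ old, G.Adj a b →
      f w + ε • p' ∉ segment ℝ (f a) (f b) := by
    intro p'
    refine (Filter.eventually_all_finset _).2 (fun a ha => ?_)
    refine (Filter.eventually_all_finset _).2 (fun b hb => ?_)
    by_cases hab : G.Adj a b
    · filter_upwards [exp_ev3 (p' := p') (hwseg a ha b hb hab)] with ε hε _
      exact hε
    · exact Filter.Eventually.of_forall (fun ε h => absurd h hab)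
  have hz1seg : ∀ v ∈ old, v ≠ z1 → f v ∉ segment ℝ (f w) (f z1) := by
    intro v hv hvz
    exact exp_seg (hfw v hv) (hinj v (oldA' v hv) z1 (oldA' _ hz1o) hvz)
      ((hf.2 w wA' z1 (oldA' _ hz1o) hGz1).2 v (oldA' v hv) ((mold v).1 hv).1 hvz)
  have hz2seg : ∀ v ∈ old, v ≠ z2 → f v ∉ segment ℝ (f w) (f z2) := by
    intro v hv hvz
    exact exp_seg (hfw v hv) (hinj v (oldA' v hv) z2 (oldA' _ hz2o) hvz)
      ((hf.2 w wA' z2 (oldA' _ hz2o) hGz2).2 v (oldA' v hv) ((mold v).1 hv).1 hvz)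
  have E5 : ∀ᶠ ε in 𝓝[>] (0 : ℝ), ∀ v ∈ old, v ≠ z1 → f v ∉ segment ℝ (f w + ε • p1) (f z1) := by
    refine (Filter.eventually_all_finset _).2 (fun v hv => ?_)
    by_cases hvz : v = z1
    · exact Filter.Eventually.of_forall (fun ε h => absurd hvz h)
    · filter_upwards [exp_ev2 (a' := p1) (hz1seg v hv hvz)] with ε hε _
      exact hε
  have E6 : ∀ᶠ ε in 𝓝[>] (0 : ℝ), ∀ v ∈ old, v ≠ z2 → f v ∉ segment ℝ (f w + ε • p2) (f z2) := by
    refine (Filter.eventually_all_finset _).2 (fun v hv => ?_)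
    by_cases hvz : v = z2
    · exact Filter.Eventually.of_forall (fun ε h => absurd hvz h)
    · filter_upwards [exp_ev2 (a' := p2) (hz2seg v hv hvz)] with ε hε _
      exact hε
  have E7 : ∀ᶠ ε in 𝓝[>] (0 : ℝ), 1 + ε * (-t1) ≠ 0 := ev_lin_ne (Or.inl one_ne_zero)
  have E8 : ∀ᶠ ε in 𝓝[>] (0 : ℝ), 1 + ε * (-t2) ≠ 0 := ev_lin_ne (Or.inl one_ne_zero)
  filter_upwards [E1, E2, E3, E4 p1, E4 p2, E4 p3, E5, E6, E7, E8, self_mem_nhdsWithin] with
    ε e1 e2 e3 e41 e42 e43 e5 e6 e7 e8 hε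
  have hε0 : 0 < ε := hε
  set F := expF f w y1 y2 p1 p2 p3 ε with hF
  have Fw : F w = f w + ε • p3 := exp_w f w y1 y2 p1 p2 p3 ε
  have F1 : F y1 = f w + ε • p1 := exp_y1 f y2 p1 p2 p3 ε hw1
  have F2 : F y2 = f w + ε • p2 := exp_y2 f p1 p2 p3 ε hw2 hy
  have Fo : ∀ v ∈ old, F v = f v := by
    intro v hv
    obtain ⟨a1, a2, a3, _⟩ := (mold v).1 hv
    exact exp_old f p1 p2 p3 ε a1 a3 a2
  have cases4 : ∀ v ∈ A, v = w ∨ v = y1 ∨ v = y2 ∨ v ∈ old := by
    intro v hv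
    by_cases a1 : v = w
    · exact Or.inl a1
    by_cases a2 : v = y1
    · exact Or.inr (Or.inl a2)
    by_cases a3 : v = y2
    · exact Or.inr (Or.inr (Or.inl a3))
    · exact Or.inr (Or.inr (Or.inr ((mold v).2 ⟨a1, a3, a2, hv⟩)))
  have h4' : cr (p1 - p2) (p3 - p2) ≠ 0 := by
    intro h
    apply h4
    simp only [cr, Prod.fst_sub, Prod.snd_sub] at h ⊢
    linarith
  have h4'' : cr (p3 - p1) (p2 - p1) ≠ 0 := by
    intro h
    apply h4
    simp only [cr, Prod.fst_sub, Prod.snd_sub] at h ⊢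
    linarith
  have n13 : p1 ≠ p3 := by
    intro h; apply h4; rw [h, sub_self, cr_zero_left]
  have n23 : p2 ≠ p3 := by
    intro h; apply h4; rw [h, sub_self, cr_zero_right]
  have n12 : p1 ≠ p2 := by
    intro h; apply h4; rw [h, cr_self]
  have nn : ∀ p q : ℝ × ℝ, p ≠ q → f w + ε • p ≠ f w + ε • q := fun p q hpq h =>
    hpq (smul_right_injective _ hε0.ne' (add_left_cancel h))
  have o1 : ∀ v ∈ old, f v ≠ f w + ε • p1 := fun v hv h => e1 v hv (h ▸ left_mem_segment ℝ _ _)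
  have o2 : ∀ v ∈ old, f v ≠ f w + ε • p2 := fun v hv h => e1 v hv (h ▸ right_mem_segment ℝ _ _)
  have o3 : ∀ v ∈ old, f v ≠ f w + ε • p3 := fun v hv h => e2 v hv (h ▸ left_mem_segment ℝ _ _)
  -- the property of an edge
  set P : V → V → Prop := fun u v => slp (F u) (F v) ∈ S ∧
    ∀ x ∈ A, x ≠ u → x ≠ v → F x ∉ openSegment ℝ (F u) (F v) with hP
  have Psymm : ∀ u v, P u v → P v u := by
    intro u v ⟨a1, a2⟩
    refine ⟨by rwa [slp_comm], fun x hx hxv hxu => ?_⟩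
    rw [openSegment_symm']
    exact a2 x hx hxu hxv
  have Pw1 : P w y1 := by
    refine ⟨?_, fun x hx hxw hxy => ?_⟩
    · rw [Fw, F1, exp_slp _ _ _ hε0]; exact s31
    · rw [Fw, F1]
      rcases cases4 x hx with rfl | rfl | rfl | hxo
      · exact absurd rfl hxw
      · exact absurd rfl hxy
      · rw [F2]; exact exp_third hε0 (by
          intro h
          apply h4'
          simp only [cr, Prod.fst_sub, Prod.snd_sub] at h ⊢
          linarith)
      · rw [Fo x hxo]; exact exp_open (e2 x hxo)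
  have Pw2 : P w y2 := by
    refine ⟨?_, fun x hx hxw hxy => ?_⟩
    · rw [Fw, F2, exp_slp _ _ _ hε0]; exact s32
    · rw [Fw, F2]
      rcases cases4 x hx with rfl | rfl | rfl | hxo
      · exact absurd rfl hxw
      · rw [F1]; exact exp_third hε0 h4''
      · exact absurd rfl hxy
      · rw [Fo x hxo]; exact exp_open (e3 x hxo)
  have P12 : P y1 y2 := by
    refine ⟨?_, fun x hx hxw hxy => ?_⟩
    · rw [F1, F2, exp_slp _ _ _ hε0]; exact s12
    · rw [F1, F2]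
      rcases cases4 x hx with rfl | rfl | rfl | hxo
      · rw [Fw]; exact exp_third hε0 h4
      · exact absurd rfl hxw
      · exact absurd rfl hxy
      · rw [Fo x hxo]; exact exp_open (e1 x hxo)
  have P1z : P y1 z1 := by
    obtain ⟨a1, a2⟩ := exp_edge hε0 (hfw z1 hz1o).symm hp1 e7 h31
    refine ⟨?_, fun x hx hxw hxy => ?_⟩
    · rw [F1, Fo z1 hz1o, a1]; exact (hf.2 w wA' z1 (oldA' _ hz1o) hGz1).1
    · rw [F1, Fo z1 hz1o]
      rcases cases4 x hx with rfl | rfl | rfl | hxo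
      · rw [Fw]; exact a2
      · exact absurd rfl hxw
      · rw [F2]; exact exp_open (h6 ε hε0)
      · rw [Fo x hxo]; exact exp_open (e5 x hxo hxy)
  have P2z : P y2 z2 := by
    obtain ⟨a1, a2⟩ := exp_edge hε0 (hfw z2 hz2o).symm hp2 e8 h32
    refine ⟨?_, fun x hx hxw hxy => ?_⟩
    · rw [F2, Fo z2 hz2o, a1]; exact (hf.2 w wA' z2 (oldA' _ hz2o) hGz2).1
    · rw [F2, Fo z2 hz2o]
      rcases cases4 x hx with rfl | rfl | rfl | hxo
      · rw [Fw]; exact a2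
      · rw [F1]; exact exp_open (h7 ε hε0)
      · exact absurd rfl hxw
      · rw [Fo x hxo]; exact exp_open (e6 x hxo hxy)
  have Pab : ∀ a ∈ old, ∀ b ∈ old, G.Adj a b → P a b := by
    intro a ha b hb hab
    have hab' : G'.Adj a b := (hG' a (oldA' a ha) b (oldA' b hb)).2 (Or.inl hab)
    obtain ⟨a1, a2⟩ := hf.2 a (oldA' a ha) b (oldA' b hb) hab'
    refine ⟨?_, fun x hx hxa hxb => ?_⟩
    · rw [Fo a ha, Fo b hb]; exact a1
    · rw [Fo a ha, Fo b hb]
      rcases cases4 x hx with rfl | rfl | rfl | hxo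
      · rw [Fw]; exact exp_open (e43 a ha b hb hab)
      · rw [F1]; exact exp_open (e41 a ha b hb hab)
      · rw [F2]; exact exp_open (e42 a ha b hb hab)
      · rw [Fo x hxo]; exact a2 x (oldA' x hxo) hxa hxb
  have Pnew : ∀ u, u = w ∨ u = y1 ∨ u = y2 → ∀ v ∈ A, G.Adj u v → P u v := by
    intro u hu v hv huv
    rcases hu with rfl | rfl | rfl
    · rcases (hw v hv).1 huv with rfl | rfl
      · exact Pw1
      · exact Pw2
    · rcases (hy1 v hv).1 huv with rfl | rfl | rfl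
      · exact Psymm _ _ Pw1
      · exact P12
      · exact P1z
    · rcases (hy2 v hv).1 huv with rfl | rfl | rfl
      · exact Psymm _ _ Pw2
      · exact Psymm _ _ P12
      · exact P2z
  refine ⟨?_, ?_⟩
  · intro u hu v hv huv
    rw [Finset.mem_coe] at hu hv
    by_contra hne
    rcases cases4 u hu with rfl | rfl | rfl | huo <;> rcases cases4 v hv with rfl | rfl | rfl | hvo
    · exact hne rfl
    · rw [Fw, F1] at huv; exact nn _ _ n13.symm huv
    · rw [Fw, F2] at huv; exact nn _ _ n23.symm huv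
    · rw [Fw, Fo v hvo] at huv; exact o3 v hvo huv.symm
    · rw [Fw, F1] at huv; exact nn _ _ n13 huv
    · exact hne rfl
    · rw [F1, F2] at huv; exact nn _ _ n12 huv
    · rw [F1, Fo v hvo] at huv; exact o1 v hvo huv.symm
    · rw [Fw, F2] at huv; exact nn _ _ n23 huv
    · rw [F1, F2] at huv; exact nn _ _ n12.symm huv
    · exact hne rfl
    · rw [F2, Fo v hvo] at huv; exact o2 v hvo huv.symm
    · rw [Fw, Fo u huo] at huv; exact o3 u huo huv
    · rw [F1, Fo u huo] at huv; exact o1 u huo huv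
    · rw [F2, Fo u huo] at huv; exact o2 u huo huv
    · rw [Fo u huo, Fo v hvo] at huv
      exact hinj u (oldA' u huo) v (oldA' v hvo) hne huv
  · intro u hu v hv huv
    show P u v
    rcases cases4 u hu with hu' | hu' | hu' | huo
    · exact Pnew u (Or.inl hu') v hv huv
    · exact Pnew u (Or.inr (Or.inl hu')) v hv huv
    · exact Pnew u (Or.inr (Or.inr hu')) v hv huv
    · rcases cases4 v hv with hv' | hv' | hv' | hvo
      · exact Psymm _ _ (Pnew v (Or.inl hv') u hu huv.symm)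
      · exact Psymm _ _ (Pnew v (Or.inr (Or.inl hv')) u hu huv.symm)
      · exact Psymm _ _ (Pnew v (Or.inr (Or.inr hv')) u hu huv.symm)
      · exact Pab u huo v hvo huv

/-- a new neighbour is on no ray of slope `σ` -/
theorem exp_ray_new {c p q r : ℝ × ℝ} {σ : Option ℝ} {ε t : ℝ} (hε : 0 < ε)
    (hr : r = dir σ ∨ r = - dir σ) (h : cr (p - q) (dir σ) ≠ 0) :
    c + ε • p ≠ c + ε • q + t • r := by
  intro he
  have h1 : ε • (p - q) = t • r := by
    have h0 : c + ε • p - (c + ε • q) = t • r := by rw [he, add_sub_cancel_left]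
    rw [← h0, smul_sub]
    abel
  have h2 : cr (ε • (p - q)) (dir σ) = 0 := by
    rw [h1, cr_smul_left]
    rcases hr with rfl | rfl
    · rw [cr_self, mul_zero]
    · rw [cr_neg_left, cr_self, neg_zero, mul_zero]
  rw [cr_smul_left] at h2
  rcases mul_eq_zero.1 h2 with h3 | h3
  · exact hε.ne' h3
  · exact h h3

theorem expand_ray {A : Finset V} {w y1 y2 : V} (hw1 : w ≠ y1) (hw2 : w ≠ y2) (hy : y1 ≠ y2)
    {f : V → ℝ × ℝ} {p1 p2 p3 : ℝ × ℝ} {σ : Option ℝ}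
    (h : FreeRay ((A.erase y1).erase y2) f w σ ∨ cr p3 (dir σ) ≠ 0)
    (hσ1 : cr (p1 - p3) (dir σ) ≠ 0) (hσ2 : cr (p2 - p3) (dir σ) ≠ 0) :
    ∀ᶠ ε in 𝓝[>] (0 : ℝ), FreeRay A (expF f w y1 y2 p1 p2 p3 ε) w σ := by
  set old : Finset V := ((A.erase y1).erase y2).erase w with hold
  have mold : ∀ v, v ∈ old ↔ v ≠ w ∧ v ≠ y2 ∧ v ≠ y1 ∧ v ∈ A := fun v => exp_mem_old
  have key : ∃ r : ℝ × ℝ, (r = dir σ ∨ r = - dir σ) ∧ ∀ᶠ ε in 𝓝[>] (0 : ℝ), ∀ v ∈ old,
      ∀ t : ℝ, 0 ≤ t → f v ≠ f w + ε • p3 + t • r := by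
    rcases h with ⟨r, hr, hfree⟩ | hcr
    · refine ⟨r, hr, (Filter.eventually_all_finset _).2 (fun v hv => ?_)⟩
      have hr0 : r ≠ 0 := by
        rcases hr with rfl | rfl
        · exact dir_ne_zero σ
        · exact neg_ne_zero.2 (dir_ne_zero σ)
      exact ev_ray hr0 (hfree v (Finset.mem_of_mem_erase hv) ((mold v).1 hv).1)
    · refine ⟨dir σ, Or.inl rfl, (Filter.eventually_all_finset _).2 (fun v hv => ?_)⟩
      have h1 := ev_lin_ne (a := cr (f v - f w) (dir σ)) (b := - cr p3 (dir σ))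
        (Or.inr (neg_ne_zero.2 hcr))
      filter_upwards [h1] with ε hε t _ he
      apply hε
      have h2 : f v - f w = ε • p3 + t • dir σ := by rw [he]; abel
      rw [h2, cr_add_left, cr_smul_left, cr_smul_left, cr_self]
      ring
  obtain ⟨r, hr, hev⟩ := key
  filter_upwards [hev, self_mem_nhdsWithin] with ε hε hε0
  have hε0 : 0 < ε := hε0
  refine ⟨r, hr, fun v hv hvw t ht => ?_⟩
  rw [exp_w]
  by_cases h1 : v = y1
  · subst h1
    rw [exp_y1 f y2 p1 p2 p3 ε hw1]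
    exact exp_ray_new hε0 hr hσ1
  by_cases h2 : v = y2
  · subst h2
    rw [exp_y2 f p1 p2 p3 ε hw2 hy]
    exact exp_ray_new hε0 hr hσ2
  · rw [exp_old f p1 p2 p3 ε hvw h1 h2]
    exact hε v ((mold v).2 ⟨hvw, h2, h1, hv⟩) t ht

end

end SL
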