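import Pool.Agent.H53.SL.Short

/-!
# Module REG: three far apart short cycles (150-200 lines; uses `short_cyc`)

`|nb A| ≤ 4|A|`; `bd (Z \ X) ≤ bd Z + 3|X|`.  Let `∂Z = {z ∈ Z | z has a neighbour outside Z}`,
`|∂Z| ≤ bd Z ≤ 4`, `X0 = nb ∂Z`, `|X0| ≤ 16`, `Z0 = Z \ X0`: `|Z0| ≥ |Z| - 16`, `bd Z0 ≤ 52`, and
`nb (nb Y) ⊆ Z` for `Y ⊆ Z0` (if `y ∈ Z0`, `y ~ v1 ~ v2`: `v1 ∈ Z` as `y ∉ ∂Z`; `v1 ∉ ∂Z` as
`y ∉ nb ∂Z`; so `v2 ∈ Z`; the other cases are similar).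
With `L = Nat.log 2 |Z|`: `short_cyc` gives `Y1 ⊆ Z0`, `|Y1| ≤ 56 + 2L`;
`Z1 = Z0 \ nb⁴ Y1`, `|nb⁴ Y1| ≤ 256 |Y1|`, `bd Z1 ≤ 52 + 768 |Y1|`; `Y2 ⊆ Z1`,
`|Y2| ≤ 56 + 768|Y1| + 2L`; `Z2 = Z1 \ nb⁴ Y2`, and `Y3 ⊆ Z2`.  The hypotheses `bd Zi < |Zi|` of
`short_cyc` follow from `|Z| > 68 + 1024 (|Y1| + |Y2|)`, true when `2^40 ≤ |Z|`
(`|Z| ≥ 2^L`, `2^L ≥ ...` for `L ≥ 40` by induction).  `Y2 ∩ nb⁴ Y1 = ∅` implies
`nb² Y2 ∩ nb² Y1 = ∅` (if `v` is in both, walk back from `v` to `Y2`: the vertex of `Y2` is in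
`nb² {v} ⊆ nb⁴ Y1`).
-/

namespace SL

open Classical Finset

noncomputable section

theorem reg_mem_nb' {V : Type} [Fintype V] (G : SimpleGraph V) {A : Finset V} {v : V} :
    v ∈ nb G A ↔ ∃ a ∈ A, a = v ∨ G.Adj a v := by
  rw [mem_nb]
  constructor
  · rintro (h | ⟨a, ha, h⟩)
    · exact ⟨v, h, Or.inl rfl⟩
    · exact ⟨a, ha, Or.inr h⟩
  · rintro ⟨a, ha, rfl | h⟩
    · exact Or.inl ha
    · exact Or.inr ⟨a, ha, h⟩

theorem reg_nb_mono {V : Type} [Fintype V] (G : SimpleGraph V) {A B : Finset V} (h : A ⊆ B) :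
    nb G A ⊆ nb G B := by
  intro v hv
  rw [reg_mem_nb'] at hv ⊢
  obtain ⟨a, ha, h'⟩ := hv
  exact ⟨a, h ha, h'⟩

theorem reg_nb_card {V : Type} [Fintype V] {G : SimpleGraph V} (hG : Cub G) (A : Finset V) :
    (nb G A).card ≤ 4 * A.card := by
  have h1 : nb G A ⊆ A ∪ A.biUnion (fun a => univ.filter (fun b => G.Adj a b)) := by
    intro v hv
    rw [mem_nb] at hv
    rw [mem_union, mem_biUnion]
    rcases hv with h | ⟨a, ha, h⟩
    · exact Or.inl h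
    · exact Or.inr ⟨a, ha, by simpa using h⟩
  have h2 : (A.biUnion (fun a => univ.filter (fun b => G.Adj a b))).card ≤ A.card * 3 :=
    Finset.card_biUnion_le_card_mul _ _ _ (fun a _ => (hG a).le)
  have h3 := (Finset.card_le_card h1).trans (Finset.card_union_le _ _)
  omega

theorem reg_nb4_card {V : Type} [Fintype V] {G : SimpleGraph V} (hG : Cub G) (A : Finset V) :
    (nb G (nb G (nb G (nb G A)))).card ≤ 256 * A.card := by
  have h1 := reg_nb_card hG A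
  have h2 := reg_nb_card hG (nb G A)
  have h3 := reg_nb_card hG (nb G (nb G A))
  have h4 := reg_nb_card hG (nb G (nb G (nb G A)))
  omega

theorem reg_bd_sdiff {V : Type} [Fintype V] {G : SimpleGraph V} (hG : Cub G) (Z X : Finset V) :
    bd G (Z \ X) ≤ bd G Z + 3 * X.card := by
  have h1 : bd G (Z \ X) ≤ cut G (Z \ X) (Zᶜ ∪ (X \ Zᶜ)) := by
    unfold bd
    refine cut_mono G (Finset.Subset.refl _) ?_
    intro v hv
    simp only [mem_compl, mem_sdiff, mem_union, not_and, not_not] at hv ⊢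
    by_cases h : v ∈ Z
    · exact Or.inr ⟨hv h, h⟩
    · exact Or.inl h
  rw [cut_union_right G Finset.disjoint_sdiff] at h1
  have h2 : cut G (Z \ X) Zᶜ ≤ bd G Z :=
    cut_mono G Finset.sdiff_subset (Finset.Subset.refl _)
  have h3 : cut G (Z \ X) (X \ Zᶜ) ≤ 3 * X.card := by
    rw [cut_comm]
    calc cut G (X \ Zᶜ) (Z \ X) ≤ cut G X univ :=
          cut_mono G Finset.sdiff_subset (Finset.subset_univ _)
      _ = 3 * X.card := by
          unfold cut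
          rw [Finset.sum_congr rfl (fun a _ => hG a)]
          simp [mul_comm]
  omega

/-- the vertices of `Z` with a neighbour outside -/
def regD {V : Type} (G : SimpleGraph V) (Z : Finset V) : Finset V :=
  Z.filter (fun z => ∃ b, G.Adj z b ∧ b ∉ Z)

theorem regD_card {V : Type} [Fintype V] (G : SimpleGraph V) (Z : Finset V) :
    (regD G Z).card ≤ bd G Z := by
  unfold bd cut
  calc (regD G Z).card = ∑ a ∈ regD G Z, 1 := by simp
    _ ≤ ∑ a ∈ regD G Z, dg G Zᶜ a := by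
        refine Finset.sum_le_sum (fun a ha => ?_)
        simp only [regD, mem_filter] at ha
        obtain ⟨_, b, hb, hbZ⟩ := ha
        unfold dg
        exact Finset.card_pos.2 ⟨b, by simp [hb, hbZ]⟩
    _ ≤ ∑ a ∈ Z, dg G Zᶜ a := by
        refine Finset.sum_le_sum_of_subset (fun x hx => ?_)
        simp only [regD, mem_filter] at hx
        exact hx.1

theorem reg_nb_sub {V : Type} [Fintype V] (G : SimpleGraph V) {Z W : Finset V}
    (h : W ⊆ Z \ regD G Z) : nb G W ⊆ Z := by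
  intro v hv
  rw [reg_mem_nb'] at hv
  obtain ⟨a, ha, h'⟩ := hv
  have ha' := h ha
  rw [mem_sdiff] at ha'
  rcases h' with rfl | h'
  · exact ha'.1
  · by_contra hc
    exact ha'.2 (by simp only [regD, mem_filter]; exact ⟨ha'.1, v, h', hc⟩)

theorem reg_nb_sub2 {V : Type} [Fintype V] (G : SimpleGraph V) {Z Y : Finset V}
    (h : Y ⊆ Z \ nb G (regD G Z)) : nb G (nb G Y) ⊆ Z := by
  apply reg_nb_sub
  intro v hv
  have hY : Y ⊆ Z \ regD G Z :=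
    h.trans (Finset.sdiff_subset_sdiff (Finset.Subset.refl _) (subset_nb G _))
  rw [mem_sdiff]
  refine ⟨reg_nb_sub G hY hv, fun hD => ?_⟩
  rw [reg_mem_nb'] at hv
  obtain ⟨a, ha, h'⟩ := hv
  have h1 := h ha
  rw [mem_sdiff] at h1
  rcases h' with rfl | h'
  · exact h1.2 (subset_nb G _ hD)
  · exact h1.2 ((mem_nb G).2 (Or.inr ⟨v, hD, h'.symm⟩))

theorem reg_disj {V : Type} [Fintype V] (G : SimpleGraph V) {Y1 Y2 : Finset V}
    (h : Disjoint Y2 (nb G (nb G (nb G (nb G Y1))))) :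
    Disjoint (nb G (nb G Y1)) (nb G (nb G Y2)) := by
  rw [Finset.disjoint_left]
  intro v h1 h2
  rw [reg_mem_nb'] at h2
  obtain ⟨w, hw, h3⟩ := h2
  rw [reg_mem_nb'] at hw
  obtain ⟨y, hy, h4⟩ := hw
  have hw' : w ∈ nb G (nb G (nb G Y1)) := by
    rw [reg_mem_nb']
    exact ⟨v, h1, h3.imp Eq.symm SimpleGraph.Adj.symm⟩
  have hy' : y ∈ nb G (nb G (nb G (nb G Y1))) := by
    rw [reg_mem_nb']
    exact ⟨w, hw', h4.imp Eq.symm SimpleGraph.Adj.symm⟩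
  exact Finset.disjoint_left.1 h hy hy'

theorem reg_num (L : ℕ) (hL : 40 ≤ L) : 68 + 1024 * (43120 + 1540 * L) < 2 ^ L := by
  induction L, hL using Nat.le_induction with
  | base => norm_num
  | succ n hn ih => rw [pow_succ]; omega

theorem region : ∃ N1 : ℕ, ∀ (V : Type) [Fintype V] (G : SimpleGraph V), Cub G →
    ∀ Z : Finset V, N1 ≤ Z.card → bd G Z ≤ 4 →
    ∃ Y : Fin 3 → Finset V, (∀ i, (Y i).Nonempty ∧ 2 * (Y i).card ≤ cut G (Y i) (Y i) ∧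
      nb G (nb G (Y i)) ⊆ Z) ∧
      ∀ i j, i ≠ j → Disjoint (nb G (nb G (Y i))) (nb G (nb G (Y j))) := by
  refine ⟨2 ^ 40, fun V _ G hG Z hN hbd => ?_⟩
  obtain ⟨L, hL⟩ : ∃ L, L = Nat.log 2 Z.card := ⟨_, rfl⟩
  have hn0 : Z.card ≠ 0 := by
    have : 0 < 2 ^ 40 := by positivity
    omega
  have hL40 : 40 ≤ L := hL ▸ Nat.le_log_of_pow_le (by norm_num) hN
  have hpow : 2 ^ L ≤ Z.card := hL ▸ Nat.pow_log_le_self 2 hn0
  have hnum := reg_num L hL40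
  have hbig : 68 + 1024 * (43120 + 1540 * L) < Z.card := lt_of_lt_of_le hnum hpow
  have hlog : ∀ W : Finset V, W ⊆ Z → Nat.log 2 W.card ≤ L := fun W hW =>
    hL ▸ Nat.log_mono_right (Finset.card_le_card hW)
  -- first step
  obtain ⟨X0, hX0⟩ : ∃ W, W = nb G (regD G Z) := ⟨_, rfl⟩
  have hX0c : X0.card ≤ 16 := by
    have h1 := reg_nb_card hG (regD G Z)
    have h2 := regD_card G Z
    rw [← hX0] at h1
    omega
  obtain ⟨Z0, hZ0⟩ : ∃ W, W = Z \ X0 := ⟨_, rfl⟩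
  have hZ0Z : Z0 ⊆ Z := hZ0 ▸ Finset.sdiff_subset
  have hZ0c : Z.card ≤ Z0.card + X0.card := by
    have := Finset.le_card_sdiff X0 Z
    rw [← hZ0] at this
    omega
  have hZ0b : bd G Z0 ≤ bd G Z + 3 * X0.card := hZ0 ▸ reg_bd_sdiff hG Z X0
  obtain ⟨Y1, hY1Z, hY1n, hY1c, hY1k⟩ := short_cyc hG Z0 (by omega)
  have hl0 := hlog Z0 hZ0Z
  -- second step
  obtain ⟨X1, hX1⟩ : ∃ W, W = nb G (nb G (nb G (nb G Y1))) := ⟨_, rfl⟩
  have hX1c : X1.card ≤ 256 * Y1.card := hX1 ▸ reg_nb4_card hG Y1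
  obtain ⟨Z1, hZ1⟩ : ∃ W, W = Z0 \ X1 := ⟨_, rfl⟩
  have hZ1Z : Z1 ⊆ Z0 := hZ1 ▸ Finset.sdiff_subset
  have hZ1c : Z0.card ≤ Z1.card + X1.card := by
    have := Finset.le_card_sdiff X1 Z0
    rw [← hZ1] at this
    omega
  have hZ1b : bd G Z1 ≤ bd G Z0 + 3 * X1.card := hZ1 ▸ reg_bd_sdiff hG Z0 X1
  obtain ⟨Y2, hY2Z, hY2n, hY2c, hY2k⟩ := short_cyc hG Z1 (by omega)
  have hl1 := hlog Z1 (hZ1Z.trans hZ0Z)
  -- third step
  obtain ⟨X2, hX2⟩ : ∃ W, W = nb G (nb G (nb G (nb G Y2))) := ⟨_, rfl⟩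
  have hX2c : X2.card ≤ 256 * Y2.card := hX2 ▸ reg_nb4_card hG Y2
  obtain ⟨Z2, hZ2⟩ : ∃ W, W = Z1 \ X2 := ⟨_, rfl⟩
  have hZ2Z : Z2 ⊆ Z1 := hZ2 ▸ Finset.sdiff_subset
  have hZ2c : Z1.card ≤ Z2.card + X2.card := by
    have := Finset.le_card_sdiff X2 Z1
    rw [← hZ2] at this
    omega
  have hZ2b : bd G Z2 ≤ bd G Z1 + 3 * X2.card := hZ2 ▸ reg_bd_sdiff hG Z1 X2
  obtain ⟨Y3, hY3Z, hY3n, hY3c, hY3k⟩ := short_cyc hG Z2 (by omega)
  have h12 : Disjoint (nb G (nb G Y1)) (nb G (nb G Y2)) := by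
    apply reg_disj
    rw [← hX1]
    exact Finset.disjoint_of_subset_left hY2Z (hZ1 ▸ Finset.sdiff_disjoint)
  have h13 : Disjoint (nb G (nb G Y1)) (nb G (nb G Y3)) := by
    apply reg_disj
    rw [← hX1]
    exact Finset.disjoint_of_subset_left (hY3Z.trans hZ2Z) (hZ1 ▸ Finset.sdiff_disjoint)
  have h23 : Disjoint (nb G (nb G Y2)) (nb G (nb G Y3)) := by
    apply reg_disj
    rw [← hX2]
    exact Finset.disjoint_of_subset_left hY3Z (hZ2 ▸ Finset.sdiff_disjoint)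
  have hZZ : Z0 ⊆ Z \ nb G (regD G Z) := by rw [hZ0, hX0]
  refine ⟨![Y1, Y2, Y3], ?_, ?_⟩
  · intro i
    fin_cases i
    · exact ⟨hY1n, hY1c, reg_nb_sub2 G (hY1Z.trans hZZ)⟩
    · exact ⟨hY2n, hY2c, reg_nb_sub2 G ((hY2Z.trans hZ1Z).trans hZZ)⟩
    · exact ⟨hY3n, hY3c, reg_nb_sub2 G ((hY3Z.trans (hZ2Z.trans hZ1Z)).trans hZZ)⟩
  · intro i j hij
    fin_cases i <;> fin_cases j
    · exact absurd rfl hij
    · exact h12
    · exact h13
    · exact h12.symm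
    · exact absurd rfl hij
    · exact h23
    · exact h13.symm
    · exact h23.symm
    · exact absurd rfl hij

end

end SL
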