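import Pool.Agent.H53.SL.Side
import Pool.Agent.H53.SL.Cyc
import Pool.Agent.H53.SL.Reg

/-!
# Module FAM: the family of gadgets (200 lines; uses Side.lean, `gadget_of`, `region`)

Let `N1` be from `region`, `N = 3 * N1 + 10`.

* Big minimal sides: if `MinSide G Q`, `6 ≤ |Q|`, `gadget_of` with `W = inner G Q` (use
  `minSide_cases`, whose first alternative has `|Q| ≤ 4`, and `minSide_dg`) gives a gadget `g_Q` with
  `core ⊆ inner Q`, `supp ⊆ Q`.
* Region lemma for gadgets: if `N1 ≤ |Z|`, `bd Z ≤ 4`: `region` gives `Y i` (`i : Fin 3`); `gadget_of`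
  with `W = Y i`, `Q = nb (nb (Y i))` (for `v ∈ Y i`, `b ~ v`: `b ∈ nb (Y i)`, all its three
  neighbours are in `Q`, so `dg Q b = 3`) gives gadgets `h_i` with pairwise disjoint supports
  `⊆ nb (nb (Y i)) ⊆ Z`, core `⊆ Y i`.  Note also: if `nb (nb (Y i)) ⊆ Z` then `core ⊆ Y i ⊆ inner Z`.
* Case B: there are three distinct minimal sides.  `ι = {Q // MinSide G Q ∧ 6 ≤ |Q|}`, `g Q = g_Q`.
* Case A/C: otherwise there is a set `Z` with `N1 ≤ |Z|`, `bd Z ≤ 4`, such that every minimal side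
  is `= Z` or disjoint from `Z`, and (no diamond vertex set meets `Z`):
  no minimal sides: `Z = univ`; otherwise take a minimal side `Q1`, a minimal side `Q2 ⊆ Q1ᶜ`
  (`exists_minSide`, `bd_compl`), there are no others; `Z = Q1` if `N1 ≤ |Q1|`, else `Z = Q2` if
  `N1 ≤ |Q2|`, else `Z = (Q1 ∪ Q2)ᶜ` (`|Z| > N - 2 N1`, `bd Z = bd (Q1 ∪ Q2) ≤ 4`).
  (Take `N1 ≥ 6`, replace `N1` by `max N1 6`.)  Then
  `ι = Fin 3 ⊕ {Q // MinSide G Q ∧ 6 ≤ |Q| ∧ Q ≠ Z}`, `g (inl i) = h_i`, `g (inr Q) = g_Q`.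
  If `Z` itself is a minimal side, the requirement for `Q = Z` is satisfied by `h_0`.
* diamonds: `Dia G a k l d` gives the minimal side `{a,k,l,d}` (`dia_minSide`) of cardinality `≤ 4`, so it
  is different from every `Q` with `6 ≤ |Q|` and from `Z` (`|Z| ≥ N1 ≥ 6`), hence disjoint
  from them (`minSide_disjoint`) and from `Z`.
* `ι` is finite: `Subtype` of the finite type `Finset V`.
-/

namespace SL

open Classical Finset

noncomputable section

theorem Fam_mem_inner {V : Type} (G : SimpleGraph V) (Q : Finset V) (v : V) :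
    v ∈ inner G Q ↔ v ∈ Q ∧ ∀ b, G.Adj v b → b ∈ Q := by
  unfold inner
  exact mem_filter

theorem Fam_big {V : Type} [Fintype V] {G : SimpleGraph V} (hG : Cub G) (h2 : TwoEC G) {Q : Finset V}
    (hQ : MinSide G Q) (h6 : 6 ≤ Q.card) : ∃ g : Gadget G, g.core ⊆ inner G Q ∧ g.supp ⊆ Q := by
  rcases minSide_cases hG h2 hQ with ⟨a, k, l, d, -, hQe⟩ | ⟨-, hne, hcut⟩
  · exfalso
    have h4 : ({a, k, l, d} : Finset V).card ≤ 4 := Finset.card_le_four
    rw [← hQe] at h4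
    omega
  · refine gadget_of hG ?_ hne hcut
    intro v hv
    rw [Fam_mem_inner] at hv
    refine ⟨hv.1, fun b hb => ⟨hv.2 b hb, minSide_dg hG h2 hQ (hv.2 b hb)⟩⟩

theorem Fam_region : ∃ N1 : ℕ, 6 ≤ N1 ∧ ∀ (V : Type) [Fintype V] (G : SimpleGraph V), Cub G →
    ∀ Z : Finset V, N1 ≤ Z.card → bd G Z ≤ 4 →
    ∃ h : Fin 3 → Gadget G, (∀ i, (h i).supp ⊆ Z ∧ (h i).core ⊆ inner G Z) ∧
      ∀ i j, i ≠ j → Disjoint (h i).supp (h j).supp := by
  obtain ⟨N0, hN0⟩ := region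
  refine ⟨max N0 6, le_max_right _ _, ?_⟩
  intro V _ G hG Z hZ hbd
  obtain ⟨Y, hY, hdis⟩ := hN0 V G hG Z ((le_max_left _ _).trans hZ) hbd
  have hex : ∀ i, ∃ g : Gadget G, g.core ⊆ Y i ∧ g.supp ⊆ nb G (nb G (Y i)) := by
    intro i
    refine gadget_of hG ?_ (hY i).1 (hY i).2.1
    intro v hv
    refine ⟨subset_nb G _ (subset_nb G _ hv), ?_⟩
    intro b hb
    have hb1 : b ∈ nb G (Y i) := (mem_nb G).2 (Or.inr ⟨v, hv, hb⟩)
    refine ⟨subset_nb G _ hb1, ?_⟩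
    have h3 : dg G (nb G (nb G (Y i))) b = dg G univ b := by
      unfold dg
      congr 1
      ext w
      simp only [mem_filter, mem_univ, true_and, and_iff_right_iff_imp]
      intro hw
      exact (mem_nb G).2 (Or.inr ⟨b, hb1, hw⟩)
    rw [h3, hG b]
    omega
  choose g hg1 hg2 using hex
  refine ⟨g, fun i => ⟨(hg2 i).trans (hY i).2.2, fun v hv => ?_⟩, fun i j hij => ?_⟩
  · have hvY := hg1 i hv
    rw [Fam_mem_inner]
    refine ⟨(hY i).2.2 (subset_nb G _ (subset_nb G _ hvY)), fun b hb => ?_⟩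
    exact (hY i).2.2 (subset_nb G _ ((mem_nb G).2 (Or.inr ⟨v, hvY, hb⟩)))
  · exact Finset.disjoint_of_subset_left (hg2 i) (Finset.disjoint_of_subset_right (hg2 j) (hdis i j hij))

theorem Fam_Z {V : Type} [Fintype V] {G : SimpleGraph V} {N1 : ℕ}
    (hN1 : 6 ≤ N1) (hV : 3 * N1 + 10 < Fintype.card V)
    (h3 : ¬ ∃ Q1 Q2 Q3, MinSide G Q1 ∧ MinSide G Q2 ∧ MinSide G Q3 ∧ Q1 ≠ Q2 ∧ Q1 ≠ Q3 ∧
          Q2 ≠ Q3) :
    ∃ Z : Finset V, N1 ≤ Z.card ∧ bd G Z ≤ 4 ∧ ∀ Q, MinSide G Q → Q = Z ∨ Disjoint Q Z := by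
  by_cases hno : ∃ Q1, MinSide G Q1
  · obtain ⟨Q1, hQ1⟩ := hno
    obtain ⟨Q2, hQ2s, hQ2⟩ := exists_minSide (G := G) (P := Q1ᶜ) (by
      rw [Finset.nonempty_iff_ne_empty]
      intro h
      exact hQ1.2.1 (by rwa [Finset.compl_eq_empty_iff] at h)) (by
      intro h
      obtain ⟨v, hv⟩ := hQ1.1
      have : v ∈ Q1ᶜ := by rw [h]; exact mem_univ v
      exact (mem_compl.1 this) hv) (by rw [bd_compl]; exact hQ1.2.2.1)
    have hdis : Disjoint Q1 Q2 := by
      rw [Finset.disjoint_left]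
      intro v hv1 hv2
      exact (mem_compl.1 (hQ2s hv2)) hv1
    have hne : Q1 ≠ Q2 := by
      rintro rfl
      exact hQ1.1.ne_empty (by simpa using hdis)
    have hall : ∀ Q, MinSide G Q → Q = Q1 ∨ Q = Q2 := by
      intro Q hQ
      by_contra hcon
      push Not at hcon
      exact h3 ⟨Q1, Q2, Q, hQ1, hQ2, hQ, hne, hcon.1.symm, hcon.2.symm⟩
    by_cases hc1 : N1 ≤ Q1.card
    · refine ⟨Q1, hc1, by rw [hQ1.2.2.1]; omega, ?_⟩
      intro Q hQ
      rcases hall Q hQ with rfl | rfl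
      · exact Or.inl rfl
      · exact Or.inr hdis.symm
    · by_cases hc2 : N1 ≤ Q2.card
      · refine ⟨Q2, hc2, by rw [hQ2.2.2.1]; omega, ?_⟩
        intro Q hQ
        rcases hall Q hQ with rfl | rfl
        · exact Or.inr hdis
        · exact Or.inl rfl
      · refine ⟨(Q1 ∪ Q2)ᶜ, ?_, ?_, ?_⟩
        · rw [Finset.card_compl, Finset.card_union_of_disjoint hdis]
          omega
        · rw [bd_compl]
          have := bd_union G hdis
          rw [hQ1.2.2.1, hQ2.2.2.1] at this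
          omega
        · intro Q hQ
          right
          rw [Finset.disjoint_left]
          intro v hv hv'
          rw [mem_compl, mem_union] at hv'
          rcases hall Q hQ with rfl | rfl
          · exact hv' (Or.inl hv)
          · exact hv' (Or.inr hv)
  · refine ⟨univ, ?_, ?_, ?_⟩
    · rw [Finset.card_univ]; omega
    · rw [bd_univ]; omega
    · intro Q hQ
      exact absurd ⟨Q, hQ⟩ hno

theorem family : ∃ N : ℕ, ∀ (V : Type) [Fintype V] (G : SimpleGraph V), Cub G → TwoEC G →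
    N < Fintype.card V →
    ∃ (ι : Type) (_ : Finite ι) (g : ι → Gadget G),
      (∀ i j, i ≠ j → Disjoint (g i).supp (g j).supp) ∧
      (∀ i a k l d, Dia G a k l d → Disjoint (g i).supp ({a, k, l, d} : Finset V)) ∧
      (∀ Q, MinSide G Q → 6 ≤ Q.card → ∃ i, (g i).core ⊆ inner G Q) ∧
      ((∃ i j k : ι, i ≠ j ∧ i ≠ k ∧ j ≠ k) ∨
        ∃ Q1 Q2 Q3, MinSide G Q1 ∧ MinSide G Q2 ∧ MinSide G Q3 ∧ Q1 ≠ Q2 ∧ Q1 ≠ Q3 ∧
          Q2 ≠ Q3) := by
  obtain ⟨N1, hN6, hN1⟩ := Fam_region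
  refine ⟨3 * N1 + 10, ?_⟩
  intro V _ G hG h2 hV
  -- gadgets of big minimal sides
  have hbig : ∀ Q : {Q : Finset V // MinSide G Q ∧ 6 ≤ Q.card},
      ∃ g : Gadget G, g.core ⊆ inner G Q.1 ∧ g.supp ⊆ Q.1 := fun Q => Fam_big hG h2 Q.2.1 Q.2.2
  choose gb hgb1 hgb2 using hbig
  have hcard4 : ∀ a k l d : V, ({a, k, l, d} : Finset V).card ≤ 4 := fun a k l d => Finset.card_le_four
  by_cases h3 : ∃ Q1 Q2 Q3, MinSide G Q1 ∧ MinSide G Q2 ∧ MinSide G Q3 ∧ Q1 ≠ Q2 ∧ Q1 ≠ Q3 ∧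
          Q2 ≠ Q3
  · refine ⟨{Q : Finset V // MinSide G Q ∧ 6 ≤ Q.card}, inferInstance, gb, ?_, ?_, ?_, Or.inr h3⟩
    · intro Q P hQP
      have hne : Q.1 ≠ P.1 := fun h => hQP (Subtype.ext h)
      exact Finset.disjoint_of_subset_left (hgb2 Q) (Finset.disjoint_of_subset_right (hgb2 P)
        (minSide_disjoint h2 Q.2.1 P.2.1 hne))
    · intro Q a k l d hD
      have hne : Q.1 ≠ ({a, k, l, d} : Finset V) := by
        intro h
        have h4 := hcard4 a k l d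
        rw [← h] at h4
        have := Q.2.2
        omega
      exact Finset.disjoint_of_subset_left (hgb2 Q) (minSide_disjoint h2 Q.2.1 (dia_minSide hG hD) hne)
    · intro Q hQ h6
      exact ⟨⟨Q, hQ, h6⟩, hgb1 ⟨Q, hQ, h6⟩⟩
  · obtain ⟨Z, hZ1, hZ2, hZ3⟩ := Fam_Z hN6 hV h3
    obtain ⟨h, hh1, hh2⟩ := hN1 V G hG Z hZ1 hZ2
    have hDZ : ∀ a k l d, Dia G a k l d → Disjoint ({a, k, l, d} : Finset V) Z := by
      intro a k l d hD
      rcases hZ3 _ (dia_minSide hG hD) with h' | h'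
      · exfalso
        have h4 := hcard4 a k l d
        rw [h'] at h4
        omega
      · exact h'
    refine ⟨Fin 3 ⊕ {Q : Finset V // (MinSide G Q ∧ 6 ≤ Q.card) ∧ Q ≠ Z}, inferInstance,
      Sum.elim h (fun Q => gb ⟨Q.1, Q.2.1⟩), ?_, ?_, ?_, Or.inl ⟨Sum.inl 0, Sum.inl 1, Sum.inl 2, ?_, ?_, ?_⟩⟩
    · have hZQ : ∀ (i : Fin 3) (Q : {Q : Finset V // (MinSide G Q ∧ 6 ≤ Q.card) ∧ Q ≠ Z}),
          Disjoint (h i).supp (gb ⟨Q.1, Q.2.1⟩).supp := by
        intro i Q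
        have hd : Disjoint Q.1 Z := (hZ3 Q.1 Q.2.1.1).resolve_left Q.2.2
        exact Finset.disjoint_of_subset_left (hh1 i).1
          (Finset.disjoint_of_subset_right (hgb2 ⟨Q.1, Q.2.1⟩) hd.symm)
      rintro (i | Q) (j | P) hij
      · exact hh2 i j (fun h' => hij (by rw [h']))
      · exact hZQ i P
      · exact (hZQ j Q).symm
      · have hne : Q.1 ≠ P.1 := fun h' => hij (by rw [Subtype.ext h'])
        exact Finset.disjoint_of_subset_left (hgb2 ⟨Q.1, Q.2.1⟩)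
          (Finset.disjoint_of_subset_right (hgb2 ⟨P.1, P.2.1⟩)
          (minSide_disjoint h2 Q.2.1.1 P.2.1.1 hne))
    · rintro (i | Q) a k l d hD
      · exact Finset.disjoint_of_subset_left (hh1 i).1 (hDZ a k l d hD).symm
      · have hne : Q.1 ≠ ({a, k, l, d} : Finset V) := by
          intro h'
          have h4 := hcard4 a k l d
          rw [← h'] at h4
          have := Q.2.1.2
          omega
        exact Finset.disjoint_of_subset_left (hgb2 ⟨Q.1, Q.2.1⟩)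
          (minSide_disjoint h2 Q.2.1.1 (dia_minSide hG hD) hne)
    · intro Q hQ h6
      by_cases hQZ : Q = Z
      · subst hQZ
        exact ⟨Sum.inl 0, (hh1 0).2⟩
      · exact ⟨Sum.inr ⟨Q, ⟨hQ, h6⟩, hQZ⟩, hgb1 ⟨Q, hQ, h6⟩⟩
    · simp
    · simp
    · simp

end

end SL
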