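import Pool.Agent.H53.SL.Geo

/-!
# Module K4: four slopes (200 lines)

`k4_slopes`: let `f : Fin 4 → ℝ × ℝ` draw `K_4` with `S`.  Two edges with a common end have
different slopes (otherwise the three points are collinear and one is in the open segment of the
other two, `slp_eq_iff`, `mem_openSegment_iff'`).  So each slope is used by at most two edges, and if
by two, by a perfect matching.  The three perfect matchings cannot all be parallel: if
`p1 p2 ∥ p3 p4` and `p1 p3 ∥ p2 p4` then (coordinates in the basis `u = p2 - p1`, `v = p3 - p1`,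
`cr u v ≠ 0`) `p4 - p1 = u + v`; and `u + v` is not parallel to `v - u`.
If `S` has five different elements we are in the first case.  Otherwise `S` has at most four
elements.  The six edges use at least four slopes (three matchings, not all parallel: at least
`3 + 1`), so `S` is exactly the set of used slopes and exactly two of the matchings are parallel, so
`S = {slp 0 u, slp 0 v, slp 0 (u+v), slp 0 (u-v)}` with `u, v` two sides of the parallelogram.

`lin_equiv`: let `L` be the linear map with `L u = u'`, `L v = v'` (coordinates: `exists_coord`; explicit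
matrix by Cramer); `cr (L p) (L q) = (cr u' v' / cr u v) * cr p q`.  Map the drawing by `L`.
Injective, open segments are preserved; an edge with slope in the first set has
`f b - f a` parallel to one of `u, v, u+v, u-v`, so `L (f b) - L (f a)` is parallel to one of
`u', v', u'+v', u'-v'` (`slp_eq_of_cr`, `cr_of_slp_eq`).
-/

namespace SL

open Classical Finset

noncomputable section

variable {V : Type}

/-- three points, none in the open segment of the other two, are not collinear -/
theorem k4_tri {p q r : ℝ × ℝ} (hpq : p ≠ q) (hpr : p ≠ r) (hqr : q ≠ r)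
    (h1 : p ∉ openSegment ℝ q r) (h2 : q ∉ openSegment ℝ p r) (h3 : r ∉ openSegment ℝ p q) :
    cr (q - p) (r - p) ≠ 0 := by
  intro h
  have hd : q - p ≠ 0 := sub_ne_zero.2 hpq.symm
  obtain ⟨t, ht⟩ := exists_smul_of_cr hd (by rw [cr_swap, h, neg_zero] : cr (r - p) (q - p) = 0)
  have hr : r = p + t • (q - p) := by rw [← ht]; abel
  rcases lt_trichotomy t 0 with h0 | h0 | h0
  · -- `p` is between `q` and `r`
    apply h1
    rw [mem_openSegment_iff']
    refine ⟨1 / (1 - t), by apply div_pos <;> linarith, ?_, ?_⟩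
    · rw [div_lt_one (by linarith)]; linarith
    · have e : r - q = (t - 1) • (q - p) := by
        rw [hr]; module
      have hne : (1 : ℝ) - t ≠ 0 := by linarith
      rw [e, smul_smul, show 1 / (1 - t) * (t - 1) = -1 by field_simp; ring]
      module
  · subst h0
    apply hpr
    rw [hr]; module
  · rcases lt_trichotomy t 1 with h4 | h4 | h4
    · exact h3 (mem_openSegment_iff'.2 ⟨t, h0, h4, hr⟩)
    · subst h4
      apply hqr
      rw [hr]; module
    · apply h2
      rw [mem_openSegment_iff']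
      refine ⟨1 / t, by positivity, ?_, ?_⟩
      · rw [div_lt_one (by linarith)]; exact h4
      · rw [ht, smul_smul, show 1 / t * t = 1 by field_simp, one_smul]; abel

theorem k4_ne {p q r : ℝ × ℝ} (hpq : p ≠ q) (hpr : p ≠ r) (h : cr (q - p) (r - p) ≠ 0) :
    slp p q ≠ slp p r := fun he => h (cr_of_slp_eq hpq hpr he)

/-- the data of a drawing of `K_4` -/
structure K4D (S : Set (Option ℝ)) (f : Fin 4 → ℝ × ℝ) : Prop where
  inj : ∀ i j, i ≠ j → f i ≠ f j
  mem : ∀ i j, i ≠ j → slp (f i) (f j) ∈ S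
  tri : ∀ i j k, i ≠ j → i ≠ k → j ≠ k → cr (f j - f i) (f k - f i) ≠ 0

theorem K4D.ne {S : Set (Option ℝ)} {f : Fin 4 → ℝ × ℝ} (h : K4D S f) {i j k : Fin 4}
    (hij : i ≠ j) (hik : i ≠ k) (hjk : j ≠ k) : slp (f i) (f j) ≠ slp (f i) (f k) :=
  k4_ne (h.inj i j hij) (h.inj i k hik) (h.tri i j k hij hik hjk)

theorem k4_five {S : Set (Option ℝ)} {f : Fin 4 → ℝ × ℝ} (h : K4D S f) {a b c d : Fin 4}
    (hab : a ≠ b) (hac : a ≠ c) (had : a ≠ d) (hbc : b ≠ c) (hbd : b ≠ d) (hcd : c ≠ d)
    (h1 : slp (f a) (f c) ≠ slp (f b) (f d)) (h2 : slp (f a) (f d) ≠ slp (f b) (f c)) :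
    ∃ T : Finset (Option ℝ), T.card = 5 ∧ ∀ σ ∈ T, σ ∈ S := by
  refine ⟨{slp (f a) (f b), slp (f a) (f c), slp (f b) (f d), slp (f a) (f d), slp (f b) (f c)},
    ?_, ?_⟩
  · have e1 : slp (f a) (f b) ≠ slp (f a) (f c) := h.ne hab hac hbc
    have e2 : slp (f a) (f b) ≠ slp (f b) (f d) := by
      rw [slp_comm (f a) (f b)]; exact h.ne hab.symm hbd had
    have e3 : slp (f a) (f b) ≠ slp (f a) (f d) := h.ne hab had hbd
    have e4 : slp (f a) (f b) ≠ slp (f b) (f c) := by
      rw [slp_comm (f a) (f b)]; exact h.ne hab.symm hbc hac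
    have e5 : slp (f a) (f c) ≠ slp (f a) (f d) := h.ne hac had hcd
    have e6 : slp (f a) (f c) ≠ slp (f b) (f c) := by
      rw [slp_comm (f a) (f c), slp_comm (f b) (f c)]; exact h.ne hac.symm hbc.symm hab
    have e7 : slp (f b) (f d) ≠ slp (f a) (f d) := by
      rw [slp_comm (f b) (f d), slp_comm (f a) (f d)]; exact h.ne hbd.symm had.symm hab.symm
    have e8 : slp (f b) (f d) ≠ slp (f b) (f c) := h.ne hbd hbc hcd.symm
    rw [Finset.card_insert_of_notMem, Finset.card_insert_of_notMem, Finset.card_insert_of_notMem,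
      Finset.card_pair h2]
    · simp only [mem_insert, mem_singleton, not_or]; exact ⟨e7, e8⟩
    · simp only [mem_insert, mem_singleton, not_or]; exact ⟨h1, e5, e6⟩
    · simp only [mem_insert, mem_singleton, not_or]; exact ⟨e1, e2, e3, e4⟩
  · intro σ hσ
    simp only [mem_insert, mem_singleton] at hσ
    rcases hσ with rfl | rfl | rfl | rfl | rfl
    · exact h.mem _ _ hab
    · exact h.mem _ _ hac
    · exact h.mem _ _ hbd
    · exact h.mem _ _ had
    · exact h.mem _ _ hbc

theorem k4_aux (u v : ℝ × ℝ) : cr (u + v) (v - u) = 2 * cr u v := by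
  simp only [cr, Prod.fst_add, Prod.snd_add, Prod.fst_sub, Prod.snd_sub]; ring

theorem k4_par {S : Set (Option ℝ)} {f : Fin 4 → ℝ × ℝ} (h : K4D S f) {a b c d : Fin 4}
    (hab : a ≠ b) (hac : a ≠ c) (had : a ≠ d) (hbc : b ≠ c) (hbd : b ≠ d) (hcd : c ≠ d)
    (h1 : slp (f a) (f b) = slp (f c) (f d)) (h2 : slp (f a) (f c) = slp (f b) (f d)) :
    (∃ T : Finset (Option ℝ), T.card = 5 ∧ ∀ σ ∈ T, σ ∈ S) ∨
    ∃ u v : ℝ × ℝ, cr u v ≠ 0 ∧ S = {slp 0 u, slp 0 v, slp 0 (u + v), slp 0 (u - v)} := by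
  set u : ℝ × ℝ := f b - f a with hu
  set v : ℝ × ℝ := f c - f a with hv
  have huv : cr u v ≠ 0 := h.tri a b c hab hac hbc
  have c1 : cr u (f d - f c) = 0 := cr_of_slp_eq (h.inj _ _ hab) (h.inj _ _ hcd) h1
  have c2 : cr v (f d - f b) = 0 := cr_of_slp_eq (h.inj _ _ hac) (h.inj _ _ hbd) h2
  have hd : f d - f a = u + v := by
    have h3 : f d - f a - (u + v) = 0 := by
      refine eq_zero_of_cr huv ?_ ?_
      · have : f d - f a - (u + v) = (f d - f c) - u := by rw [hu, hv]; abel
        rw [this, cr_sub_left, cr_self, cr_swap, c1]; ring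
      · have : f d - f a - (u + v) = (f d - f b) - v := by rw [hu, hv]; abel
        rw [this, cr_sub_left, cr_self, cr_swap, c2]; ring
    exact sub_eq_zero.1 h3
  have hu0 : (0 : ℝ × ℝ) ≠ u := by
    intro h0; apply huv; rw [← h0, cr_zero_left]
  have hv0 : (0 : ℝ × ℝ) ≠ v := by
    intro h0; apply huv; rw [← h0, cr_zero_right]
  have huv0 : (0 : ℝ × ℝ) ≠ u + v := by
    intro h0
    have : cr u (u + v) = 0 := by rw [← h0, cr_zero_right]
    rw [cr_add_right, cr_self, zero_add] at this
    exact huv this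
  have huv1 : (0 : ℝ × ℝ) ≠ u - v := by
    intro h0
    have : cr u (u - v) = 0 := by rw [← h0, cr_zero_right]
    rw [cr_sub_right, cr_self, zero_sub] at this
    exact huv (neg_eq_zero.1 this)
  have s1 : slp (f a) (f b) = slp 0 u :=
    slp_eq_of_cr (h.inj _ _ hab) hu0 (by rw [sub_zero, cr_self])
  have s2 : slp (f a) (f c) = slp 0 v :=
    slp_eq_of_cr (h.inj _ _ hac) hv0 (by rw [sub_zero, cr_self])
  have s3 : slp (f a) (f d) = slp 0 (u + v) :=
    slp_eq_of_cr (h.inj _ _ had) huv0 (by rw [sub_zero, hd, cr_self])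
  have s4 : slp (f b) (f c) = slp 0 (u - v) := by
    refine slp_eq_of_cr (h.inj _ _ hbc) huv1 ?_
    have : f c - f b = -(u - v) := by rw [hu, hv]; abel
    rw [sub_zero, this, cr_neg_left, cr_self, neg_zero]
  have e1 : slp (f a) (f b) ≠ slp (f a) (f c) := h.ne hab hac hbc
  have e3 : slp (f a) (f b) ≠ slp (f a) (f d) := h.ne hab had hbd
  have e4 : slp (f a) (f b) ≠ slp (f b) (f c) := by
    rw [slp_comm (f a) (f b)]; exact h.ne hab.symm hbc hac
  have e5 : slp (f a) (f c) ≠ slp (f a) (f d) := h.ne hac had hcd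
  have e6 : slp (f a) (f c) ≠ slp (f b) (f c) := by
    rw [slp_comm (f a) (f c), slp_comm (f b) (f c)]; exact h.ne hac.symm hbc.symm hab
  have e7 : slp (f a) (f d) ≠ slp (f b) (f c) := by
    intro he
    have h3 := cr_of_slp_eq (h.inj _ _ had) (h.inj _ _ hbc) he
    have h4 : f c - f b = v - u := by rw [hu, hv]; abel
    rw [hd, h4, k4_aux] at h3
    apply huv
    linarith
  by_cases hS : ∀ σ ∈ S, σ ∈ ({slp (f a) (f b), slp (f a) (f c), slp (f a) (f d),
      slp (f b) (f c)} : Finset (Option ℝ))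
  · right
    refine ⟨u, v, huv, ?_⟩
    rw [← s1, ← s2, ← s3, ← s4]
    ext σ
    constructor
    · intro hσ
      have := hS σ hσ
      simpa using this
    · intro hσ
      simp only [Set.mem_insert_iff, Set.mem_singleton_iff] at hσ
      rcases hσ with rfl | rfl | rfl | rfl
      · exact h.mem _ _ hab
      · exact h.mem _ _ hac
      · exact h.mem _ _ had
      · exact h.mem _ _ hbc
  · left
    push Not at hS
    obtain ⟨τ, hτ, hτ'⟩ := hS
    refine ⟨insert τ {slp (f a) (f b), slp (f a) (f c), slp (f a) (f d), slp (f b) (f c)}, ?_, ?_⟩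
    · rw [Finset.card_insert_of_notMem hτ', Finset.card_insert_of_notMem,
        Finset.card_insert_of_notMem, Finset.card_pair e7]
      · simp only [mem_insert, mem_singleton, not_or]; exact ⟨e5, e6⟩
      · simp only [mem_insert, mem_singleton, not_or]; exact ⟨e1, e3, e4⟩
    · intro σ hσ
      simp only [mem_insert, mem_singleton] at hσ
      rcases hσ with rfl | rfl | rfl | rfl | rfl
      · exact hτ
      · exact h.mem _ _ hab
      · exact h.mem _ _ hac
      · exact h.mem _ _ had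
      · exact h.mem _ _ hbc

theorem k4_slopes {S : Set (Option ℝ)} (h : Draws S (⊤ : SimpleGraph (Fin 4))) :
    (∃ T : Finset (Option ℝ), T.card = 5 ∧ ∀ σ ∈ T, σ ∈ S) ∨
    ∃ u v : ℝ × ℝ, cr u v ≠ 0 ∧ S = {slp 0 u, slp 0 v, slp 0 (u + v), slp 0 (u - v)} := by
  obtain ⟨f, hinj, hf⟩ := h
  have hne : ∀ i j, i ≠ j → f i ≠ f j := fun i j hij he => hij (hinj he)
  have hD : K4D S f := by
    refine ⟨hne, fun i j hij => (hf i j ((SimpleGraph.top_adj i j).2 hij)).1, ?_⟩
    intro i j k hij hik hjk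
    exact k4_tri (hne _ _ hij) (hne _ _ hik) (hne _ _ hjk)
      ((hf j k ((SimpleGraph.top_adj j k).2 hjk)).2 i hij hik)
      ((hf i k ((SimpleGraph.top_adj i k).2 hik)).2 j hij.symm hjk)
      ((hf i j ((SimpleGraph.top_adj i j).2 hij)).2 k hik.symm hjk.symm)
  have n01 : (0 : Fin 4) ≠ 1 := by decide
  have n02 : (0 : Fin 4) ≠ 2 := by decide
  have n03 : (0 : Fin 4) ≠ 3 := by decide
  have n12 : (1 : Fin 4) ≠ 2 := by decide
  have n13 : (1 : Fin 4) ≠ 3 := by decide
  have n23 : (2 : Fin 4) ≠ 3 := by decide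
  by_cases hP : slp (f 0) (f 1) = slp (f 2) (f 3)
  · by_cases hQ : slp (f 0) (f 2) = slp (f 1) (f 3)
    · exact k4_par hD n01 n02 n03 n12 n13 n23 hP hQ
    · by_cases hR : slp (f 0) (f 3) = slp (f 1) (f 2)
      · exact k4_par hD n01 n03 n02 n13 n12 n23.symm (by rw [hP, slp_comm]) hR
      · exact Or.inl (k4_five hD n01 n02 n03 n12 n13 n23 hQ hR)
  · by_cases hQ : slp (f 0) (f 2) = slp (f 1) (f 3)
    · by_cases hR : slp (f 0) (f 3) = slp (f 1) (f 2)
      · exact k4_par hD n02 n03 n01 n23 n12.symm n13.symm (by rw [hQ, slp_comm])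
          (by rw [hR, slp_comm])
      · exact Or.inl (k4_five hD n02 n01 n03 n12.symm n23 n13 hP
          (fun he => hR (by rw [he, slp_comm])))
    · exact Or.inl (k4_five hD n03 n01 n02 n13.symm n23.symm n12
        (fun he => hP (by rw [he, slp_comm])) (fun he => hQ (by rw [he, slp_comm])))

/-- the linear map with `u ↦ u'`, `v ↦ v'` -/
def k4L (u v u' v' p : ℝ × ℝ) : ℝ × ℝ := (cr p v / cr u v) • u' + (cr u p / cr u v) • v'

theorem k4L_sub (u v u' v' p q : ℝ × ℝ) :
    k4L u v u' v' (p - q) = k4L u v u' v' p - k4L u v u' v' q := by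
  unfold k4L
  rw [cr_sub_left, cr_sub_right, sub_div, sub_div]
  module

theorem k4L_seg (u v u' v' p q : ℝ × ℝ) (t : ℝ) :
    k4L u v u' v' (p + t • (q - p)) =
      k4L u v u' v' p + t • (k4L u v u' v' q - k4L u v u' v' p) := by
  unfold k4L
  rw [cr_add_left, cr_add_right, cr_smul_left, cr_smul_right, cr_sub_left, cr_sub_right, add_div,
    add_div, mul_div_assoc, mul_div_assoc, sub_div, sub_div]
  module

theorem k4L_cr {u v : ℝ × ℝ} (h : cr u v ≠ 0) (u' v' p q : ℝ × ℝ) :
    cr (k4L u v u' v' p) (k4L u v u' v' q) = cr u' v' / cr u v * cr p q := by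
  have key : cr p v * cr u q - cr u p * cr q v = cr p q * cr u v := by
    obtain ⟨p1, p2⟩ := p
    obtain ⟨q1, q2⟩ := q
    obtain ⟨u1, u2⟩ := u
    obtain ⟨v1, v2⟩ := v
    simp only [cr]
    ring
  unfold k4L
  rw [cr_add_left, cr_add_right, cr_add_right, cr_smul_left, cr_smul_left, cr_smul_left,
    cr_smul_left, cr_smul_right, cr_smul_right, cr_smul_right, cr_smul_right, cr_self, cr_self,
    cr_swap u' v']
  have : cr p v / cr u v * (cr u q / cr u v * cr u' v') +
      cr u p / cr u v * (cr q v / cr u v * -cr u' v') =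
      (cr p v * cr u q - cr u p * cr q v) / cr u v / cr u v * cr u' v' := by
    field_simp
    ring
  rw [show cr p v / cr u v * (cr q v / cr u v * 0) + cr p v / cr u v * (cr u q / cr u v * cr u' v') +
      (cr u p / cr u v * (cr q v / cr u v * -cr u' v') + cr u p / cr u v * (cr u q / cr u v * 0)) =
      cr p v / cr u v * (cr u q / cr u v * cr u' v') +
      cr u p / cr u v * (cr q v / cr u v * -cr u' v') by ring, this, key]
  field_simp

theorem k4L_u {u v : ℝ × ℝ} (h : cr u v ≠ 0) (u' v' : ℝ × ℝ) : k4L u v u' v' u = u' := by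
  unfold k4L
  rw [div_self h, cr_self, zero_div, one_smul, zero_smul, add_zero]

theorem k4L_v {u v : ℝ × ℝ} (h : cr u v ≠ 0) (u' v' : ℝ × ℝ) : k4L u v u' v' v = v' := by
  unfold k4L
  rw [div_self h, cr_self, zero_div, one_smul, zero_smul, zero_add]

theorem k4L_add (u v u' v' p q : ℝ × ℝ) :
    k4L u v u' v' (p + q) = k4L u v u' v' p + k4L u v u' v' q := by
  unfold k4L
  rw [cr_add_left, cr_add_right, add_div, add_div]
  module

theorem k4L_inj {u v u' v' : ℝ × ℝ} (h : cr u v ≠ 0) (h' : cr u' v' ≠ 0) :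
    Function.Injective (k4L u v u' v') := by
  intro p q hpq
  have h1 : k4L u v u' v' (p - q) = 0 := by rw [k4L_sub, hpq, sub_self]
  obtain ⟨h2, h3⟩ := cr_indep h' h1
  have h4 : cr (p - q) v = 0 := by
    rcases div_eq_zero_iff.1 h2 with h | h5
    · exact h
    · exact absurd h5 h
  have h5 : cr (p - q) u = 0 := by
    rcases div_eq_zero_iff.1 h3 with h6 | h6
    · rw [cr_swap, h6, neg_zero]
    · exact absurd h6 h
  exact sub_eq_zero.1 (eq_zero_of_cr h h5 h4)

theorem lin_equiv {u v u' v' : ℝ × ℝ} (h : cr u v ≠ 0) (h' : cr u' v' ≠ 0)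
    {G : SimpleGraph V} (hd : Draws {slp 0 u, slp 0 v, slp 0 (u + v), slp 0 (u - v)} G) :
    Draws {slp 0 u', slp 0 v', slp 0 (u' + v'), slp 0 (u' - v')} G := by
  obtain ⟨f, hinj, hf⟩ := hd
  have hL := k4L_inj h h'
  have key : ∀ w : ℝ × ℝ, w ≠ 0 → ∀ p q : ℝ × ℝ, p ≠ q → slp p q = slp 0 w →
      slp (k4L u v u' v' p) (k4L u v u' v' q) = slp 0 (k4L u v u' v' w) := by
    intro w hw p q hpq hs
    have h1 := cr_of_slp_eq hpq hw.symm hs
    have h0 : k4L u v u' v' 0 = 0 := by
      unfold k4L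
      rw [cr_zero_left, cr_zero_right, zero_div, zero_smul, zero_smul, add_zero]
    refine slp_eq_of_cr (fun he => hpq (hL he)) (fun he => hw (hL (he.symm.trans h0.symm))) ?_
    rw [sub_zero, ← k4L_sub, k4L_cr h]
    rw [sub_zero] at h1
    rw [h1, mul_zero]
  have hu0 : u ≠ 0 := by
    rintro rfl; exact h (cr_zero_left _)
  have hv0 : v ≠ 0 := by
    rintro rfl; exact h (cr_zero_right _)
  have huv0 : u + v ≠ 0 := by
    intro h0
    have : cr u (u + v) = 0 := by rw [h0, cr_zero_right]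
    rw [cr_add_right, cr_self, zero_add] at this
    exact h this
  have huv1 : u - v ≠ 0 := by
    intro h0
    have : cr u (u - v) = 0 := by rw [h0, cr_zero_right]
    rw [cr_sub_right, cr_self, zero_sub] at this
    exact h (neg_eq_zero.1 this)
  refine ⟨fun x => k4L u v u' v' (f x), fun x y hxy => hinj (hL hxy), ?_⟩
  intro a b hab
  have hne : f a ≠ f b := fun he => G.ne_of_adj hab (hinj he)
  obtain ⟨h1, h2⟩ := hf a b hab
  refine ⟨?_, ?_⟩
  · simp only [Set.mem_insert_iff, Set.mem_singleton_iff] at h1 ⊢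
    rcases h1 with h1 | h1 | h1 | h1
    · left
      rw [key u hu0 _ _ hne h1, k4L_u h]
    · right; left
      rw [key v hv0 _ _ hne h1, k4L_v h]
    · right; right; left
      rw [key _ huv0 _ _ hne h1, k4L_add, k4L_u h, k4L_v h]
    · right; right; right
      rw [key _ huv1 _ _ hne h1, k4L_sub, k4L_u h, k4L_v h]
  · intro w hwa hwb hw
    obtain ⟨t, ht0, ht1, ht⟩ := mem_openSegment_iff'.1 hw
    rw [← k4L_seg] at ht
    exact h2 w hwa hwb (mem_openSegment_iff'.2 ⟨t, ht0, ht1, hL ht⟩)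

end

end SL
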