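import Pool.Agent.H53.SL.Ind
import Pool.Agent.H53.SL.K4

/-!
# The finite test graph
-/

namespace SL

open Classical Finset

noncomputable section

/-- restriction of a drawing along an embedding -/
theorem draws_of_embed {V W : Type} {S : Set (Option ℝ)} {G : SimpleGraph V}
    {H : SimpleGraph W} (j : W → V) (hj : Function.Injective j)
    (h : ∀ a b, H.Adj a b → G.Adj (j a) (j b)) (hd : Draws S G) : Draws S H := by
  obtain ⟨f, hf, hf'⟩ := hd
  refine ⟨fun w => f (j w), fun a b hab => hj (hf hab), ?_⟩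
  intro u v huv
  obtain ⟨h1, h2⟩ := hf' _ _ (h u v huv)
  exact ⟨h1, fun w hwu hwv => h2 (j w) (fun h => hwu (hj h)) (fun h => hwv (hj h))⟩

/-- disjoint union -/
def dunion {ι : Type} (sz : ι → ℕ) (H : ∀ i, SimpleGraph (Fin (sz i))) :
    SimpleGraph (Σ i, Fin (sz i)) where
  Adj p q := ∃ i a b, p = ⟨i, a⟩ ∧ q = ⟨i, b⟩ ∧ (H i).Adj a b
  symm := ⟨by
    rintro p q ⟨i, a, b, h1, h2, h⟩
    exact ⟨i, b, a, h2, h1, h.symm⟩⟩
  loopless := ⟨by
    rintro p ⟨i, a, b, h1, h2, h⟩
    rw [h1] at h2
    have : a = b := by simpa using h2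
    rw [this] at h
    exact (H i).loopless.irrefl _ h⟩

theorem dunion_cubic {ι : Type} (sz : ι → ℕ) (H : ∀ i, SimpleGraph (Fin (sz i)))
    (hH : ∀ i, Cubic (H i)) : Cubic (dunion sz H) := by
  rintro ⟨i, a⟩
  have : (dunion sz H).neighborSet ⟨i, a⟩ = (fun b => (⟨i, b⟩ : Σ i, Fin (sz i))) ''
      (H i).neighborSet a := by
    ext q
    simp only [SimpleGraph.mem_neighborSet, Set.mem_image]
    constructor
    · rintro ⟨i', a', b', h1, h2, h⟩
      obtain ⟨rfl, h1⟩ := Sigma.mk.inj_iff.1 h1
      have h1 := eq_of_heq h1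
      subst h1
      exact ⟨b', h, h2.symm⟩
    · rintro ⟨b, hb, rfl⟩
      exact ⟨i, a, b, rfl, rfl, hb⟩
  rw [this, Set.ncard_image_of_injective _ (fun x y h => by simpa using h)]
  exact hH i a

theorem cubic_comap_equiv {V W : Type} (e : W ≃ V) {G : SimpleGraph V} (hG : Cubic G) :
    Cubic (G.comap e) := by
  intro w
  have : (G.comap e).neighborSet w = e ⁻¹' (G.neighborSet (e w)) := by
    ext b; simp
  rw [this, Set.ncard_preimage_of_injective_subset_range e.injective
    (by rw [e.surjective.range_eq]; exact Set.subset_univ _)]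
  exact hG (e w)

theorem k4_cubic : Cubic (⊤ : SimpleGraph (Fin 4)) := by
  intro v
  have : (⊤ : SimpleGraph (Fin 4)).neighborSet v = ((univ.erase v : Finset (Fin 4)) : Set _) := by
    ext b
    simp [eq_comm]
  rw [this, Set.ncard_coe_finset, Finset.card_erase_of_mem (Finset.mem_univ v)]
  simp

/-- the standard set of four slopes -/
def S0 : Set (Option ℝ) :=
  {slp 0 ((1, 0) : ℝ × ℝ), slp 0 ((0, 1) : ℝ × ℝ), slp 0 ((1, 0) + (0, 1) : ℝ × ℝ),
    slp 0 ((1, 0) - (0, 1) : ℝ × ℝ)}

theorem exists_H0 : ∃ (m : ℕ) (H : SimpleGraph (Fin m)), Cubic H ∧ (Draws S0 H → Good S0) := by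
  by_cases h : Good S0
  · exact ⟨4, ⊤, k4_cubic, fun _ => h⟩
  · unfold Good at h
    push Not at h
    obtain ⟨m, H, hH, hnd⟩ := h
    exact ⟨m, H, hH, fun hd => absurd hd hnd⟩

/-- **The theorem.** There is a finite graph `G` such that a set of slopes is good if and only if
`G` has a straight-line drawing with it. -/
theorem finite_test_graph : ∃ (n : ℕ) (G : SimpleGraph (Fin n)), Cubic G ∧
    ∀ S : Set (Option ℝ), Good S ↔ Draws S G := by
  obtain ⟨N, hN⟩ := main_ind
  obtain ⟨m0, H0, hH0, hH0'⟩ := exists_H0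
  let ι : Type := Option (Σ m : Fin (max N 4 + 1), {H : SimpleGraph (Fin m) // Cubic H})
  let sz : ι → ℕ := fun i => match i with
    | none => m0
    | some p => p.1
  let H : ∀ i : ι, SimpleGraph (Fin (sz i)) := fun i => match i with
    | none => H0
    | some p => p.2.1
  have hH : ∀ i, Cubic (H i) := fun i => match i with
    | none => hH0
    | some p => p.2.2
  have hfin : Finite ι := by
    infer_instance
  have hfin' : Fintype (Σ i, Fin (sz i)) := by
    have : Fintype ι := Fintype.ofFinite ι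
    infer_instance
  let e := (Fintype.equivFin (Σ i, Fin (sz i))).symm
  let U := dunion sz H
  refine ⟨_, U.comap e, cubic_comap_equiv e (dunion_cubic sz H hH), ?_⟩
  intro S
  constructor
  · intro hS
    exact hS _ _ (cubic_comap_equiv e (dunion_cubic sz H hH))
  · intro hS
    -- every member of the family is drawn
    have hU : Draws S U := by
      refine draws_of_embed (fun p => e.symm p) e.symm.injective ?_ hS
      intro a b hab
      simpa using hab
    have hfam : ∀ i, Draws S (H i) := by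
      intro i
      refine draws_of_embed (fun a => (⟨i, a⟩ : Σ i, Fin (sz i)))
        (fun x y h => by simpa using h) ?_ hU
      intro a b hab
      exact ⟨i, a, b, rfl, rfl, hab⟩
    have hsmall : ∀ m ≤ max N 4, ∀ G : SimpleGraph (Fin m), Cubic G → Draws S G := by
      intro m hm G hG
      exact hfam (some ⟨⟨m, by omega⟩, ⟨G, hG⟩⟩)
    have hd0 : Draws S H0 := hfam none
    rcases k4_slopes (hsmall 4 (le_max_right _ _) ⊤ k4_cubic) with hT | ⟨u, v, huv, rfl⟩
    · exact hN S hT (fun m hm => hsmall m (hm.trans (le_max_left _ _)))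
    · have h01 : cr ((1, 0) : ℝ × ℝ) (0, 1) ≠ 0 := by simp [cr]
      have hgood : Good S0 := hH0' (lin_equiv huv h01 hd0)
      intro m G hG
      exact lin_equiv h01 huv (hgood m G hG)

end

end SL
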