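import Pool.Agent.H53.SL.Side

/-!
# Module STR: structure of the support of a flow (150-200 lines; uses Side.lean)

`Z` nonempty, `u, w ∉ Z`, all edges leaving `Z` go to `u` or `w`.  Let `R = (Z ∪ {u,w})ᶜ`; if `R = ∅`
we are in the last case.  Let `eu = dg Z u`, `ew = dg Z w`, `fu = dg R u`, `fw = dg R w`,
`i = [u ~ w]` (0 or 1): `eu + fu + i = 3 = ew + fw + i`.  Edges leaving `R` go to `u` or `w`.
`bd Z = eu + ew`, `bd R = fu + fw = bd (Z ∪ {u,w})`, `bd (Z ∪ {u}) = ew + fu + i`,
`bd (Z ∪ {w}) = eu + fw + i`; all are `≥ 2` by `TwoEC`.  Hence `eu, ew, fu, fw ≥ 1` (omega).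
(1) `eu = ew = 1`: `bd Z = 2`; take a minimal side `Q ⊆ Z` (`exists_minSide`), `minSide_cases`.
(2) `eu = 2, ew = 1`: then `i = 0`, `fu = 1`, `bd (Z ∪ {u}) = 2`.  Let `Q ⊆ Z ∪ {u}` be a minimal side.
 `u ∉ inner Q` (it has a neighbour in `R`).  If `6 ≤ |Q|`: `inner Q ⊆ Z`.  If `Q = {a,k,l,d}`: `k,l` are
 in `inner Q` (`dia_nbrs`), so in `Z`; one of `a, d` is not `u`, hence in `Z` (use `dia_symm`).
(3) `eu = 1, ew = 2`: symmetric.
(4) `eu = ew = 2`: `i = 0`, `fu = fw = 1`, `bd (Z ∪ {u,w}) = 2`, minimal side `Q ⊆ Z ∪ {u,w}`;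
 `u, w ∉ inner Q`.  `6 ≤ |Q|`: `inner Q ⊆ Z`.  Diamond: `k, l ∈ Z`; if `d ∉ {u,w}` or `a ∉ {u,w}` we are in
 the second case.  Otherwise `{a,d} = {u,w}`, `Dia G u k l w`; the two neighbours of `u` in `Z`
 are `k,l`, the same for `w`; `k`, `l` have no neighbours in `Z' = Z \ {k,l}`; so `bd Z' = 0` and
 `Z' = ∅` by `TwoEC`.
-/

namespace SL

open Classical Finset

noncomputable section

variable {V : Type}

theorem str_bd_eq [Fintype V] {G : SimpleGraph V} {u w : V} (huw : u ≠ w) {Z : Finset V}
    (hu : u ∉ Z) (hw : w ∉ Z) (hcl : ∀ p ∈ Z, ∀ b, G.Adj p b → b ∈ Z ∨ b = u ∨ b = w) :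
    bd G Z = dg G Z u + dg G Z w := by
  have h1 : bd G Z = cut G Z ({u} ∪ {w}) := by
    unfold bd cut
    refine Finset.sum_congr rfl (fun p hp => ?_)
    unfold dg
    congr 1
    ext b
    simp only [mem_filter, mem_compl, mem_union, mem_singleton]
    constructor
    · rintro ⟨hb, hpb⟩
      exact ⟨(hcl p hp b hpb).resolve_left hb, hpb⟩
    · rintro ⟨hb, hpb⟩
      refine ⟨?_, hpb⟩
      rcases hb with rfl | rfl
      · exact hu
      · exact hw
  rw [h1, cut_union_right G (by simpa using huw), cut_singleton_right, cut_singleton_right]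

theorem str_bd_zero [Fintype V] {G : SimpleGraph V} {Z : Finset V}
    (h : ∀ p ∈ Z, ∀ b, G.Adj p b → b ∈ Z) : bd G Z = 0 := by
  unfold bd cut
  refine Finset.sum_eq_zero (fun p hp => ?_)
  unfold dg
  rw [Finset.card_eq_zero, Finset.filter_eq_empty_iff]
  intro b hb hpb
  exact (mem_compl.1 hb) (h p hp b hpb)

theorem str_mem_inner {G : SimpleGraph V} {Q : Finset V} {v : V} :
    v ∈ inner G Q ↔ v ∈ Q ∧ ∀ b, G.Adj v b → b ∈ Q := by
  unfold inner
  rw [mem_filter]

theorem str_aux [Fintype V] {G : SimpleGraph V} (hG : Cub G) (h2 : TwoEC G) {u w : V}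
    {Z Q : Finset V} (hQ : MinSide G Q)
    (hsub : ∀ q ∈ Q, q ∈ Z ∨ q = u ∨ q = w) (hu : u ∉ inner G Q) (hw : w ∉ inner G Q) :
    ((∃ Q, MinSide G Q ∧ 6 ≤ Q.card ∧ inner G Q ⊆ Z) ∨
    (∃ a k l d, Dia G a k l d ∧ k ∈ Z ∧ l ∈ Z ∧ d ∈ Z)) ∨
    (∃ k l, Dia G u k l w ∧ k ∈ Z ∧ l ∈ Z ∧ u ∈ Q ∧ w ∈ Q) := by
  have hin : ∀ v ∈ inner G Q, v ∈ Z := by
    intro v hv
    rcases hsub v (str_mem_inner.1 hv).1 with h | rfl | rfl
    · exact h
    · exact absurd hv hu
    · exact absurd hv hw
  rcases minSide_cases hG h2 hQ with ⟨a, k, l, d, hD, hQe⟩ | ⟨h6, _, _⟩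
  · have hk : k ∈ Z := by
      apply hin
      rw [str_mem_inner, hQe]
      refine ⟨by simp, fun b hb => ?_⟩
      rcases (dia_nbrs hG hD b).1 hb with rfl | rfl | rfl <;> simp
    have hl : l ∈ Z := by
      apply hin
      rw [str_mem_inner, hQe]
      refine ⟨by simp, fun b hb => ?_⟩
      rcases (dia_nbrs hG (dia_swap hD) b).1 hb with rfl | rfl | rfl <;> simp
    have ha : a ∈ Q := by rw [hQe]; simp
    have hd : d ∈ Q := by rw [hQe]; simp
    rcases hsub d hd with hd' | hd' | hd'
    · exact Or.inl (Or.inr ⟨a, k, l, d, hD, hk, hl, hd'⟩)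
    · rcases hsub a ha with ha' | ha' | ha'
      · exact Or.inl (Or.inr ⟨d, k, l, a, dia_symm hD, hk, hl, ha'⟩)
      · exact absurd (ha'.trans hd'.symm) hD.1
      · right
        subst ha' hd'
        exact ⟨k, l, dia_symm hD, hk, hl, hd, ha⟩
    · rcases hsub a ha with ha' | ha' | ha'
      · exact Or.inl (Or.inr ⟨d, k, l, a, dia_symm hD, hk, hl, ha'⟩)
      · right
        subst ha' hd'
        exact ⟨k, l, hD, hk, hl, ha, hd⟩
      · exact absurd (ha'.trans hd'.symm) hD.1
  · exact Or.inl (Or.inl ⟨Q, hQ, h6, hin⟩)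

theorem structure_Z [Fintype V] {G : SimpleGraph V} (hG : Cub G) (h2 : TwoEC G) {u w : V}
    (huw : u ≠ w) {Z : Finset V} (hZ : Z.Nonempty) (hu : u ∉ Z) (hw : w ∉ Z)
    (hcl : ∀ p ∈ Z, ∀ b, G.Adj p b → b ∈ Z ∨ b = u ∨ b = w) :
    (∃ Q, MinSide G Q ∧ 6 ≤ Q.card ∧ inner G Q ⊆ Z) ∨
    (∃ a k l d, Dia G a k l d ∧ k ∈ Z ∧ l ∈ Z ∧ d ∈ Z) ∨
    (∃ k l, Dia G u k l w ∧ Z = {k, l}) ∨ Z = ({u, w} : Finset V)ᶜ := by
  by_cases hall : ∀ v, v ∈ insert w (insert u Z)
  · right; right; right
    ext v
    have hv := hall v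
    simp only [mem_insert, mem_compl, mem_singleton, not_or] at hv ⊢
    constructor
    · intro h
      exact ⟨fun e => hu (e ▸ h), fun e => hw (e ▸ h)⟩
    · rintro ⟨h1, h3⟩
      tauto
  · push Not at hall
    obtain ⟨v0, hv0⟩ := hall
    have hwi : w ∉ insert u Z := by
      rw [mem_insert, not_or]
      exact ⟨huw.symm, hw⟩
    have huwi : u ∉ insert w Z := by
      rw [mem_insert, not_or]
      exact ⟨huw, hu⟩
    have hbZ := str_bd_eq huw hu hw hcl
    have hbu := bd_insert G hG hu
    have hbw := bd_insert G hG hw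
    have hbuw := bd_insert G hG hwi
    have hdw : dg G (insert u Z) w = dg G Z w + if G.Adj w u then 1 else 0 := dg_insert G hu w
    have hdu : dg G (insert w Z) u = dg G Z u + if G.Adj u w then 1 else 0 := dg_insert G hw u
    have e1 := h2 Z hZ (fun h => hu (h ▸ mem_univ u))
    have e2 := h2 (insert u Z) ⟨u, mem_insert_self _ _⟩ (fun h => hwi (h ▸ mem_univ w))
    have e3 := h2 (insert w Z) ⟨w, mem_insert_self _ _⟩ (fun h => huwi (h ▸ mem_univ u))
    have e4 := h2 (insert w (insert u Z)) ⟨w, mem_insert_self _ _⟩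
      (fun h => hv0 (h ▸ mem_univ v0))
    -- a vertex which has degree 2 in `Z`, not adjacent to the other one, has a neighbour outside
    have hout : ∀ t P, dg G P t ≤ 2 → ∃ b, G.Adj t b ∧ b ∉ P := by
      intro t P ht
      by_contra hcon
      push Not at hcon
      have h3 : dg G P t = dg G univ t := by
        unfold dg
        congr 1
        ext b
        simp only [mem_filter, mem_univ, true_and]
        exact ⟨fun h => h.2, fun h => ⟨hcon b h, h⟩⟩
      rw [hG t] at h3
      omega
    have hcases : (bd G Z = 2) ∨ (dg G Z u = 2 ∧ dg G Z w = 1 ∧ ¬ G.Adj w u) ∨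
        (dg G Z u = 1 ∧ dg G Z w = 2 ∧ ¬ G.Adj w u) ∨
        (dg G Z u = 2 ∧ dg G Z w = 2 ∧ ¬ G.Adj w u) := by
      by_cases hadj : G.Adj w u
      · rw [if_pos hadj] at hdw
        left
        omega
      · rw [if_neg hadj] at hdw
        have : (bd G Z = 2) ∨ (dg G Z u = 2 ∧ dg G Z w = 1) ∨
          (dg G Z u = 1 ∧ dg G Z w = 2) ∨ (dg G Z u = 2 ∧ dg G Z w = 2) := by omega
        tauto
    rcases hcases with hc | ⟨hc1, hc2, hc3⟩ | ⟨hc1, hc2, hc3⟩ | ⟨hc1, hc2, hc3⟩
    · obtain ⟨Q, hQZ, hQ⟩ := exists_minSide hZ (fun h => hu (h ▸ mem_univ u)) hc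
      rcases str_aux hG h2 (u := u) (w := w) hQ (fun q hq => Or.inl (hQZ hq))
        (fun h => hu (hQZ (str_mem_inner.1 h).1)) (fun h => hw (hQZ (str_mem_inner.1 h).1)) with
        (h | h) | ⟨k, l, _, _, _, h, _⟩
      · exact Or.inl h
      · exact Or.inr (Or.inl h)
      · exact absurd (hQZ h) hu
    · have hb : bd G (insert u Z) = 2 := by omega
      obtain ⟨Q, hQZ, hQ⟩ := exists_minSide ⟨u, mem_insert_self _ _⟩
        (fun h => hwi (h ▸ mem_univ w)) hb
      have hdu2 : dg G (insert u Z) u ≤ 2 := by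
        rw [dg_insert G hu u, if_neg (SimpleGraph.irrefl G)]
        omega
      obtain ⟨b, hb1, hb2⟩ := hout u _ hdu2
      rcases str_aux hG h2 (u := u) (w := w) (Z := Z) hQ
        (fun q hq => by
          rcases mem_insert.1 (hQZ hq) with h | h
          · exact Or.inr (Or.inl h)
          · exact Or.inl h)
        (fun h => hb2 (hQZ ((str_mem_inner.1 h).2 b hb1)))
        (fun h => hwi (hQZ (str_mem_inner.1 h).1)) with
        (h | h) | ⟨k, l, _, _, _, _, h⟩
      · exact Or.inl h
      · exact Or.inr (Or.inl h)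
      · exact absurd (hQZ h) hwi
    · have hb : bd G (insert w Z) = 2 := by omega
      obtain ⟨Q, hQZ, hQ⟩ := exists_minSide ⟨w, mem_insert_self _ _⟩
        (fun h => huwi (h ▸ mem_univ u)) hb
      have hdu2 : dg G (insert w Z) w ≤ 2 := by
        rw [dg_insert G hw w, if_neg (SimpleGraph.irrefl G)]
        omega
      obtain ⟨b, hb1, hb2⟩ := hout w _ hdu2
      rcases str_aux hG h2 (u := u) (w := w) (Z := Z) hQ
        (fun q hq => by
          rcases mem_insert.1 (hQZ hq) with h | h
          · exact Or.inr (Or.inr h)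
          · exact Or.inl h)
        (fun h => huwi (hQZ (str_mem_inner.1 h).1))
        (fun h => hb2 (hQZ ((str_mem_inner.1 h).2 b hb1))) with
        (h | h) | ⟨k, l, _, _, _, h, _⟩
      · exact Or.inl h
      · exact Or.inr (Or.inl h)
      · exact absurd (hQZ h) huwi
    · rw [if_neg hc3] at hdw
      rw [if_neg (fun h => hc3 h.symm)] at hdu
      have hb : bd G (insert w (insert u Z)) = 2 := by omega
      obtain ⟨Q, hQZ, hQ⟩ := exists_minSide ⟨w, mem_insert_self _ _⟩
        (fun h => hv0 (h ▸ mem_univ v0)) hb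
      have hdu2 : dg G (insert w (insert u Z)) u ≤ 2 := by
        rw [dg_insert G hwi u, dg_insert G hu u, if_neg (SimpleGraph.irrefl G),
          if_neg (fun h => hc3 h.symm)]
        omega
      have hdw2 : dg G (insert w (insert u Z)) w ≤ 2 := by
        rw [dg_insert G hwi w, dg_insert G hu w, if_neg (SimpleGraph.irrefl G), if_neg hc3]
        omega
      obtain ⟨b, hb1, hb2⟩ := hout u _ hdu2
      obtain ⟨b', hb1', hb2'⟩ := hout w _ hdw2
      rcases str_aux hG h2 (u := u) (w := w) (Z := Z) hQ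
        (fun q hq => by
          rcases mem_insert.1 (hQZ hq) with h | h
          · exact Or.inr (Or.inr h)
          · rcases mem_insert.1 h with h | h
            · exact Or.inr (Or.inl h)
            · exact Or.inl h)
        (fun h => hb2 (hQZ ((str_mem_inner.1 h).2 b hb1)))
        (fun h => hb2' (hQZ ((str_mem_inner.1 h).2 b' hb1'))) with
        (h | h) | ⟨k, l, hD, hk, hl, _, _⟩
      · exact Or.inl h
      · exact Or.inr (Or.inl h)
      · right; right; left
        refine ⟨k, l, hD, ?_⟩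
        obtain ⟨hD1, hD2, hD3, hD4, hD5, hD6, hD7, hD8⟩ := hD
        have key : ∀ t, dg G Z t = 2 → G.Adj t k → G.Adj t l → ∀ p ∈ Z, G.Adj t p →
            p = k ∨ p = l := by
          intro t ht htk htl p hp htp
          by_contra hcon
          push Not at hcon
          have h3 : ({p, k, l} : Finset V) ⊆ Z.filter (fun b => G.Adj t b) := by
            intro x hx
            simp only [mem_insert, mem_singleton] at hx
            rw [mem_filter]
            rcases hx with rfl | rfl | rfl
            · exact ⟨hp, htp⟩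
            · exact ⟨hk, htk⟩
            · exact ⟨hl, htl⟩
          have h4 := Finset.card_le_card h3
          rw [Finset.card_insert_of_notMem (by simp [hcon.1, hcon.2]),
            Finset.card_insert_of_notMem (by simp [hD2]), Finset.card_singleton] at h4
          have h5 : (Z.filter (fun b => G.Adj t b)).card = 2 := ht
          omega
        by_contra hne
        have hZ' : (Z \ {k, l}).Nonempty := by
          rw [Finset.sdiff_nonempty]
          intro h
          apply hne
          refine Finset.Subset.antisymm h ?_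
          intro x hx
          simp only [mem_insert, mem_singleton] at hx
          rcases hx with rfl | rfl
          · exact hk
          · exact hl
        have h6 := h2 (Z \ {k, l}) hZ' (fun h => hu (mem_sdiff.1 (h ▸ mem_univ u)).1)
        rw [str_bd_zero] at h6
        · omega
        · intro p hp b hpb
          simp only [mem_sdiff, mem_insert, mem_singleton, not_or] at hp ⊢
          obtain ⟨hpZ, hpk, hpl⟩ := hp
          have hbu' : b ≠ u := by
            rintro rfl
            rcases key b hc1 hD3 hD4 p hpZ hpb.symm with h | h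
            · exact hpk h
            · exact hpl h
          have hbw' : b ≠ w := by
            rintro rfl
            rcases key b hc2 hD5 hD6 p hpZ hpb.symm with h | h
            · exact hpk h
            · exact hpl h
          refine ⟨?_, ?_, ?_⟩
          · rcases hcl p hpZ b hpb with h | h | h
            · exact h
            · exact absurd h hbu'
            · exact absurd h hbw'
          · rintro rfl
            rcases (dia_nbrs hG ⟨hD1, hD2, hD3, hD4, hD5, hD6, hD7, hD8⟩ p).1 hpb.symm with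
              rfl | rfl | rfl
            · exact hu hpZ
            · exact hpl rfl
            · exact hw hpZ
          · rintro rfl
            rcases (dia_nbrs hG (dia_swap ⟨hD1, hD2, hD3, hD4, hD5, hD6, hD7, hD8⟩) p).1
              hpb.symm with rfl | rfl | rfl
            · exact hu hpZ
            · exact hpk rfl
            · exact hw hpZ

end

end SL
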