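import Pool.Agent.H53.SL.Lin
import Pool.Agent.H53.SL.DiaRec
import Pool.Agent.H53.SL.Str

/-!
# Module NOLOCK (150 lines; uses `lin_dual`, `dia_blk`, `structure_Z`)

Suppose `cr (x w - x u) (s (c s(u,v))) = 0` for all `x` in `X`; `q = s (c s(u,v))`.  `lin_dual` gives
`ψ`, conserved at all vertices `≠ u, w`, with `Σ_{b~w} ψ w b • s_{wb} = q`, `Σ_{b~u} ... = -q`.
At a vertex `p ≠ u, w` the three values `ψ p b` are all zero or all nonzero (`cr_indep`).
Let `Z = {p | p ≠ u, p ≠ w, ∃ b, G.Adj p b ∧ ψ p b ≠ 0}`.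
If `p ∈ Z`, `p ~ b`, then `ψ b p = -ψ p b ≠ 0`, so `b ∈ Z` or `b ∈ {u,w}`.
* `Z = ∅`: at `w` only `ψ w u` can be nonzero, so (as `q ≠ 0`) `w ~ u` and `ψ w u • s_{wu} = q`;
  so `s (c s(u,w))` is parallel to `s (c s(u,v))`, thus the colours are equal (`NonPar`),
  contradicting `Proper` and `v ≠ w`.
* `Z ≠ ∅`: `structure_Z`.
  A blocking nonempty set `Y ⊆ Z` is impossible (a vertex `y ∈ Y` has all `ψ y b = 0`).
  Case 1: `hBig`.  Case 2: `dia_blk` for `{k,l,d}`.
  Case 3: `Z = {k,l}`, `Dia G u k l w`: the flow at `u`: `ψ u b = 0` for the third neighbour `b`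
  (`b ∉ Z`, `b ≠ u`, and `b ≠ w` since `u`, `w` are not adjacent; so all values at `b` vanish), thus
  `ψ u k • s + ψ u l • s = -q = - s (c s(u,v))`, whose cross product with `s (c s(u,v))` is `0`;
  `DiaHalf G c s u k l` gives `ψ k _ = 0`, contradiction with `k ∈ Z`.
  Case 4: `Z = {u,w}ᶜ`: of the three pairwise disjoint blocking sets one contains neither `u` nor
  `w`.
-/

namespace SL

open Classical Finset

noncomputable section

variable {V : Type}

theorem nolock_all [Fintype V] {G : SimpleGraph V} (hG : Cub G) {s : Fin 5 → ℝ × ℝ}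
    (hs : NonPar s) {c : Sym2 V → Fin 5} (hc : Proper G c) {ψ : V → V → ℝ} {p b : V}
    (hp : Cons G c s ψ p) (hb : G.Adj p b) (h0 : ψ p b = 0) : ∀ a, G.Adj p a → ψ p a = 0 := by
  obtain ⟨x, y, h1, h2, h3, h⟩ := exists_two hG hb
  rw [cons_iff h1 h2 h3 h, h0, zero_smul, zero_add] at hp
  have hx : G.Adj p x := (h x).2 (Or.inr (Or.inl rfl))
  have hy : G.Adj p y := (h y).2 (Or.inr (Or.inr rfl))
  obtain ⟨e1, e2⟩ := cr_indep (hs _ _ (hc p x y hx hy h3)) hp
  intro a ha
  rcases (h a).1 ha with rfl | rfl | rfl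
  · exact h0
  · exact e1
  · exact e2

theorem nolock_ne {s : Fin 5 → ℝ × ℝ} (hs : NonPar s) (i : Fin 5) : s i ≠ 0 := by
  intro h
  have h1 : i ≠ i + 1 := by
    revert i
    intro i _
    fin_cases i <;> decide
  apply hs i (i + 1) h1
  rw [h, cr_zero_left]

theorem no_lock [Fintype V] {G : SimpleGraph V} (hG : Cub G) (h2 : TwoEC G)
    {s : Fin 5 → ℝ × ℝ} (hs : NonPar s) {c : Sym2 V → Fin 5} (hc : Proper G c)
    (hDia : ∀ a k l d, Dia G a k l d → DiaHalf G c s a k l ∧ DiaHalf G c s d k l)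
    (hBig : ∀ Q, MinSide G Q → 6 ≤ Q.card → ∃ Y, Y ⊆ inner G Q ∧ Y.Nonempty ∧ Blk G c s Y)
    (hThree : ∃ Y1 Y2 Y3 : Finset V, Y1.Nonempty ∧ Y2.Nonempty ∧ Y3.Nonempty ∧
      Blk G c s Y1 ∧ Blk G c s Y2 ∧ Blk G c s Y3 ∧ Disjoint Y1 Y2 ∧ Disjoint Y1 Y3 ∧
      Disjoint Y2 Y3) :
    ∀ u v w, G.Adj u v → w ≠ u → w ≠ v →
      ∃ x, InX G c s x ∧ cr (x w - x u) (s (c s(u, v))) ≠ 0 := by
  intro u v w huv hwu hwv
  by_contra hcon
  push Not at hcon
  obtain ⟨ψ, hanti, hcons, hsw, hsu⟩ := lin_dual G c s hwu.symm (s (c s(u, v))) hcon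
  set Z : Finset V := univ.filter (fun p => p ≠ u ∧ p ≠ w ∧ ∃ b, G.Adj p b ∧ ψ p b ≠ 0) with hZdef
  have hmem : ∀ p, p ∈ Z ↔ p ≠ u ∧ p ≠ w ∧ ∃ b, G.Adj p b ∧ ψ p b ≠ 0 := by
    intro p
    simp [hZdef]
  have hZall : ∀ p ∈ Z, ∀ b, G.Adj p b → ψ p b ≠ 0 := by
    intro p hp b hb h0
    obtain ⟨h1, h2', b', hb', hne⟩ := (hmem p).1 hp
    exact hne (nolock_all hG hs hc (hcons p h1 h2') hb h0 b' hb')
  have hout : ∀ p, p ∉ Z → p ≠ u → p ≠ w → ∀ b, G.Adj p b → ψ p b = 0 := by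
    intro p hp h1 h2' b hb
    by_contra hne
    exact hp ((hmem p).2 ⟨h1, h2', b, hb, hne⟩)
  have hu : u ∉ Z := fun h => ((hmem u).1 h).1 rfl
  have hw : w ∉ Z := fun h => ((hmem w).1 h).2.1 rfl
  have hcl : ∀ p ∈ Z, ∀ b, G.Adj p b → b ∈ Z ∨ b = u ∨ b = w := by
    intro p hp b hb
    by_contra hn
    push Not at hn
    obtain ⟨n1, n2, n3⟩ := hn
    have h0 := hout b n1 n2 n3 p hb.symm
    apply hZall p hp b hb
    rw [hanti p b, h0, neg_zero]
  have hblk : ∀ Y : Finset V, Y.Nonempty → Y ⊆ Z → ¬ Blk G c s Y := by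
    intro Y hY hYZ hB
    obtain ⟨y, hy⟩ := hY
    obtain ⟨_, _, b, hb, hne⟩ := (hmem y).1 (hYZ hy)
    apply hne
    refine hB ψ hanti ?_ y hy b hb
    intro z hz
    obtain ⟨h1, h2', _⟩ := (hmem z).1 (hYZ hz)
    exact hcons z h1 h2'
  rcases Z.eq_empty_or_nonempty with hZ | hZ
  · -- no flow away from the vertices u, w
    have hz : ∀ b, G.Adj w b → b ≠ u → ψ w b = 0 := by
      intro b hb hbu
      have h0 := hout b (by rw [hZ]; simp) hbu hb.ne' w hb.symm
      rw [hanti w b, h0, neg_zero]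
    by_cases hwu' : G.Adj w u
    · rw [Finset.sum_eq_single_of_mem u (by simpa using hwu')] at hsw
      · have h1 : cr (s (c s(w, u))) (s (c s(u, v))) = 0 := by
          have h3 : cr (s (c s(w, u))) (ψ w u • s (c s(w, u))) = 0 := by
            rw [cr_smul_right, cr_self, mul_zero]
          rwa [hsw] at h3
        have h4 : c s(w, u) = c s(u, v) := by
          by_contra hne
          exact hs _ _ hne h1
        have h5 := hc u v w huv hwu'.symm hwv.symm
        rw [Sym2.eq_swap (a := w) (b := u)] at h4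
        exact h5 h4.symm
      · intro b hb hbu
        have hb' : G.Adj w b := by simpa using hb
        rw [hz b hb' hbu, zero_smul]
    · apply nolock_ne hs (c s(u, v))
      rw [← hsw]
      apply Finset.sum_eq_zero
      intro b hb
      have hb' : G.Adj w b := by simpa using hb
      rw [hz b hb' (by rintro rfl; exact hwu' hb'), zero_smul]
  · rcases structure_Z hG h2 hwu.symm hZ hu hw hcl with
      ⟨Q, hQ, hQ6, hQZ⟩ | ⟨a, k, l, d, hD, hk, hl, hd⟩ | ⟨k, l, hD, hZkl⟩ | hZc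
    · obtain ⟨Y, hY1, hY2, hY3⟩ := hBig Q hQ hQ6
      exact hblk Y hY2 (hY1.trans hQZ) hY3
    · apply hblk {k, l, d} ⟨k, by simp⟩ _ (dia_blk hG hs hc hD (hDia a k l d hD).2)
      intro x hx
      simp only [mem_insert, mem_singleton] at hx
      rcases hx with rfl | rfl | rfl <;> assumption
    · have hk : k ∈ Z := by rw [hZkl]; simp
      have hl : l ∈ Z := by rw [hZkl]; simp
      obtain ⟨hk1, hk2, b, hb, hne⟩ := (hmem k).1 hk
      obtain ⟨hl1, hl2, _⟩ := (hmem l).1 hl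
      obtain ⟨_, hkl, huk, hul, hwk, hwl, _, hnuw⟩ := hD
      have hsum : ∑ b ∈ ({k, l} : Finset V), ψ u b • s (c s(u, b)) =
          ∑ b ∈ univ.filter (fun b => G.Adj u b), ψ u b • s (c s(u, b)) := by
        apply Finset.sum_subset
        · intro x hx
          simp only [mem_insert, mem_singleton] at hx
          rcases hx with rfl | rfl
          · simpa using huk
          · simpa using hul
        · intro x hx hx'
          have hux : G.Adj u x := by simpa using hx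
          rw [← hZkl] at hx'
          have h0 := hout x hx' hux.ne' (by rintro rfl; exact hnuw hux) u hux.symm
          rw [hanti u x, h0, neg_zero, zero_smul]
      rw [hsu, Finset.sum_pair hkl] at hsum
      have hhalf := (hDia u k l w ⟨hwu.symm, hkl, huk, hul, hwk, hwl, by assumption, hnuw⟩).1
      obtain ⟨r1, _⟩ := hhalf ψ hanti (hcons k hk1 hk2) (hcons l hl1 hl2) v huv (by
        rw [hsum, cr_neg_left, cr_self, neg_zero])
      exact hne (r1 b hb)
    · obtain ⟨Y1, Y2, Y3, n1, n2, n3, b1, b2, b3, d12, d13, d23⟩ := hThree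
      have hY : ∀ Y : Finset V, Y.Nonempty → Blk G c s Y → u ∈ Y ∨ w ∈ Y := by
        intro Y hY hB
        by_contra hn
        push Not at hn
        refine hblk Y hY ?_ hB
        rw [hZc]
        intro y hy
        simp only [mem_compl, mem_insert, mem_singleton, not_or]
        exact ⟨fun h => hn.1 (h ▸ hy), fun h => hn.2 (h ▸ hy)⟩
      have e1 := hY Y1 n1 b1
      have e2 := hY Y2 n2 b2
      have e3 := hY Y3 n3 b3
      rw [Finset.disjoint_left] at d12 d13 d23
      rcases e1 with e1 | e1 <;> rcases e2 with e2 | e2 <;> rcases e3 with e3 | e3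
      · exact d12 e1 e2
      · exact d12 e1 e2
      · exact d13 e1 e3
      · exact d23 e2 e3
      · exact d23 e2 e3
      · exact d13 e1 e3
      · exact d12 e1 e2
      · exact d12 e1 e2

end

end SL
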