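import Pool.Agent.H53.SL.Fam
import Pool.Agent.H53.SL.Col
import Pool.Agent.H53.SL.NoLock
import Pool.Agent.H53.SL.DrawX

/-!
# The flow theorem: large connected bridgeless cubic graphs are drawn by any five slopes
-/

namespace SL

open Classical Finset

noncomputable section

theorem core_subset_supp {V : Type} {G : SimpleGraph V} (g : Gadget G) : g.core ⊆ g.supp := by
  intro v hv
  simp only [Gadget.core, mem_insert] at hv
  simp only [Gadget.supp, mem_insert]
  tauto

theorem inner_subset' {V : Type} (G : SimpleGraph V) (Q : Finset V) : inner G Q ⊆ Q := by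
  unfold inner
  intro v hv
  exact (mem_filter.1 hv).1

theorem core_nonempty {V : Type} {G : SimpleGraph V} (g : Gadget G) : g.core.Nonempty :=
  ⟨g.x, by simp [Gadget.core]⟩

theorem flow : ∃ N : ℕ, ∀ (V : Type) [Fintype V] (G : SimpleGraph V), Cub G → TwoEC G →
    N < Fintype.card V → ∀ (S : Set (Option ℝ)) (T : Finset (Option ℝ)), T.card = 5 →
    (∀ σ ∈ T, σ ∈ S) → Draws S G := by
  obtain ⟨N, hN⟩ := family
  refine ⟨N, ?_⟩
  intro V _ G hG h2 hV S T hT hTS
  obtain ⟨ι, _, g, hgg, hgd, hbig, hthree⟩ := hN V G hG h2 hV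
  let e := (T.equivFinOfCardEq hT).symm
  let σ : Fin 5 → Option ℝ := fun i => (e i : Option ℝ)
  have hσ : Function.Injective σ := fun i j h => e.injective (Subtype.ext h)
  have hσS : ∀ i, σ i ∈ S := fun i => hTS _ (e i).2
  let s : Fin 5 → ℝ × ℝ := fun i => dir (σ i)
  have hs : NonPar s := fun i j hij => cr_dir_dir (fun h => hij (hσ h))
  have hdd : ∀ a k l d a' k' l' d', Dia G a k l d → Dia G a' k' l' d' →
      ({a, k, l, d} : Finset V) ≠ {a', k', l', d'} →
      Disjoint ({a, k, l, d} : Finset V) {a', k', l', d'} := by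
    intro a k l d a' k' l' d' h h' hne
    exact minSide_disjoint h2 (dia_minSide hG h) (dia_minSide hG h') hne
  obtain ⟨c, hc, hblk, hdia⟩ := colouring hG hs g hgg hgd hdd
  have hBig : ∀ Q, MinSide G Q → 6 ≤ Q.card → ∃ Y, Y ⊆ inner G Q ∧ Y.Nonempty ∧
      Blk G c s Y := by
    intro Q hQ h6
    obtain ⟨i, hi⟩ := hbig Q hQ h6
    exact ⟨(g i).core, hi, core_nonempty _, hblk i⟩
  have hside : ∀ Q, MinSide G Q → ∃ Y, Y ⊆ Q ∧ Y.Nonempty ∧ Blk G c s Y := by
    intro Q hQ
    rcases minSide_cases hG h2 hQ with ⟨a, k, l, d, hD, rfl⟩ | ⟨h6, -, -⟩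
    · refine ⟨{k, l, d}, ?_, ⟨k, by simp⟩, dia_blk hG hs hc hD (hdia a k l d hD).2⟩
      intro v hv
      simp only [mem_insert, mem_singleton] at hv ⊢
      tauto
    · obtain ⟨Y, hY, hne, hb⟩ := hBig Q hQ h6
      exact ⟨Y, hY.trans (inner_subset' G Q), hne, hb⟩
  have hThree : ∃ Y1 Y2 Y3 : Finset V, Y1.Nonempty ∧ Y2.Nonempty ∧ Y3.Nonempty ∧
      Blk G c s Y1 ∧ Blk G c s Y2 ∧ Blk G c s Y3 ∧ Disjoint Y1 Y2 ∧ Disjoint Y1 Y3 ∧
      Disjoint Y2 Y3 := by
    rcases hthree with ⟨i, j, k, hij, hik, hjk⟩ | ⟨Q1, Q2, Q3, h1, h2', h3, h12, h13, h23⟩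
    · refine ⟨(g i).core, (g j).core, (g k).core, core_nonempty _, core_nonempty _,
        core_nonempty _, hblk i, hblk j, hblk k, ?_, ?_, ?_⟩
      · exact (hgg i j hij).mono (core_subset_supp _) (core_subset_supp _)
      · exact (hgg i k hik).mono (core_subset_supp _) (core_subset_supp _)
      · exact (hgg j k hjk).mono (core_subset_supp _) (core_subset_supp _)
    · obtain ⟨Y1, a1, b1, c1⟩ := hside Q1 h1
      obtain ⟨Y2, a2, b2, c2⟩ := hside Q2 h2'
      obtain ⟨Y3, a3, b3, c3⟩ := hside Q3 h3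
      exact ⟨Y1, Y2, Y3, b1, b2, b3, c1, c2, c3,
        (minSide_disjoint h2 h1 h2' h12).mono a1 a2,
        (minSide_disjoint h2 h1 h3 h13).mono a1 a3,
        (minSide_disjoint h2 h2' h3 h23).mono a2 a3⟩
  have hnl := no_lock hG h2 hs hc hdia hBig hThree
  obtain ⟨x, hx, hg⟩ := lin_generic G c s hnl
  exact draws_of_generic hG hσS hx hg

end

end SL
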