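import Pool.Agent.H53.SL.Base

/-!
# Module GAD: flows on connected sets and the gadget recolouring (150 lines)

`conn_flow`: at a vertex `a` of `A` the three edges have pairwise non-parallel directions
(`Proper`, `NonPar`), so conservation at `a` implies: if one of the three values `ψ a b` vanishes
then all three do (`cr_indep`, use `exists_three`/`exists_two`, `cons_iff`).  Let
`B = {a ∈ A | ∀ b, G.Adj a b → ψ a b = 0}`; it is nonempty, and if `B ≠ A` then `Conn` gives an edge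
`ba` with `b ∈ B`, `a ∈ A`, `a ∉ B`; `ψ a b = - ψ b a = 0`, so all three values at `a` vanish,
contradiction.

`gad_blk`: suppose both fail.  Then there are flows `ψ1` (for `c1`) and `ψ2` (for `c2`), conserved on
`insert x A`, not vanishing on some edge at `insert x A`.  Let `x1 ≠ x2` be the two neighbours of `x` in
`A`; the neighbours of `x` are `x1, x2, y`.  If `ψi x x1 = 0`, then `ψi x1 x = 0`, by `conn_flow` it
vanishes on all edges at `A`, so `ψi x x1 = ψi x x2 = 0` and conservation at `x` gives `ψi x y = 0`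
(`s _ ≠ 0`), contradiction.  So `ψi x x1 ≠ 0`.  Edges at `A` have equal colours in `c1` and `c2`
(`y ∉ A`, `x ∉ A`).  Let `t = ψ1 x x1 / ψ2 x x1`; the flow `ψ1 - t ψ2` is conserved on `A`
(for `c1`, and for `c2`) and vanishes on `x1 x`, so by `conn_flow` on all edges at `A`; hence
`ψ1 x x2 = t ψ2 x x2`.  So `r = ψ1 x x1 • s(c xx1) + ψ1 x x2 • s(c xx2)` is `t` times the same
vector for `ψ2`; conservation at `x`: `r` is parallel to `s (c1 xy)` and to `s (c2 xy)` which are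
not parallel (`NonPar`, `hne`), so `r = 0` (`eq_zero_of_cr`), but `ψ1 x x1 ≠ 0` and the
directions of `xx1`, `xx2` are not parallel: contradiction with `cr_indep`.
-/

namespace SL

open Classical Finset

noncomputable section

variable {V : Type}

/-- at a vertex with conservation, one vanishing value kills all three -/
theorem gad_three [Fintype V] {G : SimpleGraph V} (hG : Cub G) {c : Sym2 V → Fin 5}
    (hc : Proper G c) {s : Fin 5 → ℝ × ℝ} (hs : NonPar s) {ψ : V → V → ℝ} {a b : V}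
    (hcons : Cons G c s ψ a) (hab : G.Adj a b) (h0 : ψ a b = 0) : ∀ b', G.Adj a b' → ψ a b' = 0 := by
  obtain ⟨x, y, h1, h2, h3, h⟩ := exists_two hG hab
  rw [cons_iff h1 h2 h3 h, h0, zero_smul, zero_add] at hcons
  have hax : G.Adj a x := (h x).2 (Or.inr (Or.inl rfl))
  have hay : G.Adj a y := (h y).2 (Or.inr (Or.inr rfl))
  obtain ⟨e1, e2⟩ := cr_indep (hs _ _ (hc a x y hax hay h3)) hcons
  intro b' hb'
  rcases (h b').1 hb' with rfl | rfl | rfl
  · exact h0
  · exact e1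
  · exact e2

theorem conn_flow [Fintype V] {G : SimpleGraph V} (hG : Cub G) {c : Sym2 V → Fin 5}
    (hc : Proper G c) {s : Fin 5 → ℝ × ℝ} (hs : NonPar s) {A : Finset V} (hA : Conn G A)
    {ψ : V → V → ℝ} (hψ : Anti ψ) (hcons : ∀ a ∈ A, Cons G c s ψ a) {a b : V} (ha : a ∈ A)
    (hab : G.Adj a b) (h0 : ψ a b = 0) : ∀ a ∈ A, ∀ b, G.Adj a b → ψ a b = 0 := by
  set B : Finset V := A.filter (fun a => ∀ b, G.Adj a b → ψ a b = 0) with hB
  have hBA : B ⊆ A := Finset.filter_subset _ _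
  have haB : a ∈ B := by
    rw [hB, Finset.mem_filter]
    exact ⟨ha, gad_three hG hc hs (hcons a ha) hab h0⟩
  by_cases hEq : B = A
  · intro a' ha' b' hb'
    rw [← hEq, hB, Finset.mem_filter] at ha'
    exact ha'.2 b' hb'
  · exfalso
    obtain ⟨b1, hb1, a1, ha1, ha1B, hadj⟩ := hA B hBA ⟨a, haB⟩ hEq
    rw [hB, Finset.mem_filter] at hb1
    have h1 : ψ b1 a1 = 0 := hb1.2 a1 hadj
    have h2 : ψ a1 b1 = 0 := by rw [hψ, h1, neg_zero]
    apply ha1B
    rw [hB, Finset.mem_filter]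
    exact ⟨ha1, gad_three hG hc hs (hcons a1 ha1) hadj.symm h2⟩

/-- conservation only depends on the colours at the vertex -/
theorem gad_cons_congr [Fintype V] {G : SimpleGraph V} {s : Fin 5 → ℝ × ℝ} {y : V}
    {c1 c2 : Sym2 V → Fin 5} {ψ : V → V → ℝ} (h : ∀ b, c1 s(y, b) = c2 s(y, b))
    (hb : Cons G c1 s ψ y) : Cons G c2 s ψ y := by
  unfold Cons at hb ⊢
  rw [← hb]
  exact Finset.sum_congr rfl (fun b _ => by rw [h b])

theorem gad_cons_sub [Fintype V] {G : SimpleGraph V} {s : Fin 5 → ℝ × ℝ} {y : V}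
    {c : Sym2 V → Fin 5} {ψ1 ψ2 : V → V → ℝ} (t : ℝ) (h1 : Cons G c s ψ1 y)
    (h2 : Cons G c s ψ2 y) : Cons G c s (fun a b => ψ1 a b - t * ψ2 a b) y := by
  unfold Cons at h1 h2 ⊢
  have h3 : ∀ b, (ψ1 y b - t * ψ2 y b) • s (c s(y, b)) =
      ψ1 y b • s (c s(y, b)) - t • (ψ2 y b • s (c s(y, b))) := by
    intro b
    rw [sub_smul, mul_smul]
  simp only [h3]
  rw [Finset.sum_sub_distrib, ← Finset.smul_sum, h1, h2, smul_zero, sub_zero]

/-- a flow vanishing on `x x1` vanishes at `insert x A` -/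
theorem gad_nz [Fintype V] {G : SimpleGraph V} (hG : Cub G) {s : Fin 5 → ℝ × ℝ}
    (hs : NonPar s) {A : Finset V} (hA : Conn G A) {x x1 : V} (hx1 : x1 ∈ A) (hxx1 : G.Adj x x1)
    {c : Sym2 V → Fin 5} (hc : Proper G c) {ψ : V → V → ℝ} (hψ : Anti ψ)
    (hcons : ∀ a ∈ insert x A, Cons G c s ψ a) (h0 : ψ x x1 = 0) :
    ∀ a ∈ insert x A, ∀ b, G.Adj a b → ψ a b = 0 := by
  intro a ha
  rcases Finset.mem_insert.1 ha with rfl | ha'
  · exact gad_three hG hc hs (hcons _ ha) hxx1 h0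
  · refine conn_flow hG hc hs hA hψ (fun a ha => hcons a (Finset.mem_insert_of_mem ha)) hx1
      hxx1.symm ?_ a ha'
    rw [hψ, h0, neg_zero]

theorem gad_blk [Fintype V] {G : SimpleGraph V} (hG : Cub G) {s : Fin 5 → ℝ × ℝ}
    (hs : NonPar s) {A : Finset V} (hA : Conn G A) {x y : V} (hx : x ∉ A) (hxA : dg G A x = 2)
    (hxy : G.Adj x y) (hy : y ∉ A) {c1 c2 : Sym2 V → Fin 5} (h1 : Proper G c1)
    (h2 : Proper G c2) (hc : ∀ e, e ≠ s(x, y) → c1 e = c2 e) (hne : c1 s(x, y) ≠ c2 s(x, y)) :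
    Blk G c1 s (insert x A) ∨ Blk G c2 s (insert x A) := by
  by_contra hcon
  rw [not_or] at hcon
  obtain ⟨hn1, hn2⟩ := hcon
  unfold Blk at hn1 hn2
  push Not at hn1 hn2
  obtain ⟨ψ1, hψ1, hk1, a1, ha1, b1, hab1, hne1⟩ := hn1
  obtain ⟨ψ2, hψ2, hk2, a2, ha2, b2, hab2, hne2⟩ := hn2
  -- the neighbours of `x`
  obtain ⟨x1, x2, hx12, hfil⟩ := Finset.card_eq_two.1 hxA
  have hm1 : x1 ∈ A.filter (fun b => G.Adj x b) := by rw [hfil]; simp
  have hm2 : x2 ∈ A.filter (fun b => G.Adj x b) := by rw [hfil]; simp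
  rw [Finset.mem_filter] at hm1 hm2
  obtain ⟨hx1A, hxx1⟩ := hm1
  obtain ⟨hx2A, hxx2⟩ := hm2
  have hyx1 : y ≠ x1 := fun h => hy (h ▸ hx1A)
  have hyx2 : y ≠ x2 := fun h => hy (h ▸ hx2A)
  have hnb : ∀ u, G.Adj x u ↔ u = y ∨ u = x1 ∨ u = x2 := by
    have hsub : ({y, x1, x2} : Finset V) ⊆ univ.filter (fun b => G.Adj x b) := by
      intro u hu
      simp only [Finset.mem_insert, Finset.mem_singleton] at hu
      simp only [Finset.mem_filter, Finset.mem_univ, true_and]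
      rcases hu with rfl | rfl | rfl
      · exact hxy
      · exact hxx1
      · exact hxx2
    have hcard : ({y, x1, x2} : Finset V).card = 3 := by
      rw [Finset.card_insert_of_notMem (by simp [hyx1, hyx2]), Finset.card_pair hx12]
    have heq := Finset.eq_of_subset_of_card_le hsub (by rw [hcard]; exact (hG x).le)
    intro u
    have : u ∈ univ.filter (fun b => G.Adj x b) ↔ u ∈ ({y, x1, x2} : Finset V) := by rw [heq]
    simpa using this
  have hz1 : ψ1 x x1 ≠ 0 := fun h => hne1 (gad_nz hG hs hA hx1A hxx1 h1 hψ1 hk1 h a1 ha1 b1 hab1)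
  have hz2 : ψ2 x x1 ≠ 0 := fun h => hne2 (gad_nz hG hs hA hx1A hxx1 h2 hψ2 hk2 h a2 ha2 b2 hab2)
  -- colours at `A`
  have hcA : ∀ a ∈ A, ∀ b, c2 s(a, b) = c1 s(a, b) := by
    intro a ha b
    refine (hc _ ?_).symm
    intro h
    rw [Sym2.eq_iff] at h
    rcases h with ⟨h, _⟩ | ⟨h, _⟩
    · exact hx (h ▸ ha)
    · exact hy (h ▸ ha)
  set t : ℝ := ψ1 x x1 / ψ2 x x1 with ht
  have htt : ψ1 x x1 = t * ψ2 x x1 := by rw [ht]; field_simp
  have hanti : Anti (fun a b => ψ1 a b - t * ψ2 a b) := by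
    intro a b
    simp only
    rw [hψ1 a b, hψ2 a b]
    ring
  have hflow := conn_flow hG h1 hs hA hanti (fun a ha => gad_cons_sub t
    (hk1 a (Finset.mem_insert_of_mem ha))
    (gad_cons_congr (hcA a ha) (hk2 a (Finset.mem_insert_of_mem ha)))) hx1A hxx1.symm (by
      rw [hψ1 x1 x, hψ2 x1 x, htt]
      ring) x2 hx2A x hxx2.symm
  have htt2 : ψ1 x x2 = t * ψ2 x x2 := by
    rw [hψ1 x x2, hψ2 x x2]
    linarith
  have hk1x := hk1 x (Finset.mem_insert_self _ _)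
  have hk2x := hk2 x (Finset.mem_insert_self _ _)
  rw [cons_iff hyx1 hyx2 hx12 hnb] at hk1x hk2x
  have hc1 : c2 s(x, x1) = c1 s(x, x1) := by
    rw [Sym2.eq_swap]
    exact hcA x1 hx1A x
  have hc2 : c2 s(x, x2) = c1 s(x, x2) := by
    rw [Sym2.eq_swap]
    exact hcA x2 hx2A x
  rw [hc1, hc2] at hk2x
  set r1 : ℝ × ℝ := ψ1 x x1 • s (c1 s(x, x1)) + ψ1 x x2 • s (c1 s(x, x2)) with hr1
  set r2 : ℝ × ℝ := ψ2 x x1 • s (c1 s(x, x1)) + ψ2 x x2 • s (c1 s(x, x2)) with hr2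
  have hrr : r1 = t • r2 := by
    rw [hr1, hr2, htt, htt2, smul_add, smul_smul, smul_smul]
  have hr1' : r1 = (-ψ1 x y) • s (c1 s(x, y)) := by
    rw [neg_smul, eq_neg_iff_add_eq_zero, ← hk1x, hr1]
    abel
  have hr2' : r2 = (-ψ2 x y) • s (c2 s(x, y)) := by
    rw [neg_smul, eq_neg_iff_add_eq_zero, ← hk2x, hr2]
    abel
  have e1 : cr r1 (s (c1 s(x, y))) = 0 := by rw [hr1', cr_smul_left, cr_self, mul_zero]
  have e2 : cr r1 (s (c2 s(x, y))) = 0 := by
    rw [hrr, hr2', cr_smul_left, cr_smul_left, cr_self, mul_zero, mul_zero]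
  have hr0 : r1 = 0 := eq_zero_of_cr (hs _ _ hne) e1 e2
  exact hz1 (cr_indep (hs _ _ (h1 x x1 x2 hxx1 hxx2 hx12)) (hr1 ▸ hr0)).1

/-- blocking only depends on the colours of the edges at `Y` -/
theorem blk_congr [Fintype V] {G : SimpleGraph V} {s : Fin 5 → ℝ × ℝ} {Y : Finset V}
    {c1 c2 : Sym2 V → Fin 5} (h : ∀ y ∈ Y, ∀ b, c1 s(y, b) = c2 s(y, b)) (hb : Blk G c1 s Y) :
    Blk G c2 s Y := by
  intro ψ hψ hcons
  exact hb ψ hψ (fun y hy => gad_cons_congr (fun b => (h y hy b).symm) (hcons y hy))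

end

end SL
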