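import Pool.Agent.H53.SL.Base

/-!
# Geometry lemmas of the slope project
-/

namespace SL

open Classical Finset Filter Topology

noncomputable section

variable {V : Type}

theorem dir_ne_zero (σ : Option ℝ) : dir σ ≠ 0 := by
  cases σ with
  | none => simp [dir]
  | some m => simp [dir]

theorem cr_dir_dir {σ τ : Option ℝ} (h : σ ≠ τ) : cr (dir σ) (dir τ) ≠ 0 := by
  cases σ with
  | none =>
    cases τ with
    | none => exact absurd rfl h
    | some m => simp [dir, cr]
  | some m =>
    cases τ with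
    | none => simp [dir, cr]
    | some m' =>
      simp only [dir, cr]
      intro h'
      apply h
      congr 1
      linarith

theorem slp_eq_iff {p q : ℝ × ℝ} (hpq : p ≠ q) (σ : Option ℝ) :
    slp p q = σ ↔ cr (q - p) (dir σ) = 0 := by
  obtain ⟨p1, p2⟩ := p
  obtain ⟨q1, q2⟩ := q
  unfold slp
  by_cases h : p1 = q1
  · subst h
    have h2 : p2 ≠ q2 := fun h2 => hpq (by rw [h2])
    cases σ with
    | none => simp [dir, cr]
    | some m => simpa [dir, cr, sub_eq_zero] using h2
  · have h1 : q1 - p1 ≠ 0 := fun h' => h (by linarith)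
    cases σ with
    | none => simpa [dir, cr, h] using h1
    | some m =>
      simp only [h, if_false, Option.some.injEq, dir, cr, Prod.fst_sub, Prod.snd_sub]
      rw [div_eq_iff h1]
      constructor <;> intro h' <;> linarith

/-- the slope of `p q` really is the direction of `q - p` -/
theorem cr_dir_slp {p q : ℝ × ℝ} (hpq : p ≠ q) : cr (q - p) (dir (slp p q)) = 0 :=
  (slp_eq_iff hpq _).1 rfl

theorem slp_comm (p q : ℝ × ℝ) : slp p q = slp q p := by
  by_cases hpq : p = q
  · rw [hpq]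
  · rw [slp_eq_iff hpq]
    have := cr_dir_slp (Ne.symm hpq)
    rw [show q - p = -(p - q) by abel, cr_neg_left, this, neg_zero]

theorem slp_eq_of_cr {p q p' q' : ℝ × ℝ} (h : p ≠ q) (h' : p' ≠ q')
    (hc : cr (q - p) (q' - p') = 0) : slp p q = slp p' q' := by
  rw [slp_eq_iff h]
  by_contra hne
  have h1 := cr_dir_slp h'
  -- `q' - p'` is parallel to both
  obtain ⟨t, ht⟩ := exists_smul_of_cr (dir_ne_zero _) h1
  rw [ht, cr_smul_right] at hc
  have ht0 : t ≠ 0 := by
    rintro rfl
    rw [zero_smul] at ht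
    exact h' (sub_eq_zero.1 ht).symm
  rcases mul_eq_zero.1 hc with h2 | h2
  · exact ht0 h2
  · exact hne h2

theorem cr_of_slp_eq {p q p' q' : ℝ × ℝ} (h : p ≠ q) (h' : p' ≠ q')
    (hc : slp p q = slp p' q') : cr (q - p) (q' - p') = 0 := by
  have h1 := cr_dir_slp h
  have h2 := cr_dir_slp h'
  rw [← hc] at h2
  obtain ⟨t, ht⟩ := exists_smul_of_cr (dir_ne_zero _) h1
  obtain ⟨t', ht'⟩ := exists_smul_of_cr (dir_ne_zero _) h2
  rw [ht, ht', cr_smul_left, cr_smul_right, cr_self]; ring

theorem slp_homothety {κ : ℝ} (hκ : κ ≠ 0) (c p q : ℝ × ℝ) :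
    slp (κ • p + c) (κ • q + c) = slp p q := by
  by_cases hpq : p = q
  · subst hpq; simp [slp]
  · have : κ • p + c ≠ κ • q + c := by
      intro h
      have h1 := add_right_cancel h
      exact hpq (smul_right_injective _ hκ h1)
    rw [slp_eq_iff this]
    have h2 := cr_dir_slp hpq
    rw [show κ • q + c - (κ • p + c) = κ • (q - p) by rw [smul_sub]; abel, cr_smul_left, h2,
      mul_zero]

theorem slp_add (c p q : ℝ × ℝ) : slp (p + c) (q + c) = slp p q := by
  have := slp_homothety one_ne_zero c p q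
  simpa using this

/-- points of the open segment -/
theorem mem_openSegment_iff' {p q r : ℝ × ℝ} :
    r ∈ openSegment ℝ p q ↔ ∃ t : ℝ, 0 < t ∧ t < 1 ∧ r = p + t • (q - p) := by
  constructor
  · rintro ⟨a, b, ha, hb, hab, rfl⟩
    refine ⟨b, hb, by linarith, ?_⟩
    have : a = 1 - b := by linarith
    subst this
    rw [smul_sub, sub_smul, one_smul]; abel
  · rintro ⟨t, h0, h1, rfl⟩
    refine ⟨1 - t, t, by linarith, h0, by ring, ?_⟩
    rw [smul_sub, sub_smul, one_smul]; abel

theorem mem_segment_iff' {p q r : ℝ × ℝ} :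
    r ∈ segment ℝ p q ↔ ∃ t : ℝ, 0 ≤ t ∧ t ≤ 1 ∧ r = p + t • (q - p) := by
  constructor
  · rintro ⟨a, b, ha, hb, hab, rfl⟩
    refine ⟨b, hb, by linarith, ?_⟩
    have : a = 1 - b := by linarith
    subst this
    rw [smul_sub, sub_smul, one_smul]; abel
  · rintro ⟨t, h0, h1, rfl⟩
    refine ⟨1 - t, t, by linarith, h0, by ring, ?_⟩
    rw [smul_sub, sub_smul, one_smul]; abel

theorem openSegment_symm' (p q : ℝ × ℝ) : openSegment ℝ p q = openSegment ℝ q p :=
  openSegment_symm ℝ p q

/-- a point of the open segment is on the line -/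
theorem cr_of_mem_openSegment {p q r d : ℝ × ℝ} (h : r ∈ openSegment ℝ p q)
    (hd : cr (q - p) d = 0) : cr (r - p) d = 0 := by
  obtain ⟨t, -, -, rfl⟩ := mem_openSegment_iff'.1 h
  rw [add_sub_cancel_left, cr_smul_left, hd, mul_zero]

theorem not_mem_openSegment_left {p q : ℝ × ℝ} (h : p ≠ q) : p ∉ openSegment ℝ p q := by
  intro h1
  obtain ⟨t, h0, -, ht⟩ := mem_openSegment_iff'.1 h1
  have : t • (q - p) = 0 := by
    have := congrArg (fun v => v - p) ht
    simpa using this.symm
  rcases smul_eq_zero.1 this with h2 | h2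
  · linarith
  · exact h (sub_eq_zero.1 h2).symm

theorem not_mem_openSegment_right {p q : ℝ × ℝ} (h : p ≠ q) : q ∉ openSegment ℝ p q := by
  rw [openSegment_symm]; exact not_mem_openSegment_left h.symm

theorem openSegment_homothety {κ : ℝ} (hκ : κ ≠ 0) (c p q r : ℝ × ℝ) :
    κ • r + c ∈ openSegment ℝ (κ • p + c) (κ • q + c) ↔ r ∈ openSegment ℝ p q := by
  rw [mem_openSegment_iff', mem_openSegment_iff']
  constructor
  · rintro ⟨t, h0, h1, h⟩
    refine ⟨t, h0, h1, ?_⟩
    have h2 : κ • r = κ • (p + t • (q - p)) := by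
      have : κ • r + c = κ • (p + t • (q - p)) + c := by
        rw [h, show κ • q + c - (κ • p + c) = κ • (q - p) by rw [smul_sub]; abel,
          smul_add κ, smul_comm κ t]
        abel
      exact add_right_cancel this
    exact smul_right_injective _ hκ h2
  · rintro ⟨t, h0, h1, rfl⟩
    refine ⟨t, h0, h1, ?_⟩
    rw [smul_add, smul_comm κ t, smul_sub,
      show κ • q + c - (κ • p + c) = κ • q - κ • p by abel]
    abel

theorem drOn_congr {S : Set (Option ℝ)} {A : Finset V} {G : SimpleGraph V} {f g : V → ℝ × ℝ}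
    (h : ∀ v ∈ A, f v = g v) (hf : DrOn S A G f) : DrOn S A G g := by
  refine ⟨?_, ?_⟩
  · intro a ha b hb hab
    rw [Finset.mem_coe] at ha hb
    exact hf.1 ha hb (by rw [h a ha, h b hb, hab])
  · intro u hu v hv huv
    obtain ⟨h1, h2⟩ := hf.2 u hu v hv huv
    rw [h u hu, h v hv] at h1
    refine ⟨h1, fun w hw hwu hwv => ?_⟩
    have := h2 w hw hwu hwv
    rwa [h u hu, h v hv, h w hw] at this

theorem drOn_graph_congr {S : Set (Option ℝ)} {A : Finset V} {G G' : SimpleGraph V}
    {f : V → ℝ × ℝ} (h : ∀ u ∈ A, ∀ v ∈ A, (G.Adj u v ↔ G'.Adj u v)) (hf : DrOn S A G f) :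
    DrOn S A G' f :=
  ⟨hf.1, fun u hu v hv huv => hf.2 u hu v hv ((h u hu v hv).2 huv)⟩

theorem drOn_homothety {S : Set (Option ℝ)} {A : Finset V} {G : SimpleGraph V}
    {f : V → ℝ × ℝ} {κ : ℝ} (hκ : κ ≠ 0) (c : ℝ × ℝ) (hf : DrOn S A G f) :
    DrOn S A G (fun v => κ • f v + c) := by
  refine ⟨?_, ?_⟩
  · intro a ha b hb hab
    exact hf.1 ha hb (smul_right_injective _ hκ (add_right_cancel hab))
  · intro u hu v hv huv
    obtain ⟨h1, h2⟩ := hf.2 u hu v hv huv
    refine ⟨?_, fun w hw hwu hwv => ?_⟩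
    · rwa [slp_homothety hκ]
    · rw [openSegment_homothety hκ]
      exact h2 w hw hwu hwv

theorem freeRay_homothety {A : Finset V} {f : V → ℝ × ℝ} {w : V} {σ : Option ℝ} {κ : ℝ}
    (hκ : κ ≠ 0) (c : ℝ × ℝ) (h : FreeRay A f w σ) :
    FreeRay A (fun v => κ • f v + c) w σ := by
  obtain ⟨r, hr, h⟩ := h
  rcases lt_or_gt_of_ne hκ with hk | hk
  · refine ⟨-r, ?_, ?_⟩
    · rcases hr with rfl | rfl
      · exact Or.inr rfl
      · exact Or.inl (by simp)
    · intro v hv hvw t ht heq
      apply h v hv hvw (t / (-κ)) (div_nonneg ht (by linarith))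
      apply smul_right_injective _ hκ
      simp only
      have h1 : κ • f v = κ • f w + t • (-r) := by
        have h2 : κ • f v + c = (κ • f w + t • (-r)) + c := by
          have h3 : κ • f v + c = κ • f w + c + t • (-r) := heq
          rw [h3]; abel
        exact add_right_cancel h2
      rw [h1, smul_add, smul_smul, show κ * (t / -κ) = -t by field_simp]
      rw [smul_neg, neg_smul]
  · refine ⟨r, hr, ?_⟩
    intro v hv hvw t ht heq
    apply h v hv hvw (t / κ) (div_nonneg ht hk.le)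
    apply smul_right_injective _ hκ
    simp only
    have h1 : κ • f v = κ • f w + t • r := by
      have h2 : κ • f v + c = (κ • f w + t • r) + c := by
        have h3 : κ • f v + c = κ • f w + c + t • r := heq
        rw [h3]; abel
      exact add_right_cancel h2
    rw [h1, smul_add, smul_smul, show κ * (t / κ) = t by field_simp]

/-! ## limits -/

theorem ev_lin_ne {a b : ℝ} (h : a ≠ 0 ∨ b ≠ 0) : ∀ᶠ ε in 𝓝[>] (0 : ℝ), a + ε * b ≠ 0 := by
  by_cases ha : a = 0
  · subst ha
    have hb : b ≠ 0 := h.resolve_left (fun h' => h' rfl)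
    filter_upwards [self_mem_nhdsWithin] with ε hε
    rw [zero_add]
    exact mul_ne_zero (ne_of_gt hε) hb
  · have : Tendsto (fun ε : ℝ => a + ε * b) (𝓝[>] 0) (𝓝 (a + 0 * b)) := by
      apply Tendsto.mono_left _ nhdsWithin_le_nhds
      exact (continuous_const.add (continuous_id.mul continuous_const)).tendsto 0
    rw [zero_mul, add_zero] at this
    exact this.eventually_ne ha

theorem ev_lin_ne_top {a b : ℝ} (h : b ≠ 0) : ∀ᶠ t in (atTop : Filter ℝ), a + t * b ≠ 0 := by
  filter_upwards [eventually_gt_atTop (-a / b)] with t ht h0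
  have : t = -a / b := by rw [eq_div_iff h]; linarith
  linarith

/-- a point not on a closed segment stays off it under small perturbations -/
theorem ev_segment {p p' a a' b b' : ℝ × ℝ} (h : p ∉ segment ℝ a b) :
    ∀ᶠ ε in 𝓝[>] (0 : ℝ), p + ε • p' ∉ segment ℝ (a + ε • a') (b + ε • b') := by
  have hcl : IsClosed {x : ℝ | p + x • p' ∈ segment ℝ (a + x • a') (b + x • b')} := by
    have : {x : ℝ | p + x • p' ∈ segment ℝ (a + x • a') (b + x • b')} =
        Prod.snd '' ({y : ℝ × ℝ | p + y.2 • p' =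
          (a + y.2 • a') + y.1 • ((b + y.2 • b') - (a + y.2 • a'))} ∩
          (Set.Icc (0 : ℝ) 1) ×ˢ (Set.univ : Set ℝ)) := by
      ext x
      simp only [Set.mem_ofPred_eq, mem_segment_iff', Set.mem_image, Set.mem_inter_iff,
        Set.mem_prod, Set.mem_Icc, Set.mem_univ, and_true, Prod.exists, exists_eq_right]
      constructor
      · rintro ⟨t, h0, h1, h2⟩; exact ⟨t, h2, h0, h1⟩
      · rintro ⟨t, h2, h0, h1⟩; exact ⟨t, h0, h1, h2⟩
    rw [this]
    have hK : IsCompact (Set.Icc (0 : ℝ) 1) := isCompact_Icc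
    -- projection along a compact set is closed
    have hproj := isClosedMap_snd_of_compactSpace (X := Set.Icc (0 : ℝ) 1) (Y := ℝ)
    have hc : IsClosed {y : (Set.Icc (0 : ℝ) 1) × ℝ | p + y.2 • p' =
        (a + y.2 • a') + (y.1 : ℝ) • ((b + y.2 • b') - (a + y.2 • a'))} := by
      apply isClosed_eq
      · fun_prop
      · fun_prop
    have := hproj _ hc
    convert this using 1
    ext x
    simp only [Set.mem_image, Set.mem_inter_iff, Set.mem_ofPred_eq, Set.mem_prod, Set.mem_Icc,
      Set.mem_univ, and_true, Prod.exists, exists_eq_right, Subtype.exists, exists_prop]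
    constructor
    · rintro ⟨t, h1, h2⟩; exact ⟨t, h2, h1⟩
    · rintro ⟨t, h1, h2⟩; exact ⟨t, h2, h1⟩
  have h0 : (0 : ℝ) ∈ {x : ℝ | p + x • p' ∈ segment ℝ (a + x • a') (b + x • b')}ᶜ := by
    simpa using h
  exact mem_nhdsWithin_of_mem_nhds (hcl.isOpen_compl.mem_nhds h0)

/-- a ray not meeting a point stays off it under small perturbations -/
theorem ev_ray {p q q' r : ℝ × ℝ} (hr : r ≠ 0) (h : ∀ t : ℝ, 0 ≤ t → p ≠ q + t • r) :
    ∀ᶠ ε in 𝓝[>] (0 : ℝ), ∀ t : ℝ, 0 ≤ t → p ≠ q + ε • q' + t • r := by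
  by_cases hcr : cr (p - q) r = 0
  · -- `p` is on the line, on the other side: `p = q - t0 r`, `t0 > 0`
    obtain ⟨t0, ht0⟩ := exists_smul_of_cr hr hcr
    have hneg : t0 < 0 := by
      by_contra hge
      push Not at hge
      apply h t0 hge
      rw [← ht0]; abel
    -- continuity of the inner product with `r`
    have hrr : 0 < r.1 * r.1 + r.2 * r.2 := by
      rcases (by
        by_contra hcon
        push Not at hcon
        exact hr (Prod.ext hcon.1 hcon.2) : r.1 ≠ 0 ∨ r.2 ≠ 0) with h1 | h1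
      · have := mul_self_pos.2 h1
        nlinarith [mul_self_nonneg r.2]
      · have := mul_self_pos.2 h1
        nlinarith [mul_self_nonneg r.1]
    have hlim : ∀ᶠ ε in 𝓝[>] (0 : ℝ),
        t0 * (r.1 * r.1 + r.2 * r.2) - ε * (q'.1 * r.1 + q'.2 * r.2) < 0 := by
      have : Tendsto (fun ε : ℝ =>
          t0 * (r.1 * r.1 + r.2 * r.2) - ε * (q'.1 * r.1 + q'.2 * r.2)) (𝓝[>] 0)
          (𝓝 (t0 * (r.1 * r.1 + r.2 * r.2) - 0 * (q'.1 * r.1 + q'.2 * r.2))) := by
        apply Tendsto.mono_left _ nhdsWithin_le_nhds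
        exact (continuous_const.sub (continuous_id.mul continuous_const)).tendsto 0
      apply this.eventually_lt_const
      rw [zero_mul, sub_zero]
      exact mul_neg_of_neg_of_pos hneg hrr
    filter_upwards [hlim] with ε hε t ht heq
    have e1 : p.1 - q.1 = t0 * r.1 := by
      have := congrArg Prod.fst ht0; simpa using this
    have e2 : p.2 - q.2 = t0 * r.2 := by
      have := congrArg Prod.snd ht0; simpa using this
    have f1 : p.1 = q.1 + ε * q'.1 + t * r.1 := by
      have := congrArg Prod.fst heq; simpa using this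
    have f2 : p.2 = q.2 + ε * q'.2 + t * r.2 := by
      have := congrArg Prod.snd heq; simpa using this
    have : t0 * (r.1 * r.1 + r.2 * r.2) - ε * (q'.1 * r.1 + q'.2 * r.2) =
        t * (r.1 * r.1 + r.2 * r.2) := by
      have g1 : t0 * r.1 - ε * q'.1 = t * r.1 := by linarith
      have g2 : t0 * r.2 - ε * q'.2 = t * r.2 := by linarith
      linear_combination r.1 * g1 + r.2 * g2
    rw [this] at hε
    nlinarith [mul_nonneg ht hrr.le]
  · have := ev_lin_ne (a := cr (p - q) r) (b := - cr q' r) (Or.inl hcr)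
    filter_upwards [this] with ε hε t ht heq
    apply hε
    have : p - q = ε • q' + t • r := by rw [heq]; abel
    rw [this, cr_add_left, cr_smul_left, cr_smul_left, cr_self]; ring

/-- dot product -/
def dot (p q : ℝ × ℝ) : ℝ := p.1 * q.1 + p.2 * q.2

theorem dot_add_left (p q r : ℝ × ℝ) : dot (p + q) r = dot p r + dot q r := by
  simp only [dot, Prod.fst_add, Prod.snd_add]; ring
theorem dot_sub_left (p q r : ℝ × ℝ) : dot (p - q) r = dot p r - dot q r := by
  simp only [dot, Prod.fst_sub, Prod.snd_sub]; ring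
theorem dot_smul_left (t : ℝ) (p q : ℝ × ℝ) : dot (t • p) q = t * dot p q := by
  simp only [dot, Prod.smul_fst, Prod.smul_snd, smul_eq_mul]; ring
theorem dot_neg_left (p q : ℝ × ℝ) : dot (-p) q = - dot p q := by
  simp only [dot, Prod.fst_neg, Prod.snd_neg]; ring
theorem dot_neg_right (p q : ℝ × ℝ) : dot p (-q) = - dot p q := by
  simp only [dot, Prod.fst_neg, Prod.snd_neg]; ring
theorem dot_self_pos {r : ℝ × ℝ} (hr : r ≠ 0) : 0 < dot r r := by
  unfold dot
  rcases (by
    by_contra hcon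
    push Not at hcon
    exact hr (Prod.ext hcon.1 hcon.2) : r.1 ≠ 0 ∨ r.2 ≠ 0) with h1 | h1
  · have := mul_self_pos.2 h1
    nlinarith [mul_self_nonneg r.2]
  · have := mul_self_pos.2 h1
    nlinarith [mul_self_nonneg r.1]

/-- open half planes are convex -/
theorem dot_openSegment_lt {p q r ℓ : ℝ × ℝ} {M : ℝ} (hp : dot p ℓ < M) (hq : dot q ℓ < M)
    (hr : r ∈ openSegment ℝ p q) : dot r ℓ < M := by
  obtain ⟨t, h0, h1, rfl⟩ := mem_openSegment_iff'.1 hr
  rw [dot_add_left, dot_smul_left, dot_sub_left]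
  nlinarith

theorem dot_openSegment_gt {p q r ℓ : ℝ × ℝ} {M : ℝ} (hp : M < dot p ℓ) (hq : M < dot q ℓ)
    (hr : r ∈ openSegment ℝ p q) : M < dot r ℓ := by
  obtain ⟨t, h0, h1, rfl⟩ := mem_openSegment_iff'.1 hr
  rw [dot_add_left, dot_smul_left, dot_sub_left]
  nlinarith

end

end SL
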