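import Pool.Agent.H53.SL.Geo

/-!
# Module GLUE: putting two drawings together (150 lines)

`draw_disj`: no edges between `A` and `B`: use `h v = f v` on `A` and `h v = g v + t • (1,0)` on `B`, `t` so
large that every point of `B` has a larger `dot _ (1,0)` than every point of `A`
(`dot_openSegment_lt/gt`, `drOn_homothety`, `drOn_congr`).

`draw_bridge`: exactly one edge `a0 b0` between `A` and `B`; one ray of slope `σ` at `a0` in `f` and
one at `b0` in `g` is free.  Let `r` be the direction (`± dir σ`) of the free ray at `a0`; replace `g` by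
`κ • g`, `κ = ±1`, so that its free ray has direction `-r`; `h v = f v` on `A`,
`h v = κ • (g v - g b0) + f a0 + t • r` on `B`, `t` large: `B` is separated from `A` by a line
(`dot _ r`).  The edge `a0 b0` has slope `σ`; its points are on both free rays, so there is no
other vertex on it.
-/

namespace SL

open Classical Finset Filter Topology

noncomputable section

variable {V : Type}

/-- the glued function -/
def glueF (B : Finset V) (f g : V → ℝ × ℝ) : V → ℝ × ℝ := fun v => if v ∈ B then g v else f v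

theorem glueF_left {A B : Finset V} (hd : Disjoint A B) (f g : V → ℝ × ℝ) {v : V} (hv : v ∈ A) :
    glueF B f g v = f v := by
  unfold glueF
  rw [if_neg (Finset.disjoint_left.1 hd hv)]

theorem glueF_right {B : Finset V} (f g : V → ℝ × ℝ) {v : V} (hv : v ∈ B) :
    glueF B f g v = g v := by
  unfold glueF
  rw [if_pos hv]

theorem glue_core {S : Set (Option ℝ)} {A B : Finset V} (hd : Disjoint A B)
    {G : SimpleGraph V} {f g : V → ℝ × ℝ} (hf : DrOn S A G f) (hg : DrOn S B G g)
    {ℓ : ℝ × ℝ} {M : ℝ} (hA : ∀ a ∈ A, dot (f a) ℓ < M) (hB : ∀ b ∈ B, M < dot (g b) ℓ)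
    (hAB : ∀ a ∈ A, ∀ b ∈ B, G.Adj a b → slp (f a) (g b) ∈ S ∧
      (∀ w ∈ A, w ≠ a → f w ∉ openSegment ℝ (f a) (g b)) ∧
      (∀ w ∈ B, w ≠ b → g w ∉ openSegment ℝ (f a) (g b))) :
    DrOn S (A ∪ B) G (glueF B f g) := by
  have hl : ∀ v ∈ A, glueF B f g v = f v := fun v hv => glueF_left hd f g hv
  have hr : ∀ v ∈ B, glueF B f g v = g v := fun v hv => glueF_right f g hv
  refine ⟨?_, ?_⟩
  · intro u hu v hv huv
    rw [Finset.mem_coe, Finset.mem_union] at hu hv
    rcases hu with hu | hu <;> rcases hv with hv | hv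
    · rw [hl u hu, hl v hv] at huv
      exact hf.1 hu hv huv
    · rw [hl u hu, hr v hv] at huv
      have h1 := hA u hu
      have h2 := hB v hv
      rw [huv] at h1
      linarith
    · rw [hr u hu, hl v hv] at huv
      have h1 := hA v hv
      have h2 := hB u hu
      rw [huv] at h2
      linarith
    · rw [hr u hu, hr v hv] at huv
      exact hg.1 hu hv huv
  · have mixed : ∀ a ∈ A, ∀ b ∈ B, G.Adj a b → slp (f a) (g b) ∈ S ∧
        ∀ w ∈ A ∪ B, w ≠ a → w ≠ b → glueF B f g w ∉ openSegment ℝ (f a) (g b) := by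
      intro a ha b hb hab
      obtain ⟨h1, h2, h3⟩ := hAB a ha b hb hab
      refine ⟨h1, fun w hw hwa hwb => ?_⟩
      rw [Finset.mem_union] at hw
      rcases hw with hw | hw
      · rw [hl w hw]; exact h2 w hw hwa
      · rw [hr w hw]; exact h3 w hw hwb
    intro u hu v hv huv
    rw [Finset.mem_union] at hu hv
    rcases hu with hu | hu <;> rcases hv with hv | hv
    · obtain ⟨h1, h2⟩ := hf.2 u hu v hv huv
      rw [hl u hu, hl v hv]
      refine ⟨h1, fun w hw hwu hwv => ?_⟩
      rw [Finset.mem_union] at hw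
      rcases hw with hw | hw
      · rw [hl w hw]; exact h2 w hw hwu hwv
      · rw [hr w hw]
        intro hmem
        have h3 := dot_openSegment_lt (hA u hu) (hA v hv) hmem
        have h4 := hB w hw
        linarith
    · obtain ⟨h1, h2⟩ := mixed u hu v hv huv
      rw [hl u hu, hr v hv]
      exact ⟨h1, h2⟩
    · obtain ⟨h1, h2⟩ := mixed v hv u hu huv.symm
      rw [hr u hu, hl v hv, slp_comm, openSegment_symm']
      exact ⟨h1, fun w hw hwu hwv => h2 w hw hwv hwu⟩
    · obtain ⟨h1, h2⟩ := hg.2 u hu v hv huv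
      rw [hr u hu, hr v hv]
      refine ⟨h1, fun w hw hwu hwv => ?_⟩
      rw [Finset.mem_union] at hw
      rcases hw with hw | hw
      · rw [hl w hw]
        intro hmem
        have h3 := dot_openSegment_gt (hB u hu) (hB v hv) hmem
        have h4 := hA w hw
        linarith
      · rw [hr w hw]; exact h2 w hw hwu hwv

theorem glue_bound (A : Finset V) (F : V → ℝ) : ∃ M : ℝ, ∀ a ∈ A, |F a| < M := by
  refine ⟨∑ a ∈ A, |F a| + 1, fun a ha => ?_⟩
  have := Finset.single_le_sum (f := fun a => |F a|) (fun i _ => abs_nonneg (F i)) ha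
  linarith

/-- shifting `B` far away -/
theorem glue_shift (A B : Finset V) (f g : V → ℝ × ℝ) {r : ℝ × ℝ} (hr : r ≠ 0) :
    ∃ t M : ℝ, 0 < t ∧ (∀ a ∈ A, dot (f a) r < M) ∧ ∀ b ∈ B, M < dot (g b + t • r) r := by
  obtain ⟨M1, hM1⟩ := glue_bound A (fun a => dot (f a) r)
  obtain ⟨M2, hM2⟩ := glue_bound B (fun b => dot (g b) r)
  have hrr := dot_self_pos hr
  refine ⟨(|M1| + |M2| + 1) / dot r r, M1, by positivity, ?_, ?_⟩
  · intro a ha
    exact (le_abs_self _).trans_lt (hM1 a ha)
  · intro b hb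
    have h1 := hM2 b hb
    have h2 := neg_abs_le (dot (g b) r)
    rw [dot_add_left, dot_smul_left, div_mul_cancel₀ _ hrr.ne']
    have h3 := le_abs_self M1
    have h4 := le_abs_self M2
    linarith

theorem draw_disj {S : Set (Option ℝ)} {A B : Finset V} (hd : Disjoint A B)
    {G : SimpleGraph V} (hno : ∀ a ∈ A, ∀ b ∈ B, ¬ G.Adj a b) {f g : V → ℝ × ℝ}
    (hf : DrOn S A G f) (hg : DrOn S B G g) : ∃ h : V → ℝ × ℝ, DrOn S (A ∪ B) G h := by
  have hr : ((1, 0) : ℝ × ℝ) ≠ 0 := by
    intro h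
    have := congrArg Prod.fst h
    simp at this
  obtain ⟨t, M, _, hA, hB⟩ := glue_shift A B f g hr
  have hg' : DrOn S B G (fun v => g v + t • ((1, 0) : ℝ × ℝ)) := by
    have := drOn_homothety one_ne_zero (t • ((1, 0) : ℝ × ℝ)) hg
    simpa using this
  exact ⟨_, glue_core hd hf hg' hA hB (fun a ha b hb hab => absurd hab (hno a ha b hb))⟩

theorem draw_bridge {S : Set (Option ℝ)} {A B : Finset V} (hd : Disjoint A B)
    {G : SimpleGraph V} {a0 b0 : V} (ha0 : a0 ∈ A) (hb0 : b0 ∈ B)
    (honly : ∀ a ∈ A, ∀ b ∈ B, G.Adj a b → a = a0 ∧ b = b0) {f g : V → ℝ × ℝ}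
    (hf : DrOn S A G f) (hg : DrOn S B G g) {σ : Option ℝ} (hσ : σ ∈ S)
    (hrf : FreeRay A f a0 σ) (hrg : FreeRay B g b0 σ) :
    ∃ h : V → ℝ × ℝ, DrOn S (A ∪ B) G h := by
  obtain ⟨r, hr, hfree⟩ := hrf
  obtain ⟨r', hr', hfree'⟩ := hrg
  have hd0 := dir_ne_zero σ
  have hr0 : r ≠ 0 := by
    rcases hr with rfl | rfl
    · exact hd0
    · exact neg_ne_zero.2 hd0
  obtain ⟨κ, hκ, hκr⟩ : ∃ κ : ℝ, κ ≠ 0 ∧ κ • r' = -r := by
    rcases hr with rfl | rfl <;> rcases hr' with rfl | rfl
    · exact ⟨-1, by norm_num, by simp⟩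
    · exact ⟨1, by norm_num, by simp⟩
    · exact ⟨1, by norm_num, by simp⟩
    · exact ⟨-1, by norm_num, by simp⟩
  obtain ⟨t, M, ht, hA, hB⟩ := glue_shift A B f (fun v => κ • g v + (f a0 - κ • g b0)) hr0
  have hform : ∀ v, κ • g v + (f a0 - κ • g b0) + t • r =
      κ • g v + (f a0 - κ • g b0 + t • r) := fun v => by rw [add_assoc]
  have hg' : DrOn S B G (fun v => κ • g v + (f a0 - κ • g b0) + t • r) := by
    have := drOn_homothety hκ (f a0 - κ • g b0 + t • r) hg
    simpa only [hform] using this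
  refine ⟨_, glue_core hd hf hg' hA hB ?_⟩
  intro a ha b hb hab
  obtain ⟨rfl, rfl⟩ := honly a ha b hb hab
  have hgb : κ • g b + (f a - κ • g b) + t • r = f a + t • r := by abel
  simp only [hgb]
  have hne : f a ≠ f a + t • r := by
    intro h
    have h1 : t • r = 0 := by
      have := congrArg (fun v => v - f a) h
      simpa using this.symm
    rcases smul_eq_zero.1 h1 with h2 | h2
    · exact ht.ne' h2
    · exact hr0 h2
  have hsub : f a + t • r - f a = t • r := by abel
  refine ⟨?_, ?_, ?_⟩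
  · have : slp (f a) (f a + t • r) = σ := by
      rw [slp_eq_iff hne, hsub, cr_smul_left]
      rcases hr with rfl | rfl
      · rw [cr_self, mul_zero]
      · rw [cr_neg_left, cr_self, neg_zero, mul_zero]
    rw [this]
    exact hσ
  · intro w hw hwa hmem
    obtain ⟨q, hq0, hq1, hq⟩ := mem_openSegment_iff'.1 hmem
    rw [hsub, smul_smul] at hq
    exact hfree w hw hwa (q * t) (by positivity) hq
  · intro w hw hwb hmem
    obtain ⟨q, hq0, hq1, hq⟩ := mem_openSegment_iff'.1 hmem
    rw [hsub, smul_smul] at hq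
    refine hfree' w hw hwb ((1 - q) * t) (mul_nonneg (by linarith) ht.le) ?_
    apply smul_right_injective _ hκ
    simp only
    have h1 : κ • g w = κ • g b + (q * t - t) • r := by
      have h2 : κ • g w = (κ • g w + (f a - κ • g b) + t • r) - (f a - κ • g b) - t • r := by abel
      rw [h2, hq, sub_smul]
      abel
    rw [h1, smul_add, smul_comm κ, hκr, smul_neg, ← neg_smul]
    congr 2
    ring

end

end SL
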