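import Pool.Agent.H53.SL.Exp

/-!
# Module VEC: rooted lemma, case 2a (200 lines; uses `expand`, `expand_ray`)

`vecA`: `a = f z1 - f w`, `b = f z2 - f w` not parallel; `ρ, α, β` different slopes, none parallel to
`a` or `b`.  Write `dir ρ = λ • a + μ • b` (`exists_coord`; `λ, μ ≠ 0`), `p1 = λ • a`, `p2 = -μ • b`, so
`p1 - p2 = dir ρ`.  Write `p2 - p1 = -dir ρ = x • dir α + y • dir β` (`x, y ≠ 0`), put
`p3 = p1 + x • dir α`, so `p2 = p3 + y • dir β`.  `cr p3 a = x * cr (dir α) a ≠ 0`;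
`cr p3 b = - y * cr (dir β) b ≠ 0`; `cr (p1 - p3) (p2 - p3) = - x y cr (dir α) (dir β) ≠ 0`.

`vecB`: `b = -κ • a`, `κ > 0`, `a ≠ 0`, `α ≠ β` not parallel to `a`: `p1 = a`, `p2 = -a = κ⁻¹ • b`,
`p2 - p1 = -2a = x • dir α + y • dir β`, `p3 = p1 + x • dir α`.

`root_exp`: let `a = f z1 - f w`, `b = f z2 - f w` (nonzero as `f` is injective on `A'`),
`σ1 = slp (f w) (f z1)`, `σ2 = slp (f w) (f z2)`.
Case A, `σ1 ≠ σ2` (then `cr a b ≠ 0`): choose `ρ, α, β ∈ T \ {σ1, σ2}` different (`|T| = 5`), `vecA`.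
`h6`: `f w + ε p2` is not on the line through `f w` with direction `a`, which contains the segment.
Case B, `σ1 = σ2`: `b = t • a`; `t > 0` is impossible: if `0 < t < 1` then `f z2` is in
`openSegment (f w) (f z1)`, if `t > 1` then `f z1` is in `openSegment (f w) (f z2)`, `t = 1` contradicts
`z1 ≠ z2`; all are excluded as `w z1`, `w z2` are edges of `G'`; `t ≠ 0`.  Choose `α ≠ β` in
`T \ {σ1}`, `vecB`; `slp p1 p2 = σ1 ∈ S`; `h6`, `h7` by the order on the line.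
Then take `ε` small enough for `expand` and for `expand_ray` for all `σ ∈ T`, `σ ≠ α, β`
(`eventually_and`, finite intersection, `(...).exists`).  In the new drawing `slp (f' w) (f' y1) = α`,
`slp (f' w) (f' y2) = β`.  For `σ ∈ T`, `σ ∉ {α, β}`: if `σ ∉ {σ1, σ2}` then `FreeRay A' f w σ` by
`RayProp` (the neighbours of `w` in `A'` for `G'` are `z1, z2`), else `cr p3 (dir σ) ≠ 0` (`h31`,
`h32`: `dir σ` is parallel to `a` or `b`).
-/

namespace SL

open Classical Finset Filter Topology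

noncomputable section

variable {V : Type}

theorem vecA {a b : ℝ × ℝ} (hab : cr a b ≠ 0) {ρ α β : Option ℝ} (h1 : ρ ≠ α) (h2 : ρ ≠ β)
    (h3 : α ≠ β) (ha1 : cr a (dir ρ) ≠ 0) (ha2 : cr a (dir α) ≠ 0) (ha3 : cr a (dir β) ≠ 0)
    (hb1 : cr b (dir ρ) ≠ 0) (hb2 : cr b (dir α) ≠ 0) (hb3 : cr b (dir β) ≠ 0) :
    ∃ p1 p2 p3 : ℝ × ℝ, (∃ t : ℝ, t ≠ 0 ∧ p1 = t • a) ∧ (∃ t : ℝ, t ≠ 0 ∧ p2 = t • b) ∧
      slp p1 p2 = ρ ∧ slp p3 p1 = α ∧ slp p3 p2 = β ∧ cr p3 a ≠ 0 ∧ cr p3 b ≠ 0 ∧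
      cr (p1 - p3) (p2 - p3) ≠ 0 := by
  obtain ⟨l, m, hlm⟩ := exists_coord hab (dir ρ)
  have hl : l ≠ 0 := by
    rintro rfl
    apply hb1
    rw [hlm, zero_smul, zero_add, cr_smul_right, cr_self, mul_zero]
  have hm : m ≠ 0 := by
    rintro rfl
    apply ha1
    rw [hlm, zero_smul, add_zero, cr_smul_right, cr_self, mul_zero]
  have hαβ := cr_dir_dir h3
  obtain ⟨x, y, hxy⟩ := exists_coord hαβ (-dir ρ)
  have hx : x ≠ 0 := by
    rintro rfl
    apply cr_dir_dir h2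
    have h4 : dir ρ = (-y) • dir β := by
      rw [neg_smul, ← neg_eq_iff_eq_neg, hxy, zero_smul, zero_add]
    rw [h4, cr_smul_left, cr_self, mul_zero]
  have hy : y ≠ 0 := by
    rintro rfl
    apply cr_dir_dir h1
    have h4 : dir ρ = (-x) • dir α := by
      rw [neg_smul, ← neg_eq_iff_eq_neg, hxy, zero_smul, add_zero]
    rw [h4, cr_smul_left, cr_self, mul_zero]
  have e12 : (-m) • b - l • a = - dir ρ := by rw [hlm, neg_smul]; abel
  have e13 : l • a - (l • a + x • dir α) = (-x) • dir α := by rw [neg_smul]; abel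
  have e23 : (-m) • b - (l • a + x • dir α) = y • dir β := by
    have h4 : (-m) • b - (l • a + x • dir α) = ((-m) • b - l • a) - x • dir α := by abel
    rw [h4, e12, hxy]
    abel
  have n12 : l • a ≠ (-m) • b := by
    intro h
    rw [h, sub_self] at e12
    exact dir_ne_zero ρ (neg_eq_zero.1 e12.symm)
  have n31 : l • a + x • dir α ≠ l • a := by
    intro h
    rw [h, sub_self] at e13
    rcases smul_eq_zero.1 e13.symm with h4 | h4
    · exact hx (neg_eq_zero.1 h4)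
    · exact dir_ne_zero α h4
  have n32 : l • a + x • dir α ≠ (-m) • b := by
    intro h
    rw [h, sub_self] at e23
    rcases smul_eq_zero.1 e23.symm with h4 | h4
    · exact hy h4
    · exact dir_ne_zero β h4
  refine ⟨l • a, (-m) • b, l • a + x • dir α, ⟨l, hl, rfl⟩, ⟨-m, neg_ne_zero.2 hm, rfl⟩,
    ?_, ?_, ?_, ?_, ?_, ?_⟩
  · rw [slp_eq_iff n12, e12, cr_neg_left, cr_self, neg_zero]
  · rw [slp_eq_iff n31, e13, cr_smul_left, cr_self, mul_zero]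
  · rw [slp_eq_iff n32, e23, cr_smul_left, cr_self, mul_zero]
  · rw [cr_add_left, cr_smul_left, cr_smul_left, cr_self, mul_zero, zero_add, cr_swap]
    exact mul_ne_zero hx (neg_ne_zero.2 ha2)
  · have h5 : l • a + x • dir α = (-m) • b - y • dir β := by rw [← e23]; abel
    rw [h5, cr_sub_left, cr_smul_left, cr_smul_left, cr_self, mul_zero, zero_sub, cr_swap]
    exact neg_ne_zero.2 (mul_ne_zero hy (neg_ne_zero.2 hb3))
  · rw [e13, e23, cr_smul_left, cr_smul_right]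
    exact mul_ne_zero (neg_ne_zero.2 hx) (mul_ne_zero hy hαβ)

theorem vecB {a b : ℝ × ℝ} (ha : a ≠ 0) {κ : ℝ} (hκ : 0 < κ) (hab : b = -(κ • a))
    {α β : Option ℝ} (h3 : α ≠ β) (ha2 : cr a (dir α) ≠ 0) (ha3 : cr a (dir β) ≠ 0) :
    ∃ p1 p2 p3 : ℝ × ℝ, p1 = a ∧ p2 = -a ∧ (∃ t : ℝ, t ≠ 0 ∧ p2 = t • b) ∧
      slp p1 p2 = slp 0 a ∧ slp p3 p1 = α ∧ slp p3 p2 = β ∧ cr p3 a ≠ 0 ∧ cr p3 b ≠ 0 ∧
      cr (p1 - p3) (p2 - p3) ≠ 0 := by
  have hαβ := cr_dir_dir h3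
  obtain ⟨x, y, hxy⟩ := exists_coord hαβ (-a - a)
  have h2a : -a - a = (-2 : ℝ) • a := by
    rw [neg_smul, two_smul]; abel
  have hx : x ≠ 0 := by
    rintro rfl
    apply ha3
    have h4 : cr ((-2 : ℝ) • a) (dir β) = 0 := by
      rw [← h2a, hxy, zero_smul, zero_add, cr_smul_left, cr_self, mul_zero]
    rw [cr_smul_left] at h4
    linarith
  have hy : y ≠ 0 := by
    rintro rfl
    apply ha2
    have h4 : cr ((-2 : ℝ) • a) (dir α) = 0 := by
      rw [← h2a, hxy, zero_smul, add_zero, cr_smul_left, cr_self, mul_zero]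
    rw [cr_smul_left] at h4
    linarith
  have e13 : a - (a + x • dir α) = (-x) • dir α := by rw [neg_smul]; abel
  have e23 : -a - (a + x • dir α) = y • dir β := by
    have h4 : -a - (a + x • dir α) = (-a - a) - x • dir α := by abel
    rw [h4, hxy]
    abel
  have n12 : a ≠ -a := by
    intro h
    have h5 : (2 : ℝ) • a = 0 := by
      rw [two_smul]
      nth_rewrite 2 [h]
      abel
    rcases smul_eq_zero.1 h5 with h6 | h6
    · norm_num at h6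
    · exact ha h6
  have n31 : a + x • dir α ≠ a := by
    intro h
    rw [h, sub_self] at e13
    rcases smul_eq_zero.1 e13.symm with h4 | h4
    · exact hx (neg_eq_zero.1 h4)
    · exact dir_ne_zero α h4
  have n32 : a + x • dir α ≠ -a := by
    intro h
    rw [h, sub_self] at e23
    rcases smul_eq_zero.1 e23.symm with h4 | h4
    · exact hy h4
    · exact dir_ne_zero β h4
  have h3a : cr (a + x • dir α) a ≠ 0 := by
    rw [cr_add_left, cr_smul_left, cr_self, zero_add, cr_swap]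
    exact mul_ne_zero hx (neg_ne_zero.2 ha2)
  refine ⟨a, -a, a + x • dir α, rfl, rfl, ⟨κ⁻¹, inv_ne_zero hκ.ne', ?_⟩, ?_, ?_, ?_, h3a, ?_, ?_⟩
  · rw [hab, smul_neg, smul_smul, inv_mul_cancel₀ hκ.ne', one_smul]
  · apply slp_eq_of_cr n12 ha.symm
    rw [h2a, sub_zero, cr_smul_left, cr_self, mul_zero]
  · rw [slp_eq_iff n31, e13, cr_smul_left, cr_self, mul_zero]
  · rw [slp_eq_iff n32, e23, cr_smul_left, cr_self, mul_zero]
  · rw [hab, cr_neg_right, cr_smul_right]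
    exact neg_ne_zero.2 (mul_ne_zero hκ.ne' h3a)
  · rw [e13, e23, cr_smul_left, cr_smul_right]
    exact mul_ne_zero (neg_ne_zero.2 hx) (mul_ne_zero hy hαβ)

/-- the last step -/
theorem vec_fin {S : Set (Option ℝ)} {T : Finset (Option ℝ)} {A : Finset V}
    {G G' : SimpleGraph V} {w y1 y2 z1 z2 : V} (hwA : w ∈ A) (hy1A : y1 ∈ A) (hy2A : y2 ∈ A)
    (hz1A : z1 ∈ A) (hz2A : z2 ∈ A) (hw1 : w ≠ y1) (hw2 : w ≠ y2) (hy : y1 ≠ y2)
    (hz1w : z1 ≠ w)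
    (hz11 : z1 ≠ y1) (hz12 : z1 ≠ y2) (hz2w : z2 ≠ w) (hz21 : z2 ≠ y1) (hz22 : z2 ≠ y2)
    (hw : ∀ b ∈ A, G.Adj w b ↔ b = y1 ∨ b = y2)
    (hy1 : ∀ b ∈ A, G.Adj y1 b ↔ b = w ∨ b = y2 ∨ b = z1)
    (hy2 : ∀ b ∈ A, G.Adj y2 b ↔ b = w ∨ b = y1 ∨ b = z2)
    (hG' : ∀ a ∈ (A.erase y1).erase y2, ∀ b ∈ (A.erase y1).erase y2,
      G'.Adj a b ↔ G.Adj a b ∨ (a = w ∧ (b = z1 ∨ b = z2)) ∨ (b = w ∧ (a = z1 ∨ a = z2)))
    {f : V → ℝ × ℝ} (hf : DrOn S ((A.erase y1).erase y2) G' f)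
    (hr : RayProp T ((A.erase y1).erase y2) G' f w)
    (hf1 : f w ≠ f z1) (hf2 : f w ≠ f z2) {p1 p2 p3 : ℝ × ℝ}
    (h1 : ∃ t : ℝ, t ≠ 0 ∧ p1 = t • (f z1 - f w)) (h2 : ∃ t : ℝ, t ≠ 0 ∧ p2 = t • (f z2 - f w))
    (h31 : cr p3 (f z1 - f w) ≠ 0) (h32 : cr p3 (f z2 - f w) ≠ 0)
    (h4 : cr (p1 - p3) (p2 - p3) ≠ 0)
    (s12 : slp p1 p2 ∈ S) (s31 : slp p3 p1 ∈ S) (s32 : slp p3 p2 ∈ S)
    (h6 : ∀ ε : ℝ, 0 < ε → f w + ε • p2 ∉ segment ℝ (f w + ε • p1) (f z1))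
    (h7 : ∀ ε : ℝ, 0 < ε → f w + ε • p1 ∉ segment ℝ (f w + ε • p2) (f z2)) :
    ∃ f' : V → ℝ × ℝ, DrOn S A G f' ∧ RayProp T A G f' w := by
  have n13 : p3 ≠ p1 := by
    intro h; apply h4; rw [h, sub_self, cr_zero_left]
  have n23 : p3 ≠ p2 := by
    intro h; apply h4; rw [h, sub_self, cr_zero_right]
  have wA' : w ∈ (A.erase y1).erase y2 :=
    Finset.mem_erase.2 ⟨hw2, Finset.mem_erase.2 ⟨hw1, hwA⟩⟩
  have E1 := expand hwA hz1A hz2A hw1 hw2 hy hz1w hz11 hz12 hz2w hz21 hz22 hw hy1 hy2 hG' hf h1 h2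
    h31 h32 h4 s12 s31 s32 h6 h7
  have par : ∀ z : V, f w ≠ f z → cr p3 (f z - f w) ≠ 0 → cr p3 (dir (slp (f w) (f z))) ≠ 0 := by
    intro z hz hcr h
    obtain ⟨t, ht⟩ := exists_smul_of_cr (dir_ne_zero _) (cr_dir_slp hz)
    apply hcr
    rw [ht, cr_smul_right, h, mul_zero]
  have E2 : ∀ᶠ ε in 𝓝[>] (0 : ℝ), ∀ σ ∈ T, σ ≠ slp p3 p1 → σ ≠ slp p3 p2 →
      FreeRay A (expF f w y1 y2 p1 p2 p3 ε) w σ := by
    refine (Filter.eventually_all_finset _).2 (fun σ hσ => ?_)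
    by_cases ha : σ = slp p3 p1
    · exact Filter.Eventually.of_forall (fun ε h => absurd ha h)
    by_cases hb : σ = slp p3 p2
    · exact Filter.Eventually.of_forall (fun ε _ h => absurd hb h)
    have hor : FreeRay ((A.erase y1).erase y2) f w σ ∨ cr p3 (dir σ) ≠ 0 := by
      by_cases e1 : σ = slp (f w) (f z1)
      · right; rw [e1]; exact par z1 hf1 h31
      by_cases e2 : σ = slp (f w) (f z2)
      · right; rw [e2]; exact par z2 hf2 h32
      left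
      refine hr σ hσ (fun v hv hwv => ?_)
      have hv' := hv
      rw [Finset.mem_erase, Finset.mem_erase] at hv'
      obtain ⟨v2, v1, vA⟩ := hv'
      rcases (hG' w wA' v hv).1 hwv with h | ⟨-, h | h⟩ | ⟨-, h | h⟩
      · rcases (hw v vA).1 h with h | h
        · exact absurd h v1
        · exact absurd h v2
      · rw [h]; exact fun h' => e1 h'.symm
      · rw [h]; exact fun h' => e2 h'.symm
      · exact absurd h.symm hz1w
      · exact absurd h.symm hz2w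
    have := expand_ray (A := A) (f := f) (σ := σ) hw1 hw2 hy hor
      (fun h => ha ((slp_eq_iff n13 σ).2 h).symm) (fun h => hb ((slp_eq_iff n23 σ).2 h).symm)
    filter_upwards [this] with ε hε _ _
    exact hε
  obtain ⟨ε, ⟨e1, e2⟩, e3⟩ := ((E1.and E2).and self_mem_nhdsWithin).exists
  have hε : (0 : ℝ) < ε := e3
  refine ⟨_, e1, fun σ hσ hno => e2 σ hσ ?_ ?_⟩
  · have := hno y1 hy1A ((hw y1 hy1A).2 (Or.inl rfl))
    rw [exp_w, exp_y1 f y2 p1 p2 p3 ε hw1, exp_slp _ _ _ hε] at this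
    exact this.symm
  · have := hno y2 hy2A ((hw y2 hy2A).2 (Or.inr rfl))
    rw [exp_w, exp_y2 f p1 p2 p3 ε hw2 hy, exp_slp _ _ _ hε] at this
    exact this.symm

/-- `h6`, `h7` in the non-parallel case -/
theorem vec_np {c z p q a b : ℝ × ℝ} (hz : z - c = a) (hab : cr a b ≠ 0) {s t : ℝ} (ht : t ≠ 0)
    (hp : p = s • a) (hq : q = t • b) {ε : ℝ} (hε : 0 < ε) :
    c + ε • q ∉ segment ℝ (c + ε • p) z := by
  intro hm
  obtain ⟨r, -, -, hr⟩ := mem_segment_iff'.1 hm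
  have h1 : ε • q = ε • p + r • (a - ε • p) := by
    apply add_left_cancel (a := c)
    rw [hr]
    have h2 : z = c + a := by rw [← hz]; abel
    rw [h2]
    have h3 : c + a - (c + ε • p) = a - ε • p := by abel
    rw [h3]
    abel
  have h2 : cr a (ε • q) = 0 := by
    rw [h1, hp]
    simp only [cr_add_right, cr_smul_right, cr_sub_right, cr_self, mul_zero, sub_zero, add_zero]
  rw [hq, cr_smul_right, cr_smul_right] at h2
  rcases mul_eq_zero.1 h2 with h3 | h3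
  · exact hε.ne' h3
  rcases mul_eq_zero.1 h3 with h4 | h4
  · exact ht h4
  · exact hab h4

theorem root_exp {S : Set (Option ℝ)} {T : Finset (Option ℝ)} (hT : T.card = 5)
    (hTS : ∀ σ ∈ T, σ ∈ S) {A : Finset V} {G G' : SimpleGraph V}
    {w y1 y2 z1 z2 : V} (hwA : w ∈ A) (hy1A : y1 ∈ A) (hy2A : y2 ∈ A) (hz1A : z1 ∈ A)
    (hz2A : z2 ∈ A) (hw1 : w ≠ y1) (hw2 : w ≠ y2) (hy : y1 ≠ y2) (hz : z1 ≠ z2)
    (hz1w : z1 ≠ w)
    (hz11 : z1 ≠ y1) (hz12 : z1 ≠ y2) (hz2w : z2 ≠ w) (hz21 : z2 ≠ y1) (hz22 : z2 ≠ y2)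
    (hw : ∀ b ∈ A, G.Adj w b ↔ b = y1 ∨ b = y2)
    (hy1 : ∀ b ∈ A, G.Adj y1 b ↔ b = w ∨ b = y2 ∨ b = z1)
    (hy2 : ∀ b ∈ A, G.Adj y2 b ↔ b = w ∨ b = y1 ∨ b = z2)
    (hG' : ∀ a ∈ (A.erase y1).erase y2, ∀ b ∈ (A.erase y1).erase y2,
      G'.Adj a b ↔ G.Adj a b ∨ (a = w ∧ (b = z1 ∨ b = z2)) ∨ (b = w ∧ (a = z1 ∨ a = z2)))
    {f : V → ℝ × ℝ} (hf : DrOn S ((A.erase y1).erase y2) G' f)
    (hr : RayProp T ((A.erase y1).erase y2) G' f w) :
    ∃ f' : V → ℝ × ℝ, DrOn S A G f' ∧ RayProp T A G f' w := by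
  have wA' : w ∈ (A.erase y1).erase y2 :=
    Finset.mem_erase.2 ⟨hw2, Finset.mem_erase.2 ⟨hw1, hwA⟩⟩
  have z1A' : z1 ∈ (A.erase y1).erase y2 :=
    Finset.mem_erase.2 ⟨hz12, Finset.mem_erase.2 ⟨hz11, hz1A⟩⟩
  have z2A' : z2 ∈ (A.erase y1).erase y2 :=
    Finset.mem_erase.2 ⟨hz22, Finset.mem_erase.2 ⟨hz21, hz2A⟩⟩
  have hGz1 : G'.Adj w z1 := (hG' w wA' z1 z1A').2 (Or.inr (Or.inl ⟨rfl, Or.inl rfl⟩))
  have hGz2 : G'.Adj w z2 := (hG' w wA' z2 z2A').2 (Or.inr (Or.inl ⟨rfl, Or.inr rfl⟩))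
  have hf1 : f w ≠ f z1 := fun h => hz1w (hf.1 wA' z1A' h).symm
  have hf2 : f w ≠ f z2 := fun h => hz2w (hf.1 wA' z2A' h).symm
  obtain ⟨sl1, op1⟩ := hf.2 w wA' z1 z1A' hGz1
  obtain ⟨sl2, op2⟩ := hf.2 w wA' z2 z2A' hGz2
  have ha0 : f z1 - f w ≠ 0 := sub_ne_zero.2 hf1.symm
  have hb0 : f z2 - f w ≠ 0 := sub_ne_zero.2 hf2.symm
  have n1 : ∀ σ, σ ≠ slp (f w) (f z1) → cr (f z1 - f w) (dir σ) ≠ 0 :=
    fun σ hσ h => hσ ((slp_eq_iff hf1 σ).2 h).symm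
  have n2 : ∀ σ, σ ≠ slp (f w) (f z2) → cr (f z2 - f w) (dir σ) ≠ 0 :=
    fun σ hσ h => hσ ((slp_eq_iff hf2 σ).2 h).symm
  have fin := fun (p1 p2 p3 : ℝ × ℝ) => vec_fin (S := S) (T := T) (p1 := p1) (p2 := p2) (p3 := p3)
    hwA hy1A hy2A hz1A hz2A hw1 hw2 hy hz1w hz11 hz12 hz2w hz21 hz22 hw hy1 hy2 hG' hf hr hf1 hf2
  by_cases hcr : cr (f z1 - f w) (f z2 - f w) = 0
  · -- parallel
    have hcr' : cr (f z2 - f w) (f z1 - f w) = 0 := by rw [cr_swap, hcr, neg_zero]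
    obtain ⟨t, ht⟩ := exists_smul_of_cr ha0 hcr'
    have fz2 : f z2 = f w + t • (f z1 - f w) := by rw [← ht]; abel
    have t0 : t ≠ 0 := by
      rintro rfl
      rw [zero_smul] at ht
      exact hb0 ht
    have tneg : t < 0 := by
      rcases lt_or_gt_of_ne t0 with h | h
      · exact h
      exfalso
      rcases lt_trichotomy t 1 with h' | h' | h'
      · exact op1 z2 z2A' hz2w hz.symm (mem_openSegment_iff'.2 ⟨t, h, h', fz2⟩)
      · rw [h', one_smul] at fz2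
        apply hz
        apply hf.1 z1A' z2A'
        rw [fz2]; abel
      · refine op2 z1 z1A' hz1w hz (mem_openSegment_iff'.2 ⟨t⁻¹, inv_pos.2 h,
          inv_lt_one_of_one_lt₀ h', ?_⟩)
        rw [ht, smul_smul, inv_mul_cancel₀ t0, one_smul]
        abel
    have hcard : 1 < (T.erase (slp (f w) (f z1))).card := by
      have := Finset.pred_card_le_card_erase (s := T) (a := slp (f w) (f z1))
      omega
    obtain ⟨α, hα, β, hβ, hαβ⟩ := Finset.one_lt_card.1 hcard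
    rw [Finset.mem_erase] at hα hβ
    obtain ⟨p1, p2, p3, hp1, hp2, hp2', s12, s31, s32, c1, c2, c3⟩ := vecB (κ := -t) ha0
      (neg_pos.2 tneg) (b := f z2 - f w) (by rw [neg_smul, neg_neg]; exact ht) hαβ (n1 α hα.1)
      (n1 β hβ.1)
    refine fin p1 p2 p3 ⟨1, one_ne_zero, by rw [one_smul]; exact hp1⟩ hp2' c1 c2 c3 ?_
      (by rw [s31]; exact hTS _ hα.2) (by rw [s32]; exact hTS _ hβ.2) ?_ ?_
    · have : slp 0 (f z1 - f w) = slp (f w) (f z1) := by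
        apply slp_eq_of_cr ha0.symm hf1
        rw [sub_zero, cr_self]
      rw [s12, this]
      exact sl1
    · intro ε hε hm
      obtain ⟨r, hr0, hr1, hrr⟩ := mem_segment_iff'.1 hm
      rw [hp1, hp2] at hrr
      have h1 : (-ε) • (f z1 - f w) = (ε + r * (1 - ε)) • (f z1 - f w) := by
        apply add_left_cancel (a := f w)
        rw [neg_smul, ← smul_neg, hrr, add_smul, mul_smul, sub_smul, one_smul]
        have h3 : f z1 - (f w + ε • (f z1 - f w)) = (f z1 - f w) - ε • (f z1 - f w) := by abel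
        rw [h3]
        abel
      have h2 : (ε + ε + r * (1 - ε)) • (f z1 - f w) = 0 := by
        have h3 : ε + ε + r * (1 - ε) = (ε + r * (1 - ε)) - (-ε) := by ring
        rw [h3, sub_smul, ← h1, sub_self]
      rcases smul_eq_zero.1 h2 with h4 | h4
      · nlinarith
      · exact ha0 h4
    · intro ε hε hm
      obtain ⟨r, hr0, hr1, hrr⟩ := mem_segment_iff'.1 hm
      rw [hp1, hp2] at hrr
      have h1 : ε • (f z1 - f w) = (-ε + r * (t + ε)) • (f z1 - f w) := by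
        apply add_left_cancel (a := f w)
        rw [hrr, add_smul, mul_smul, add_smul t, neg_smul, smul_neg]
        have h3 : f z2 - (f w + -(ε • (f z1 - f w))) = t • (f z1 - f w) + ε • (f z1 - f w) := by
          rw [fz2]
          abel
        rw [h3]
        abel
      have h2 : (ε - (-ε + r * (t + ε))) • (f z1 - f w) = 0 := by
        rw [sub_smul, ← h1, sub_self]
      rcases smul_eq_zero.1 h2 with h4 | h4
      · nlinarith [mul_nonneg hr0 (neg_pos.2 tneg).le]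
      · exact ha0 h4
  · -- not parallel
    have hcard : 2 < ((T.erase (slp (f w) (f z1))).erase (slp (f w) (f z2))).card := by
      have h1 := Finset.pred_card_le_card_erase (s := T) (a := slp (f w) (f z1))
      have h2 := Finset.pred_card_le_card_erase (s := T.erase (slp (f w) (f z1)))
        (a := slp (f w) (f z2))
      omega
    obtain ⟨ρ, α, β, hρ, hα, hβ, h12, h13, h23⟩ := Finset.two_lt_card_iff.1 hcard
    rw [Finset.mem_erase, Finset.mem_erase] at hρ hα hβ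
    obtain ⟨p1, p2, p3, ⟨t1, ht1, hp1⟩, ⟨t2, ht2, hp2⟩, s12, s31, s32, c1, c2, c3⟩ := vecA hcr h12
      h13 h23 (n1 ρ hρ.2.1) (n1 α hα.2.1) (n1 β hβ.2.1) (n2 ρ hρ.1) (n2 α hα.1) (n2 β hβ.1)
    have hcr' : cr (f z2 - f w) (f z1 - f w) ≠ 0 := by
      rw [cr_swap]; exact neg_ne_zero.2 hcr
    exact fin p1 p2 p3 ⟨t1, ht1, hp1⟩ ⟨t2, ht2, hp2⟩ c1 c2 c3 (by rw [s12]; exact hTS _ hρ.2.2)
      (by rw [s31]; exact hTS _ hα.2.2) (by rw [s32]; exact hTS _ hβ.2.2)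
      (fun ε hε => vec_np rfl hcr ht2 hp1 hp2 hε) (fun ε hε => vec_np rfl hcr' ht1 hp2 hp1 hε)

end

end SL
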