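import Pool.Agent.H53.SL.Sub
import Pool.Agent.H53.SL.Vec
import Pool.Agent.H53.SL.DiamR

/-!
# Module ROOTED: the rooted lemma (200 lines; uses `root_sub`, `root_exp`, `root_dia`)

Strong induction on `|A|`.  The root `w` has exactly two neighbours `y1 ≠ y2` in `A`.
(1) `y1`, `y2` not adjacent: `G'` = `G` plus the edge `y1 y2`
(`G' = G ⊔ SimpleGraph.edge y1 y2` or a hand-made `SimpleGraph`), `A.erase w`: all degrees in
`A.erase w` are `3` (`y1` loses `w` and gains `y2`).  `IH`, `root_sub`.
(2) `y1 ~ y2`; the third neighbour of `y1` in `A` is `z1`, that of `y2` is `z2`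
(`dg G A y1 = 3`); `z1, z2 ∉ {w, y1, y2}`.
(2a) `z1 ≠ z2`: `A' = (A.erase y1).erase y2`, `G'` = `G` plus the edges `w z1`, `w z2`: in `A'` the
root `w` has degree `2` and all others degree `3` (`z1` loses `y1` and gains `w`; note `z1` is not
adjacent to `w` in `G`).  Induction hypothesis for `(A', G', w)` and `root_exp`.
(2b) `z1 = z2 = z`: `z ~ y1, y2, z'` in `A`, `z' ∉ {w, y1, y2, z}`.  `A' = A \ {w,y1,y2,z}`: `z'` has degree `2`,
all others degree `3` (no other vertex of `A'` is adjacent to `w, y1, y2, z`).  Induction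
hypothesis for `(A', G, z')`: `f` with `RayProp`.  The two slopes at `z'` are not all of `T`
(`|T| = 5`): choose `ρ ∈ T` different from them, so `FreeRay A' f z' ρ`; `root_dia`.
-/

namespace SL

open Classical Finset

noncomputable section

variable {V : Type}

theorem rooted_dg_erase {G : SimpleGraph V} {A : Finset V} {w : V} (hw : w ∈ A) (v : V) :
    dg G A v = dg G (A.erase w) v + if G.Adj v w then 1 else 0 := by
  conv_lhs => rw [← Finset.insert_erase hw]
  rw [dg_insert G (Finset.notMem_erase w A)]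

theorem rooted_dg_congr {G H : SimpleGraph V} {A B : Finset V} {u v : V}
    (h : ∀ b, (b ∈ A ∧ G.Adj u b) ↔ (b ∈ B ∧ H.Adj v b)) : dg G A u = dg H B v := by
  unfold dg
  congr 1
  ext b
  simp only [mem_filter]
  exact h b

theorem rooted_dg_congr_insert {G H : SimpleGraph V} {A B : Finset V} {u v q : V}
    (h : ∀ b, (b ∈ A ∧ G.Adj u b) ↔ b = q ∨ (b ∈ B ∧ H.Adj v b))
    (hq : ¬ (q ∈ B ∧ H.Adj v q)) : dg G A u = dg H B v + 1 := by
  unfold dg
  rw [← Finset.card_insert_of_notMem (a := q)]
  · congr 1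
    ext b
    simp only [mem_insert, mem_filter]
    exact h b
  · simpa only [mem_filter] using hq

theorem rooted_dg_edge {G : SimpleGraph V} {B : Finset V} {p q : V} (hq : q ∈ B) (hne : p ≠ q)
    (hn : ¬ G.Adj p q) : dg (G ⊔ SimpleGraph.edge p q) B p = dg G B p + 1 := by
  apply rooted_dg_congr_insert (q := q)
  · intro b
    simp only [SimpleGraph.sup_adj, SimpleGraph.edge_adj]
    constructor
    · rintro ⟨hb, h | ⟨h | h, h'⟩⟩
      · exact Or.inr ⟨hb, h⟩
      · exact Or.inl h.2
      · exact absurd h.1 hne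
    · rintro (rfl | ⟨hb, h⟩)
      · refine ⟨hq, Or.inr ⟨Or.inl ?_, hne⟩⟩
        simp
      · exact ⟨hb, Or.inl h⟩
  · exact fun h => hn h.2

theorem rooted_dg_edge' {G : SimpleGraph V} {B : Finset V} {p q : V} (hp : p ∈ B) (hne : p ≠ q)
    (hn : ¬ G.Adj p q) : dg (G ⊔ SimpleGraph.edge p q) B q = dg G B q + 1 := by
  rw [SimpleGraph.edge_comm]
  exact rooted_dg_edge hp hne.symm (fun h => hn h.symm)

theorem rooted_dg_other {G : SimpleGraph V} {B : Finset V} {p q v : V} (hp : v ≠ p)
    (hq : v ≠ q) : dg (G ⊔ SimpleGraph.edge p q) B v = dg G B v := by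
  apply rooted_dg_congr
  intro b
  simp only [SimpleGraph.sup_adj, SimpleGraph.edge_adj]
  constructor
  · rintro ⟨hb, h | ⟨h | h, -⟩⟩
    · exact ⟨hb, h⟩
    · exact absurd h.1 hp
    · exact absurd h.1 hq
  · exact fun h => ⟨h.1, Or.inl h.2⟩

theorem rooted_third {G : SimpleGraph V} {A : Finset V} {y a b : V} (h3 : dg G A y = 3)
    (ha : a ∈ A) (hb : b ∈ A) (hab : a ≠ b) (hya : G.Adj y a) (hyb : G.Adj y b) :
    ∃ z ∈ A, z ≠ a ∧ z ≠ b ∧ ∀ x ∈ A, G.Adj y x ↔ x = a ∨ x = b ∨ x = z := by
  have h1 : (((A.filter (fun x => G.Adj y x)).erase a).erase b).card = 1 := by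
    have e1 : a ∈ A.filter (fun x => G.Adj y x) := mem_filter.2 ⟨ha, hya⟩
    have e2 : b ∈ (A.filter (fun x => G.Adj y x)).erase a :=
      mem_erase.2 ⟨hab.symm, mem_filter.2 ⟨hb, hyb⟩⟩
    rw [Finset.card_erase_of_mem e2, Finset.card_erase_of_mem e1]
    have : (A.filter (fun x => G.Adj y x)).card = 3 := h3
    rw [this]
  obtain ⟨z, hz⟩ := Finset.card_eq_one.1 h1
  have hzm : z ∈ ((A.filter (fun x => G.Adj y x)).erase a).erase b := by rw [hz]; simp
  simp only [mem_erase, mem_filter] at hzm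
  refine ⟨z, hzm.2.2.1, hzm.2.1, hzm.1, ?_⟩
  intro x hx
  constructor
  · intro hyx
    by_cases hxa : x = a
    · exact Or.inl hxa
    by_cases hxb : x = b
    · exact Or.inr (Or.inl hxb)
    have : x ∈ ((A.filter (fun x => G.Adj y x)).erase a).erase b :=
      mem_erase.2 ⟨hxb, mem_erase.2 ⟨hxa, mem_filter.2 ⟨hx, hyx⟩⟩⟩
    rw [hz] at this
    exact Or.inr (Or.inr (by simpa using this))
  · rintro (rfl | rfl | rfl)
    · exact hya
    · exact hyb
    · exact hzm.2.2.2

theorem rooted {S : Set (Option ℝ)} {T : Finset (Option ℝ)} (hT : T.card = 5)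
    (hTS : ∀ σ ∈ T, σ ∈ S) (n : ℕ)
    (IH : ∀ (A : Finset V) (G : SimpleGraph V), A.card < n → (∀ v ∈ A, dg G A v = 3) →
      ∃ f : V → ℝ × ℝ, DrOn S A G f)
    (A : Finset V) (G : SimpleGraph V) (w : V) (hA : A.card ≤ n) (hw : w ∈ A)
    (hw2 : dg G A w = 2) (h3 : ∀ v ∈ A, v ≠ w → dg G A v = 3) :
    ∃ f : V → ℝ × ℝ, DrOn S A G f ∧ RayProp T A G f w := by
  induction hm : A.card using Nat.strong_induction_on generalizing A G w with
  | _ m ih =>
  obtain ⟨y1, y2, hy, hfil⟩ := Finset.card_eq_two.1 hw2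
  have hwn : ∀ b ∈ A, G.Adj w b ↔ b = y1 ∨ b = y2 := by
    intro b hb
    have : b ∈ A.filter (fun b => G.Adj w b) ↔ b ∈ ({y1, y2} : Finset V) := by rw [hfil]
    simpa [hb] using this
  have hy1m : y1 ∈ A.filter (fun b => G.Adj w b) := by rw [hfil]; simp
  have hy2m : y2 ∈ A.filter (fun b => G.Adj w b) := by rw [hfil]; simp
  obtain ⟨hy1A, hwy1⟩ := mem_filter.1 hy1m
  obtain ⟨hy2A, hwy2⟩ := mem_filter.1 hy2m
  have hw1 : w ≠ y1 := hwy1.ne
  have hw2' : w ≠ y2 := hwy2.ne
  have d1 := h3 y1 hy1A hw1.symm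
  have d2 := h3 y2 hy2A hw2'.symm
  by_cases hadj : G.Adj y1 y2
  · -- case 2
    obtain ⟨z1, hz1A, hz1w, hz12, hn1⟩ := rooted_third d1 hw hy2A hw2' hwy1.symm hadj
    obtain ⟨z2, hz2A, hz2w, hz21, hn2⟩ := rooted_third d2 hw hy1A hw1 hwy2.symm hadj.symm
    have hz11 : z1 ≠ y1 := by
      have := (hn1 z1 hz1A).2 (Or.inr (Or.inr rfl))
      exact this.ne'
    have hz22 : z2 ≠ y2 := by
      have := (hn2 z2 hz2A).2 (Or.inr (Or.inr rfl))
      exact this.ne'
    by_cases hz : z1 = z2
    · -- case 2b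
      subst hz
      have dz := h3 z1 hz1A hz1w
      have hzy1 : G.Adj z1 y1 := ((hn1 z1 hz1A).2 (Or.inr (Or.inr rfl))).symm
      have hzy2 : G.Adj z1 y2 := ((hn2 z1 hz1A).2 (Or.inr (Or.inr rfl))).symm
      obtain ⟨z', hz'A, hz'1, hz'2, hnz⟩ := rooted_third dz hy1A hy2A hy hzy1 hzy2
      have hzz' : G.Adj z1 z' := (hnz z' hz'A).2 (Or.inr (Or.inr rfl))
      have hz'z : z' ≠ z1 := hzz'.ne'
      have hz'w : z' ≠ w := by
        rintro rfl
        rcases (hwn z1 hz1A).1 hzz'.symm with h | h
        · exact hz11 h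
        · exact hz12 h
      -- adjacency to the diamond
      have hnoadj : ∀ v ∈ A \ {w, y1, y2, z1}, ¬ G.Adj v w ∧ ¬ G.Adj v y1 ∧ ¬ G.Adj v y2 ∧
          (G.Adj v z1 ↔ v = z') := by
        intro v hv
        simp only [mem_sdiff, mem_insert, mem_singleton, not_or] at hv
        obtain ⟨hvA, hvw, hv1, hv2, hvz⟩ := hv
        refine ⟨?_, ?_, ?_, ?_⟩
        · intro h
          rcases (hwn v hvA).1 h.symm with h | h
          · exact hv1 h
          · exact hv2 h
        · intro h
          rcases (hn1 v hvA).1 h.symm with h | h | h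
          · exact hvw h
          · exact hv2 h
          · exact hvz h
        · intro h
          rcases (hn2 v hvA).1 h.symm with h | h | h
          · exact hvw h
          · exact hv1 h
          · exact hvz h
        · constructor
          · intro h
            rcases (hnz v hvA).1 h.symm with h | h | h
            · exact absurd h hv1
            · exact absurd h hv2
            · exact h
          · rintro rfl
            exact hzz'.symm
      have hdiff : ∀ v ∈ A \ {w, y1, y2, z1}, dg G A v =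
          dg G (A \ {w, y1, y2, z1}) v + if v = z' then 1 else 0 := by
        intro v hv
        obtain ⟨a1, a2, a3, a4⟩ := hnoadj v hv
        have hsub : ({w, y1, y2, z1} : Finset V) ⊆ A := by
          intro x hx
          simp only [mem_insert, mem_singleton] at hx
          rcases hx with rfl | rfl | rfl | rfl <;> assumption
        have hd : Disjoint (A \ {w, y1, y2, z1}) ({w, y1, y2, z1} : Finset V) :=
          Finset.sdiff_disjoint
        conv_lhs => rw [← Finset.sdiff_union_of_subset hsub]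
        rw [dg_union G hd]
        congr 1
        rw [dg_insert G (by simp [hw1, hw2', hz1w.symm]), dg_insert G (by simp [hy, hz11.symm]),
          dg_insert G (by simp [hz12.symm]), dg_singleton, if_neg a1, if_neg a2, if_neg a3]
        simp only [add_zero]
        by_cases hvz : v = z'
        · rw [if_pos hvz, if_pos (a4.2 hvz)]
        · rw [if_neg hvz, if_neg (fun h => hvz (a4.1 h))]
      have hz'mem : z' ∈ A \ {w, y1, y2, z1} := by
        simp only [mem_sdiff, mem_insert, mem_singleton, not_or]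
        exact ⟨hz'A, hz'w, hz'1, hz'2, hz'z⟩
      have hlt : (A \ {w, y1, y2, z1}).card < m := by
        rw [← hm]
        apply Finset.card_lt_card
        refine ⟨Finset.sdiff_subset, fun h => ?_⟩
        have := h hw
        simp at this
      have hdz' : dg G (A \ {w, y1, y2, z1}) z' = 2 := by
        have h1 := hdiff z' hz'mem
        rw [if_pos rfl, h3 z' hz'A hz'w] at h1
        omega
      obtain ⟨f, hf, hr⟩ := ih _ hlt (A \ {w, y1, y2, z1}) G z' (by omega) hz'mem hdz'
        (fun v hv hvz => by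
          have h1 := hdiff v hv
          rw [if_neg hvz] at h1
          simp only [mem_sdiff, mem_insert, mem_singleton, not_or] at hv
          rw [h3 v hv.1 hv.2.1] at h1
          omega) rfl
      -- an unused slope
      have hex : ∃ ρ ∈ T, ∀ y ∈ A \ {w, y1, y2, z1}, G.Adj z' y → slp (f z') (f y) ≠ ρ := by
        let U : Finset (Option ℝ) := ((A \ {w, y1, y2, z1}).filter (fun y => G.Adj z' y)).image
          (fun y => slp (f z') (f y))
        have hU : U.card ≤ 2 := by
          refine Finset.card_image_le.trans ?_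
          exact le_of_eq hdz'
        have : ¬ T ⊆ U := fun h => by
          have := Finset.card_le_card h
          omega
        obtain ⟨ρ, hρ, hρU⟩ := Finset.not_subset.1 this
        refine ⟨ρ, hρ, ?_⟩
        intro y hy hay h
        apply hρU
        simp only [U, mem_image, mem_filter]
        exact ⟨y, ⟨hy, hay⟩, h⟩
      obtain ⟨ρ, hρ, hρ'⟩ := hex
      exact root_dia hT hTS hw hy1A hy2A hz1A hz'A hw1 hw2' hy hz1w hz11 hz12 hz'w hz'1 hz'2
        hz'z hwn hn1 hn2 hnz hf hρ (hr ρ hρ hρ')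
    · -- case 2a
      have hA'mem : ∀ v, v ∈ (A.erase y1).erase y2 ↔ v ∈ A ∧ v ≠ y1 ∧ v ≠ y2 := by
        intro v
        simp only [mem_erase]
        tauto
      let G' : SimpleGraph V := (G ⊔ SimpleGraph.edge w z1) ⊔ SimpleGraph.edge w z2
      have hG' : ∀ a ∈ (A.erase y1).erase y2, ∀ b ∈ (A.erase y1).erase y2,
          G'.Adj a b ↔ G.Adj a b ∨ (a = w ∧ (b = z1 ∨ b = z2)) ∨
            (b = w ∧ (a = z1 ∨ a = z2)) := by
        intro a _ b _
        simp only [G', SimpleGraph.sup_adj, SimpleGraph.edge_adj]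
        constructor
        · rintro ((h | ⟨h | h, -⟩) | ⟨h | h, -⟩)
          · exact Or.inl h
          · exact Or.inr (Or.inl ⟨h.1, Or.inl h.2⟩)
          · exact Or.inr (Or.inr ⟨h.2, Or.inl h.1⟩)
          · exact Or.inr (Or.inl ⟨h.1, Or.inr h.2⟩)
          · exact Or.inr (Or.inr ⟨h.2, Or.inr h.1⟩)
        · rintro (h | ⟨rfl, rfl | rfl⟩ | ⟨rfl, rfl | rfl⟩)
          · exact Or.inl (Or.inl h)
          · exact Or.inl (Or.inr ⟨Or.inl ⟨rfl, rfl⟩, hz1w.symm⟩)
          · exact Or.inr ⟨Or.inl ⟨rfl, rfl⟩, hz2w.symm⟩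
          · exact Or.inl (Or.inr ⟨Or.inr ⟨rfl, rfl⟩, hz1w⟩)
          · exact Or.inr ⟨Or.inr ⟨rfl, rfl⟩, hz2w⟩
      have hwz1 : ¬ G.Adj w z1 := fun h => by
        rcases (hwn z1 hz1A).1 h with h | h
        · exact hz11 h
        · exact hz12 h
      have hwz2 : ¬ G.Adj w z2 := fun h => by
        rcases (hwn z2 hz2A).1 h with h | h
        · exact hz21 h
        · exact hz22 h
      have hwz2' : ¬ (G ⊔ SimpleGraph.edge w z1).Adj w z2 := by
        simp only [SimpleGraph.sup_adj, SimpleGraph.edge_adj]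
        rintro (h | ⟨h | h, -⟩)
        · exact hwz2 h
        · exact hz h.2.symm
        · exact hz2w h.2
      have hy2mem : y2 ∈ A.erase y1 := mem_erase.2 ⟨hy.symm, hy2A⟩
      have hdg : ∀ v, dg G A v = dg G ((A.erase y1).erase y2) v +
          (if G.Adj v y2 then 1 else 0) + (if G.Adj v y1 then 1 else 0) := by
        intro v
        rw [rooted_dg_erase hy1A v, rooted_dg_erase hy2mem v]
      have hz1A' : z1 ∈ (A.erase y1).erase y2 := (hA'mem z1).2 ⟨hz1A, hz11, hz12⟩
      have hz2A' : z2 ∈ (A.erase y1).erase y2 := (hA'mem z2).2 ⟨hz2A, hz21, hz22⟩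
      have hwA' : w ∈ (A.erase y1).erase y2 := (hA'mem w).2 ⟨hw, hw1, hw2'⟩
      have dw : dg G' ((A.erase y1).erase y2) w = 2 := by
        have h0 := hdg w
        rw [hw2, if_pos hwy2, if_pos hwy1] at h0
        rw [rooted_dg_edge hz2A' hz2w.symm hwz2', rooted_dg_edge hz1A' hz1w.symm hwz1]
        omega
      have dz1 : dg G' ((A.erase y1).erase y2) z1 = 3 := by
        have h0 := hdg z1
        have n2 : ¬ G.Adj z1 y2 := fun h => by
          rcases (hn2 z1 hz1A).1 h.symm with h | h | h
          · exact hz1w h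
          · exact hz11 h
          · exact hz h
        have n1 : G.Adj z1 y1 := ((hn1 z1 hz1A).2 (Or.inr (Or.inr rfl))).symm
        rw [h3 z1 hz1A hz1w, if_neg n2, if_pos n1] at h0
        rw [rooted_dg_other hz1w hz, rooted_dg_edge' hwA' hz1w.symm hwz1]
        omega
      have dz2 : dg G' ((A.erase y1).erase y2) z2 = 3 := by
        have h0 := hdg z2
        have n1 : ¬ G.Adj z2 y1 := fun h => by
          rcases (hn1 z2 hz2A).1 h.symm with h | h | h
          · exact hz2w h
          · exact hz22 h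
          · exact hz h.symm
        have n2 : G.Adj z2 y2 := ((hn2 z2 hz2A).2 (Or.inr (Or.inr rfl))).symm
        rw [h3 z2 hz2A hz2w, if_pos n2, if_neg n1] at h0
        rw [rooted_dg_edge' hwA' hz2w.symm hwz2', rooted_dg_other hz2w (Ne.symm hz)]
        omega
      have dv : ∀ v ∈ (A.erase y1).erase y2, v ≠ w → dg G' ((A.erase y1).erase y2) v = 3 := by
        intro v hv hvw
        by_cases hv1 : v = z1
        · rw [hv1]; exact dz1
        by_cases hv2 : v = z2
        · rw [hv2]; exact dz2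
        obtain ⟨hvA, hvy1, hvy2⟩ := (hA'mem v).1 hv
        have n1 : ¬ G.Adj v y1 := fun h => by
          rcases (hn1 v hvA).1 h.symm with h | h | h
          · exact hvw h
          · exact hvy2 h
          · exact hv1 h
        have n2 : ¬ G.Adj v y2 := fun h => by
          rcases (hn2 v hvA).1 h.symm with h | h | h
          · exact hvw h
          · exact hvy1 h
          · exact hv2 h
        have h0 := hdg v
        rw [h3 v hvA hvw, if_neg n1, if_neg n2] at h0
        rw [rooted_dg_other hvw hv2, rooted_dg_other hvw hv1]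
        omega
      have hlt : ((A.erase y1).erase y2).card < m := by
        rw [← hm]
        exact (Finset.card_erase_lt_of_mem hy2mem).trans (Finset.card_erase_lt_of_mem hy1A)
      obtain ⟨f, hf, hr⟩ := ih _ hlt ((A.erase y1).erase y2) G' w (by omega) hwA' dw dv rfl
      exact root_exp hT hTS hw hy1A hy2A hz1A hz2A hw1 hw2' hy hz hz1w hz11 hz12 hz2w hz21
        hz22 hwn hn1 hn2 hG' hf hr
  · -- case 1
    let G' : SimpleGraph V := G ⊔ SimpleGraph.edge y1 y2
    have hG' : ∀ a ∈ A.erase w, ∀ b ∈ A.erase w,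
        G'.Adj a b ↔ G.Adj a b ∨ (a = y1 ∧ b = y2) ∨ (a = y2 ∧ b = y1) := by
      intro a _ b _
      simp only [G', SimpleGraph.sup_adj, SimpleGraph.edge_adj]
      constructor
      · rintro (h | ⟨h | h, -⟩)
        · exact Or.inl h
        · exact Or.inr (Or.inl ⟨h.1, h.2⟩)
        · exact Or.inr (Or.inr ⟨h.1, h.2⟩)
      · rintro (h | ⟨rfl, rfl⟩ | ⟨rfl, rfl⟩)
        · exact Or.inl h
        · exact Or.inr ⟨Or.inl ⟨rfl, rfl⟩, hy⟩
        · exact Or.inr ⟨Or.inr ⟨rfl, rfl⟩, hy.symm⟩
    have hy1e : y1 ∈ A.erase w := mem_erase.2 ⟨hw1.symm, hy1A⟩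
    have hy2e : y2 ∈ A.erase w := mem_erase.2 ⟨hw2'.symm, hy2A⟩
    have hlt : (A.erase w).card < n := by
      have := Finset.card_erase_lt_of_mem hw
      omega
    obtain ⟨f, hf⟩ := IH (A.erase w) G' hlt (fun v hv => by
      obtain ⟨hvw, hvA⟩ := mem_erase.1 hv
      have h0 := rooted_dg_erase (G := G) hw v
      rw [h3 v hvA hvw] at h0
      by_cases hv1 : v = y1
      · subst hv1
        rw [rooted_dg_edge hy2e hy hadj]
        rw [if_pos hwy1.symm] at h0
        omega
      by_cases hv2 : v = y2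
      · subst hv2
        rw [rooted_dg_edge' hy1e hy hadj]
        rw [if_pos hwy2.symm] at h0
        omega
      rw [rooted_dg_other hv1 hv2]
      rw [if_neg (fun h => by
        rcases (hwn v hvA).1 h.symm with h | h
        · exact hv1 h
        · exact hv2 h)] at h0
      omega)
    exact root_sub hw hy1A hy2A hw1 hw2' hy hadj hwn hG' hf

end

end SL
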