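import Pool.Agent.H53.SL.Flow
import Pool.Agent.H53.SL.Rooted
import Pool.Agent.H53.SL.Glue

/-!
# The main induction
-/

namespace SL

open Classical Finset

noncomputable section

theorem cubic_iff_cub {V : Type} [Fintype V] (G : SimpleGraph V) : Cubic G ↔ Cub G := by
  have : ∀ v, (G.neighborSet v).ncard = dg G univ v := by
    intro v
    unfold dg
    rw [← Set.ncard_coe_finset]
    congr 1
    ext b
    simp
  unfold Cubic Cub
  constructor
  · intro h v; rw [← this]; exact h v
  · intro h v; rw [this]; exact h v

/-- transfer of a drawing along an injection with image `A` -/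
theorem drOn_of_draws {V W : Type} {S : Set (Option ℝ)} {A : Finset V} {G : SimpleGraph V}
    (j : W → V) (hj : Function.Injective j) (hA : ∀ v, v ∈ A ↔ ∃ w, j w = v)
    (h : Draws S (G.comap j)) : ∃ f : V → ℝ × ℝ, DrOn S A G f := by
  obtain ⟨f0, hinj, hf0⟩ := h
  let f : V → ℝ × ℝ := fun v => if h : ∃ w, j w = v then f0 (Classical.choose h) else 0
  have hf : ∀ w, f (j w) = f0 w := by
    intro w
    have hex : ∃ w', j w' = j w := ⟨w, rfl⟩
    have h1 : f (j w) = f0 (Classical.choose hex) := dif_pos hex
    rw [h1, hj (Classical.choose_spec hex)]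
  refine ⟨f, ?_, ?_⟩
  · intro a ha b hb hab
    rw [Finset.mem_coe, hA] at ha hb
    obtain ⟨a', rfl⟩ := ha
    obtain ⟨b', rfl⟩ := hb
    rw [hf, hf] at hab
    rw [hinj hab]
  · intro u hu v hv huv
    rw [hA] at hu hv
    obtain ⟨u', rfl⟩ := hu
    obtain ⟨v', rfl⟩ := hv
    obtain ⟨h1, h2⟩ := hf0 u' v' huv
    rw [hf, hf]
    refine ⟨h1, ?_⟩
    intro w hw hwu hwv
    rw [hA] at hw
    obtain ⟨w', rfl⟩ := hw
    rw [hf]
    exact h2 w' (fun h => hwu (by rw [h])) (fun h => hwv (by rw [h]))

theorem dg_comap {V W : Type} [Fintype W] {A : Finset V} {G : SimpleGraph V}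
    (j : W → V) (hj : Function.Injective j) (B : Finset W) (w : W) :
    dg (G.comap j) B w = dg G (B.image j) (j w) := by
  unfold dg
  rw [← Finset.card_image_of_injective _ hj]
  congr 1
  ext v
  simp only [mem_image, mem_filter, SimpleGraph.comap_adj]
  constructor
  · rintro ⟨b, ⟨hb, hb'⟩, rfl⟩
    exact ⟨⟨b, hb, rfl⟩, hb'⟩
  · rintro ⟨⟨b, hb, rfl⟩, hb'⟩
    exact ⟨b, ⟨hb, hb'⟩, rfl⟩

/-- a member of `T` (five elements) outside a set of at most four used slopes -/
theorem exists_unused {V : Type} {T : Finset (Option ℝ)} (hT : T.card = 5) {A B : Finset V}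
    {G : SimpleGraph V} {a b : V} (ha : dg G A a = 2) (hb : dg G B b = 2)
    (f g : V → ℝ × ℝ) :
    ∃ σ ∈ T, (∀ y ∈ A, G.Adj a y → slp (f a) (f y) ≠ σ) ∧
      (∀ y ∈ B, G.Adj b y → slp (g b) (g y) ≠ σ) := by
  let U : Finset (Option ℝ) := (A.filter (fun y => G.Adj a y)).image (fun y => slp (f a) (f y)) ∪
    (B.filter (fun y => G.Adj b y)).image (fun y => slp (g b) (g y))
  have hU : U.card ≤ 4 := by
    calc U.card ≤ _ := Finset.card_union_le _ _
      _ ≤ (A.filter (fun y => G.Adj a y)).card + (B.filter (fun y => G.Adj b y)).card :=
        add_le_add Finset.card_image_le Finset.card_image_le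
      _ = 4 := by
        have h1 : (A.filter (fun y => G.Adj a y)).card = 2 := ha
        have h2 : (B.filter (fun y => G.Adj b y)).card = 2 := hb
        omega
  have : ¬ T ⊆ U := fun h => by
    have := Finset.card_le_card h
    omega
  obtain ⟨σ, hσ, hσU⟩ := Finset.not_subset.1 this
  refine ⟨σ, hσ, ?_, ?_⟩
  · intro y hy hay h
    apply hσU
    simp only [U, mem_union, mem_image, mem_filter]
    exact Or.inl ⟨y, ⟨hy, hay⟩, h⟩
  · intro y hy hay h
    apply hσU
    simp only [U, mem_union, mem_image, mem_filter]
    exact Or.inr ⟨y, ⟨hy, hay⟩, h⟩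

theorem ind_step {S : Set (Option ℝ)} {T : Finset (Option ℝ)} (hT : T.card = 5)
    (hTS : ∀ σ ∈ T, σ ∈ S) {N : ℕ}
    (hflow : ∀ (W : Type) [Fintype W] (H : SimpleGraph W), Cub H → TwoEC H →
      N < Fintype.card W → Draws S H)
    (hsmall : ∀ m ≤ N, ∀ H : SimpleGraph (Fin m), Cubic H → Draws S H) {V : Type} (n : ℕ) :
    ∀ (A : Finset V) (G : SimpleGraph V), A.card = n → (∀ v ∈ A, dg G A v = 3) →
      ∃ f : V → ℝ × ℝ, DrOn S A G f := by
  induction n using Nat.strong_induction_on with
  | _ n IH =>
    intro A G hAn hA
    have IH' : ∀ (A : Finset V) (G : SimpleGraph V), A.card < n → (∀ v ∈ A, dg G A v = 3) →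
        ∃ f : V → ℝ × ℝ, DrOn S A G f := fun A G h => IH A.card h A G rfl
    by_cases hcut : ∃ B, B ⊆ A ∧ B.Nonempty ∧ (A \ B).Nonempty ∧ cut G B (A \ B) ≤ 1
    · obtain ⟨B, hBA, hBne, hCne, hle⟩ := hcut
      have hdisj : Disjoint B (A \ B) := disjoint_sdiff
      have hunion : B ∪ (A \ B) = A := Finset.union_sdiff_of_subset hBA
      have hBlt : B.card < n := by
        have h1 := Finset.card_pos.2 hCne
        have h2 := Finset.card_union_of_disjoint hdisj
        rw [hunion] at h2
        omega
      have hClt : (A \ B).card < n := by
        have h1 := Finset.card_pos.2 hBne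
        have h2 := Finset.card_union_of_disjoint hdisj
        rw [hunion] at h2
        omega
      have hdgB : ∀ v ∈ A, dg G B v + dg G (A \ B) v = 3 := by
        intro v hv
        rw [← dg_union G hdisj, hunion]
        exact hA v hv
      rcases Nat.lt_or_ge (cut G B (A \ B)) 1 with h0 | h1
      · have h0' : cut G B (A \ B) = 0 := by omega
        have hz : ∀ b ∈ B, dg G (A \ B) b = 0 := by
          intro b hb
          exact (Finset.sum_eq_zero_iff.1 h0') b hb
        have hz' : ∀ b ∈ A \ B, dg G B b = 0 := by
          rw [cut_comm] at h0'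
          intro b hb
          exact (Finset.sum_eq_zero_iff.1 h0') b hb
        have hno : ∀ a ∈ B, ∀ b ∈ A \ B, ¬ G.Adj a b := by
          intro a ha b hb hab
          have := hz a ha
          unfold dg at this
          rw [Finset.card_eq_zero] at this
          have hmem : b ∈ (A \ B).filter (fun b => G.Adj a b) := mem_filter.2 ⟨hb, hab⟩
          rw [this] at hmem
          exact absurd hmem (Finset.notMem_empty _)
        obtain ⟨f, hf⟩ := IH' B G hBlt (fun v hv => by
          have := hdgB v (hBA hv); have := hz v hv; omega)
        obtain ⟨g, hg⟩ := IH' (A \ B) G hClt (fun v hv => by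
          have := hdgB v (Finset.sdiff_subset hv); have := hz' v hv; omega)
        have := draw_disj hdisj hno hf hg
        rwa [hunion] at this
      · have h1' : cut G B (A \ B) = 1 := by omega
        -- the unique edge
        have hcard := cut_eq_card G B (A \ B)
        rw [h1'] at hcard
        obtain ⟨⟨a0, b0⟩, hp⟩ := Finset.card_eq_one.1 hcard.symm
        have hmem : (a0, b0) ∈ (B ×ˢ (A \ B)).filter (fun p => G.Adj p.1 p.2) := by
          rw [hp]; simp
        simp only [mem_filter, mem_product] at hmem
        obtain ⟨⟨ha0, hb0⟩, hab⟩ := hmem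
        have honly : ∀ a ∈ B, ∀ b ∈ A \ B, G.Adj a b → a = a0 ∧ b = b0 := by
          intro a ha b hb hab
          have : (a, b) ∈ (B ×ˢ (A \ B)).filter (fun p => G.Adj p.1 p.2) := by
            simp only [mem_filter, mem_product]
            exact ⟨⟨ha, hb⟩, hab⟩
          rw [hp] at this
          simpa using this
        have hdga : ∀ a ∈ B, dg G (A \ B) a = if a = a0 then 1 else 0 := by
          intro a ha
          unfold dg
          split_ifs with h
          · subst h
            rw [Finset.card_eq_one]
            refine ⟨b0, ?_⟩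
            ext b
            simp only [mem_filter, mem_singleton]
            constructor
            · rintro ⟨hb, hb'⟩; exact (honly _ ha b hb hb').2
            · rintro rfl; exact ⟨hb0, hab⟩
          · rw [Finset.card_eq_zero]
            apply Finset.filter_eq_empty_iff.2
            intro b hb hb'
            exact h (honly a ha b hb hb').1
        have hdgb : ∀ b ∈ A \ B, dg G B b = if b = b0 then 1 else 0 := by
          intro b hb
          unfold dg
          split_ifs with h
          · subst h
            rw [Finset.card_eq_one]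
            refine ⟨a0, ?_⟩
            ext a
            simp only [mem_filter, mem_singleton]
            constructor
            · rintro ⟨ha, ha'⟩; exact (honly a ha _ hb ha'.symm).1
            · rintro rfl; exact ⟨ha0, hab.symm⟩
          · rw [Finset.card_eq_zero]
            apply Finset.filter_eq_empty_iff.2
            intro a ha ha'
            exact h (honly a ha b hb ha'.symm).2
        have hB2 : dg G B a0 = 2 := by
          have h1 := hdgB a0 (hBA ha0)
          have h2 := hdga a0 ha0
          rw [if_pos rfl] at h2
          omega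
        have hC2 : dg G (A \ B) b0 = 2 := by
          have h1 := hdgB b0 (Finset.sdiff_subset hb0)
          have h2 := hdgb b0 hb0
          rw [if_pos rfl] at h2
          omega
        obtain ⟨f, hf, hrf⟩ := rooted hT hTS n IH' B G a0 hBlt.le ha0 hB2 (fun v hv hne => by
          have h1 := hdgB v (hBA hv)
          have h2 := hdga v hv
          rw [if_neg hne] at h2
          omega)
        obtain ⟨g, hg, hrg⟩ := rooted hT hTS n IH' (A \ B) G b0 hClt.le hb0 hC2
          (fun v hv hne => by
          have h1 := hdgB v (Finset.sdiff_subset hv)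
          have h2 := hdgb v hv
          rw [if_neg hne] at h2
          omega)
        obtain ⟨σ, hσ, hσ1, hσ2⟩ := exists_unused hT hB2 hC2 f g
        have := draw_bridge hdisj ha0 hb0 honly hf hg (hTS σ hσ) (hrf σ hσ hσ1) (hrg σ hσ hσ2)
        rwa [hunion] at this
    · push Not at hcut
      rcases Nat.lt_or_ge N n with hn | hn
      · -- the flow theorem on the subtype
        let W := {v // v ∈ A}
        let j : W → V := Subtype.val
        have hj : Function.Injective j := Subtype.val_injective
        have himg : (univ : Finset W).image j = A := by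
          ext v
          simp only [mem_image, mem_univ, true_and]
          constructor
          · rintro ⟨w, rfl⟩; exact w.2
          · intro hv; exact ⟨⟨v, hv⟩, rfl⟩
        have hcub : Cub (G.comap j) := by
          intro w
          rw [dg_comap (A := A) j hj, himg]
          exact hA _ w.2
        have h2 : TwoEC (G.comap j) := by
          intro B hB hBu
          have hcutB : bd (G.comap j) B = cut G (B.image j) (A \ B.image j) := by
            unfold bd cut
            rw [Finset.sum_image (fun a _ b _ h => hj h)]
            apply Finset.sum_congr rfl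
            intro w _
            rw [dg_comap (A := A) j hj]
            congr 1
            ext v
            simp only [mem_image, mem_compl, mem_sdiff]
            constructor
            · rintro ⟨w', hw', rfl⟩
              refine ⟨w'.2, ?_⟩
              rintro ⟨w'', hw'', h⟩
              rw [hj h] at hw''
              exact hw' hw''
            · rintro ⟨hv, hv'⟩
              exact ⟨⟨v, hv⟩, fun h => hv' ⟨_, h, rfl⟩, rfl⟩
          rw [hcutB]
          have hsub : B.image j ⊆ A := by
            rw [← himg]
            exact Finset.image_subset_image (Finset.subset_univ _)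
          have hne : (A \ B.image j).Nonempty := by
            have : ∃ w, w ∉ B := by
              by_contra h
              push Not at h
              exact hBu (Finset.eq_univ_iff_forall.2 h)
            obtain ⟨w, hw⟩ := this
            refine ⟨j w, mem_sdiff.2 ⟨w.2, ?_⟩⟩
            simp only [mem_image, not_exists, not_and]
            intro w' hw' h
            rw [hj h] at hw'
            exact hw hw'
          have := hcut (B.image j) hsub (hB.image j) hne
          omega
        have hcardW : Fintype.card W = n := by
          rw [← hAn]; exact Fintype.card_coe A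
        have hd := hflow W (G.comap j) hcub h2 (by rw [hcardW]; exact hn)
        exact drOn_of_draws j hj (fun v => ⟨fun h => ⟨⟨v, h⟩, rfl⟩, by rintro ⟨w, rfl⟩; exact w.2⟩) hd
      · -- small
        let e := A.equivFinOfCardEq hAn
        let j : Fin n → V := fun i => (e.symm i : V)
        have hj : Function.Injective j := fun a b h => e.symm.injective (Subtype.ext h)
        have himg : (univ : Finset (Fin n)).image j = A := by
          ext v
          simp only [mem_image, mem_univ, true_and]
          constructor
          · rintro ⟨w, rfl⟩; exact (e.symm w).2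
          · intro hv; exact ⟨e ⟨v, hv⟩, by simp [j]⟩
        have hcub : Cub (G.comap j) := by
          intro w
          rw [dg_comap (A := A) j hj, himg]
          exact hA _ (e.symm w).2
        have hd := hsmall n hn (G.comap j) ((cubic_iff_cub _).2 hcub)
        refine drOn_of_draws j hj (fun v => ?_) hd
        constructor
        · intro hv; exact ⟨e ⟨v, hv⟩, by simp [j]⟩
        · rintro ⟨w, rfl⟩; exact (e.symm w).2

theorem main_ind : ∃ N : ℕ, ∀ S : Set (Option ℝ),
    (∃ T : Finset (Option ℝ), T.card = 5 ∧ ∀ σ ∈ T, σ ∈ S) →
    (∀ m ≤ N, ∀ G : SimpleGraph (Fin m), Cubic G → Draws S G) → Good S := by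
  obtain ⟨N, hN⟩ := flow
  refine ⟨N, ?_⟩
  rintro S ⟨T, hT, hTS⟩ hsmall m G hG
  have hcub := (cubic_iff_cub G).1 hG
  obtain ⟨f, hf1, hf2⟩ := ind_step hT hTS (N := N)
    (fun W _ H h1 h2 h3 => hN W H h1 h2 h3 S T hT hTS) hsmall m univ G (by simp)
    (fun v _ => hcub v)
  refine ⟨f, fun a b h => hf1 (by simp) (by simp) h, ?_⟩
  intro u v huv
  obtain ⟨h1, h2⟩ := hf2 u (by simp) v (by simp) huv
  exact ⟨h1, fun w hwu hwv => h2 w (by simp) hwu hwv⟩

end

end SL
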