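import Pool.Agent.H53.SL.Base

/-!
# Module LIN: duality and generic points (100-150 lines)

`lin_dual`: Let `E = V → ℝ × ℝ`, and for `(a,b)` adjacent let `L (a,b) x = cr (x a - x b) (s (c s(a,b)))`
(a linear map `E →ₗ[ℝ] ℝ`; index type `{p : V × V // G.Adj p.1 p.2}`, finite), and
`K x = cr (x w - x u) q`.  The hypothesis says `⨅ i, ker (L i) ≤ ker K`, hence
(`mem_span_of_iInf_ker_le_ker`) `K ∈ span (range L)`, i.e. `K = Σ g(a,b) L(a,b)`.
Put `ψ a b = g(a,b) - g(b,a)` if `G.Adj a b`, `0` otherwise (antisymmetric).  Since the colour of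
`s(a,b)` is symmetric, `Σ_{(a,b)} g(a,b) cr (x a - x b) s_{ab} = Σ_a cr (x a) (Σ_{b ~ a} ψ a b • s_{ab})`.
Insert `x = Pi.single a p` for all `p`: the vector `Σ_{b~a} ψ a b s_{ab}` equals `q` for `a = w`,
`-q` for `a = u`, `0` otherwise (`cr p v = cr p v'` for all `p` implies `v = v'`).

`lin_generic`: finitely many linear functionals on the subspace `X = {x | InX G c s x}`, none of which
vanishes identically on `X`; over the infinite field `ℝ` there is a point of `X` where none vanishes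
(`Module.Dual.exists_forall_mem_ne_zero_of_forall_exists` or `Subspace.biUnion_ne_univ_of_top_notMem`,
or: adding one functional at a time, `x + t • y` for all but finitely many real `t`).
-/

namespace SL

open Classical Finset

noncomputable section

variable {V : Type}

/-- `cr · q` as a linear map -/
def LIN_crL (q : ℝ × ℝ) : (ℝ × ℝ) →ₗ[ℝ] ℝ := q.2 • LinearMap.fst ℝ ℝ ℝ - q.1 • LinearMap.snd ℝ ℝ ℝ

theorem LIN_crL_apply (q p : ℝ × ℝ) : LIN_crL q p = cr p q := by
  simp only [LIN_crL, LinearMap.sub_apply, LinearMap.smul_apply, LinearMap.fst_apply,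
    LinearMap.snd_apply, smul_eq_mul, cr]
  ring

/-- `x ↦ cr (x a - x b) q` as a linear map -/
def LIN_df (a b : V) (q : ℝ × ℝ) : (V → ℝ × ℝ) →ₗ[ℝ] ℝ :=
  (LIN_crL q).comp (LinearMap.proj (R := ℝ) (φ := fun _ : V => ℝ × ℝ) a - LinearMap.proj b)

theorem LIN_df_apply (a b : V) (q : ℝ × ℝ) (x : V → ℝ × ℝ) :
    LIN_df a b q x = cr (x a - x b) q := by
  unfold LIN_df
  rw [LinearMap.comp_apply, LIN_crL_apply]
  rfl

theorem LIN_cr_ext {v v' : ℝ × ℝ} (h : ∀ p, cr p v = cr p v') : v = v' := by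
  have h1 := h (1, 0)
  have h2 := h (0, 1)
  simp only [cr] at h1 h2
  ext
  · linarith
  · linarith

theorem LIN_cr_sum {ι : Type} (t : Finset ι) (p : ℝ × ℝ) (f : ι → ℝ) (g : ι → ℝ × ℝ) :
    cr p (∑ i ∈ t, f i • g i) = ∑ i ∈ t, f i * cr p (g i) := by
  induction t using Finset.induction_on with
  | empty => simp [cr_zero_right]
  | insert a t ha ih =>
    rw [Finset.sum_insert ha, Finset.sum_insert ha, cr_add_right, ih, cr_smul_right]

theorem lin_dual [Fintype V] (G : SimpleGraph V) (c : Sym2 V → Fin 5) (s : Fin 5 → ℝ × ℝ)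
    {u w : V} (huw : u ≠ w) (q : ℝ × ℝ)
    (h : ∀ x : V → ℝ × ℝ, InX G c s x → cr (x w - x u) q = 0) :
    ∃ ψ : V → V → ℝ, Anti ψ ∧ (∀ a, a ≠ u → a ≠ w → Cons G c s ψ a) ∧
      (∑ b ∈ univ.filter (fun b => G.Adj w b), ψ w b • s (c s(w, b)) = q) ∧
      (∑ b ∈ univ.filter (fun b => G.Adj u b), ψ u b • s (c s(u, b)) = -q) := by
  set L : {p : V × V // G.Adj p.1 p.2} → ((V → ℝ × ℝ) →ₗ[ℝ] ℝ) :=
    fun p => LIN_df p.1.1 p.1.2 (s (c s(p.1.1, p.1.2))) with hL
  have hker : ⨅ i, LinearMap.ker (L i) ≤ LinearMap.ker (LIN_df w u q) := by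
    intro x hx
    rw [LinearMap.mem_ker, LIN_df_apply]
    apply h
    intro a b hab
    rw [Submodule.mem_iInf] at hx
    have h1 := hx ⟨(a, b), hab⟩
    rw [LinearMap.mem_ker, hL, LIN_df_apply] at h1
    exact h1
  obtain ⟨g, hg⟩ := (Submodule.mem_span_range_iff_exists_fun ℝ).1 (mem_span_of_iInf_ker_le_ker hker)
  set g' : V → V → ℝ := fun a b => if hab : G.Adj a b then g ⟨(a, b), hab⟩ else 0 with hg'
  have hg0 : ∀ a b, ¬ G.Adj a b → g' a b = 0 := fun a b hab => by rw [hg']; simp [hab]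
  have hsum : ∀ F : V → V → ℝ, ∑ i : {p : V × V // G.Adj p.1 p.2}, g i * F i.1.1 i.1.2
      = ∑ a, ∑ b, g' a b * F a b := by
    intro F
    have e1 : ∑ p : V × V, g' p.1 p.2 * F p.1 p.2 = ∑ a, ∑ b, g' a b * F a b :=
      Fintype.sum_prod_type (fun p : V × V => g' p.1 p.2 * F p.1 p.2)
    have e2 : ∑ p ∈ univ.filter (fun p : V × V => G.Adj p.1 p.2), g' p.1 p.2 * F p.1 p.2
        = ∑ p : V × V, g' p.1 p.2 * F p.1 p.2 := by
      apply Finset.sum_subset (Finset.filter_subset _ _)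
      intro p _ hp
      rw [hg0 p.1 p.2 (by simpa using hp), zero_mul]
    have e3 := Finset.sum_subtype (F := inferInstance)
      (univ.filter (fun p : V × V => G.Adj p.1 p.2))
      (p := fun p : V × V => G.Adj p.1 p.2) (by simp) (fun p : V × V => g' p.1 p.2 * F p.1 p.2)
    rw [← e1, ← e2, e3]
    apply Finset.sum_congr rfl
    rintro ⟨⟨a, b⟩, hab⟩ _
    have hab' : G.Adj a b := hab
    simp only [hg', hab', dif_pos]
  have hkey : ∀ x : V → ℝ × ℝ, cr (x w - x u) q
      = ∑ a, cr (x a) (∑ b, (g' a b - g' b a) • s (c s(a, b))) := by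
    intro x
    have h1 := congrArg (fun f => f x) hg
    simp only [LinearMap.sum_apply, LinearMap.smul_apply, smul_eq_mul, LIN_df_apply] at h1
    rw [← h1]
    have h2 : ∀ i : {p : V × V // G.Adj p.1 p.2}, L i x
        = cr (x i.1.1 - x i.1.2) (s (c s(i.1.1, i.1.2))) := fun i => by
      rw [hL, LIN_df_apply]
    simp only [h2]
    rw [hsum (fun a b => cr (x a - x b) (s (c s(a, b))))]
    have h3 : ∀ a b, g' a b * cr (x a - x b) (s (c s(a, b)))
        = g' a b * cr (x a) (s (c s(a, b))) - g' a b * cr (x b) (s (c s(a, b))) := by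
      intro a b; rw [cr_sub_left]; ring
    simp only [h3, Finset.sum_sub_distrib]
    rw [Finset.sum_comm (f := fun a b => g' a b * cr (x b) (s (c s(a, b)))),
      ← Finset.sum_sub_distrib]
    apply Finset.sum_congr rfl
    intro a _
    rw [LIN_cr_sum, ← Finset.sum_sub_distrib]
    apply Finset.sum_congr rfl
    intro b _
    rw [Sym2.eq_swap (a := b) (b := a)]
    ring
  set vec : V → ℝ × ℝ := fun a => ∑ b, (g' a b - g' b a) • s (c s(a, b)) with hvec
  have hsingle : ∀ (a : V) (p : ℝ × ℝ),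
      cr ((Pi.single a p : V → ℝ × ℝ) w - (Pi.single a p : V → ℝ × ℝ) u) q = cr p (vec a) := by
    intro a p
    rw [hkey, Finset.sum_eq_single a]
    · rw [Pi.single_eq_same]
    · intro b _ hb
      rw [Pi.single_eq_of_ne hb, cr_zero_left]
    · intro ha; exact absurd (Finset.mem_univ a) ha
  have hfil : ∀ a, ∑ b ∈ univ.filter (fun b => G.Adj a b), (g' a b - g' b a) • s (c s(a, b))
      = vec a := by
    intro a
    apply Finset.sum_subset (Finset.filter_subset _ _)
    intro b _ hb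
    have hb' : ¬ G.Adj a b := by simpa using hb
    rw [hg0 a b hb', hg0 b a (fun h => hb' h.symm), sub_self, zero_smul]
  refine ⟨fun a b => g' a b - g' b a, fun a b => by ring, ?_, ?_, ?_⟩
  · intro a hau haw
    unfold Cons
    rw [hfil]
    apply LIN_cr_ext
    intro p
    rw [← hsingle, Pi.single_eq_of_ne (Ne.symm haw), Pi.single_eq_of_ne (Ne.symm hau), sub_zero,
      cr_zero_left, cr_zero_right]
  · rw [hfil]
    apply LIN_cr_ext
    intro p
    rw [← hsingle, Pi.single_eq_same, Pi.single_eq_of_ne huw, sub_zero]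
  · rw [hfil]
    apply LIN_cr_ext
    intro p
    rw [← hsingle, Pi.single_eq_same, Pi.single_eq_of_ne (Ne.symm huw), zero_sub, cr_neg_left,
      cr_neg_right]

theorem lin_generic [Fintype V] (G : SimpleGraph V) (c : Sym2 V → Fin 5) (s : Fin 5 → ℝ × ℝ)
    (h : ∀ u v w, G.Adj u v → w ≠ u → w ≠ v →
      ∃ x, InX G c s x ∧ cr (x w - x u) (s (c s(u, v))) ≠ 0) :
    ∃ x, InX G c s x ∧ ∀ u v w, G.Adj u v → w ≠ u → w ≠ v →
      cr (x w - x u) (s (c s(u, v))) ≠ 0 := by
  let p : Submodule ℝ (V → ℝ × ℝ) :=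
    { carrier := {x | InX G c s x}
      add_mem' := by
        intro x y hx hy a b hab
        have h1 := hx a b hab
        have h2 := hy a b hab
        have h3 : (x + y) a - (x + y) b = (x a - x b) + (y a - y b) := by
          simp only [Pi.add_apply]; abel
        rw [h3, cr_add_left, h1, h2, add_zero]
      zero_mem' := by
        intro a b _
        simp [cr_zero_left]
      smul_mem' := by
        intro t x hx a b hab
        have h1 := hx a b hab
        have h3 : (t • x) a - (t • x) b = t • (x a - x b) := by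
          simp only [Pi.smul_apply, smul_sub]
        rw [h3, cr_smul_left, h1, mul_zero] }
  obtain ⟨x, hx, hx2⟩ := Module.Dual.exists_forall_mem_ne_zero_of_forall_exists p
    (fun i : {t : V × V × V // G.Adj t.1 t.2.1 ∧ t.2.2 ≠ t.1 ∧ t.2.2 ≠ t.2.1} =>
      LIN_df i.1.2.2 i.1.1 (s (c s(i.1.1, i.1.2.1)))) (by
        rintro ⟨⟨u, v, w⟩, h1, h2, h3⟩
        obtain ⟨x, hx, hx'⟩ := h u v w h1 h2 h3
        exact ⟨x, hx, by rw [LIN_df_apply]; exact hx'⟩)
  refine ⟨x, hx, fun u v w h1 h2 h3 => ?_⟩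
  have := hx2 ⟨(u, v, w), h1, h2, h3⟩
  rw [LIN_df_apply] at this
  exact this

end

end SL
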