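import Pool.Agent.H53.SL.Base

/-!
# Module SHORT: short cycles (200-250 lines)

Call a nonempty `Y` cyclic if `2|Y| ≤ cut Y Y`, and `T` dense if `2|T| ≤ cut T T + 2`.

`start` (strong induction on `|Z|`): assume there is no cyclic `Y ⊆ Z` with `|Y| ≤ t`.  Starting from a
singleton, grow a dense `T ⊆ Z` (adding a vertex of `Z` adjacent to `T` keeps density, since
`cut_insert_self`: `cut` grows by at least 2) until `|T| = t` (done) or there is no edge from `T` to
`Z \ T`, `|T| < t`.  (Formally: take a dense nonempty `T ⊆ Z` with `|T| ≤ t` of maximal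
cardinality.)  In the latter case `cut T T = 2|T| - 2` (`T` is not cyclic, parity), so
`bd T = |T| + 2`; `Z' = Z \ T` has `bd Z' = bd Z - bd T` (no edges between `T` and `Z'`: `bd_union`),
`|Z'| = |Z| - |T| > bd Z'`; apply the induction hypothesis to `Z'`.

`short_cyc`: let `d = bd Z`, `t = d + 1`, `R = Nat.log 2 |Z| + 1`, `K = t + 2R ≤ d + 2 log|Z| + 4`.
Assume no cyclic `Y ⊆ Z` has `|Y| ≤ K`.  `start` gives a dense `T0 ⊆ Z`, `|T0| = d + 1`.  Put
`B 0 = T0`, `B (r+1) = Z.filter (fun v => v ∈ B r ∨ ∃ b ∈ B r, G.Adj b v)`.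
By induction on `r ≤ R`: (a) `cut (B r) (B r) = 2 |B r| - 2`; (b) every `u ∈ B r` is in a dense set
`P_u`, `T0 ⊆ P_u ⊆ B r`, `|P_u| ≤ t + r`; (c) `|B r| ≥ d + 2^r`.
Union of dense sets `P, P'` with `T0 ⊆ P ∩ P'`, `|P ∩ P'| ≤ K` is dense: supermodularity
`cut (P ∪ P') (P ∪ P') + cut (P ∩ P') (P ∩ P') ≥ cut P P + cut P' P'`, and
`cut (P ∩ P') (P ∩ P') ≤ 2|P ∩ P'| - 2` (not cyclic).
Step: (i) a new vertex `u ∈ B (r+1) \ B r` has exactly one neighbour in `B r`: with two neighbours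
`b1, b2 ∈ B r` the set `P_{b1} ∪ P_{b2} ∪ {u}` is cyclic of size `≤ t + 2r + 1 ≤ K`.
(ii) two new vertices `u1, u2` are not adjacent: with neighbours `b1, b2 ∈ B r`, the set
`P_{b1} ∪ P_{b2} ∪ {u1, u2}` would be cyclic of size `≤ t + 2r + 2 ≤ K`.
Hence `cut (B (r+1)) (B (r+1)) = cut (B r) (B r) + 2 #new`: (a); (b): `P_u = P_b ∪ {u}`.
(c): `bd (B r) = 3|B r| - cut = |B r| + 2` edges leave `B r`; at most `d` of them leave `Z`, and every
new vertex gets exactly one, so `#new ≥ |B r| + 2 - d` and `|B (r+1)| - d ≥ 2 (|B r| - d)`.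
At `r = R`: `|Z| ≥ |B R| ≥ 2^R > |Z|`, contradiction.
-/

namespace SL

open Classical Finset

noncomputable section

variable {V : Type}

theorem start [Fintype V] {G : SimpleGraph V} (hG : Cub G) (t : ℕ) (ht : 1 ≤ t) (Z : Finset V)
    (hZ : bd G Z < Z.card) :
    (∃ Y, Y ⊆ Z ∧ Y.Nonempty ∧ 2 * Y.card ≤ cut G Y Y ∧ Y.card ≤ t) ∨
    (∃ T, T ⊆ Z ∧ T.card = t ∧ 2 * t ≤ cut G T T + 2) := by
  induction Z using Finset.strongInduction with
  | H Z ih =>
  by_cases hcyc : ∃ Y, Y ⊆ Z ∧ Y.Nonempty ∧ 2 * Y.card ≤ cut G Y Y ∧ Y.card ≤ t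
  · exact Or.inl hcyc
  push Not at hcyc
  -- dense subsets of size at most `t`
  let 𝒟 : Finset (Finset V) := Z.powerset.filter
    (fun T => T.Nonempty ∧ T.card ≤ t ∧ 2 * T.card ≤ cut G T T + 2)
  have hne : 𝒟.Nonempty := by
    have hZne : Z.Nonempty := by
      rw [← Finset.card_pos]
      omega
    obtain ⟨z, hz⟩ := hZne
    refine ⟨{z}, ?_⟩
    simp only [𝒟, mem_filter, mem_powerset, singleton_subset_iff, card_singleton]
    exact ⟨hz, singleton_nonempty z, ht, by omega⟩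
  obtain ⟨T, hT, hmax⟩ := Finset.exists_max_image 𝒟 Finset.card hne
  simp only [𝒟, mem_filter, mem_powerset] at hT hmax
  obtain ⟨hTZ, hTne, hTt, hTd⟩ := hT
  rcases hTt.lt_or_eq with hlt | heq
  swap
  · exact Or.inr ⟨T, hTZ, heq, by rw [← heq]; exact hTd⟩
  have hdg : ∀ v ∈ Z \ T, dg G T v = 0 := by
    intro v hv
    rw [mem_sdiff] at hv
    by_contra hcon
    have h1 := hmax (insert v T) ⟨insert_subset hv.1 hTZ, insert_nonempty v T, by
      rw [card_insert_of_notMem hv.2]; omega, by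
      rw [card_insert_of_notMem hv.2, cut_insert_self G hv.2]; omega⟩
    rw [card_insert_of_notMem hv.2] at h1
    omega
  have hcut : cut G T (Z \ T) = 0 := by
    rw [cut_comm]
    unfold cut
    exact Finset.sum_eq_zero hdg
  have hTe : cut G T T + 2 = 2 * T.card := by
    have h1 : ¬ 2 * T.card ≤ cut G T T := by
      intro h
      exact absurd (hcyc T hTZ hTne h) (by omega)
    obtain ⟨m, hm⟩ := cut_self_even G T
    omega
  have hbT := cut_add_bd G hG T
  have hun := bd_union G (disjoint_sdiff : Disjoint T (Z \ T))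
  rw [union_sdiff_of_subset hTZ, hcut] at hun
  have hcard : (Z \ T).card + T.card = Z.card := card_sdiff_add_card_eq_card hTZ
  have hss : Z \ T ⊂ Z := sdiff_ssubset hTZ hTne
  rcases ih (Z \ T) hss (by omega) with ⟨Y, hY, h2⟩ | ⟨T', hT', h2⟩
  · exact Or.inl ⟨Y, hY.trans sdiff_subset, h2⟩
  · exact Or.inr ⟨T', hT'.trans sdiff_subset, h2⟩

/-- supermodularity -/
theorem short_super (G : SimpleGraph V) (P Q : Finset V) :
    cut G P P + cut G Q Q ≤ cut G (P ∪ Q) (P ∪ Q) + cut G (P ∩ Q) (P ∩ Q) := by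
  rw [cut_eq_card, cut_eq_card, cut_eq_card, cut_eq_card, ← Finset.card_union_add_card_inter]
  apply Nat.add_le_add
  · apply Finset.card_le_card
    intro p hp
    simp only [mem_union, mem_filter, mem_product] at hp ⊢
    tauto
  · apply Finset.card_le_card
    intro p hp
    simp only [mem_inter, mem_filter, mem_product] at hp ⊢
    tauto

/-- the invariant of the growing balls -/
def ShortInv [Fintype V] (G : SimpleGraph V) (Z T0 : Finset V) (t r : ℕ) (B : Finset V) : Prop :=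
  B ⊆ Z ∧ T0 ⊆ B ∧ cut G B B + 2 = 2 * B.card ∧
    (∀ u ∈ B, ∃ P, u ∈ P ∧ T0 ⊆ P ∧ P ⊆ B ∧ P.card ≤ t + r ∧ 2 * P.card ≤ cut G P P + 2) ∧
    bd G Z + 2 ^ r ≤ B.card

theorem short_union {G : SimpleGraph V} {Z T0 : Finset V} {t K : ℕ}
    (hno : ∀ Y, Y ⊆ Z → Y.Nonempty → Y.card ≤ K → ¬ 2 * Y.card ≤ cut G Y Y)
    (hT0 : T0.card = t) (hT0ne : T0.Nonempty) {P Q : Finset V} (hP : P ⊆ Z)
    (hTP : T0 ⊆ P) (hTQ : T0 ⊆ Q) (hPK : P.card ≤ K)
    (hPd : 2 * P.card ≤ cut G P P + 2) (hQd : 2 * Q.card ≤ cut G Q Q + 2) :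
    2 * (P ∪ Q).card ≤ cut G (P ∪ Q) (P ∪ Q) + 2 ∧ (P ∪ Q).card + t ≤ P.card + Q.card := by
  have h1 := short_super G P Q
  have h2 := Finset.card_union_add_card_inter P Q
  have h3 : T0 ⊆ P ∩ Q := subset_inter hTP hTQ
  have h4 := card_le_card h3
  have h5 : (P ∩ Q).card ≤ P.card := card_le_card inter_subset_left
  have h6 := hno (P ∩ Q) (inter_subset_left.trans hP) (hT0ne.mono h3) (by omega)
  obtain ⟨m, hm⟩ := cut_self_even G (P ∩ Q)
  constructor
  · omega
  · omega

theorem short_step [Fintype V] {G : SimpleGraph V} (hG : Cub G) {Z T0 : Finset V} {t K r : ℕ}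
    (hno : ∀ Y, Y ⊆ Z → Y.Nonempty → Y.card ≤ K → ¬ 2 * Y.card ≤ cut G Y Y)
    (hT0 : T0.card = t) (hT0ne : T0.Nonempty) (hK : t + 2 * r + 2 ≤ K) {B : Finset V}
    (hB : ShortInv G Z T0 t r B) : ∃ B', ShortInv G Z T0 t (r + 1) B' := by
  obtain ⟨hBZ, hTB, hBe, hBP, hBc⟩ := hB
  set N : Finset V := (Z \ B).filter (fun v => ∃ b ∈ B, G.Adj b v) with hN
  have hNmem : ∀ v, v ∈ N ↔ v ∈ Z ∧ v ∉ B ∧ ∃ b ∈ B, G.Adj b v := by
    intro v
    rw [hN, mem_filter, mem_sdiff, and_assoc]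
  have hNB : Disjoint B N := by
    rw [Finset.disjoint_left]
    intro v hv hv'
    exact ((hNmem v).1 hv').2.1 hv
  -- (i)
  have hone : ∀ v ∈ N, dg G B v = 1 := by
    intro v hv
    obtain ⟨hvZ, hvB, b, hb, hbv⟩ := (hNmem v).1 hv
    have hpos : 0 < dg G B v := by
      unfold dg
      rw [card_pos]
      exact ⟨b, mem_filter.2 ⟨hb, hbv.symm⟩⟩
    by_contra hcon
    have h2 : 1 < dg G B v := by omega
    unfold dg at h2
    obtain ⟨b1, hb1, b2, hb2, hne⟩ := Finset.one_lt_card.1 h2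
    rw [mem_filter] at hb1 hb2
    obtain ⟨P, hbP, hTP, hPB, hPc, hPd⟩ := hBP b1 hb1.1
    obtain ⟨Q, hbQ, hTQ, hQB, hQc, hQd⟩ := hBP b2 hb2.1
    obtain ⟨h3, h4⟩ := short_union hno hT0 hT0ne (hPB.trans hBZ) hTP hTQ (by omega) hPd hQd
    have hvPQ : v ∉ P ∪ Q := by
      intro h
      rcases mem_union.1 h with h | h
      · exact hvB (hPB h)
      · exact hvB (hQB h)
    have h5 : 2 ≤ dg G (P ∪ Q) v := by
      unfold dg
      have h6 : ({b1, b2} : Finset V) ⊆ (P ∪ Q).filter (fun b => G.Adj v b) := by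
        intro x hx
        rw [mem_insert, mem_singleton] at hx
        rcases hx with rfl | rfl
        · exact mem_filter.2 ⟨mem_union_left _ hbP, hb1.2⟩
        · exact mem_filter.2 ⟨mem_union_right _ hbQ, hb2.2⟩
      have h7 := card_le_card h6
      rw [card_pair hne] at h7
      exact h7
    refine hno (insert v (P ∪ Q)) ?_ (insert_nonempty _ _) ?_ ?_
    · exact insert_subset hvZ (union_subset (hPB.trans hBZ) (hQB.trans hBZ))
    · rw [card_insert_of_notMem hvPQ]
      omega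
    · rw [card_insert_of_notMem hvPQ, cut_insert_self G hvPQ]
      omega
  -- (ii)
  have hnadj : ∀ u ∈ N, ∀ v ∈ N, ¬ G.Adj u v := by
    intro u hu v hv huv
    obtain ⟨huZ, huB, b1, hb1, hbu⟩ := (hNmem u).1 hu
    obtain ⟨hvZ, hvB, b2, hb2, hbv⟩ := (hNmem v).1 hv
    obtain ⟨P, hbP, hTP, hPB, hPc, hPd⟩ := hBP b1 hb1
    obtain ⟨Q, hbQ, hTQ, hQB, hQc, hQd⟩ := hBP b2 hb2
    obtain ⟨h3, h4⟩ := short_union hno hT0 hT0ne (hPB.trans hBZ) hTP hTQ (by omega) hPd hQd
    have hsub : P ∪ Q ⊆ B := union_subset hPB hQB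
    have huPQ : u ∉ P ∪ Q := fun h => huB (hsub h)
    have hvPQ : v ∉ P ∪ Q := fun h => hvB (hsub h)
    have hvu : v ≠ u := huv.ne'
    have hv2 : v ∉ insert u (P ∪ Q) := by
      rw [mem_insert]
      rintro (h | h)
      · exact hvu h
      · exact hvPQ h
    have h5 : 1 ≤ dg G (P ∪ Q) u := by
      unfold dg
      rw [Nat.one_le_iff_ne_zero, ← Nat.pos_iff_ne_zero, card_pos]
      exact ⟨b1, mem_filter.2 ⟨mem_union_left _ hbP, hbu.symm⟩⟩
    have h6 : 2 ≤ dg G (insert u (P ∪ Q)) v := by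
      rw [dg_insert G huPQ, if_pos huv.symm]
      have h7 : 1 ≤ dg G (P ∪ Q) v := by
        unfold dg
        rw [Nat.one_le_iff_ne_zero, ← Nat.pos_iff_ne_zero, card_pos]
        exact ⟨b2, mem_filter.2 ⟨mem_union_right _ hbQ, hbv.symm⟩⟩
      omega
    refine hno (insert v (insert u (P ∪ Q))) ?_ (insert_nonempty _ _) ?_ ?_
    · exact insert_subset hvZ (insert_subset huZ (hsub.trans hBZ))
    · rw [card_insert_of_notMem hv2, card_insert_of_notMem huPQ]
      omega
    · rw [card_insert_of_notMem hv2, card_insert_of_notMem huPQ, cut_insert_self G hv2,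
        cut_insert_self G huPQ]
      omega
  have hcNB : cut G N B = N.card := by
    unfold cut
    rw [Finset.sum_congr rfl hone, sum_const, smul_eq_mul, mul_one]
  have hcNN : cut G N N = 0 := by
    unfold cut
    refine Finset.sum_eq_zero fun u hu => ?_
    unfold dg
    rw [card_eq_zero, filter_eq_empty_iff]
    exact fun v hv => hnadj u hu v hv
  have hcard : (B ∪ N).card = B.card + N.card := card_union_of_disjoint hNB
  have hcut : cut G (B ∪ N) (B ∪ N) = cut G B B + 2 * N.card := by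
    rw [cut_union_left G hNB, cut_union_right G hNB, cut_union_right G hNB, hcNB, hcNN,
      cut_comm G B N, hcNB]
    omega
  -- (c)
  have hbd := cut_add_bd G hG B
  have hsplit : bd G B = cut G B (Z \ B) + cut G B Zᶜ := by
    unfold bd
    have h1 : Bᶜ = (Z \ B) ∪ Zᶜ := by
      ext v
      simp only [mem_compl, mem_union, mem_sdiff]
      constructor
      · intro hv
        by_cases hvZ : v ∈ Z
        · exact Or.inl ⟨hvZ, hv⟩
        · exact Or.inr hvZ
      · rintro (hv | hv)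
        · exact hv.2
        · exact fun h => hv (hBZ h)
    rw [h1, cut_union_right G]
    rw [Finset.disjoint_left]
    intro v hv hv'
    exact (mem_compl.1 hv') (mem_sdiff.1 hv).1
  have hcZ : cut G B Zᶜ ≤ bd G Z := cut_mono G hBZ (subset_refl _)
  have hcN : cut G B (Z \ B) = N.card := by
    rw [← hcNB, cut_comm]
    unfold cut
    symm
    apply Finset.sum_subset
    · intro v hv
      rw [mem_sdiff]
      exact ⟨((hNmem v).1 hv).1, ((hNmem v).1 hv).2.1⟩
    · intro v hv hvN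
      unfold dg
      rw [card_eq_zero, filter_eq_empty_iff]
      intro b hb hvb
      rw [mem_sdiff] at hv
      exact hvN ((hNmem v).2 ⟨hv.1, hv.2, b, hb, hvb.symm⟩)
  refine ⟨B ∪ N, ?_, ?_, ?_, ?_, ?_⟩
  · exact union_subset hBZ fun v hv => ((hNmem v).1 hv).1
  · exact hTB.trans subset_union_left
  · rw [hcut, hcard]
    omega
  · intro u hu
    rcases mem_union.1 hu with hu | hu
    · obtain ⟨P, h1, h2, h3, h4, h5⟩ := hBP u hu
      exact ⟨P, h1, h2, h3.trans subset_union_left, by omega, h5⟩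
    · obtain ⟨huZ, huB, b, hb, hbu⟩ := (hNmem u).1 hu
      obtain ⟨P, h1, h2, h3, h4, h5⟩ := hBP b hb
      have huP : u ∉ P := fun h => huB (h3 h)
      have h6 : 1 ≤ dg G P u := by
        unfold dg
        rw [Nat.one_le_iff_ne_zero, ← Nat.pos_iff_ne_zero, card_pos]
        exact ⟨b, mem_filter.2 ⟨h1, hbu.symm⟩⟩
      refine ⟨insert u P, mem_insert_self _ _, h2.trans (subset_insert _ _), ?_, ?_, ?_⟩
      · exact insert_subset (mem_union_right _ hu) (h3.trans subset_union_left)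
      · rw [card_insert_of_notMem huP]
        omega
      · rw [card_insert_of_notMem huP, cut_insert_self G huP]
        omega
  · rw [hcard, pow_succ]
    omega

theorem short_cyc [Fintype V] {G : SimpleGraph V} (hG : Cub G) (Z : Finset V)
    (hZ : bd G Z < Z.card) :
    ∃ Y, Y ⊆ Z ∧ Y.Nonempty ∧ 2 * Y.card ≤ cut G Y Y ∧
      Y.card ≤ bd G Z + 2 * Nat.log 2 Z.card + 4 := by
  by_contra hcon
  push Not at hcon
  set K := bd G Z + 2 * Nat.log 2 Z.card + 4 with hK
  have hno : ∀ Y, Y ⊆ Z → Y.Nonempty → Y.card ≤ K → ¬ 2 * Y.card ≤ cut G Y Y := by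
    intro Y h1 h2 h3 h4
    exact absurd (hcon Y h1 h2 h4) (by omega)
  rcases start hG (bd G Z + 1) (by omega) Z hZ with ⟨Y, h1, h2, h3, h4⟩ | ⟨T0, hT0Z, hT0, hT0d⟩
  · exact hno Y h1 h2 (by omega) h3
  have hT0ne : T0.Nonempty := by
    rw [← card_pos]
    omega
  have key : ∀ r, r ≤ Nat.log 2 Z.card + 1 → ∃ B, ShortInv G Z T0 (bd G Z + 1) r B := by
    intro r
    induction r with
    | zero =>
      intro _
      refine ⟨T0, hT0Z, subset_refl _, ?_, ?_, ?_⟩
      · have h1 := hno T0 hT0Z hT0ne (by omega)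
        obtain ⟨m, hm⟩ := cut_self_even G T0
        omega
      · intro u hu
        exact ⟨T0, hu, subset_refl _, subset_refl _, by omega, by rw [hT0]; exact hT0d⟩
      · rw [hT0, pow_zero]
    | succ r ih =>
      intro hr
      obtain ⟨B, hB⟩ := ih (by omega)
      exact short_step hG hno hT0 hT0ne (by omega) hB
  obtain ⟨B, hBZ, _, _, _, hBc⟩ := key _ le_rfl
  have h1 := card_le_card hBZ
  have h2 := Nat.lt_pow_succ_log_self (b := 2) (by norm_num) Z.card
  omega

end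

end SL
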