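import Pool.Agent.H53.SL.Base

/-!
# Module SIDE: minimal sides (200-250 lines)

Use `cut_add_bd` (`cut A A + bd A = 3|A|`), `cut_self_even`, `bd_parity`, `bd_insert`, `bd_union`,
`cut_union_left/right`, `cut_comm`.

* `exists_minSide`: take a nonempty subset of `P` with `bd = 2` of minimal cardinality
  (`Q ≠ univ` because `bd univ = 0`).
* `minSide_disjoint`: suppose `I = P ∩ Q` is nonempty.  `P ⊄ Q` and `Q ⊄ P` by minimality and
  `P ≠ Q`, so `A = P \ Q`, `B = Q \ P` are nonempty proper subsets of `P`, `Q`; by minimality and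
  `TwoEC`, `bd A ≥ 3`, `bd B ≥ 3`.  With `C = (P ∪ Q)ᶜ`:
  `bd P + bd Q = bd A + bd B + 2 cut I C ≥ 6`, but `bd P + bd Q = 4`.
* `minSide_dg`: for `v ∈ Q` let `Q' = Q.erase v`; `bd Q + 2 dg Q' v = bd Q' + 3` (`bd_insert`), and
  `bd Q' ≥ 2` (`Q'` is nonempty as `Q = {v}` would have `bd = 3`), so `dg Q' v ≥ 2`
  (`dg Q v = dg Q' v`).
* `minSide_cases`: `|Q|` is even (`bd_parity`), not `0`; `|Q| = 2` would give `cut Q Q = 4`, but two
  vertices have `cut ≤ 2`.  `|Q| = 4`: `cut Q Q = 10 = Σ dg Q v`, all `dg ≤ 3`; by `minSide_dg`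
  all are `≥ 2`, so the degrees are `3,3,2,2`: `k,l` of degree `3` are adjacent to everything, the
  other two `a,d` have degree `2`, so they are adjacent to exactly `k,l`.
  `|Q| ≥ 6`: let `T = Q \ inner Q`; every `t ∈ T` has `dg Qᶜ t ≥ 1`, and `= 1` by `minSide_dg`; the sum over
  `Q` of `dg Qᶜ` is `bd Q = 2`, so `|T| = 2`, and `Σ_{t ∈ T} dg Q t = 4`.
  `cut (inner) (inner) ≥ cut Q Q - 2 Σ_{t∈T} dg Q t = 3|Q| - 2 - 8 ≥ 2 (|Q| - 2)`.
* `dia_minSide`: `cut = 10`, so `bd = 12 - 10 = 2`; nonempty proper subsets `P` have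
  `|P| ∈ {1,2,3}`, `|P|` odd gives `bd` odd, `|P| = 2` gives `bd = 6 - cut ≥ 4`.
-/

namespace SL

open Classical Finset

noncomputable section

variable {V : Type}

theorem side_bd_empty [Fintype V] (G : SimpleGraph V) : bd G ∅ = 0 := by simp [bd, cut]

theorem side_mem_inner {G : SimpleGraph V} {Q : Finset V} {v : V} :
    v ∈ inner G Q ↔ v ∈ Q ∧ ∀ b, G.Adj v b → b ∈ Q := by
  unfold inner
  exact Finset.mem_filter

theorem side_inner_subset (G : SimpleGraph V) (Q : Finset V) : inner G Q ⊆ Q :=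
  fun _ hv => (side_mem_inner.1 hv).1

theorem side_dg_erase (G : SimpleGraph V) (Q : Finset V) (v : V) :
    dg G Q v = dg G (Q.erase v) v := by
  unfold dg
  congr 1
  ext b
  simp only [mem_filter, mem_erase]
  constructor
  · rintro ⟨h1, h2⟩
    exact ⟨⟨h2.ne', h1⟩, h2⟩
  · rintro ⟨⟨_, h1⟩, h2⟩
    exact ⟨h1, h2⟩

theorem side_dg_lt_card (G : SimpleGraph V) {Q : Finset V} {v : V} (hv : v ∈ Q) :
    dg G Q v + 1 ≤ Q.card := by
  rw [side_dg_erase]
  have h1 : dg G (Q.erase v) v ≤ (Q.erase v).card := Finset.card_filter_le _ _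
  rw [Finset.card_erase_of_mem hv] at h1
  have h2 : 0 < Q.card := Finset.card_pos.2 ⟨v, hv⟩
  omega

theorem exists_minSide [Fintype V] {G : SimpleGraph V} {P : Finset V} (h1 : P.Nonempty)
    (h2 : P ≠ univ) (h3 : bd G P = 2) : ∃ Q, Q ⊆ P ∧ MinSide G Q := by
  have hne : (P.powerset.filter (fun Q => Q.Nonempty ∧ bd G Q = 2)).Nonempty :=
    ⟨P, by simp [h1, h3]⟩
  obtain ⟨Q, hQ, hmin⟩ := Finset.exists_min_image _ Finset.card hne
  rw [mem_filter, mem_powerset] at hQ
  refine ⟨Q, hQ.1, hQ.2.1, ?_, hQ.2.2, ?_⟩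
  · rintro rfl
    have := hQ.2.2
    rw [bd_univ] at this
    omega
  · intro R hR hRne hR2
    have h4 := hmin R (by
      rw [mem_filter, mem_powerset]
      exact ⟨hR.1.trans hQ.1, hRne, hR2⟩)
    have h5 := Finset.card_lt_card hR
    omega

theorem minSide_disjoint [Fintype V] {G : SimpleGraph V} (h2 : TwoEC G)
    {P Q : Finset V} (hP : MinSide G P) (hQ : MinSide G Q) (hne : P ≠ Q) : Disjoint P Q := by
  by_contra hI
  rw [Finset.not_disjoint_iff] at hI
  obtain ⟨i, hiP, hiQ⟩ := hI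
  have key : ∀ P Q : Finset V, MinSide G P → MinSide G Q → P ≠ Q → i ∈ P → i ∈ Q →
      3 ≤ bd G (P \ Q) := by
    intro P Q hP hQ hne hiP hiQ
    have hAne : (P \ Q).Nonempty := by
      rw [Finset.sdiff_nonempty]
      intro hsub
      exact hQ.2.2.2 P (Finset.ssubset_iff_subset_ne.2 ⟨hsub, hne⟩) hP.1 hP.2.2.1
    have hAss : P \ Q ⊂ P := by
      refine Finset.ssubset_iff_subset_ne.2 ⟨Finset.sdiff_subset, ?_⟩
      intro h
      rw [← h] at hiP
      exact (Finset.mem_sdiff.1 hiP).2 hiQ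
    have hAu : P \ Q ≠ univ := by
      intro h
      have : i ∈ P \ Q := by rw [h]; exact mem_univ i
      exact (Finset.mem_sdiff.1 this).2 hiQ
    have h3 := h2 _ hAne hAu
    have h4 := hP.2.2.2 _ hAss hAne
    omega
  have hA := key P Q hP hQ hne hiP hiQ
  have hB := key Q P hQ hP hne.symm hiQ hiP
  have e1 : (P \ Q) ∪ (P ∩ Q) = P := Finset.sdiff_union_inter P Q
  have e2 : (Q \ P) ∪ (P ∩ Q) = Q := by rw [Finset.inter_comm]; exact Finset.sdiff_union_inter Q P
  have d1 : Disjoint (P \ Q) (P ∩ Q) := by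
    rw [Finset.disjoint_left]
    intro v hv hv'
    exact (Finset.mem_sdiff.1 hv).2 (Finset.mem_inter.1 hv').2
  have d2 : Disjoint (Q \ P) (P ∩ Q) := by
    rw [Finset.disjoint_left]
    intro v hv hv'
    exact (Finset.mem_sdiff.1 hv).2 (Finset.mem_inter.1 hv').1
  have d3 : Disjoint (P \ Q) (Q \ P) := by
    rw [Finset.disjoint_left]
    intro v hv hv'
    exact (Finset.mem_sdiff.1 hv).2 (Finset.mem_sdiff.1 hv').1
  have b1 := bd_union G d1
  have b2 := bd_union G d2
  rw [e1] at b1
  rw [e2] at b2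
  have b3 : cut G (P ∩ Q) ((P \ Q) ∪ (Q \ P)) ≤ bd G (P ∩ Q) := by
    unfold bd
    apply cut_mono G (Finset.Subset.refl _)
    intro v hv
    rw [Finset.mem_compl, Finset.mem_inter]
    rcases Finset.mem_union.1 hv with h | h
    · exact fun h' => (Finset.mem_sdiff.1 h).2 h'.2
    · exact fun h' => (Finset.mem_sdiff.1 h).2 h'.1
  rw [cut_union_right G d3] at b3
  have c1 := cut_comm G (P ∩ Q) (P \ Q)
  have c2 := cut_comm G (P ∩ Q) (Q \ P)
  have p1 := hP.2.2.1
  have p2 := hQ.2.2.1
  omega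

theorem minSide_dg [Fintype V] {G : SimpleGraph V} (hG : Cub G) (h2 : TwoEC G)
    {Q : Finset V} (hQ : MinSide G Q) {v : V} (hv : v ∈ Q) : 2 ≤ dg G Q v := by
  have h1 := bd_insert G hG (Finset.notMem_erase v Q)
  rw [Finset.insert_erase hv, hQ.2.2.1] at h1
  rw [side_dg_erase]
  rcases Finset.eq_empty_or_nonempty (Q.erase v) with h | h
  · rw [h, side_bd_empty, dg_empty] at h1
    omega
  · have h3 : Q.erase v ≠ univ := by
      intro h'
      have : v ∈ Q.erase v := by rw [h']; exact mem_univ v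
      exact Finset.notMem_erase v Q this
    have h4 := h2 _ h h3
    omega

theorem side_full (G : SimpleGraph V) {Q : Finset V} {v : V} (hv : v ∈ Q)
    (h : Q.card ≤ dg G Q v + 1) : ∀ b ∈ Q, b ≠ v → G.Adj v b := by
  intro b hb hbv
  have h1 : Q.filter (fun b => G.Adj v b) ⊆ Q.erase v := by
    intro c hc
    rw [mem_filter] at hc
    exact Finset.mem_erase.2 ⟨hc.2.ne', hc.1⟩
  have h2 : (Q.erase v).card ≤ (Q.filter (fun b => G.Adj v b)).card := by
    rw [Finset.card_erase_of_mem hv]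
    unfold dg at h
    omega
  have h3 := Finset.eq_of_subset_of_card_le h1 h2
  have h4 : b ∈ Q.erase v := Finset.mem_erase.2 ⟨hbv, hb⟩
  rw [← h3, mem_filter] at h4
  exact h4.2

theorem minSide_cases [Fintype V] {G : SimpleGraph V} (hG : Cub G) (h2 : TwoEC G)
    {Q : Finset V} (hQ : MinSide G Q) :
    (∃ a k l d, Dia G a k l d ∧ Q = {a, k, l, d}) ∨
    (6 ≤ Q.card ∧ (inner G Q).Nonempty ∧
      2 * (inner G Q).card ≤ cut G (inner G Q) (inner G Q)) := by
  have hbd := hQ.2.2.1
  have hdg : ∀ v ∈ Q, 2 ≤ dg G Q v := fun v hv => minSide_dg hG h2 hQ hv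
  have hcut := cut_add_bd G hG Q
  rw [hbd] at hcut
  obtain ⟨v0, hv0⟩ := hQ.1
  have h3 : 3 ≤ Q.card := by
    have h4 := hdg v0 hv0
    have h5 := side_dg_lt_card G hv0
    omega
  have hpar := bd_parity G hG Q
  rw [hbd] at hpar
  obtain ⟨r, hr⟩ := hpar
  have hQ4 : Q.card = 4 ∨ 6 ≤ Q.card := by omega
  rcases hQ4 with h4 | h6
  · left
    have hle : ∀ v ∈ Q, dg G Q v ≤ 3 := fun v _ => dg_le_three G hG Q v
    set T := Q.filter (fun v => dg G Q v = 3) with hT
    have hsum : cut G Q Q = 2 * Q.card + T.card := by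
      unfold cut
      rw [hT, Finset.card_filter]
      have : ∀ v ∈ Q, dg G Q v = 2 + (if dg G Q v = 3 then 1 else 0) := by
        intro v hv
        have a1 := hdg v hv
        have a2 := hle v hv
        split_ifs <;> omega
      rw [Finset.sum_congr rfl this, Finset.sum_add_distrib]
      simp [mul_comm]
    have hT2 : T.card = 2 := by omega
    obtain ⟨k, l, hkl, hTkl⟩ := Finset.card_eq_two.1 hT2
    have hTQ : T ⊆ Q := Finset.filter_subset _ _
    have hS2 : (Q \ T).card = 2 := by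
      rw [Finset.card_sdiff_of_subset hTQ]
      omega
    obtain ⟨a, d, had, hSad⟩ := Finset.card_eq_two.1 hS2
    have hk : k ∈ T := by rw [hTkl]; simp
    have hl : l ∈ T := by rw [hTkl]; simp
    have ha : a ∈ Q \ T := by rw [hSad]; simp
    have hd : d ∈ Q \ T := by rw [hSad]; simp
    have hkQ := (mem_filter.1 hk)
    have hlQ := (mem_filter.1 hl)
    have haQ := Finset.mem_sdiff.1 ha
    have hdQ := Finset.mem_sdiff.1 hd
    have hak : a ≠ k := fun h => haQ.2 (h ▸ hk)
    have hal : a ≠ l := fun h => haQ.2 (h ▸ hl)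
    have hdk : d ≠ k := fun h => hdQ.2 (h ▸ hk)
    have hdl : d ≠ l := fun h => hdQ.2 (h ▸ hl)
    have hQeq : Q = {a, k, l, d} := by
      have : Q = T ∪ (Q \ T) := by rw [Finset.union_sdiff_of_subset hTQ]
      rw [hSad, hTkl] at this
      ext v
      constructor
      · intro hv
        rcases Finset.mem_union.1 (this ▸ hv) with h | h
        · rcases Finset.mem_insert.1 h with h | h
          · subst h; simp
          · rw [Finset.mem_singleton] at h; subst h; simp
        · rcases Finset.mem_insert.1 h with h | h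
          · subst h; simp
          · rw [Finset.mem_singleton] at h; subst h; simp
      · intro hv
        simp only [Finset.mem_insert, Finset.mem_singleton] at hv
        rcases hv with rfl | rfl | rfl | rfl
        · exact haQ.1
        · exact hkQ.1
        · exact hlQ.1
        · exact hdQ.1
    have fk := side_full G hkQ.1 (by omega)
    have fl := side_full G hlQ.1 (by omega)
    refine ⟨a, k, l, d, ⟨had, hkl, (fk a haQ.1 hak).symm, (fl a haQ.1 hal).symm,
      (fk d hdQ.1 hdk).symm, (fl d hdQ.1 hdl).symm, fk l hlQ.1 hkl.symm, ?_⟩, hQeq⟩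
    intro hadj
    apply haQ.2
    rw [hT, mem_filter]
    refine ⟨haQ.1, ?_⟩
    have h7 : ({k, l, d} : Finset V) ⊆ Q.filter (fun b => G.Adj a b) := by
      intro b hb
      simp only [Finset.mem_insert, Finset.mem_singleton] at hb
      rw [mem_filter]
      rcases hb with rfl | rfl | rfl
      · exact ⟨hkQ.1, (fk a haQ.1 hak).symm⟩
      · exact ⟨hlQ.1, (fl a haQ.1 hal).symm⟩
      · exact ⟨hdQ.1, hadj⟩
    have h8 := Finset.card_le_card h7
    have h9 : ({k, l, d} : Finset V).card = 3 := by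
      rw [Finset.card_eq_three]
      exact ⟨k, l, d, hkl, hdk.symm, hdl.symm, rfl⟩
    rw [h9] at h8
    have h10 := hle a haQ.1
    have h11 : dg G Q a = (Q.filter (fun b => G.Adj a b)).card := rfl
    omega
  · right
    set J := inner G Q with hJ
    have hJQ : J ⊆ Q := side_inner_subset G Q
    have hJ0 : ∀ v ∈ J, dg G Qᶜ v = 0 := by
      intro v hv
      rw [hJ, side_mem_inner] at hv
      unfold dg
      rw [Finset.card_eq_zero, Finset.filter_eq_empty_iff]
      intro b hb hadj
      exact (Finset.mem_compl.1 hb) (hv.2 b hadj)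
    have hT1 : ∀ v ∈ Q \ J, dg G Qᶜ v = 1 ∧ dg G Q v = 2 := by
      intro v hv
      rw [Finset.mem_sdiff] at hv
      have h4 : 1 ≤ dg G Qᶜ v := by
        by_contra hc
        apply hv.2
        rw [hJ, side_mem_inner]
        refine ⟨hv.1, fun b hb => ?_⟩
        by_contra hbQ
        apply hc
        unfold dg
        exact Finset.card_pos.2 ⟨b, mem_filter.2 ⟨Finset.mem_compl.2 hbQ, hb⟩⟩
      have h5 := hdg v hv.1
      have h6 := dg_add_dg_compl G hG Q v
      omega
    have hdisj : Disjoint J (Q \ J) := Finset.disjoint_sdiff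
    have hun : J ∪ (Q \ J) = Q := Finset.union_sdiff_of_subset hJQ
    have hbd2 : bd G Q = (Q \ J).card := by
      unfold bd
      conv_lhs => rw [← hun]
      rw [cut_union_left G hdisj, hun]
      have e1 : cut G J Qᶜ = 0 := by
        unfold cut
        exact Finset.sum_eq_zero hJ0
      have e2 : cut G (Q \ J) Qᶜ = (Q \ J).card := by
        unfold cut
        rw [Finset.sum_congr rfl (fun v hv => (hT1 v hv).1)]
        simp
      omega
    have hcard : J.card + (Q \ J).card = Q.card := by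
      rw [← Finset.card_union_of_disjoint hdisj, hun]
    have e3 : cut G (Q \ J) Q = 4 := by
      unfold cut
      rw [Finset.sum_congr rfl (fun v hv => (hT1 v hv).2), Finset.sum_const, smul_eq_mul]
      omega
    have e4 : cut G Q Q = cut G J Q + cut G (Q \ J) Q := by
      conv_lhs => rw [← hun]
      rw [cut_union_left G hdisj, hun]
    have e5 : cut G J Q = cut G J J + cut G J (Q \ J) := by
      conv_lhs => rw [← hun]
      rw [cut_union_right G hdisj]
    have e6 : cut G J (Q \ J) ≤ cut G Q (Q \ J) := cut_mono G hJQ (Finset.Subset.refl _)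
    have e7 := cut_comm G Q (Q \ J)
    refine ⟨h6, ?_, ?_⟩
    · rw [← Finset.card_pos]
      omega
    · omega

theorem dia_symm {G : SimpleGraph V} {a k l d : V} (h : Dia G a k l d) : Dia G d k l a :=
  ⟨h.1.symm, h.2.1, h.2.2.2.2.1, h.2.2.2.2.2.1, h.2.2.1, h.2.2.2.1, h.2.2.2.2.2.2.1,
    fun h' => h.2.2.2.2.2.2.2 h'.symm⟩

theorem dia_swap {G : SimpleGraph V} {a k l d : V} (h : Dia G a k l d) : Dia G a l k d :=
  ⟨h.1, h.2.1.symm, h.2.2.2.1, h.2.2.1, h.2.2.2.2.2.1, h.2.2.2.2.1, h.2.2.2.2.2.2.1.symm,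
    h.2.2.2.2.2.2.2⟩

/-- the neighbours of a middle vertex -/
theorem dia_nbrs [Fintype V] {G : SimpleGraph V} (hG : Cub G) {a k l d : V}
    (h : Dia G a k l d) : ∀ b, G.Adj k b ↔ b = a ∨ b = l ∨ b = d := by
  obtain ⟨had, hkl, h1, h2, h3, h4, h5, h6⟩ := h
  have hsub : ({a, l, d} : Finset V) ⊆ univ.filter (fun b => G.Adj k b) := by
    intro b hb
    simp only [Finset.mem_insert, Finset.mem_singleton] at hb
    rw [mem_filter]
    rcases hb with rfl | rfl | rfl
    · exact ⟨mem_univ _, h1.symm⟩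
    · exact ⟨mem_univ _, h5⟩
    · exact ⟨mem_univ _, h3.symm⟩
  have hc : ({a, l, d} : Finset V).card = 3 := by
    rw [Finset.card_eq_three]
    exact ⟨a, l, d, h2.ne, had, h4.ne', rfl⟩
  have heq := Finset.eq_of_subset_of_card_le hsub (by
    rw [hc]
    exact le_of_eq (hG k))
  intro b
  have : b ∈ ({a, l, d} : Finset V) ↔ b ∈ univ.filter (fun b => G.Adj k b) := by rw [heq]
  simpa using this.symm

theorem dia_minSide [Fintype V] {G : SimpleGraph V} (hG : Cub G) {a k l d : V}
    (h : Dia G a k l d) : MinSide G ({a, k, l, d} : Finset V) := by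
  have h' := h
  obtain ⟨had, hkl, h1, h2, h3, h4, h5, h6⟩ := h'
  have nak : a ≠ k := h1.ne
  have nal : a ≠ l := h2.ne
  have ndk : d ≠ k := h3.ne
  have ndl : d ≠ l := h4.ne
  have m1 : a ∉ ({k, l, d} : Finset V) := by simp [nak, nal, had]
  have m2 : k ∉ ({l, d} : Finset V) := by simp [hkl, ndk.symm]
  have m3 : l ∉ ({d} : Finset V) := by simp [ndl.symm]
  have hdgv : ∀ v, dg G ({a, k, l, d} : Finset V) v =
      (((if G.Adj v d then 1 else 0) + (if G.Adj v l then 1 else 0)) +
        (if G.Adj v k then 1 else 0)) + (if G.Adj v a then 1 else 0) := by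
    intro v
    rw [dg_insert G m1, dg_insert G m2, dg_insert G m3, dg_singleton]
  have hcard : ({a, k, l, d} : Finset V).card = 4 := by
    rw [Finset.card_insert_of_notMem m1, Finset.card_insert_of_notMem m2,
      Finset.card_insert_of_notMem m3, Finset.card_singleton]
  have hcut : cut G ({a, k, l, d} : Finset V) {a, k, l, d} = 10 := by
    unfold cut
    rw [Finset.sum_insert m1, Finset.sum_insert m2, Finset.sum_insert m3, Finset.sum_singleton,
      hdgv, hdgv, hdgv, hdgv]
    simp [h1, h2, h3, h4, h5, h6, h1.symm, h2.symm, h3.symm, h4.symm, h5.symm, show ¬ G.Adj d a from fun x => h6 x.symm]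
  have hbd := cut_add_bd G hG ({a, k, l, d} : Finset V)
  rw [hcut, hcard] at hbd
  have hbd2 : bd G ({a, k, l, d} : Finset V) = 2 := by omega
  refine ⟨⟨a, by simp⟩, ?_, hbd2, ?_⟩
  · intro hu
    rw [hu, bd_univ] at hbd2
    omega
  · intro P hP hPne hP2
    have c1 := Finset.card_lt_card hP
    rw [hcard] at c1
    have c2 := Finset.card_pos.2 hPne
    have c3 := bd_parity G hG P
    rw [hP2] at c3
    obtain ⟨r, hr⟩ := c3
    have c4 : P.card = 2 := by omega
    have c5 := cut_add_bd G hG P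
    rw [hP2, c4] at c5
    have c6 : cut G P P ≤ P.card * 1 := by
      unfold cut
      have := Finset.sum_le_card_nsmul P (fun v => dg G P v) 1 (fun v hv => by
        have := side_dg_lt_card G hv
        show dg G P v ≤ 1
        omega)
      simpa using this
    omega

end

end SL
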