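import Pool.Agent.H53.SL.Geo

/-!
# Module SUB: rooted lemma, case 1 (150 lines)

The root `w` has the two neighbours `y1, y2` in `A`, not adjacent.  `f` draws `A.erase w` with the
additional edge `y1 y2`.  Put `w` on a generic point `f y1 + t • (f y2 - f y1)`, `0 < t < 1`, of this
edge: `f' = Function.update f w (f y1 + t • (f y2 - f y1))`.  Let `D = f y2 - f y1 ≠ 0`,
`τ = slp (f y1) (f y2) ∈ S`.  The following hold for all but finitely many `t` (in `(0,1)`):
(a) for every edge `ab` of `G` inside `A.erase w`, the point is not on `openSegment (f a) (f b)`: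
if `cr D (f b - f a) ≠ 0` then only one `t` gives a point of the line `ab`; if `cr D (f b - f a) = 0`
and the line `ab` is the line `y1 y2` (otherwise no `t`): then no point of the open segment `y1 y2`
is on `openSegment (f a) (f b)`: parametrise `f a = f y1 + α • D`, `f b = f y1 + β • D`; as
`f a, f b ∉ openSegment (f y1) (f y2)` unless they are `f y1` or `f y2`, and conversely, if the
two open segments met, then one of the four end points would be in the other open segment, or
`{a,b} = {y1,y2}` (impossible: `y1`, `y2` not adjacent in `G`).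
(b) for every `σ ∈ T`, `σ ≠ τ`, and every `v ∈ A.erase w`: `cr (f v - point) (dir σ) ≠ 0` (`cr D (dir σ) ≠ 0`,
so only one `t` is bad); so the whole line of slope `σ` through the new vertex is free.
Choose `t` avoiding the finite set of bad values (`Set.Infinite`/`Set.Finite`: the interval `(0,1)`
is infinite).
`DrOn`: edges `w y1`, `w y2` have slope `τ` and no vertex in the interior since there is none in
`openSegment (f y1) (f y2)` (an edge of `G'`); `slp (f' w) (f' y1) = τ`.  `RayProp`: a slope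
`σ ∈ T` not used at `w` is `≠ τ`, use (b).
-/

namespace SL

open Classical Finset

noncomputable section

variable {V : Type}

theorem sub_smul_inj {D : ℝ × ℝ} (hD : D ≠ 0) {a b : ℝ} (h : a • D = b • D) : a = b := by
  have h1 : (a - b) • D = 0 := by rw [sub_smul, h, sub_self]
  rcases smul_eq_zero.1 h1 with h2 | h2
  · linarith
  · exact absurd h2 hD

/-- membership in an open segment on a parametrised line -/
theorem sub_mem_line {p D : ℝ × ℝ} (hD : D ≠ 0) {a b t : ℝ} :
    p + t • D ∈ openSegment ℝ (p + a • D) (p + b • D) ↔ (a < t ∧ t < b) ∨ (b < t ∧ t < a) ∨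
      (a = t ∧ b = t) := by
  rw [mem_openSegment_iff']
  constructor
  · rintro ⟨s, h0, h1, hs⟩
    have h2 : t = a + s * (b - a) := by
      apply sub_smul_inj hD
      have h3 : t • D = a • D + s • (b • D - a • D) := by
        have h4 : p + t • D = p + (a • D + s • (b • D - a • D)) := by
          rw [hs]; abel_nf
        exact add_left_cancel h4
      rw [h3, ← sub_smul, smul_smul, ← add_smul]
    rcases lt_trichotomy a b with h | h | h
    · left
      constructor <;> nlinarith
    · right; right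
      subst h
      constructor <;> linarith
    · right; left
      constructor <;> nlinarith
  · rintro (⟨h1, h2⟩ | ⟨h1, h2⟩ | ⟨h1, h2⟩)
    · refine ⟨(t - a) / (b - a), div_pos (by linarith) (by linarith),
        (div_lt_one (by linarith)).2 (by linarith), ?_⟩
      rw [add_sub_add_left_eq_sub, ← sub_smul, smul_smul, div_mul_cancel₀ _ (by linarith), add_assoc,
        ← add_smul]
      congr 2
      ring
    · refine ⟨(a - t) / (a - b), div_pos (by linarith) (by linarith),
        (div_lt_one (by linarith)).2 (by linarith), ?_⟩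
      rw [add_sub_add_left_eq_sub, ← sub_smul, smul_smul, add_assoc, ← add_smul]
      congr 2
      have h3 : a - b ≠ 0 := by linarith
      have h4 : (a - t) / (a - b) * (b - a) = -(a - t) := by
        rw [div_mul_eq_mul_div, div_eq_iff h3]; ring
      rw [h4]
      ring
    · subst h1
      subst h2
      refine ⟨1 / 2, by norm_num, by norm_num, ?_⟩
      rw [sub_self, smul_zero, add_zero]

/-- the parallel case of (a) -/
theorem sub_par {S : Set (Option ℝ)} {B : Finset V} {G' : SimpleGraph V} {y1 y2 : V}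
    (hy1 : y1 ∈ B) (hy2 : y2 ∈ B) (hy : y1 ≠ y2) (hadj : G'.Adj y1 y2) {f : V → ℝ × ℝ}
    (hf : DrOn S B G' f) {a b : V} (ha : a ∈ B) (hb : b ∈ B) (hab : G'.Adj a b)
    (h1 : ¬ (a = y1 ∧ b = y2)) (h2 : ¬ (a = y2 ∧ b = y1)) {t : ℝ} (ht0 : 0 < t) (ht1 : t < 1)
    (hcr : cr (f y2 - f y1) (f b - f a) = 0) :
    f y1 + t • (f y2 - f y1) ∉ openSegment ℝ (f a) (f b) := by
  intro hm
  have hne : f y1 ≠ f y2 := fun h => hy (hf.1 hy1 hy2 h)
  have hD : f y2 - f y1 ≠ 0 := sub_ne_zero.2 hne.symm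
  set D := f y2 - f y1 with hDd
  have hcr' : cr (f b - f a) D = 0 := by rw [cr_swap, hcr, neg_zero]
  have h3 : cr (f y1 + t • D - f a) D = 0 := cr_of_mem_openSegment hm hcr'
  have h4 : cr (f a - f y1) D = 0 := by
    have h5 : f a - f y1 = t • D - (f y1 + t • D - f a) := by abel
    rw [h5, cr_sub_left, h3, cr_smul_left, cr_self]
    ring
  obtain ⟨α, hα⟩ := exists_smul_of_cr hD h4
  obtain ⟨γ, hγ⟩ := exists_smul_of_cr hD hcr'
  have fa : f a = f y1 + α • D := by rw [← hα]; abel
  have fb : f b = f y1 + (α + γ) • D := by rw [add_smul, ← hγ, ← hα]; abel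
  set β := α + γ with hβ
  have fy1 : f y1 = f y1 + (0 : ℝ) • D := by rw [zero_smul, add_zero]
  have fy2 : f y2 = f y1 + (1 : ℝ) • D := by rw [one_smul, hDd]; abel
  have hA : a = y1 ∨ a = y2 ∨ ¬ (0 < α ∧ α < 1) := by
    by_cases e1 : a = y1
    · exact Or.inl e1
    by_cases e2 : a = y2
    · exact Or.inr (Or.inl e2)
    · right; right
      intro h
      have h6 := (hf.2 y1 hy1 y2 hy2 hadj).2 a ha e1 e2
      apply h6
      have h7 := (sub_mem_line (p := f y1) hD (a := 0) (b := 1) (t := α)).2 (Or.inl h)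
      rw [← fy1, ← fy2, ← fa] at h7
      exact h7
  have hB : b = y1 ∨ b = y2 ∨ ¬ (0 < β ∧ β < 1) := by
    by_cases e1 : b = y1
    · exact Or.inl e1
    by_cases e2 : b = y2
    · exact Or.inr (Or.inl e2)
    · right; right
      intro h
      have h6 := (hf.2 y1 hy1 y2 hy2 hadj).2 b hb e1 e2
      apply h6
      have h7 := (sub_mem_line (p := f y1) hD (a := 0) (b := 1) (t := β)).2 (Or.inl h)
      rw [← fy1, ← fy2, ← fb] at h7
      exact h7
  have vala1 : a = y1 → α = 0 := by
    intro h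
    apply sub_smul_inj hD
    have : f y1 + α • D = f y1 + (0 : ℝ) • D := by rw [← fa, ← fy1, h]
    exact add_left_cancel this
  have vala2 : a = y2 → α = 1 := by
    intro h
    apply sub_smul_inj hD
    have : f y1 + α • D = f y1 + (1 : ℝ) • D := by rw [← fa, ← fy2, h]
    exact add_left_cancel this
  have valb1 : b = y1 → β = 0 := by
    intro h
    apply sub_smul_inj hD
    have : f y1 + β • D = f y1 + (0 : ℝ) • D := by rw [← fb, ← fy1, h]
    exact add_left_cancel this
  have valb2 : b = y2 → β = 1 := by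
    intro h
    apply sub_smul_inj hD
    have : f y1 + β • D = f y1 + (1 : ℝ) • D := by rw [← fb, ← fy2, h]
    exact add_left_cancel this
  have nA : ¬ (0 < α ∧ α < 1) := by
    rcases hA with h | h | h
    · rw [vala1 h]; rintro ⟨h, -⟩; linarith
    · rw [vala2 h]; rintro ⟨-, h⟩; linarith
    · exact h
  have nB : ¬ (0 < β ∧ β < 1) := by
    rcases hB with h | h | h
    · rw [valb1 h]; rintro ⟨h, -⟩; linarith
    · rw [valb2 h]; rintro ⟨-, h⟩; linarith
    · exact h
  have n0 : ¬ (α < 0 ∧ 0 < β) ∧ ¬ (β < 0 ∧ 0 < α) := by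
    by_cases e1 : y1 = a
    · rw [vala1 e1.symm]
      exact ⟨fun h => lt_irrefl _ h.1, fun h => lt_irrefl _ h.2⟩
    by_cases e2 : y1 = b
    · rw [valb1 e2.symm]
      exact ⟨fun h => lt_irrefl _ h.2, fun h => lt_irrefl _ h.1⟩
    have h6 := (hf.2 a ha b hb hab).2 y1 hy1 e1 e2
    constructor
    · intro h
      apply h6
      have h7 := (sub_mem_line (p := f y1) hD (a := α) (b := β) (t := 0)).2 (Or.inl h)
      rw [← fy1, ← fa, ← fb] at h7
      exact h7
    · intro h
      apply h6
      have h7 := (sub_mem_line (p := f y1) hD (a := α) (b := β) (t := 0)).2 (Or.inr (Or.inl h))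
      rw [← fy1, ← fa, ← fb] at h7
      exact h7
  have n1 : ¬ (α < 1 ∧ 1 < β) ∧ ¬ (β < 1 ∧ 1 < α) := by
    by_cases e1 : y2 = a
    · rw [vala2 e1.symm]
      exact ⟨fun h => lt_irrefl _ h.1, fun h => lt_irrefl _ h.2⟩
    by_cases e2 : y2 = b
    · rw [valb2 e2.symm]
      exact ⟨fun h => lt_irrefl _ h.2, fun h => lt_irrefl _ h.1⟩
    have h6 := (hf.2 a ha b hb hab).2 y2 hy2 e1 e2
    constructor
    · intro h
      apply h6
      have h7 := (sub_mem_line (p := f y1) hD (a := α) (b := β) (t := 1)).2 (Or.inl h)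
      rw [← fy2, ← fa, ← fb] at h7
      exact h7
    · intro h
      apply h6
      have h7 := (sub_mem_line (p := f y1) hD (a := α) (b := β) (t := 1)).2 (Or.inr (Or.inl h))
      rw [← fy2, ← fa, ← fb] at h7
      exact h7
  have eqa : ∀ {q : V}, q ∈ B → f a = f q → a = q := fun hq h => hf.1 ha hq h
  have eqb : ∀ {q : V}, q ∈ B → f b = f q → b = q := fun hq h => hf.1 hb hq h
  rw [fa, fb, sub_mem_line hD] at hm
  rcases hm with ⟨m1, m2⟩ | ⟨m1, m2⟩ | ⟨m1, m2⟩
  · -- α < t < β
    have a0 : α ≤ 0 := by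
      by_contra h
      push Not at h
      exact nA ⟨h, by linarith⟩
    have b1 : 1 ≤ β := by
      by_contra h
      push Not at h
      exact nB ⟨by linarith, h⟩
    have a00 : α = 0 := by
      rcases a0.lt_or_eq with h | h
      · exact absurd ⟨h, by linarith⟩ n0.1
      · exact h
    have b11 : β = 1 := by
      rcases b1.lt_or_eq with h | h
      · exact absurd ⟨by linarith, h⟩ n1.1
      · exact h.symm
    apply h1
    refine ⟨eqa hy1 ?_, eqb hy2 ?_⟩
    · rw [fa, a00]; exact fy1.symm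
    · rw [fb, b11]; exact fy2.symm
  · have b0 : β ≤ 0 := by
      by_contra h
      push Not at h
      exact nB ⟨h, by linarith⟩
    have a1 : 1 ≤ α := by
      by_contra h
      push Not at h
      exact nA ⟨by linarith, h⟩
    have b00 : β = 0 := by
      rcases b0.lt_or_eq with h | h
      · exact absurd ⟨h, by linarith⟩ n0.2
      · exact h
    have a11 : α = 1 := by
      rcases a1.lt_or_eq with h | h
      · exact absurd ⟨by linarith, h⟩ n1.2
      · exact h.symm
    apply h2
    refine ⟨eqa hy2 ?_, eqb hy1 ?_⟩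
    · rw [fa, a11]; exact fy2.symm
    · rw [fb, b00]; exact fy1.symm
  · apply nA
    rw [m1]
    exact ⟨ht0, ht1⟩

theorem root_sub {S : Set (Option ℝ)} {T : Finset (Option ℝ)} {A : Finset V}
    {G G' : SimpleGraph V} {w y1 y2 : V} (hwA : w ∈ A) (hy1A : y1 ∈ A) (hy2A : y2 ∈ A)
    (hw1 : w ≠ y1) (hw2 : w ≠ y2) (hy : y1 ≠ y2) (hnadj : ¬ G.Adj y1 y2)
    (hw : ∀ b ∈ A, G.Adj w b ↔ b = y1 ∨ b = y2)
    (hG' : ∀ a ∈ A.erase w, ∀ b ∈ A.erase w,
      G'.Adj a b ↔ G.Adj a b ∨ (a = y1 ∧ b = y2) ∨ (a = y2 ∧ b = y1))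
    {f : V → ℝ × ℝ} (hf : DrOn S (A.erase w) G' f) :
    ∃ f' : V → ℝ × ℝ, DrOn S A G f' ∧ RayProp T A G f' w := by
  have m1 : y1 ∈ A.erase w := Finset.mem_erase.2 ⟨hw1.symm, hy1A⟩
  have m2 : y2 ∈ A.erase w := Finset.mem_erase.2 ⟨hw2.symm, hy2A⟩
  have hadj : G'.Adj y1 y2 := (hG' y1 m1 y2 m2).2 (Or.inr (Or.inl ⟨rfl, rfl⟩))
  have hne : f y1 ≠ f y2 := fun h => hy (hf.1 m1 m2 h)
  have hD : f y2 - f y1 ≠ 0 := sub_ne_zero.2 hne.symm
  obtain ⟨hτS, hempty⟩ := hf.2 y1 m1 y2 m2 hadj
  -- bad values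
  obtain ⟨bad, hbad⟩ : ∃ bad : Finset ℝ,
      (∀ a ∈ A, ∀ b ∈ A, - cr (f y1 - f a) (f b - f a) / cr (f y2 - f y1) (f b - f a) ∈ bad) ∧
      (∀ v ∈ A, ∀ σ ∈ T, cr (f v - f y1) (dir σ) / cr (f y2 - f y1) (dir σ) ∈ bad) := by
    refine ⟨((A ×ˢ A).image (fun q => - cr (f y1 - f q.1) (f q.2 - f q.1) /
        cr (f y2 - f y1) (f q.2 - f q.1))) ∪
      ((A ×ˢ T).image (fun q => cr (f q.1 - f y1) (dir q.2) / cr (f y2 - f y1) (dir q.2))),
      ?_, ?_⟩
    · intro a ha b hb
      apply Finset.mem_union_left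
      exact Finset.mem_image.2 ⟨(a, b), Finset.mem_product.2 ⟨ha, hb⟩, rfl⟩
    · intro v hv σ hσ
      apply Finset.mem_union_right
      exact Finset.mem_image.2 ⟨(v, σ), Finset.mem_product.2 ⟨hv, hσ⟩, rfl⟩
  obtain ⟨t, ⟨ht0, ht1⟩, htb⟩ :=
    (Set.Ioo_infinite (show (0 : ℝ) < 1 by norm_num)).exists_notMem_finset bad
  set q : ℝ × ℝ := f y1 + t • (f y2 - f y1) with hq
  set F : V → ℝ × ℝ := Function.update f w q with hF
  have Fw : F w = q := Function.update_self ..
  have Fo : ∀ v, v ≠ w → F v = f v := fun v hv => Function.update_of_ne hv ..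
  have fy1 : f y1 = f y1 + (0 : ℝ) • (f y2 - f y1) := by rw [zero_smul, add_zero]
  have fy2 : f y2 = f y1 + (1 : ℝ) • (f y2 - f y1) := by rw [one_smul]; abel
  have hq1 : q ≠ f y1 := by
    intro h
    have h1 : t • (f y2 - f y1) = (0 : ℝ) • (f y2 - f y1) := by
      rw [hq] at h
      apply add_left_cancel (a := f y1)
      rw [h, zero_smul, add_zero]
    have := sub_smul_inj hD h1
    linarith
  have hq2 : q ≠ f y2 := by
    intro h
    have h1 : t • (f y2 - f y1) = (1 : ℝ) • (f y2 - f y1) := by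
      rw [hq] at h
      apply add_left_cancel (a := f y1)
      rw [h]
      exact fy2
    have := sub_smul_inj hD h1
    linarith
  have hqopen : q ∈ openSegment ℝ (f y1) (f y2) := mem_openSegment_iff'.2 ⟨t, ht0, ht1, rfl⟩
  have hqv : ∀ v ∈ A, v ≠ w → f v ≠ q := by
    intro v hv hvw h
    by_cases e1 : v = y1
    · subst e1; exact hq1 h.symm
    by_cases e2 : v = y2
    · subst e2; exact hq2 h.symm
    · exact hempty v (Finset.mem_erase.2 ⟨hvw, hv⟩) e1 e2 (h ▸ hqopen)
  set P : V → V → Prop := fun u v => slp (F u) (F v) ∈ S ∧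
    ∀ x ∈ A, x ≠ u → x ≠ v → F x ∉ openSegment ℝ (F u) (F v) with hP
  have Psymm : ∀ u v, P u v → P v u := by
    intro u v ⟨a1, a2⟩
    refine ⟨by rwa [slp_comm], fun x hx hxv hxu => ?_⟩
    rw [openSegment_symm']
    exact a2 x hx hxu hxv
  have sl1 : slp q (f y1) = slp (f y1) (f y2) := by
    apply slp_eq_of_cr hq1 hne
    have : f y1 - q = (-t) • (f y2 - f y1) := by rw [hq, neg_smul]; abel
    rw [this, cr_smul_left, cr_self, mul_zero]
  have sl2 : slp q (f y2) = slp (f y1) (f y2) := by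
    apply slp_eq_of_cr hq2 hne
    have : f y2 - q = (1 - t) • (f y2 - f y1) := by rw [hq, sub_smul, one_smul]; abel
    rw [this, cr_smul_left, cr_self, mul_zero]
  have P1 : P w y1 := by
    refine ⟨?_, fun x hx hxw hxy => ?_⟩
    · rw [Fw, Fo y1 hw1.symm, sl1]; exact hτS
    · rw [Fw, Fo y1 hw1.symm, Fo x hxw]
      intro hm
      have h3 : f x ∈ openSegment ℝ (f y1) (f y2) := by
        obtain ⟨s, s0, s1, hs⟩ := mem_openSegment_iff'.1 hm
        refine mem_openSegment_iff'.2 ⟨t * (1 - s), by nlinarith, by nlinarith, ?_⟩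
        rw [hs, hq, mul_sub, mul_one, sub_smul, mul_comm t s, mul_smul]
        have : f y1 - (f y1 + t • (f y2 - f y1)) = - (t • (f y2 - f y1)) := by abel
        rw [this, smul_neg]
        abel
      by_cases e2 : x = y2
      · subst e2
        exact not_mem_openSegment_right hne h3
      · exact hempty x (Finset.mem_erase.2 ⟨hxw, hx⟩) hxy e2 h3
  have P2 : P w y2 := by
    refine ⟨?_, fun x hx hxw hxy => ?_⟩
    · rw [Fw, Fo y2 hw2.symm, sl2]; exact hτS
    · rw [Fw, Fo y2 hw2.symm, Fo x hxw]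
      intro hm
      have h3 : f x ∈ openSegment ℝ (f y1) (f y2) := by
        obtain ⟨s, s0, s1, hs⟩ := mem_openSegment_iff'.1 hm
        refine mem_openSegment_iff'.2 ⟨t + s * (1 - t), by nlinarith, by nlinarith, ?_⟩
        have h4 : f y2 - q = (1 - t) • (f y2 - f y1) := by
          rw [hq, sub_smul, one_smul]; abel
        rw [hs, h4, hq, add_smul, mul_smul, add_assoc]
      by_cases e2 : x = y1
      · subst e2
        exact not_mem_openSegment_left hne h3
      · exact hempty x (Finset.mem_erase.2 ⟨hxw, hx⟩) e2 hxy h3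
  have Pw : ∀ v ∈ A, G.Adj w v → P w v := by
    intro v hv hwv
    rcases (hw v hv).1 hwv with rfl | rfl
    · exact P1
    · exact P2
  refine ⟨F, ⟨?_, ?_⟩, ?_⟩
  · intro u hu v hv huv
    rw [Finset.mem_coe] at hu hv
    by_cases e1 : u = w
    · by_cases e2 : v = w
      · rw [e1, e2]
      · rw [e1, Fw, Fo v e2] at huv
        exact absurd huv.symm (hqv v hv e2)
    · by_cases e2 : v = w
      · rw [e2, Fw, Fo u e1] at huv
        exact absurd huv (hqv u hu e1)
      · rw [Fo u e1, Fo v e2] at huv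
        exact hf.1 (Finset.mem_coe.2 (Finset.mem_erase.2 ⟨e1, hu⟩))
          (Finset.mem_coe.2 (Finset.mem_erase.2 ⟨e2, hv⟩)) huv
  · intro u hu v hv huv
    show P u v
    by_cases e1 : u = w
    · subst e1; exact Pw v hv huv
    by_cases e2 : v = w
    · subst e2; exact Psymm _ _ (Pw u hu huv.symm)
    have mu : u ∈ A.erase w := Finset.mem_erase.2 ⟨e1, hu⟩
    have mv : v ∈ A.erase w := Finset.mem_erase.2 ⟨e2, hv⟩
    have huv' : G'.Adj u v := (hG' u mu v mv).2 (Or.inl huv)
    obtain ⟨g1, g2⟩ := hf.2 u mu v mv huv'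
    refine ⟨by rw [Fo u e1, Fo v e2]; exact g1, fun x hx hxu hxv => ?_⟩
    rw [Fo u e1, Fo v e2]
    by_cases e3 : x = w
    · subst e3
      rw [Fw]
      by_cases hcr : cr (f y2 - f y1) (f v - f u) = 0
      · refine sub_par m1 m2 hy hadj hf mu mv huv' ?_ ?_ ht0 ht1 hcr
        · rintro ⟨rfl, rfl⟩; exact hnadj huv
        · rintro ⟨rfl, rfl⟩; exact hnadj huv.symm
      · intro hm
        have h3 := cr_of_mem_openSegment hm (d := f v - f u) (cr_self _)
        have h4 : q - f u = (f y1 - f u) + t • (f y2 - f y1) := by rw [hq]; abel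
        rw [h4, cr_add_left, cr_smul_left] at h3
        have h5 : t = - cr (f y1 - f u) (f v - f u) / cr (f y2 - f y1) (f v - f u) := by
          rw [eq_div_iff hcr]; linarith
        exact htb (h5 ▸ hbad.1 u hu v hv)
    · rw [Fo x e3]
      exact g2 x (Finset.mem_erase.2 ⟨e3, hx⟩) hxu hxv
  · intro σ hσ hno
    have h1 := hno y1 hy1A ((hw y1 hy1A).2 (Or.inl rfl))
    rw [Fw, Fo y1 hw1.symm, sl1] at h1
    have hcr : cr (f y2 - f y1) (dir σ) ≠ 0 := fun h => h1 ((slp_eq_iff hne σ).2 h)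
    refine ⟨dir σ, Or.inl rfl, fun v hv hvw s hs he => ?_⟩
    rw [Fw, Fo v hvw] at he
    have h3 : f v - f y1 = t • (f y2 - f y1) + s • dir σ := by rw [he, hq]; abel
    have h4 : cr (f v - f y1) (dir σ) = t * cr (f y2 - f y1) (dir σ) := by
      rw [h3, cr_add_left, cr_smul_left, cr_smul_left, cr_self]; ring
    have h5 : t = cr (f v - f y1) (dir σ) / cr (f y2 - f y1) (dir σ) := by
      rw [eq_div_iff hcr]; linarith
    exact htb (h5 ▸ hbad.2 v hv σ hσ)

end

end SL
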